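import Pool.Agent.Lib.MP_562b47_mp.LH.Defs
import Pool.Agent.Lib.MP_562b47_mp.LW.Defs

/-!
MP_562b47, Lemma H', global part: the geometric hypotheses and further definitions.
-/

open MeasureTheory Matrix Finset

namespace Pool.Agent.Lib.MP_562b47_mp.LH

open Pool.Agent.Lib.MP_562b47_mp.AL Pool.Agent.Lib.MP_562b47_mp.WO Pool.Agent.Lib.MP_562b47_mp.LW
  Pool.Agent.Lib.MP_562b47_mp

variable {ι 𝔅 κ' : Type*} [Fintype ι] [DecidableEq ι] [Fintype 𝔅] [DecidableEq 𝔅] [Fintype κ']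
  (S : Sys ι 𝔅) (A : Matrix ι ι ℝ) (m : ℕ) (a : ℝ)

/-- geometry: `bs s` = the block of class `> m` with centre `s`, for the sites `s ∈ good`;
`[j0, j1]` is free of windows, and so are `[-c, -c + l0]`, `[c - l0, c]` -/
structure Geo (ξ : κ' → ι → ℝ) (good : Finset ι) (bs : ι → 𝔅) (j0 j1 l0 : ℝ) : Prop where
  bs_w : ∀ s ∈ good, S.w (bs s) = s
  bs_cls : ∀ s ∈ good, m < S.cls (bs s)
  j0_ge : -S.c ≤ j0
  j1_le : j1 ≤ S.c
  j_lt : j0 < j1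
  j_free : ∀ b, m < S.cls b → ∀ x ∈ S.Q b, x ≠ S.w b →
    Disjoint (Set.Icc j0 j1) (Set.Icc (S.lo b x) (S.hi b x))
  l0_pos : 0 < l0
  l0_le : l0 ≤ S.c
  l_free : ∀ b, m < S.cls b → ∀ x ∈ S.Q b, x ≠ S.w b →
    -S.c + l0 < S.lo b x ∧ S.hi b x < S.c - l0
  /-- a block that contains the centre of a block `b` contains another site of `b` -/
  g1 : ∀ b b', m < S.cls b → m < S.cls b' → S.w b ∈ S.Q b' →
    ∃ x ∈ S.Q b, x ∈ S.Q b' ∧ x ≠ S.w b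
  ff_one : ∀ x y : ι, x ≠ y → 1 ≤ ff ξ x y

/-- the windows of the blocks of `σ`, except at `s` -/
def evw (σ : Finset 𝔅) (s : ι) (V : ι → ℝ) : Prop :=
  ∀ b ∈ σ, ∀ x ∈ S.Q b, x ≠ S.w b → x ≠ s → V x ∈ Set.Icc (S.lo b x) (S.hi b x)

/-- the frozen sites -/
def Fz (σ σA : Finset 𝔅) (s : ι) : Finset ι := (σ.biUnion S.inn ∪ σA.image S.w).erase s

/-- the varied sites -/
noncomputable def Lm (b0 : 𝔅) (σ σA : Finset 𝔅) (s : ι) : Finset ι :=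
  (Reg S b0 σ \ Fz S σ σA s).erase s

/-- the price of the inner windows of `σ` -/
noncomputable def PF (σ : Finset 𝔅) (s : ι) : ℝ :=
  ∏ b ∈ σ, ∏ x ∈ (S.inn b).erase s, ((S.hi b x - S.lo b x) / (2 * S.c))

/-- the price of the windows of the comparison gadget -/
noncomputable def WG (b0 : 𝔅) : ℝ := ∏ x ∈ (S.Q b0).erase (S.w b0), ((S.hi b0 x - S.lo b0 x) ^ 3)⁻¹

open Classical in
/-- expected share of the gadget `b0` (when active) -/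
noncomputable def EG (ξ : κ' → ι → ℝ) (b0 : 𝔅) : ℝ :=
  ∫ V, ∑ Ac ∈ (CC S m V).powerset, wC S A (CC S m V) Ac V *
    (if b0 ∈ Ac then S.gg A b0 V * ∑ x, gam (S.uA A m a Ac V) x * ff ξ x (S.w b0) *
      ‖GM A (S.uA A m a Ac V) (S.w b0) x‖ ^ 2 else 0) ∂(S.mu)

/-- (G) and (F) for the region `Reg b0 σ` -/
def HypGF (ξ : κ' → ι → ℝ) (b0 : 𝔅) (σ σC σA : Finset 𝔅) (s : ι) (e l Γ : ℝ) : Prop :=
  ∀ V : ι → ℝ, evw S σ s V → ∀ Ac0 ⊆ CX S m (Reg S b0 σ) V, ∀ t ∈ Set.Icc 0 l,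
    HypG A (uC S A a (CX S m (Reg S b0 σ) V ∪ σC) (Ac0 ∪ σA) V) (Lm S b0 σ σA s) (Fz S σ σA s) s Γ
      ((e : ℂ) - ((t + a : ℝ) : ℂ) * Complex.I) ∧
    ∀ x ∉ Reg S b0 σ,
      HypF S.c a A (uC S A a (CX S m (Reg S b0 σ) V ∪ σC) (Ac0 ∪ σA) V) (Lm S b0 σ σA s)
        (Fz S σ σA s) s x Γ ((e : ℂ) - ((t + a : ℝ) : ℂ) * Complex.I)

open Classical in
/-- far sources, region `Reg b0 σ`, `σC` complete, `σA` active -/
noncomputable def FT (ξ : κ' → ι → ℝ) (b0 : 𝔅) (σ σC σA : Finset 𝔅) (s : ι) (e l : ℝ) : ℝ :=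
  ∫ V, ∑ Ac ∈ (CX S m (Reg S b0 σ) V).powerset, wC S A (CX S m (Reg S b0 σ) V) Ac V *
    (if evw S σ s V then
      TI S A a ξ (univ \ Reg S b0 σ) s (CX S m (Reg S b0 σ) V ∪ σC) (Ac ∪ σA) V e l else 0) ∂(S.mu)

open Classical in
/-- far sources, no block near `s`, `e = ± c` -/
noncomputable def F0 (ξ : κ' → ι → ℝ) (b0 : 𝔅) (s : ι) (e l : ℝ) : ℝ :=
  ∫ V, ∑ Ac ∈ (CX S m (S.Q b0) V).powerset, wC S A (CX S m (S.Q b0) V) Ac V *
    (if meet S b0 (CN S m s V ∪ CW S m s V) = ∅ then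
      TI S A a ξ (univ \ S.Q b0) s (CX S m (S.Q b0) V) Ac V e l else 0) ∂(S.mu)

/-- the right side of the pieces theorem for the site `s` -/
noncomputable def RHS (ξ : κ' → ι → ℝ) (l0 : ℝ) (s : ι) (V : ι → ℝ) : ℝ :=
  ∑ Ac ∈ (CN S m s V).powerset, wC S A (CN S m s V) Ac V *
    ((1 + ∑ b ∈ CW S m s V, Real.log (2 / a) * (S.gg A b V)⁻¹) *
        (TI S A a ξ univ s (CN S m s V ∪ CW S m s V) Ac V S.c l0 +
          TI S A a ξ univ s (CN S m s V ∪ CW S m s V) Ac V (-S.c) l0) +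
      ∑ b ∈ AS S m s V,
        (TI S A a ξ univ s (CN S m s V) Ac V (S.lo b s) (S.hi b s - S.lo b s) +
          TI S A a ξ univ s (CN S m s V) Ac V (S.hi b s) (S.hi b s - S.lo b s))) +
  ∑ b ∈ (AS S m s V).filter fun b => s ∈ S.L b,
    ∑ Ac ∈ (insert b (CN S m s V)).powerset, wC S A (insert b (CN S m s V)) Ac V *
      (TI S A a ξ univ s (insert b (CN S m s V)) Ac V (S.lo b s) (S.hi b s - S.lo b s) +
        TI S A a ξ univ s (insert b (CN S m s V)) Ac V (S.hi b s) (S.hi b s - S.lo b s))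

open Classical in
/-- admissible sets of blocks near `b0` -/
noncomputable def Adm (b0 : 𝔅) : Finset (Finset 𝔅) :=
  univ.powerset.filter fun σ => (∀ b ∈ σ, m < S.cls b) ∧ (∀ b ∈ σ, ¬ Disjoint (S.Q b) (S.Q b0)) ∧
    ∀ b ∈ σ, ∀ b' ∈ σ, b ≠ b' → Disjoint (S.Q b) (S.Q b')

end Pool.Agent.Lib.MP_562b47_mp.LH
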