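import Pool.Agent.Lib.MP_562b47_mp.AL.Deriv
import Pool.Agent.Lib.MP_562b47_mp.ST.Det

/-!
MP_562b47, d = 2, Lemma H' (weak form), global part: the crude bound of one share, used at the sites
near the boundary of the box.
-/

open Matrix Finset

set_option linter.unusedSectionVars false

namespace Pool.Agent.Lib.MP_562b47_mp.LH

open Pool.Agent.Lib.MP_562b47_mp.AL Pool.Agent.Lib.MP_562b47_mp.ST

variable {ι κ : Type*} [Fintype ι] [DecidableEq ι] [Fintype κ] {A : Matrix ι ι ℝ} {u : ι → ℂ}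

/-- `f = G h`: `Σ γ |f|² ≤ Σ |h|² / γ` -/
theorem energy_le (hA : A.IsSymm) (hu : Loss u) (h : ι → ℂ) :
    ∑ x, gam u x * ‖∑ y, GM A u x y * h y‖ ^ 2 ≤ ∑ x, ‖h x‖ ^ 2 / gam u x := by
  have hγ : ∀ x, 0 < gam u x := fun x => gam_pos hu x
  set f : ι → ℂ := fun x => ∑ y, GM A u x y * h y with hf
  have h1 : ∀ x, ∑ y, HM A u x y * f y = h x := by
    intro x
    have e1 := congrFun (congrArg (fun M : Matrix ι ι ℂ => M.mulVec h) (HM_mul_GM hA hu)) x
    simp only [one_mulVec] at e1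
    rw [← e1, ← mulVec_mulVec]
    rfl
  have h2 := HM_form hA u f
  simp_rw [h1] at h2
  have h3 : ∑ x, gam u x * ‖f x‖ ^ 2 ≤ ∑ x, ‖f x‖ * ‖h x‖ := by
    have h4 : |(∑ x, (starRingEnd ℂ) (f x) * h x).im| ≤ ∑ x, ‖f x‖ * ‖h x‖ := by
      refine (Complex.abs_im_le_norm _).trans ((norm_sum_le _ _).trans (le_of_eq ?_))
      refine sum_congr rfl fun x _ => ?_
      rw [norm_mul, RCLike.norm_conj]
    rw [h2, abs_neg] at h4
    exact (le_abs_self _).trans h4
  have h5 : ∑ x, ‖f x‖ * ‖h x‖ ≤ ∑ x, (gam u x * ‖f x‖ ^ 2 / 2 + ‖h x‖ ^ 2 / gam u x / 2) := by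
    refine sum_le_sum fun x _ => ?_
    have h6 := hγ x
    have h7 : 0 ≤ (gam u x * ‖f x‖ - ‖h x‖) ^ 2 / gam u x := by positivity
    have h8 : (gam u x * ‖f x‖ - ‖h x‖) ^ 2 / gam u x =
        gam u x * ‖f x‖ ^ 2 - 2 * (‖f x‖ * ‖h x‖) + ‖h x‖ ^ 2 / gam u x := by
      field_simp
      ring
    rw [h8] at h7
    linarith
  rw [sum_add_distrib, ← sum_div, ← sum_div] at h5
  linarith

theorem energy_le' (hA : A.IsSymm) (hu : Loss u) {η : ℝ} (hη : 0 < η) (hg : ∀ x, η ≤ gam u x)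
    (h : ι → ℂ) : ∑ x, gam u x * ‖∑ y, GM A u x y * h y‖ ^ 2 ≤ (∑ x, ‖h x‖ ^ 2) / η := by
  refine (energy_le hA hu h).trans ?_
  rw [sum_div]
  exact sum_le_sum fun x _ => div_le_div_of_nonneg_left (by positivity) hη (hg x)

/-- one column of the Green function -/
theorem col_sq_le (hA : A.IsSymm) (hu : Loss u) {η : ℝ} (hη : 0 < η) (hg : ∀ x, η ≤ gam u x)
    (s : ι) : ∑ x, ‖GM A u x s‖ ^ 2 ≤ 1 / η ^ 2 := by
  have h1 := energy_le' hA hu hη hg (fun y => if y = s then 1 else 0)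
  have h2 : ∀ x, ∑ y, GM A u x y * (if y = s then (1 : ℂ) else 0) = GM A u x s := fun x => by simp
  have h3 : ∑ x, ‖(if x = s then (1 : ℂ) else 0)‖ ^ 2 = 1 := by
    rw [sum_eq_single s]
    · simp
    · intro x _ hx; simp [hx]
    · intro h; exact absurd (mem_univ _) h
  simp_rw [h2] at h1
  rw [h3] at h1
  have h4 : η * ∑ x, ‖GM A u x s‖ ^ 2 ≤ ∑ x, gam u x * ‖GM A u x s‖ ^ 2 := by
    rw [mul_sum]
    exact sum_le_sum fun x _ => mul_le_mul_of_nonneg_right (hg x) (by positivity)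
  rw [le_div_iff₀ (by positivity)]
  have h5 := h4.trans h1
  rw [le_div_iff₀ hη] at h5
  linarith

/-- the crude bound of a share -/
theorem col_ff_le {ξ : κ → ι → ℝ} {N : ι → Finset ι} {d : ℝ} (hG : Geo A ξ N d) (hA : A.IsSymm)
    (hu : Loss u) {η : ℝ} (hη : 0 < η) (hg : ∀ x, η ≤ gam u x) (s : ι) :
    ∑ x, gam u x * ff ξ x s * ‖GM A u x s‖ ^ 2 ≤ Fintype.card κ * d ^ 2 / η ^ 3 := by
  have hd0 : 0 ≤ d := (Nat.cast_nonneg _).trans (hG.card s)
  have h1 : ∀ j : κ, ∑ x, gam u x * (ξ j x - ξ j s) ^ 2 * ‖GM A u x s‖ ^ 2 ≤ d ^ 2 / η ^ 3 := by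
    intro j
    set h : ι → ℂ := fun p => ∑ q, Jm A (ξ j) p q * GM A u q s with hh
    have e1 : ∀ x, (((ξ j x - ξ j s : ℝ) : ℂ)) * GM A u x s = ∑ y, GM A u x y * h y := by
      intro x
      have e2 := congrFun (congrFun (comm_mat hA hu (ξ j)) x) s
      rw [Matrix.sub_apply, diagonal_mul, mul_diagonal, mul_assoc, mul_apply] at e2
      have e3 : ∑ y, GM A u x y * h y = ∑ y, GM A u x y * (Jm A (ξ j) * GM A u) y s := by
        refine sum_congr rfl fun y _ => ?_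
        rw [hh, mul_apply]
      rw [e3, ← e2]
      push_cast
      ring
    have e4 : ∑ x, gam u x * (ξ j x - ξ j s) ^ 2 * ‖GM A u x s‖ ^ 2 =
        ∑ x, gam u x * ‖∑ y, GM A u x y * h y‖ ^ 2 := by
      refine sum_congr rfl fun x _ => ?_
      rw [← e1, norm_mul, Complex.norm_real, Real.norm_eq_abs, mul_pow, sq_abs]
      ring
    rw [e4]
    refine (energy_le' hA hu hη hg h).trans ?_
    have e5 : ∑ p, ‖h p‖ ^ 2 ≤ d ^ 2 * (1 / η ^ 2) := by
      have e6 : ∀ p, ‖h p‖ ^ 2 ≤ d * ∑ q ∈ N p, ‖GM A u q s‖ ^ 2 := by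
        intro p
        have e7 : h p = ∑ q ∈ N p, Jm A (ξ j) p q * GM A u q s := by
          rw [hh]
          symm
          refine sum_subset (subset_univ _) fun q _ hq => ?_
          have : Jm A (ξ j) p q = 0 := by
            rw [Jm, of_apply]
            by_cases hpq : p = q
            · subst hpq; simp
            · rw [hG.supp p q hpq hq]; simp
          rw [this, zero_mul]
        rw [e7]
        refine (sum_mul_sq_le _ _ _).trans ?_
        have e8 : ∑ q ∈ N p, ‖Jm A (ξ j) p q‖ ^ 2 * ‖GM A u q s‖ ^ 2 ≤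
            ∑ q ∈ N p, ‖GM A u q s‖ ^ 2 := by
          refine sum_le_sum fun q _ => ?_
          have e9 : ‖Jm A (ξ j) p q‖ ≤ 1 := by
            rw [Jm, of_apply, ← Complex.ofReal_mul, Complex.norm_real, Real.norm_eq_abs]
            exact hG.step j p q
          calc ‖Jm A (ξ j) p q‖ ^ 2 * ‖GM A u q s‖ ^ 2 ≤ 1 * ‖GM A u q s‖ ^ 2 := by
                gcongr
                exact pow_le_one₀ (norm_nonneg _) e9
            _ = _ := one_mul _
        exact mul_le_mul (hG.card p) e8 (sum_nonneg fun _ _ => by positivity) hd0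
      calc ∑ p, ‖h p‖ ^ 2 ≤ ∑ p, d * ∑ q ∈ N p, ‖GM A u q s‖ ^ 2 := sum_le_sum fun p _ => e6 p
        _ = d * ∑ q, ∑ p ∈ univ.filter (fun p => q ∈ N p), ‖GM A u q s‖ ^ 2 := by
            rw [← mul_sum]
            congr 1
            rw [sum_comm' (t' := univ) (s' := fun q => univ.filter (fun p => q ∈ N p))]
            intro p q
            simp
        _ ≤ d * ∑ q, d * ‖GM A u q s‖ ^ 2 := by
            refine mul_le_mul_of_nonneg_left (sum_le_sum fun q _ => ?_) hd0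
            rw [sum_const, nsmul_eq_mul]
            refine mul_le_mul_of_nonneg_right ?_ (by positivity)
            have e10 : univ.filter (fun p => q ∈ N p) ⊆ N q := fun p hp =>
              hG.symN p q (mem_filter.mp hp).2
            refine le_trans ?_ (hG.card q)
            exact_mod_cast card_le_card e10
        _ = d ^ 2 * ∑ q, ‖GM A u q s‖ ^ 2 := by rw [← mul_sum]; ring
        _ ≤ _ := by
            gcongr
            exact col_sq_le hA hu hη hg s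
    calc (∑ p, ‖h p‖ ^ 2) / η ≤ d ^ 2 * (1 / η ^ 2) / η := by gcongr
      _ = d ^ 2 / η ^ 3 := by field_simp
  have h2 : ∑ x, gam u x * ff ξ x s * ‖GM A u x s‖ ^ 2 =
      ∑ j, ∑ x, gam u x * (ξ j x - ξ j s) ^ 2 * ‖GM A u x s‖ ^ 2 := by
    rw [sum_comm]
    refine sum_congr rfl fun x _ => ?_
    unfold ff
    rw [mul_sum, sum_mul]
  rw [h2]
  refine (sum_le_sum fun j _ => h1 j).trans (le_of_eq ?_)
  rw [sum_const, card_univ, nsmul_eq_mul]
  ring

/-- the crude bound of a share, all `x` with the same weight -/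
theorem col_ff_le' {ξ : κ → ι → ℝ} {N : ι → Finset ι} {d : ℝ} (hG : Geo A ξ N d) (hA : A.IsSymm)
    (hu : Loss u) {η : ℝ} (hη : 0 < η) (hg : ∀ x, η ≤ gam u x) (s : ι) :
    ∑ x, ff ξ x s * ‖GM A u x s‖ ^ 2 ≤ Fintype.card κ * d ^ 2 / η ^ 4 := by
  have h1 := col_ff_le hG hA hu hη hg s
  have h2 : η * ∑ x, ff ξ x s * ‖GM A u x s‖ ^ 2 ≤
      ∑ x, gam u x * ff ξ x s * ‖GM A u x s‖ ^ 2 := by
    rw [mul_sum]
    refine sum_le_sum fun x _ => ?_
    have h3 : 0 ≤ ff ξ x s := ff_nonneg ξ x s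
    have h4 : 0 ≤ ff ξ x s * ‖GM A u x s‖ ^ 2 := by positivity
    nlinarith [mul_le_mul_of_nonneg_right (hg x) h4]
  have h5 := h2.trans h1
  rw [le_div_iff₀ (by positivity)] at h5 ⊢
  calc (∑ x, ff ξ x s * ‖GM A u x s‖ ^ 2) * η ^ 4 =
      η * (∑ x, ff ξ x s * ‖GM A u x s‖ ^ 2) * η ^ 3 := by ring
    _ ≤ _ := h5

/-- the crude bound of one derivative -/
theorem abs_dD_le {ξ : κ → ι → ℝ} {N : ι → Finset ι} {d : ℝ} (hG : Geo A ξ N d) (hA : A.IsSymm)
    (hu : Loss u) {η : ℝ} (hη : 0 < η) (hg : ∀ x, η ≤ gam u x) (s : ι) :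
    |dD A ξ u s (u s)| ≤ 10 * Fintype.card κ * d ^ 2 / η ^ 3 := by
  have h1 := dD_le_share hA ξ hu s
  have h2 := col_ff_le hG hA hu hη hg s
  have h3 := gam_pos hu s
  unfold share at h1
  have h4 : |dD A ξ u s (u s)| ≤ 10 * ∑ x, gam u x * ff ξ x s * ‖GM A u x s‖ ^ 2 := by
    have h5 : gam u s * |dD A ξ u s (u s)| ≤
        gam u s * (10 * ∑ x, gam u x * ff ξ x s * ‖GM A u x s‖ ^ 2) := by linarith
    exact le_of_mul_le_mul_left h5 h3
  calc |dD A ξ u s (u s)| ≤ 10 * ∑ x, gam u x * ff ξ x s * ‖GM A u x s‖ ^ 2 := h4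
    _ ≤ 10 * (Fintype.card κ * d ^ 2 / η ^ 3) := by gcongr
    _ = _ := by ring

end Pool.Agent.Lib.MP_562b47_mp.LH
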