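import Pool.Agent.Lib.MP_562b47_mp.LH.FarC

/-!
MP_562b47, Lemma H': the share of a region with all potentials in `[j0, j1]`.
-/

open MeasureTheory Matrix Finset

set_option linter.unusedSectionVars false

namespace Pool.Agent.Lib.MP_562b47_mp.LH

open Pool.Agent.Lib.MP_562b47_mp.AL Pool.Agent.Lib.MP_562b47_mp.WO Pool.Agent.Lib.MP_562b47_mp.LW
  Pool.Agent.Lib.MP_562b47_mp

variable {ι 𝔅 κ' : Type*} [Fintype ι] [DecidableEq ι] [Fintype 𝔅] [DecidableEq 𝔅] [Fintype κ']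
  {S : Sys ι 𝔅} {A : Matrix ι ι ℝ} {m : ℕ} {a : ℝ} {ξ : κ' → ι → ℝ} {good : Finset ι}
  {bs : ι → 𝔅} {j0 j1 l0 : ℝ}

theorem EA_le_EY (hS : WO.Good S A) (hgeo : Geo S m ξ good bs j0 j1 l0) (ha : 0 < a) {s : ι}
    (hs : s ∈ good) {σ : Finset 𝔅} (hσ : ∀ b ∈ σ, m < S.cls b) :
    EA S A m a ξ (Reg S (bs s) σ) j0 j1 ≤ ∑ y ∈ Reg S (bs s) σ, EY S A m a ξ y := by
  classical
  simp_rw [FX.EY_eq]
  rw [← FX.EX_sum hS _ _ fun y _ => FX.FY_BX hS ha ξ y, FX.EX_eq]
  unfold EA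
  refine integral_mono_of_nonneg (Filter.Eventually.of_forall fun V => ?_)
    (FX.int_EI hS (FX.BX.sum _ fun y _ => FX.FY_BX hS ha ξ y))
    (Filter.Eventually.of_forall fun V => ?_)
  · refine Finset.sum_nonneg fun Ac hA => ?_
    have hA' := Finset.mem_powerset.mp hA
    refine mul_nonneg (FX.wC_nonneg hS FX.CX_sub hA') ?_
    split_ifs
    · exact Finset.sum_nonneg fun y _ =>
        FX.row_nonneg ha (FX.uC_loss hS ha FX.CX_sub hA') ξ y
    · exact le_refl _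
  · by_cases hV : ∀ y ∈ Reg S (bs s) σ, V y ∈ Set.Icc j0 j1
    · have hCC := CC_J0 hgeo hs hσ hV
      simp only [if_pos hV]
      unfold FX.EI
      rw [FX.CX_empty, hCC]
      refine Finset.sum_le_sum fun Ac hA => ?_
      have hA' := Finset.mem_powerset.mp hA
      refine mul_le_mul_of_nonneg_left ?_ (FX.wC_nonneg hS FX.CX_sub hA')
      refine Finset.sum_le_sum fun y hy => ?_
      unfold FX.FY
      rw [hCC, if_pos (Low_J0 hy hA'), uA_eq (by rw [hCC]; exact hA'), hCC]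
    · simp only [if_neg hV, mul_zero, Finset.sum_const_zero]
      unfold FX.EI
      refine Finset.sum_nonneg fun Ac hA => ?_
      have hA' := Finset.mem_powerset.mp hA
      refine mul_nonneg (FX.wC_nonneg hS FX.CX_sub hA') (Finset.sum_nonneg fun y _ => ?_)
      rw [FX.CX_empty] at hA'
      exact FX.FY_nonneg hS ha ξ y hA'

end Pool.Agent.Lib.MP_562b47_mp.LH
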