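import Pool.Agent.Lib.MP_562b47_mp.LH.Pieces

/-!
MP_562b47, Lemma H', PIECES: integration over everything.
-/

open MeasureTheory Matrix Finset

set_option linter.unusedSectionVars false

namespace Pool.Agent.Lib.MP_562b47_mp.LH.Pc

open Pool.Agent.Lib.MP_562b47_mp.AL Pool.Agent.Lib.MP_562b47_mp.WO Pool.Agent.Lib.MP_562b47_mp

variable {ι 𝔅 κ' : Type*} [Fintype ι] [DecidableEq ι] [Fintype 𝔅] [DecidableEq 𝔅] [Fintype κ']
  {S : Sys ι 𝔅} {A : Matrix ι ι ℝ} {m : ℕ} {a : ℝ} {s : ι} {V : ι → ℝ} {Ac : Finset 𝔅}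

/-! ### measurability -/

/-- functions of `V` and of a measurable set of blocks -/
theorem measurable_set1 {T : (ι → ℝ) → Finset 𝔅} (hT : ∀ b, MeasurableSet {V | b ∈ T V})
    {F : Finset 𝔅 → (ι → ℝ) → ℝ} (hF : ∀ B, Measurable (F B)) :
    Measurable fun V : ι → ℝ => F (T V) V := by
  have hset : ∀ B : Finset 𝔅, MeasurableSet {V : ι → ℝ | T V = B} := by
    intro B
    have : {V : ι → ℝ | T V = B} = ⋂ b : 𝔅, {V : ι → ℝ | b ∈ T V ↔ b ∈ B} := by
      ext V
      simp only [Set.mem_ofPred_eq, Set.mem_iInter]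
      constructor
      · intro h b
        rw [← h]
      · intro h
        ext b
        exact h b
    rw [this]
    apply MeasurableSet.iInter
    intro b
    by_cases hb : b ∈ B
    · simp only [hb, iff_true]
      exact hT b
    · simp only [hb, iff_false]
      exact (hT b).compl
  have : (fun V : ι → ℝ => F (T V) V) =
      fun V => ∑ B : Finset 𝔅, Set.indicator {V : ι → ℝ | T V = B} (F B) V := by
    funext V
    rw [Finset.sum_eq_single (T V)]
    · rw [Set.indicator_of_mem]; rfl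
    · intro B _ hB
      rw [Set.indicator_of_notMem]
      exact fun h => hB h.symm
    · intro h; exact absurd (mem_univ _) h
  rw [this]
  exact Finset.measurable_sum _ fun B _ => (hF B).indicator (hset B)

theorem measurableSet_const_and {P : Prop} {Q : (ι → ℝ) → Prop} (h : MeasurableSet {V | Q V}) :
    MeasurableSet {V | P ∧ Q V} := by
  by_cases hP : P
  · simp only [hP, true_and]; exact h
  · simp only [hP, false_and]; exact MeasurableSet.empty

theorem measurableSet_CN (b : 𝔅) : MeasurableSet {V | b ∈ CN S m s V} := by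
  have : {V | b ∈ CN S m s V} = {V | (m < S.cls b ∧ s ∉ S.Q b) ∧ S.comp b V} := by
    ext V
    simp only [Set.mem_ofPred_eq]
    rw [mem_CN]
    tauto
  rw [this]
  exact measurableSet_const_and (S.measurableSet_comp b)

theorem measurableSet_CW (b : 𝔅) : MeasurableSet {V | b ∈ CW S m s V} := by
  have : {V | b ∈ CW S m s V} = {V | (m < S.cls b ∧ S.w b = s) ∧ S.comp b V} := by
    ext V
    simp only [Set.mem_ofPred_eq]
    rw [mem_CW]
    tauto
  rw [this]
  exact measurableSet_const_and (S.measurableSet_comp b)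

theorem mem_AS_iff {b : 𝔅} : b ∈ AS S m s V ↔ (m < S.cls b ∧ s ∈ S.Q b ∧ s ≠ S.w b) ∧
    S.comp b (Function.update V s (S.lo b s)) := by
  rw [mem_AS]
  constructor
  · intro h
    exact ⟨⟨h.1, h.2.1, h.2.2.1⟩, comp_of_AS (mem_AS.mpr h) ⟨le_refl _, (S.lo_lt b s).le⟩⟩
  · rintro ⟨⟨h1, h2, h3⟩, h4⟩
    refine ⟨h1, h2, h3, fun x hx hxw hxs => ?_⟩
    have := h4 x hx hxw
    rwa [Function.update_of_ne hxs] at this

theorem measurableSet_AS (b : 𝔅) : MeasurableSet {V | b ∈ AS S m s V} := by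
  have : {V | b ∈ AS S m s V} = {V | (m < S.cls b ∧ s ∈ S.Q b ∧ s ≠ S.w b) ∧
      S.comp b (Function.update V s (S.lo b s))} := by
    ext V
    simp only [Set.mem_ofPred_eq]
    exact mem_AS_iff
  rw [this]
  refine measurableSet_const_and ?_
  have hm : Measurable fun V : ι → ℝ => Function.update V s (S.lo b s) := by
    have h := measurable_upd (ι := ι) s
    exact h.comp (measurable_id.prodMk measurable_const)
  exact hm (S.measurableSet_comp b)

theorem measurable_uC (C Ac : Finset 𝔅) (x : ι) : Measurable fun V : ι → ℝ => uC S A a C Ac V x := by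
  unfold uC
  apply Measurable.add
  · exact (Complex.measurable_ofReal.comp (measurable_pi_apply x)).sub measurable_const
  · refine Finset.measurable_fun_sum _ fun b _ => ?_
    by_cases h : x = S.w b
    · simp only [if_pos h]
      exact (Complex.measurable_ofReal.comp
        ((S.measurable_ze A b).sub (measurable_pi_apply x))).sub
        ((Complex.measurable_ofReal.comp ((S.measurable_gg A b).add_const _)).mul_const _)
    · simp only [if_neg h]; exact measurable_const

theorem measurable_wC (C Ac : Finset 𝔅) : Measurable fun V : ι → ℝ => wC S A C Ac V := by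
  unfold wC
  exact (Finset.measurable_prod _ fun b _ => S.measurable_hh A b).mul
    (Finset.measurable_prod _ fun b _ => measurable_const.sub (S.measurable_hh A b))

theorem measurable_TI (ξ : κ' → ι → ℝ) (X : Finset ι) (C Ac : Finset 𝔅) (e : ℝ) {l : ℝ}
    (hl : 0 ≤ l) : Measurable fun V : ι → ℝ => TI S A a ξ X s C Ac V e l := by
  unfold TI
  simp only [intervalIntegral.integral_of_le hl]
  have hj : Measurable fun q : (ι → ℝ) × ℝ =>
      TT S A a ξ X s C Ac q.1 ((e : ℂ) - ((q.2 + a : ℝ) : ℂ) * Complex.I) := by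
    unfold TT
    refine Finset.measurable_fun_sum _ fun x _ => ?_
    have hu : ∀ y, Measurable fun q : (ι → ℝ) × ℝ => uC S A a C Ac q.1 y := fun y =>
      (measurable_uC C Ac y).comp measurable_fst
    have h1 : Measurable fun q : (ι → ℝ) × ℝ => gam (uC S A a C Ac q.1) x := by
      unfold gam
      exact (Complex.measurable_im.comp (hu x)).neg
    have h2 : ∀ y, Measurable fun q : (ι → ℝ) × ℝ => Function.update (uC S A a C Ac q.1) s
        ((e : ℂ) - ((q.2 + a : ℝ) : ℂ) * Complex.I) y := by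
      intro y
      by_cases hy : y = s
      · subst hy
        simp only [Function.update_self]
        exact measurable_const.sub ((Complex.measurable_ofReal.comp
          (measurable_snd.add_const a)).mul_const _)
      · simp only [Function.update_of_ne hy]
        exact hu y
    exact (h1.mul_const _).mul ((measurable_GM' A h2 s x).norm.pow_const 2)
  exact (hj.stronglyMeasurable.integral_prod_right' (ν := volume.restrict (Set.Ioc 0 l))).measurable

/-- the integrand of `RHS` as a function of the three sets -/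
noncomputable def R3 (S : Sys ι 𝔅) (A : Matrix ι ι ℝ) (a : ℝ) (ξ : κ' → ι → ℝ) (l0 : ℝ) (s : ι)
    (N W T : Finset 𝔅) (V : ι → ℝ) : ℝ :=
  ∑ Ac ∈ N.powerset, wC S A N Ac V *
    ((1 + ∑ b ∈ W, Real.log (2 / a) * (S.gg A b V)⁻¹) *
        (TI S A a ξ univ s (N ∪ W) Ac V S.c l0 +
          TI S A a ξ univ s (N ∪ W) Ac V (-S.c) l0) +
      ∑ b ∈ T,
        (TI S A a ξ univ s N Ac V (S.lo b s) (S.hi b s - S.lo b s) +
          TI S A a ξ univ s N Ac V (S.hi b s) (S.hi b s - S.lo b s))) +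
  ∑ b ∈ T.filter fun b => s ∈ S.L b,
    ∑ Ac ∈ (insert b N).powerset, wC S A (insert b N) Ac V *
      (TI S A a ξ univ s (insert b N) Ac V (S.lo b s) (S.hi b s - S.lo b s) +
        TI S A a ξ univ s (insert b N) Ac V (S.hi b s) (S.hi b s - S.lo b s))

theorem measurable_R3 (ξ : κ' → ι → ℝ) {l0 : ℝ} (h0 : 0 ≤ l0) (N W T : Finset 𝔅) :
    Measurable (R3 S A a ξ l0 s N W T) := by
  have hlen : ∀ b, 0 ≤ S.hi b s - S.lo b s := fun b => by linarith [S.lo_lt b s]
  unfold R3
  refine Measurable.add ?_ ?_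
  · refine Finset.measurable_fun_sum _ fun Ac _ => (measurable_wC N Ac).mul (Measurable.add ?_ ?_)
    · refine Measurable.mul (measurable_const.add (Finset.measurable_fun_sum _ fun b _ =>
        ((S.measurable_gg A b).inv).const_mul _)) ?_
      exact (measurable_TI ξ univ _ _ _ h0).add (measurable_TI ξ univ _ _ _ h0)
    · exact Finset.measurable_fun_sum _ fun b _ =>
        (measurable_TI ξ univ _ _ _ (hlen b)).add (measurable_TI ξ univ _ _ _ (hlen b))
  · exact Finset.measurable_fun_sum _ fun b _ => Finset.measurable_fun_sum _ fun Ac _ =>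
      (measurable_wC _ Ac).mul
        ((measurable_TI ξ univ _ _ _ (hlen b)).add (measurable_TI ξ univ _ _ _ (hlen b)))

theorem measurable_RHS (ξ : κ' → ι → ℝ) {l0 : ℝ} (h0 : 0 ≤ l0) :
    Measurable (RHS S A m a ξ l0 s) := by
  have h1 : Measurable fun V : ι → ℝ =>
      R3 S A a ξ l0 s (CN S m s V) (CW S m s V) (AS S m s V) V := by
    refine measurable_set1 (T := CN S m s) measurableSet_CN
      (F := fun N V => R3 S A a ξ l0 s N (CW S m s V) (AS S m s V) V) fun N => ?_
    refine measurable_set1 (T := CW S m s) measurableSet_CW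
      (F := fun W V => R3 S A a ξ l0 s N W (AS S m s V) V) fun W => ?_
    exact measurable_set1 (T := AS S m s) measurableSet_AS
      (F := fun T V => R3 S A a ξ l0 s N W T V) fun T => measurable_R3 ξ h0 N W T
  exact h1

/-! ### boundedness -/

theorem TI_le (hA : A.IsSymm) (ha : 0 < a) (ξ : κ' → ι → ℝ) {C Ac : Finset 𝔅}
    (hu : LossOff (uC S A a C Ac V) s) (e : ℝ) {l c : ℝ} (hl : 0 ≤ l) (hlc : l ≤ 2 * c) :
    TI S A a ξ univ s C Ac V e l ≤ 2 * c * ((∑ x, ff ξ x s) / a) := by
  set u := uC S A a C Ac V with hud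
  have hf0 : 0 ≤ ∑ x, ff ξ x s := sum_nonneg fun x _ => ff_nonneg ξ x s
  have hpt : ∀ t : ℝ, 0 ≤ t → ∑ x, gam u x * ff ξ x s *
      ‖GM A (Function.update u s ((e : ℂ) - ((t + a : ℝ) : ℂ) * Complex.I)) s x‖ ^ 2 ≤
      (∑ x, ff ξ x s) / a := by
    intro t ht
    set us : ℂ := (e : ℂ) - ((t + a : ℝ) : ℂ) * Complex.I with hus
    have him : us.im = -(t + a) := by simp [hus]
    have hL : Loss (Function.update u s us) := loss_update hu (by rw [him]; linarith)
    rw [sum_div]
    refine sum_le_sum fun x _ => ?_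
    by_cases hx : x = s
    · subst hx
      simp [ff_self]
    · have h1 := entry_le hA hL s x
      have g1 : gam (Function.update u s us) s = t + a := by
        simp [gam, him]
      have g2 : gam (Function.update u s us) x = gam u x := by
        simp [gam, Function.update_of_ne hx]
      rw [g1, g2] at h1
      have hg : 0 ≤ gam u x := by
        have := hu x hx
        unfold gam
        linarith
      have h2 : a * (gam u x * ‖GM A (Function.update u s us) s x‖ ^ 2) ≤ 1 := by
        have h3 : 0 ≤ gam u x * ‖GM A (Function.update u s us) s x‖ ^ 2 := by positivity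
        nlinarith
      have h4 : gam u x * ‖GM A (Function.update u s us) s x‖ ^ 2 ≤ 1 / a := by
        rw [le_div_iff₀ ha]
        linarith
      calc gam u x * ff ξ x s * ‖GM A (Function.update u s us) s x‖ ^ 2
          = ff ξ x s * (gam u x * ‖GM A (Function.update u s us) s x‖ ^ 2) := by ring
        _ ≤ ff ξ x s * (1 / a) := mul_le_mul_of_nonneg_left h4 (ff_nonneg ξ x s)
        _ = ff ξ x s / a := by ring
  have hb0 : 0 ≤ (∑ x, ff ξ x s) / a := by positivity
  unfold TI TT
  rw [← hud]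
  have h5 := intervalIntegral.norm_integral_le_of_norm_le_const (a := (0 : ℝ)) (b := l)
    (C := (∑ x, ff ξ x s) / a) (f := fun t : ℝ => ∑ x, gam u x * ff ξ x s *
      ‖GM A (Function.update u s ((e : ℂ) - ((t + a : ℝ) : ℂ) * Complex.I)) s x‖ ^ 2) (by
    intro t ht
    rw [Set.uIoc_of_le hl] at ht
    rw [Real.norm_of_nonneg]
    · exact hpt t ht.1.le
    · refine sum_nonneg fun x _ => ?_
      by_cases hx : x = s
      · subst hx
        simp [ff_self]
      · have hg : 0 ≤ gam u x := by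
          have := hu x hx
          unfold gam
          linarith
        have := ff_nonneg ξ x s
        positivity)
  rw [sub_zero, abs_of_nonneg hl] at h5
  refine (le_abs_self _).trans ((Real.norm_eq_abs _ ▸ h5).trans ?_)
  rw [mul_comm]
  exact mul_le_mul_of_nonneg_right hlc hb0

theorem wC_sum_one (C : Finset 𝔅) (V : ι → ℝ) : ∑ Ac ∈ C.powerset, wC S A C Ac V = 1 := by
  unfold wC
  rw [← Finset.prod_add]
  exact Finset.prod_eq_one fun b _ => by ring

theorem wC_avg {C : Finset 𝔅} (hw : ∀ Ac ⊆ C, 0 ≤ wC S A C Ac V) {f : Finset 𝔅 → ℝ} {B : ℝ}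
    (h : ∀ Ac ⊆ C, f Ac ≤ B) : ∑ Ac ∈ C.powerset, wC S A C Ac V * f Ac ≤ B := by
  calc ∑ Ac ∈ C.powerset, wC S A C Ac V * f Ac ≤ ∑ Ac ∈ C.powerset, wC S A C Ac V * B :=
        sum_le_sum fun Ac hAc => mul_le_mul_of_nonneg_left (h Ac (mem_powerset.mp hAc))
          (hw Ac (mem_powerset.mp hAc))
    _ = B := by rw [← sum_mul, wC_sum_one, one_mul]

theorem CW_of_AS {b : 𝔅} (hb : b ∈ AS S m s V) : CW S m s V = ∅ := by
  rcases Finset.eq_empty_or_nonempty (CW S m s V) with h | ⟨b0, hb0⟩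
  · exact h
  · rw [AS_of_CW hb0] at hb
    exact absurd hb (notMem_empty b)

theorem RHS_nonneg (hS : Good S A) (ξ : κ' → ι → ℝ) {l0 : ℝ} (ha : 0 < a) (ha1 : a ≤ 1)
    (h0 : 0 < l0) (V : ι → ℝ) : 0 ≤ RHS S A m a ξ l0 s V := by
  have hlog : 0 ≤ Real.log (2 / a) := Real.log_nonneg (by rw [le_div_iff₀ ha]; linarith)
  have hlen : ∀ b, 0 ≤ S.hi b s - S.lo b s := fun b => by linarith [S.lo_lt b s]
  unfold RHS
  refine add_nonneg (sum_nonneg fun Ac hAc => ?_) (sum_nonneg fun b hb => sum_nonneg fun Ac hAc => ?_)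
  · have hA := mem_powerset.mp hAc
    refine mul_nonneg (wC_nn hS CN_Comp hA) (add_nonneg (mul_nonneg ?_ (add_nonneg ?_ ?_))
      (sum_nonneg fun b hb => ?_))
    · refine add_nonneg zero_le_one (sum_nonneg fun b hb => mul_nonneg hlog ?_)
      exact inv_nonneg.mpr (hS.g_pos b V (mem_CW.mp hb).1).le
    · exact TI_nonneg hS.symm ha ξ (loss_out hS ha hA) _ h0.le
    · exact TI_nonneg hS.symm ha ξ (loss_out hS ha hA) _ h0.le
    · have hL := loss_N (a := a) hS ha (CW_of_AS hb) hA
      exact add_nonneg (TI_nonneg hS.symm ha ξ hL _ (hlen b)) (TI_nonneg hS.symm ha ξ hL _ (hlen b))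
  · have hA := mem_powerset.mp hAc
    have hb' := mem_filter.mp hb
    have hL := loss_ins (a := a) hS ha hb'.1 hb'.2 hA
    exact mul_nonneg (wC_ins_nn hS hb'.1 hb'.2 hA)
      (add_nonneg (TI_nonneg hS.symm ha ξ hL _ (hlen b)) (TI_nonneg hS.symm ha ξ hL _ (hlen b)))

theorem RHS_le (hS : Good S A) (ξ : κ' → ι → ℝ) {l0 : ℝ} (ha : 0 < a) (ha1 : a ≤ 1)
    (h0 : 0 < l0) (hl : l0 ≤ S.c) {G0 : ℝ} (hG : ∀ b V, S.comp b V → (S.gg A b V)⁻¹ ≤ G0)
    (V : ι → ℝ) : RHS S A m a ξ l0 s V ≤
      ((1 + (Fintype.card 𝔅 : ℝ) * (Real.log (2 / a) * |G0|)) * (2 * (2 * S.c * ((∑ x, ff ξ x s) / a))) +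
        (Fintype.card 𝔅 : ℝ) * (2 * (2 * S.c * ((∑ x, ff ξ x s) / a)))) +
      (Fintype.card 𝔅 : ℝ) * (2 * (2 * S.c * ((∑ x, ff ξ x s) / a))) := by
  have hc := S.c_pos
  have hlog : 0 ≤ Real.log (2 / a) := Real.log_nonneg (by rw [le_div_iff₀ ha]; linarith)
  have hlen : ∀ b, 0 ≤ S.hi b s - S.lo b s := fun b => by linarith [S.lo_lt b s]
  have hlen2 : ∀ b, S.hi b s - S.lo b s ≤ 2 * S.c := fun b => by
    linarith [S.lo_ge b s, S.hi_le b s]
  have hf0 : 0 ≤ ∑ x, ff ξ x s := sum_nonneg fun x _ => ff_nonneg ξ x s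
  set B := 2 * S.c * ((∑ x, ff ξ x s) / a) with hB
  have hB0 : 0 ≤ B := by positivity
  have hcard : ∀ T : Finset 𝔅, (T.card : ℝ) ≤ (Fintype.card 𝔅 : ℝ) := fun T => by
    exact_mod_cast Finset.card_le_univ T
  unfold RHS
  refine add_le_add ?_ ?_
  · refine wC_avg (fun Ac hA => wC_nn hS CN_Comp hA) fun Ac hA => add_le_add ?_ ?_
    · refine mul_le_mul ?_ ?_ ?_ ?_
      · refine add_le_add (le_refl _) ?_
        calc ∑ b ∈ CW S m s V, Real.log (2 / a) * (S.gg A b V)⁻¹
            ≤ ∑ b ∈ CW S m s V, Real.log (2 / a) * |G0| :=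
              sum_le_sum fun b hb => mul_le_mul_of_nonneg_left
                ((hG b V (mem_CW.mp hb).1).trans (le_abs_self _)) hlog
          _ = ((CW S m s V).card : ℝ) * (Real.log (2 / a) * |G0|) := by
              rw [sum_const, nsmul_eq_mul]
          _ ≤ (Fintype.card 𝔅 : ℝ) * (Real.log (2 / a) * |G0|) :=
              mul_le_mul_of_nonneg_right (hcard _) (by positivity)
      · have h1 := TI_le hS.symm ha ξ (loss_out (m := m) hS ha hA) S.c h0.le (c := S.c) (by linarith)
        have h2 := TI_le hS.symm ha ξ (loss_out (m := m) hS ha hA) (-S.c) h0.le (c := S.c) (by linarith)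
        linarith
      · exact add_nonneg (TI_nonneg hS.symm ha ξ (loss_out hS ha hA) _ h0.le)
          (TI_nonneg hS.symm ha ξ (loss_out hS ha hA) _ h0.le)
      · positivity
    · calc _ ≤ ∑ b ∈ AS S m s V, 2 * B := by
            refine sum_le_sum fun b hb => ?_
            have hL := loss_N (a := a) hS ha (CW_of_AS hb) hA
            have h1 := TI_le hS.symm ha ξ hL (S.lo b s) (hlen b) (hlen2 b)
            have h2 := TI_le hS.symm ha ξ hL (S.hi b s) (hlen b) (hlen2 b)
            linarith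
        _ = ((AS S m s V).card : ℝ) * (2 * B) := by rw [sum_const, nsmul_eq_mul]
        _ ≤ _ := mul_le_mul_of_nonneg_right (hcard _) (by positivity)
  · calc _ ≤ ∑ b ∈ (AS S m s V).filter (fun b => s ∈ S.L b), 2 * B := by
          refine sum_le_sum fun b hb => ?_
          have hb' := mem_filter.mp hb
          refine wC_avg (fun Ac hA => wC_ins_nn hS hb'.1 hb'.2 hA) fun Ac hA => ?_
          have hL := loss_ins (a := a) hS ha hb'.1 hb'.2 hA
          have h1 := TI_le hS.symm ha ξ hL (S.lo b s) (hlen b) (hlen2 b)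
          have h2 := TI_le hS.symm ha ξ hL (S.hi b s) (hlen b) (hlen2 b)
          linarith
      _ = (((AS S m s V).filter (fun b => s ∈ S.L b)).card : ℝ) * (2 * B) := by
          rw [sum_const, nsmul_eq_mul]
      _ ≤ _ := mul_le_mul_of_nonneg_right (hcard _) (by positivity)

theorem integrable_RHS (hS : Good S A) (ξ : κ' → ι → ℝ) {l0 : ℝ} (ha : 0 < a) (ha1 : a ≤ 1)
    (h0 : 0 < l0) (hl : l0 ≤ S.c) {G0 : ℝ} (hG : ∀ b V, S.comp b V → (S.gg A b V)⁻¹ ≤ G0) :
    Integrable (RHS S A m a ξ l0 s) S.mu := by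
  refine Integrable.of_bound (measurable_RHS ξ h0.le).aestronglyMeasurable
    (((1 + (Fintype.card 𝔅 : ℝ) * (Real.log (2 / a) * |G0|)) *
      (2 * (2 * S.c * ((∑ x, ff ξ x s) / a))) +
        (Fintype.card 𝔅 : ℝ) * (2 * (2 * S.c * ((∑ x, ff ξ x s) / a)))) +
      (Fintype.card 𝔅 : ℝ) * (2 * (2 * S.c * ((∑ x, ff ξ x s) / a))))
    (Filter.Eventually.of_forall fun V => ?_)
  rw [Real.norm_of_nonneg (RHS_nonneg hS ξ ha ha1 h0 V)]
  exact RHS_le hS ξ ha ha1 h0 hl hG V

/-- PIECES -/
theorem pieces (hS : Good S A) (ξ : κ' → ι → ℝ) (m : ℕ) (s : ι) {l0 : ℝ} (ha : 0 < a) (ha1 : a ≤ 1)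
    (h0 : 0 < l0) (hl : l0 ≤ S.c) {G0 : ℝ} (hG : ∀ b V, S.comp b V → (S.gg A b V)⁻¹ ≤ G0) :
    S.Ex A (S.pim m 0) (fun Ac V => -S.dDs A ξ m a s Ac V) ≤
      Cst S.c S.r S.κ l0 * ∫ V, RHS S A m a ξ l0 s V ∂(S.mu) := by
  have hb : Sys.Bdd S fun Ac V => -S.dDs A ξ m a s Ac V := by
    have := (S.bdd_dDs hS ξ m ha s).mul_const S (-1)
    simpa using this
  have hI := S.integrable_Ei hS (S.adm_pim m (le_refl 0) zero_le_one) hb
  rw [S.Ex_eq]
  rw [S.mu_eq] at hI ⊢
  rw [integral_upd S.c_pos s hI, ← integral_const_mul]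
  have hR := integrable_RHS (m := m) (s := s) hS ξ ha ha1 h0 hl hG
  rw [S.mu_eq] at hR
  have := muc_prob (ι := ι) S.c_pos
  have := unif_prob S.c_pos
  refine integral_mono (integrable_upd S.c_pos s hI).integral_prod_left (hR.const_mul _) fun V => ?_
  have hp := point (m := m) (s := s) hS ξ ha ha1 h0 hl V
  refine le_trans (le_of_eq ?_) hp
  refine integral_congr_ae (Filter.Eventually.of_forall fun v => ?_)
  exact Ei_pim_zero _ _

end Pool.Agent.Lib.MP_562b47_mp.LH.Pc
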