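import Pool.Agent.Lib.MP_562b47_mp.LH.Geo
import Pool.Agent.Lib.MP_562b47_mp.WO.Weights

/-!
MP_562b47, Lemma H', global part: near sources (Ward bound), and the sums of the background shares
and of the gadget shares.
-/

open MeasureTheory Matrix Finset

set_option linter.unusedSectionVars false

namespace Pool.Agent.Lib.MP_562b47_mp.LH.NR

open Pool.Agent.Lib.MP_562b47_mp.AL Pool.Agent.Lib.MP_562b47_mp.WO Pool.Agent.Lib.MP_562b47_mp.LW
  Pool.Agent.Lib.MP_562b47_mp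

/-! ### one site, Ward -/

section core

variable {ι κ' : Type*} [Fintype ι] [DecidableEq ι] [Fintype κ']
  {A : Matrix ι ι ℝ} {u : ι → ℂ} {s : ι}

/-- the sum over the sources as a function of the potential at `s` -/
theorem near_eq (hA : A.IsSymm) (hu : LossOff u s) (X : Finset ι) (ξ : κ' → ι → ℝ) {v : ℂ}
    (hv : v.im < 0) :
    ∑ x ∈ X, gam u x * ff ξ x s * ‖GM A (Function.update u s v) s x‖ ^ 2 =
      (∑ x ∈ X, gam u x * ff ξ x s * ‖aa A u s x‖ ^ 2) / ‖v - zz A u s‖ ^ 2 := by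
  rw [Finset.sum_div]
  refine Finset.sum_congr rfl fun x _ => ?_
  rw [GM_symm hA, G_xs hA hu (ne_zz hA hu hv), norm_div, norm_neg, div_pow]
  ring

theorem near_term_nonneg (hu : LossOff u s) (ξ : κ' → ι → ℝ) (x : ι) (r : ℝ) :
    0 ≤ gam u x * ff ξ x s * r ^ 2 := by
  by_cases hx : x = s
  · have : ff ξ x s = 0 := by rw [hx]; unfold ff; simp
    rw [this]
    simp
  · have h1 := hu x hx
    have h2 : 0 ≤ gam u x := by unfold gam; linarith
    have h3 := ff_nonneg ξ x s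
    positivity

theorem near_sum (hA : A.IsSymm) (hu : LossOff u s) {X : Finset ι} {ξ : κ' → ι → ℝ} {D : ℝ}
    (hD : ∀ x ∈ X, ff ξ x s ≤ D) (hD0 : 0 ≤ D) :
    ∑ x ∈ X, gam u x * ff ξ x s * ‖aa A u s x‖ ^ 2 ≤ D * (zz A u s).im := by
  have hss : ff ξ s s = 0 := by unfold ff; simp
  rw [zz_im hA hu, Finset.mul_sum]
  calc ∑ x ∈ X, gam u x * ff ξ x s * ‖aa A u s x‖ ^ 2
      = ∑ x ∈ X.erase s, gam u x * ff ξ x s * ‖aa A u s x‖ ^ 2 := by
        refine (Finset.sum_erase _ ?_).symm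
        rw [hss]; ring
    _ ≤ ∑ x ∈ X.erase s, D * (gam u x * ‖aa A u s x‖ ^ 2) := by
        refine Finset.sum_le_sum fun x hx => ?_
        obtain ⟨hxs, hxX⟩ := Finset.mem_erase.mp hx
        have h1 := hu x hxs
        have h2 : 0 ≤ gam u x := by unfold gam; linarith
        have h3 := hD x hxX
        calc gam u x * ff ξ x s * ‖aa A u s x‖ ^ 2 = ff ξ x s * (gam u x * ‖aa A u s x‖ ^ 2) := by
              ring
          _ ≤ D * (gam u x * ‖aa A u s x‖ ^ 2) :=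
              mul_le_mul_of_nonneg_right h3 (by positivity)
    _ ≤ ∑ x ∈ univ.erase s, D * (gam u x * ‖aa A u s x‖ ^ 2) := by
        refine Finset.sum_le_sum_of_subset_of_nonneg
          (Finset.erase_subset_erase s (Finset.subset_univ X)) fun x hx _ => ?_
        have h1 := hu x (Finset.mem_erase.mp hx).1
        have h2 : 0 ≤ gam u x := by unfold gam; linarith
        positivity

/-- `∫_0^l w / (t + a + w)² dt ≤ 1` -/
theorem near_int {w a l : ℝ} (hw : 0 ≤ w) (ha : 0 < a) (hl : 0 ≤ l) :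
    ∫ t in (0 : ℝ)..l, w / (t + a + w) ^ 2 ≤ 1 := by
  have hpos : ∀ t ∈ Set.uIcc 0 l, 0 < t + a + w := by
    intro t ht
    rw [Set.uIcc_of_le hl] at ht
    have := ht.1
    linarith
  have hd : ∀ t ∈ Set.uIcc 0 l, HasDerivAt (fun t : ℝ => -w / (t + a + w)) (w / (t + a + w) ^ 2) t := by
    intro t ht
    have h0 := (hpos t ht).ne'
    have h1 : HasDerivAt (fun t : ℝ => t + a + w) 1 t := by
      simpa using ((hasDerivAt_id t).add_const a).add_const w
    have h2 := (hasDerivAt_const t (-w)).div h1 h0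
    exact h2.congr_deriv (by ring)
  have hc : ContinuousOn (fun t : ℝ => w / (t + a + w) ^ 2) (Set.uIcc 0 l) := by
    refine ContinuousOn.div continuousOn_const ?_ fun t ht => by
      have := hpos t ht
      positivity
    fun_prop
  rw [intervalIntegral.integral_eq_sub_of_hasDerivAt hd hc.intervalIntegrable]
  have h1 : 0 < l + a + w := by linarith
  have h2 : 0 < 0 + a + w := by linarith
  have h3 : 0 ≤ w / (l + a + w) := by positivity
  have h4 : w / (0 + a + w) ≤ 1 := by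
    rw [div_le_one h2]; linarith
  have h5 : -w / (l + a + w) - -w / (0 + a + w) = w / (0 + a + w) - w / (l + a + w) := by ring
  rw [h5]
  linarith

theorem near_norm {z : ℂ} (hz : 0 ≤ z.im) {e t a : ℝ} (ht : 0 ≤ t) (ha : 0 < a) :
    (t + a + z.im) ^ 2 ≤ ‖(e : ℂ) - ((t + a : ℝ) : ℂ) * Complex.I - z‖ ^ 2 := by
  have him : ((e : ℂ) - ((t + a : ℝ) : ℂ) * Complex.I - z).im = -(t + a + z.im) := by
    simp
    ring
  have h := Complex.abs_im_le_norm ((e : ℂ) - ((t + a : ℝ) : ℂ) * Complex.I - z)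
  rw [him, abs_neg, abs_of_nonneg (by positivity)] at h
  exact pow_le_pow_left₀ (by positivity) h 2

theorem near_core (hA : A.IsSymm) (hu : LossOff u s) {X : Finset ι} {ξ : κ' → ι → ℝ} {D : ℝ}
    (hD : ∀ x ∈ X, ff ξ x s ≤ D) (hD0 : 0 ≤ D) (e : ℝ) {a l : ℝ} (ha : 0 < a) (hl : 0 ≤ l) :
    ∫ t in (0 : ℝ)..l, ∑ x ∈ X, gam u x * ff ξ x s *
      ‖GM A (Function.update u s ((e : ℂ) - ((t + a : ℝ) : ℂ) * Complex.I)) s x‖ ^ 2 ≤ D := by
  set K : ℝ := ∑ x ∈ X, gam u x * ff ξ x s * ‖aa A u s x‖ ^ 2 with hK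
  set z := zz A u s with hz
  have hz0 : 0 ≤ z.im := zz_im_nonneg hA hu
  have hK1 : K ≤ D * z.im := near_sum hA hu hD hD0
  have hv : ∀ t : ℝ, 0 ≤ t → ((e : ℂ) - ((t + a : ℝ) : ℂ) * Complex.I).im < 0 := by
    intro t ht
    simp
    linarith
  have h1 : ∫ t in (0 : ℝ)..l, ∑ x ∈ X, gam u x * ff ξ x s *
      ‖GM A (Function.update u s ((e : ℂ) - ((t + a : ℝ) : ℂ) * Complex.I)) s x‖ ^ 2 =
      ∫ t in (0 : ℝ)..l, K / ‖(e : ℂ) - ((t + a : ℝ) : ℂ) * Complex.I - z‖ ^ 2 := by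
    refine intervalIntegral.integral_congr fun t ht => ?_
    rw [Set.uIcc_of_le hl] at ht
    exact near_eq hA hu X ξ (hv t ht.1)
  rw [h1]
  have hne : ∀ t ∈ Set.Icc 0 l, 0 < ‖(e : ℂ) - ((t + a : ℝ) : ℂ) * Complex.I - z‖ ^ 2 := by
    intro t ht
    refine lt_of_lt_of_le ?_ (near_norm hz0 ht.1 ha)
    have := ht.1
    positivity
  have hc1 : ContinuousOn (fun t : ℝ => K / ‖(e : ℂ) - ((t + a : ℝ) : ℂ) * Complex.I - z‖ ^ 2)
      (Set.uIcc 0 l) := by
    rw [Set.uIcc_of_le hl]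
    refine ContinuousOn.div continuousOn_const ?_ fun t ht => (hne t ht).ne'
    fun_prop
  have hc2 : ContinuousOn (fun t : ℝ => D * (z.im / (t + a + z.im) ^ 2)) (Set.uIcc 0 l) := by
    rw [Set.uIcc_of_le hl]
    refine continuousOn_const.mul (ContinuousOn.div continuousOn_const ?_ fun t ht => ?_)
    · fun_prop
    · have := ht.1
      positivity
  calc ∫ t in (0 : ℝ)..l, K / ‖(e : ℂ) - ((t + a : ℝ) : ℂ) * Complex.I - z‖ ^ 2
      ≤ ∫ t in (0 : ℝ)..l, D * (z.im / (t + a + z.im) ^ 2) := by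
        refine intervalIntegral.integral_mono_on hl hc1.intervalIntegrable
          hc2.intervalIntegrable fun t ht => ?_
        have h2 := near_norm (e := e) hz0 ht.1 ha
        have h3 : 0 < (t + a + z.im) ^ 2 := by
          have := ht.1
          positivity
        calc K / ‖(e : ℂ) - ((t + a : ℝ) : ℂ) * Complex.I - z‖ ^ 2
            ≤ D * z.im / ‖(e : ℂ) - ((t + a : ℝ) : ℂ) * Complex.I - z‖ ^ 2 :=
              div_le_div_of_nonneg_right hK1 (by positivity)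
          _ ≤ D * z.im / (t + a + z.im) ^ 2 :=
              div_le_div_of_nonneg_left (by positivity) h3 h2
          _ = D * (z.im / (t + a + z.im) ^ 2) := by ring
    _ = D * ∫ t in (0 : ℝ)..l, z.im / (t + a + z.im) ^ 2 := by
        rw [intervalIntegral.integral_const_mul]
    _ ≤ D * 1 := mul_le_mul_of_nonneg_left (near_int hz0 ha hl) hD0
    _ = D := mul_one D

end core

variable {ι 𝔅 κ' : Type*} [Fintype ι] [DecidableEq ι] [Fintype 𝔅] [DecidableEq 𝔅] [Fintype κ']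
  {S : Sys ι 𝔅} {A : Matrix ι ι ℝ} {m : ℕ} {a : ℝ} {V : ι → ℝ} {s : ι} {C Ac : Finset 𝔅}

/-! ### every site absorbs -/

theorem gg_nonneg' (b : 𝔅) (V : ι → ℝ) : 0 ≤ S.gg A b V := by
  unfold Sys.gg
  have := S.lw_pos (S.cls b)
  exact mul_nonneg (by positivity) (Finset.sum_nonneg fun x _ => sq_nonneg _)

/-- the loss at an active centre -/
theorem uC_im_act (hC : ∀ b ∈ C, ∀ b' ∈ C, b ≠ b' → Disjoint (S.Q b) (S.Q b')) (hA : Ac ⊆ C)
    {b : 𝔅} (hb : b ∈ Ac) :
    (uC S A a C Ac V (S.w b)).im = -(S.gg A b V + S.et (S.cls b)) := by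
  unfold uC
  rw [Finset.sum_eq_zero (s := C), Finset.sum_eq_single b, if_pos rfl]
  · simp
    ring
  · intro b' hb' hne
    rw [if_neg]
    intro hx'
    refine (Finset.disjoint_left.mp (hC b' (hA hb') b (hA hb) hne)) (S.w_mem b') ?_
    rw [← hx']
    exact S.w_mem b
  · intro h; exact absurd hb h
  · intro b' hb'
    rw [if_neg]
    intro hxb
    by_cases hbb : b' = b
    · rw [hbb] at hxb
      exact (S.mem_inn.mp hxb).1 rfl
    · exact (Finset.disjoint_left.mp (hC b' hb' b (hA hb) hbb)) (S.inn_sub hxb) (S.w_mem b)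

/-- the loss of `uC` -/
theorem uC_im_cases (hC : ∀ b ∈ C, ∀ b' ∈ C, b ≠ b' → Disjoint (S.Q b) (S.Q b')) (hA : Ac ⊆ C)
    (x : ι) : (uC S A a C Ac V x).im = -a ∨ (∃ b ∈ C, x ∈ S.inn b ∧
      (uC S A a C Ac V x).im = -S.et (S.cls b)) ∨
      ∃ b ∈ Ac, x = S.w b ∧ (uC S A a C Ac V x).im = -(S.gg A b V + S.et (S.cls b)) := by
  by_cases h1 : ∃ b ∈ Ac, x = S.w b
  · obtain ⟨b, hb, hx⟩ := h1
    right; right
    refine ⟨b, hb, hx, ?_⟩
    rw [hx]
    exact uC_im_act hC hA hb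
  · push Not at h1
    by_cases h2 : ∃ b ∈ C, x ∈ S.inn b
    · obtain ⟨b, hb, hx⟩ := h2
      right; left
      refine ⟨b, hb, hx, ?_⟩
      unfold uC
      rw [Finset.sum_eq_single b (s := C), Finset.sum_eq_zero (s := Ac), if_pos hx]
      · simp
      · intro b' hb'
        rw [if_neg (h1 b' hb')]
      · intro b' hb' hne
        rw [if_neg]
        intro hx'
        exact (Finset.disjoint_left.mp (hC b' hb' b hb hne)) (S.inn_sub hx') (S.inn_sub hx)
      · intro h; exact absurd hb h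
    · push Not at h2
      left
      unfold uC
      rw [Finset.sum_eq_zero (s := C), Finset.sum_eq_zero (s := Ac)]
      · simp
      · intro b' hb'
        rw [if_neg (h1 b' hb')]
      · intro b' hb'
        rw [if_neg (h2 b' hb')]

theorem uC_loss (hC : ∀ b ∈ C, ∀ b' ∈ C, b ≠ b' → Disjoint (S.Q b) (S.Q b')) (hA : Ac ⊆ C)
    (ha : 0 < a) : Loss (uC S A a C Ac V) := by
  intro x
  rcases uC_im_cases (a := a) (A := A) (V := V) hC hA x with h | ⟨b, _, _, h⟩ | ⟨b, _, _, h⟩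
  · rw [h]; linarith
  · rw [h]
    have := S.et_pos (S.cls b)
    linarith
  · rw [h]
    have h1 := S.et_pos (S.cls b)
    have h2 := gg_nonneg' (S := S) (A := A) b V
    linarith

/-- near sources -/
theorem TI_near (hA : A.IsSymm) (hC : ∀ b ∈ C, ∀ b' ∈ C, b ≠ b' → Disjoint (S.Q b) (S.Q b'))
    (hAc : Ac ⊆ C) (ha : 0 < a) {X : Finset ι} {ξ : κ' → ι → ℝ} {D : ℝ}
    (hD : ∀ x ∈ X, ff ξ x s ≤ D) (hD0 : 0 ≤ D) (e : ℝ) {l : ℝ} (hl : 0 ≤ l) :
    TI S A a ξ X s C Ac V e l ≤ D :=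
  near_core hA ((uC_loss hC hAc ha).off s) hD hD0 e ha hl

theorem TT_nonneg (hC : ∀ b ∈ C, ∀ b' ∈ C, b ≠ b' → Disjoint (S.Q b) (S.Q b'))
    (hAc : Ac ⊆ C) (ha : 0 < a) (X : Finset ι) (ξ : κ' → ι → ℝ) (us : ℂ) :
    0 ≤ TT S A a ξ X s C Ac V us :=
  Finset.sum_nonneg fun x _ => near_term_nonneg ((uC_loss hC hAc ha).off s) ξ x _

theorem TI_nonneg (hC : ∀ b ∈ C, ∀ b' ∈ C, b ≠ b' → Disjoint (S.Q b) (S.Q b'))
    (hAc : Ac ⊆ C) (ha : 0 < a) (X : Finset ι) (ξ : κ' → ι → ℝ) (e : ℝ) {l : ℝ} (hl : 0 ≤ l) :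
    0 ≤ TI S A a ξ X s C Ac V e l :=
  intervalIntegral.integral_nonneg hl fun _ _ => TT_nonneg hC hAc ha X ξ _

/-! ### the world in the `C, Ac` language -/

theorem near_mem_CC {b : 𝔅} : b ∈ CC S m V ↔ b ∈ S.Comp V ∧ m < S.cls b := by
  unfold CC
  rw [Finset.mem_filter]

theorem near_uA (hA : Ac ⊆ CC S m V) : S.uA A m a Ac V = uC S A a (CC S m V) Ac V := by
  funext x
  unfold Sys.uA uC Sys.bk CC
  congr 1
  refine Finset.sum_congr rfl fun b hb => ?_
  rw [if_pos (near_mem_CC.mp (hA hb)).2]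

/-- the weights of the world `pim m 0` -/
theorem wt_pim0 (hA : Ac ⊆ CC S m V) :
    S.wt A (S.pim m 0) V Ac = wC S A (CC S m V) Ac V := by
  unfold Sys.wt wC
  congr 1
  · refine Finset.prod_congr rfl fun b hb => ?_
    have h := (near_mem_CC.mp (hA hb)).2
    have : S.pim m 0 b = 1 := by
      unfold Sys.pim
      rw [if_neg (by omega), if_neg (by omega)]
    rw [this, one_mul]
  · have hsub : CC S m V \ Ac ⊆ S.Comp V \ Ac :=
      Finset.sdiff_subset_sdiff (fun b hb => (near_mem_CC.mp hb).1) (Finset.Subset.refl _)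
    rw [← Finset.prod_subset hsub]
    · refine Finset.prod_congr rfl fun b hb => ?_
      have h := (near_mem_CC.mp (Finset.mem_sdiff.mp hb).1).2
      have : S.pim m 0 b = 1 := by
        unfold Sys.pim
        rw [if_neg (by omega), if_neg (by omega)]
      rw [this, one_mul]
    · intro b hb hn
      have hb1 := (Finset.mem_sdiff.mp hb).1
      have hb2 := (Finset.mem_sdiff.mp hb).2
      have h : ¬ m < S.cls b := by
        intro h
        exact hn (Finset.mem_sdiff.mpr ⟨near_mem_CC.mpr ⟨hb1, h⟩, hb2⟩)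
      have : S.pim m 0 b = 0 := by
        unfold Sys.pim
        by_cases h3 : S.cls b < m
        · rw [if_pos h3]
        · rw [if_neg h3, if_pos (by omega)]
      rw [this]
      ring

theorem wt_pim0_zero (hn : ¬ Ac ⊆ CC S m V) (hA : Ac ⊆ S.Comp V) :
    S.wt A (S.pim m 0) V Ac = 0 := by
  obtain ⟨b, hb, hb'⟩ := Finset.not_subset.mp hn
  have h : ¬ m < S.cls b := fun h => hb' (near_mem_CC.mpr ⟨hA hb, h⟩)
  unfold Sys.wt
  rw [Finset.prod_eq_zero hb, zero_mul]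
  have : S.pim m 0 b = 0 := by
    unfold Sys.pim
    by_cases h3 : S.cls b < m
    · rw [if_pos h3]
    · rw [if_neg h3, if_pos (by omega)]
  rw [this, zero_mul]

/-- expectations in the world `pim m 0` -/
theorem Ei_pim0 (F : Finset 𝔅 → (ι → ℝ) → ℝ) (V : ι → ℝ) :
    S.Ei A (S.pim m 0) F V =
      ∑ Ac ∈ (CC S m V).powerset, wC S A (CC S m V) Ac V * F Ac V := by
  unfold Sys.Ei
  have hsub : (CC S m V).powerset ⊆ (S.Comp V).powerset :=
    Finset.powerset_mono.mpr fun b hb => (near_mem_CC.mp hb).1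
  rw [← Finset.sum_subset hsub]
  · refine Finset.sum_congr rfl fun Ac hA => ?_
    rw [wt_pim0 (Finset.mem_powerset.mp hA)]
  · intro Ac hA hn
    rw [wt_pim0_zero (fun h => hn (Finset.mem_powerset.mpr h)) (Finset.mem_powerset.mp hA),
      zero_mul]

theorem Ex_pim0 (F : Finset 𝔅 → (ι → ℝ) → ℝ) :
    S.Ex A (S.pim m 0) F =
      ∫ V, ∑ Ac ∈ (CC S m V).powerset, wC S A (CC S m V) Ac V * F Ac V ∂(S.mu) := by
  rw [S.Ex_eq]
  exact integral_congr_ae (Filter.Eventually.of_forall fun V => Ei_pim0 F V)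

/-! ### shares -/

/-- half of the share of the site `y` divided by its loss -/
noncomputable def hsh (A : Matrix ι ι ℝ) (ξ : κ' → ι → ℝ) (u : ι → ℂ) (y : ι) : ℝ :=
  ∑ x, gam u x * ff ξ x y * ‖GM A u y x‖ ^ 2

theorem hsh_nonneg {u : ι → ℂ} (hu : Loss u) (ξ : κ' → ι → ℝ) (y : ι) : 0 ≤ hsh A ξ u y :=
  Finset.sum_nonneg fun x _ => mul_nonneg (mul_nonneg (gam_pos hu x).le (ff_nonneg ξ x y))
    (by positivity)

theorem sum_hsh {u : ι → ℂ} (ξ : κ' → ι → ℝ) : ∑ y, gam u y * hsh A ξ u y = DU A ξ u := by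
  unfold hsh DU DD
  refine Finset.sum_congr rfl fun y _ => ?_
  rw [Finset.mul_sum]
  refine Finset.sum_congr rfl fun x _ => ?_
  rw [ff_comm ξ x y]
  ring

/-- partial losses at distinct sites -/
theorem sum_hsh_le {u : ι → ℂ} (hu : Loss u) (ξ : κ' → ι → ℝ) (T : Finset ι) (g : ι → ℝ)
    (hg : ∀ y ∈ T, g y ≤ gam u y) : ∑ y ∈ T, g y * hsh A ξ u y ≤ DU A ξ u := by
  rw [← sum_hsh ξ]
  calc ∑ y ∈ T, g y * hsh A ξ u y ≤ ∑ y ∈ T, gam u y * hsh A ξ u y :=
        Finset.sum_le_sum fun y hy => mul_le_mul_of_nonneg_right (hg y hy) (hsh_nonneg hu ξ y)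
    _ ≤ ∑ y, gam u y * hsh A ξ u y :=
        Finset.sum_le_sum_of_subset_of_nonneg (Finset.subset_univ T) fun y _ _ =>
          mul_nonneg (gam_pos hu y).le (hsh_nonneg hu ξ y)

/-! ### background shares -/

theorem measurable_hsh {Ω : Type*} [MeasurableSpace Ω] {u : Ω → ι → ℂ}
    (hu : ∀ x, Measurable fun ω => u ω x) (ξ : κ' → ι → ℝ) (y : ι) :
    Measurable fun ω => hsh A ξ (u ω) y := by
  unfold hsh
  exact Finset.measurable_fun_sum _ fun x _ => ((measurable_gam hu x).mul_const _).mul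
    ((measurable_GM' A hu y x).norm.pow_const 2)

open Classical in
/-- the background share of `y` as a functional of the world -/
noncomputable def FY (S : Sys ι 𝔅) (A : Matrix ι ι ℝ) (m : ℕ) (a : ℝ) (ξ : κ' → ι → ℝ) (y : ι)
    (Ac : Finset 𝔅) (V : ι → ℝ) : ℝ :=
  if Ac ⊆ CC S m V then
    (if Low S (CC S m V) Ac y then a * hsh A ξ (S.uA A m a Ac V) y else 0) else 0

open Classical in
theorem EY_eq (ξ : κ' → ι → ℝ) (y : ι) :
    EY S A m a ξ y = S.Ex A (S.pim m 0) (FY S A m a ξ y) := by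
  rw [Ex_pim0]
  unfold EY
  refine integral_congr_ae (Filter.Eventually.of_forall fun V => ?_)
  refine Finset.sum_congr rfl fun Ac hA => ?_
  unfold FY
  rw [if_pos (Finset.mem_powerset.mp hA)]
  rfl

open Classical in
/-- the share of the gadget `b0` as a functional of the world -/
noncomputable def FG (S : Sys ι 𝔅) (A : Matrix ι ι ℝ) (m : ℕ) (a : ℝ) (ξ : κ' → ι → ℝ) (b0 : 𝔅)
    (Ac : Finset 𝔅) (V : ι → ℝ) : ℝ :=
  if Ac ⊆ CC S m V then
    (if b0 ∈ Ac then S.gg A b0 V * hsh A ξ (S.uA A m a Ac V) (S.w b0) else 0) else 0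

open Classical in
theorem EG_eq (ξ : κ' → ι → ℝ) (b0 : 𝔅) :
    EG S A m a ξ b0 = S.Ex A (S.pim m 0) (FG S A m a ξ b0) := by
  rw [Ex_pim0]
  unfold EG
  refine integral_congr_ae (Filter.Eventually.of_forall fun V => ?_)
  refine Finset.sum_congr rfl fun Ac hA => ?_
  unfold FG
  rw [if_pos (Finset.mem_powerset.mp hA)]
  rfl

theorem CC_pair : ∀ b ∈ CC S m V, ∀ b' ∈ CC S m V, b ≠ b' → Disjoint (S.Q b) (S.Q b') :=
  fun _ hb _ hb' h => S.Comp_disj (near_mem_CC.mp hb).1 (near_mem_CC.mp hb').1 h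

theorem gam_Low (hA : Ac ⊆ CC S m V) {y : ι} (hy : Low S (CC S m V) Ac y) :
    gam (S.uA A m a Ac V) y = a := by
  rw [near_uA hA]
  rcases uC_im_cases (a := a) (A := A) (V := V) CC_pair hA y with h | ⟨b, hb, hx, h⟩ |
    ⟨b, hb, hx, h⟩
  · unfold gam; rw [h]; ring
  · exact absurd hx (hy.1 b hb)
  · exact absurd hx (hy.2 b hb)

theorem gam_gad (hA : Ac ⊆ CC S m V) {b : 𝔅} (hb : b ∈ Ac) :
    gam (S.uA A m a Ac V) (S.w b) = S.gg A b V + S.et (S.cls b) := by
  rw [near_uA hA, gam, uC_im_act CC_pair hA hb]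
  ring

/-- functions of `V` restricted to an event that depends on the set of complete blocks -/
theorem measurable_ite_CC (m : ℕ) (P : Finset 𝔅 → Prop) [DecidablePred P] {f : (ι → ℝ) → ℝ}
    (hf : Measurable f) : Measurable fun V => if P (CC S m V) then f V else 0 := by
  classical
  refine S.measurable_of_Comp
    (F := fun B V => if P (B.filter fun b => m < S.cls b) then f V else 0) fun B => ?_
  split_ifs
  · exact hf
  · exact measurable_const

theorem hsh_bdd (hA : A.IsSymm) {u : ι → ℂ} (hu : Loss u) (ξ : κ' → ι → ℝ) (y : ι) {g : ℝ}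
    (hg0 : 0 ≤ g) (hg : g ≤ gam u y) : |g * hsh A ξ u y| ≤ ∑ x, ∑ y, ff ξ x y := by
  rw [abs_of_nonneg (mul_nonneg hg0 (hsh_nonneg hu ξ y))]
  refine le_trans ?_ (DU_le hA hu ξ)
  have := sum_hsh_le (A := A) hu ξ {y} (fun _ => g) fun z hz => by
    rw [Finset.mem_singleton] at hz
    rw [hz]; exact hg
  simpa using this

theorem measurable_FY (S : Sys ι 𝔅) (A : Matrix ι ι ℝ) (m : ℕ) (a : ℝ) (ξ : κ' → ι → ℝ) (y : ι)
    (Ac : Finset 𝔅) : Measurable (FY S A m a ξ y Ac) := by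
  classical
  have hf : Measurable fun V : ι → ℝ => a * hsh A ξ (S.uA A m a Ac V) y :=
    (measurable_hsh (fun x => S.measurable_uA A m a Ac x) ξ y).const_mul _
  have h1 := measurable_ite_CC (S := S) m (fun B => Low S B Ac y) hf
  have h2 := measurable_ite_CC (S := S) m (fun B => Ac ⊆ B) h1
  unfold FY
  convert h2

theorem measurable_FG (S : Sys ι 𝔅) (A : Matrix ι ι ℝ) (m : ℕ) (a : ℝ) (ξ : κ' → ι → ℝ) (b0 : 𝔅)
    (Ac : Finset 𝔅) : Measurable (FG S A m a ξ b0 Ac) := by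
  classical
  have hf : Measurable fun V : ι → ℝ => S.gg A b0 V * hsh A ξ (S.uA A m a Ac V) (S.w b0) :=
    (S.measurable_gg A b0).mul (measurable_hsh (fun x => S.measurable_uA A m a Ac x) ξ (S.w b0))
  have h1 := measurable_ite_CC (S := S) m (fun _ => b0 ∈ Ac) hf
  have h2 := measurable_ite_CC (S := S) m (fun B => Ac ⊆ B) h1
  unfold FG
  convert h2

theorem uA_loss' (hA : Ac ⊆ CC S m V) (ha : 0 < a) : Loss (S.uA A m a Ac V) := by
  rw [near_uA hA]
  exact uC_loss CC_pair hA ha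

theorem bdd_FY (hA : A.IsSymm) (ξ : κ' → ι → ℝ) (m : ℕ) (ha : 0 < a) (y : ι) :
    Sys.Bdd S (FY S A m a ξ y) := by
  refine ⟨measurable_FY S A m a ξ y, ∑ x, ∑ y, ff ξ x y, fun V Ac _ => ?_⟩
  have h0 : 0 ≤ ∑ x, ∑ y, ff ξ x y :=
    Finset.sum_nonneg fun x _ => Finset.sum_nonneg fun y _ => ff_nonneg ξ x y
  unfold FY
  by_cases h1 : Ac ⊆ CC S m V
  · rw [if_pos h1]
    by_cases h2 : Low S (CC S m V) Ac y
    · rw [if_pos h2]
      exact hsh_bdd hA (uA_loss' h1 ha) ξ y ha.le (gam_Low h1 h2).ge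
    · rw [if_neg h2, abs_zero]; exact h0
  · rw [if_neg h1, abs_zero]; exact h0

theorem bdd_FG (hA : A.IsSymm) (ξ : κ' → ι → ℝ) (m : ℕ) (ha : 0 < a) (b0 : 𝔅) :
    Sys.Bdd S (FG S A m a ξ b0) := by
  refine ⟨measurable_FG S A m a ξ b0, ∑ x, ∑ y, ff ξ x y, fun V Ac _ => ?_⟩
  have h0 : 0 ≤ ∑ x, ∑ y, ff ξ x y :=
    Finset.sum_nonneg fun x _ => Finset.sum_nonneg fun y _ => ff_nonneg ξ x y
  unfold FG
  by_cases h1 : Ac ⊆ CC S m V
  · rw [if_pos h1]
    by_cases h2 : b0 ∈ Ac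
    · rw [if_pos h2]
      refine hsh_bdd hA (uA_loss' h1 ha) ξ _ (gg_nonneg' b0 V) ?_
      rw [gam_gad h1 h2]
      have := S.et_pos (S.cls b0)
      linarith
    · rw [if_neg h2, abs_zero]; exact h0
  · rw [if_neg h1, abs_zero]; exact h0

theorem Ex_pim0_mono (hS : WO.Good S A) {F F' : Finset 𝔅 → (ι → ℝ) → ℝ}
    (hF : Sys.Bdd S F) (hF' : Sys.Bdd S F') (h : ∀ V, ∀ Ac ⊆ CC S m V, F Ac V ≤ F' Ac V) :
    S.Ex A (S.pim m 0) F ≤ S.Ex A (S.pim m 0) F' := by
  have hp := S.adm_pim m (le_refl 0) zero_le_one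
  rw [S.Ex_eq, S.Ex_eq]
  refine integral_mono (S.integrable_Ei hS hp hF) (S.integrable_Ei hS hp hF') fun V => ?_
  show S.Ei A (S.pim m 0) F V ≤ S.Ei A (S.pim m 0) F' V
  rw [Ei_pim0, Ei_pim0]
  refine Finset.sum_le_sum fun Ac hA => ?_
  have hA' := Finset.mem_powerset.mp hA
  refine mul_le_mul_of_nonneg_left (h V Ac hA') ?_
  rw [← wt_pim0 hA']
  exact S.wt_nonneg hS hp (hA'.trans fun b hb => (near_mem_CC.mp hb).1)

/-- the background shares, summed over all sites -/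
theorem sum_EY (hS : WO.Good S A) (ξ : κ' → ι → ℝ) (m : ℕ) (ha : 0 < a) :
    ∑ y, EY S A m a ξ y ≤ S.Dw A ξ m 0 a := by
  classical
  have hp := S.adm_pim m (le_refl 0) zero_le_one
  have hF := fun y (_ : y ∈ (univ : Finset ι)) => bdd_FY (S := S) hS.symm ξ m ha y
  simp only [EY_eq]
  rw [← S.Ex_sum hS hp univ _ hF]
  unfold Sys.Dw
  refine Ex_pim0_mono hS (Sys.Bdd.sum S univ hF) (S.bdd_DU hS ξ m ha) fun V Ac hA => ?_
  have hL := uA_loss' (A := A) hA ha
  have h1 : ∀ y, FY S A m a ξ y Ac V =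
      (if Low S (CC S m V) Ac y then a else 0) * hsh A ξ (S.uA A m a Ac V) y := by
    intro y
    unfold FY
    rw [if_pos hA]
    split_ifs <;> ring
  simp only [h1]
  refine sum_hsh_le hL ξ univ _ fun y _ => ?_
  split_ifs with h
  · rw [gam_Low hA h]
  · exact (gam_pos hL y).le

/-- every site is the centre of one block: the gadget shares, summed over the sites -/
theorem sum_EG (hS : WO.Good S A) (ξ : κ' → ι → ℝ) (m : ℕ) (ha : 0 < a) (good : Finset ι)
    (bs : ι → 𝔅) (hw : ∀ s ∈ good, S.w (bs s) = s) :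
    ∑ s ∈ good, EG S A m a ξ (bs s) ≤ S.Dw A ξ m 0 a := by
  classical
  have hp := S.adm_pim m (le_refl 0) zero_le_one
  have hF := fun s (_ : s ∈ good) => bdd_FG (S := S) hS.symm ξ m ha (bs s)
  simp only [EG_eq]
  rw [← S.Ex_sum hS hp good (fun s => FG S A m a ξ (bs s)) hF]
  unfold Sys.Dw
  refine Ex_pim0_mono hS (Sys.Bdd.sum S good hF) (S.bdd_DU hS ξ m ha) fun V Ac hA => ?_
  have hL := uA_loss' (A := A) hA ha
  have h1 : ∀ s ∈ good, FG S A m a ξ (bs s) Ac V =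
      (if bs s ∈ Ac then S.gg A (bs s) V else 0) * hsh A ξ (S.uA A m a Ac V) s := by
    intro s hs
    unfold FG
    rw [if_pos hA, hw s hs]
    split_ifs <;> ring
  rw [Finset.sum_congr rfl h1]
  refine sum_hsh_le hL ξ good _ fun s hs => ?_
  split_ifs with h
  · have h2 := gam_gad (A := A) (a := a) hA h
    rw [hw s hs] at h2
    rw [h2]
    have := S.et_pos (S.cls (bs s))
    linarith
  · exact (gam_pos hL s).le

theorem EY_nonneg (hS : WO.Good S A) (ξ : κ' → ι → ℝ) (m : ℕ) (ha : 0 < a) (y : ι) :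
    0 ≤ EY S A m a ξ y := by
  classical
  rw [EY_eq, Ex_pim0]
  refine integral_nonneg fun V => Finset.sum_nonneg fun Ac hA => ?_
  have hA' := Finset.mem_powerset.mp hA
  refine mul_nonneg ?_ ?_
  · rw [← wt_pim0 hA']
    exact S.wt_nonneg hS (S.adm_pim m (le_refl 0) zero_le_one)
      (hA'.trans fun b hb => (near_mem_CC.mp hb).1)
  · unfold FY
    rw [if_pos hA']
    split_ifs
    · exact mul_nonneg ha.le (hsh_nonneg (uA_loss' hA' ha) ξ y)
    · exact le_refl _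

theorem EG_nonneg (hS : WO.Good S A) (ξ : κ' → ι → ℝ) (m : ℕ) (ha : 0 < a) (b0 : 𝔅) :
    0 ≤ EG S A m a ξ b0 := by
  classical
  rw [EG_eq, Ex_pim0]
  refine integral_nonneg fun V => Finset.sum_nonneg fun Ac hA => ?_
  have hA' := Finset.mem_powerset.mp hA
  refine mul_nonneg ?_ ?_
  · rw [← wt_pim0 hA']
    exact S.wt_nonneg hS (S.adm_pim m (le_refl 0) zero_le_one)
      (hA'.trans fun b hb => (near_mem_CC.mp hb).1)
  · unfold FG
    rw [if_pos hA']
    split_ifs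
    · exact mul_nonneg (gg_nonneg' b0 V) (hsh_nonneg (uA_loss' hA' ha) ξ _)
    · exact le_refl _

end Pool.Agent.Lib.MP_562b47_mp.LH.NR
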