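import Pool.Agent.Lib.MP_562b47_mp.LH.Geo

/-!
MP_562b47, Lemma H', global part: the sums over the sites `s` and over the sets `σ` of blocks near
`s` (abstract).
-/

open MeasureTheory Matrix Finset

namespace Pool.Agent.Lib.MP_562b47_mp.LH

open Pool.Agent.Lib.MP_562b47_mp.AL Pool.Agent.Lib.MP_562b47_mp.WO Pool.Agent.Lib.MP_562b47_mp.LW
  Pool.Agent.Lib.MP_562b47_mp

variable {ι 𝔅 : Type*} [Fintype ι] [DecidableEq ι] [Fintype 𝔅] [DecidableEq 𝔅]

/-- `∏ (1 + q b) ≤ 1 + 2 T` -/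
theorem prod_one_add_le (N : Finset 𝔅) (q : 𝔅 → ℝ) (hq : ∀ b ∈ N, 0 ≤ q b) (T : ℝ)
    (hT : ∑ b ∈ N, q b ≤ T) (hT1 : T ≤ 1) : ∏ b ∈ N, (1 + q b) ≤ 1 + 2 * T := by
  have hT0 : 0 ≤ T := le_trans (Finset.sum_nonneg hq) hT
  have h1 : ∏ b ∈ N, (1 + q b) ≤ Real.exp T := by
    calc ∏ b ∈ N, (1 + q b) ≤ ∏ b ∈ N, Real.exp (q b) := by
          refine Finset.prod_le_prod (fun b hb => ?_) (fun b hb => ?_)
          · linarith [hq b hb]
          · linarith [Real.add_one_le_exp (q b)]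
      _ = Real.exp (∑ b ∈ N, q b) := (Real.exp_sum N q).symm
      _ ≤ Real.exp T := Real.exp_le_exp.2 hT
  have h2 := Real.abs_exp_sub_one_sub_id_le (x := T) (by rw [abs_of_nonneg hT0]; exact hT1)
  have h3 := (abs_le.1 h2).2
  nlinarith

/-- sum over the non-empty subsets -/
theorem sum_prod_ne_le (N : Finset 𝔅) (q : 𝔅 → ℝ) (hq : ∀ b ∈ N, 0 ≤ q b) (T : ℝ)
    (hT : ∑ b ∈ N, q b ≤ T) (hT1 : T ≤ 1) :
    ∑ σ ∈ N.powerset.filter (fun σ => σ.Nonempty), ∏ b ∈ σ, q b ≤ 2 * T := by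
  have h1 := prod_one_add_le N q hq T hT hT1
  rw [Finset.prod_one_add] at h1
  have h2 : N.powerset.filter (fun σ => σ.Nonempty) = N.powerset.erase ∅ := by
    ext σ
    simp only [Finset.mem_filter, Finset.mem_erase, Finset.nonempty_iff_ne_empty]
    tauto
  have h3 := Finset.add_sum_erase N.powerset (fun σ => ∏ b ∈ σ, q b) (Finset.empty_mem_powerset N)
  simp only [Finset.prod_empty] at h3
  rw [h2]
  linarith

/-- sum over the subsets with a marked block -/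
theorem sum_prod_mark_le (N : Finset 𝔅) (q F : 𝔅 → ℝ) (hq : ∀ b ∈ N, 0 ≤ q b)
    (hF : ∀ b ∈ N, 0 ≤ F b) :
    ∑ σ ∈ N.powerset, (∏ b ∈ σ, q b) * ∑ b ∈ σ, F b ≤
      (∑ b ∈ N, q b * F b) * ∏ b ∈ N, (1 + q b) := by
  induction N using Finset.induction_on with
  | empty => simp
  | insert a N ha ih =>
    have hqN : ∀ b ∈ N, 0 ≤ q b := fun b hb => hq b (Finset.mem_insert_of_mem hb)
    have hFN : ∀ b ∈ N, 0 ≤ F b := fun b hb => hF b (Finset.mem_insert_of_mem hb)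
    have hqa := hq a (Finset.mem_insert_self a N)
    have hFa := hF a (Finset.mem_insert_self a N)
    have ih' := ih hqN hFN
    rw [Finset.sum_powerset_insert ha, Finset.sum_insert ha, Finset.prod_insert ha]
    have h1 : ∑ σ ∈ N.powerset, (∏ b ∈ insert a σ, q b) * ∑ b ∈ insert a σ, F b =
        q a * F a * (∑ σ ∈ N.powerset, ∏ b ∈ σ, q b) +
          q a * ∑ σ ∈ N.powerset, (∏ b ∈ σ, q b) * ∑ b ∈ σ, F b := by
      rw [Finset.mul_sum, Finset.mul_sum, ← Finset.sum_add_distrib]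
      refine Finset.sum_congr rfl fun σ hσ => ?_
      have haσ : a ∉ σ := fun h => ha (Finset.mem_powerset.1 hσ h)
      rw [Finset.prod_insert haσ, Finset.sum_insert haσ]
      ring
    rw [h1, ← Finset.prod_one_add]
    set P := ∏ b ∈ N, (1 + q b)
    set X := ∑ σ ∈ N.powerset, (∏ b ∈ σ, q b) * ∑ b ∈ σ, F b
    set Y := ∑ b ∈ N, q b * F b
    have hP : 0 ≤ P := Finset.prod_nonneg fun b hb => by linarith [hqN b hb]
    have h2 : 0 ≤ q a * (q a * F a * P) := by positivity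
    have h3 : (1 + q a) * X ≤ (1 + q a) * (Y * P) :=
      mul_le_mul_of_nonneg_left ih' (by linarith)
    nlinarith

/-- the sum over a union -/
theorem sum_Reg_le (S : Sys ι 𝔅) (b0 : 𝔅) (σ : Finset 𝔅) (E : ι → ℝ) (hE : ∀ y, 0 ≤ E y) :
    ∑ y ∈ Reg S b0 σ, E y ≤ ∑ y ∈ S.Q b0, E y + ∑ b ∈ σ, ∑ y ∈ S.Q b, E y := by
  classical
  have hu : ∀ A B : Finset ι, ∑ y ∈ A ∪ B, E y ≤ ∑ y ∈ A, E y + ∑ y ∈ B, E y := by
    intro A B
    have h := Finset.sum_union_inter (s₁ := A) (s₂ := B) (f := E)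
    have h' : 0 ≤ ∑ y ∈ A ∩ B, E y := Finset.sum_nonneg fun y _ => hE y
    linarith
  have hb : ∑ y ∈ σ.biUnion S.Q, E y ≤ ∑ b ∈ σ, ∑ y ∈ S.Q b, E y := by
    induction σ using Finset.induction_on with
    | empty => simp
    | insert a σ ha ih =>
      rw [Finset.biUnion_insert, Finset.sum_insert ha]
      exact le_trans (hu _ _) (by linarith)
  have h0 := hu (S.Q b0) (σ.biUnion S.Q)
  have e1 : Reg S b0 σ = S.Q b0 ∪ σ.biUnion S.Q := by
    unfold Reg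
    congr!
  rw [e1]
  linarith

/-- every site is in few of the regions `Q (bs s)` -/
theorem sum_one (S : Sys ι 𝔅) (good : Finset ι) (bs : ι → 𝔅) (E : ι → ℝ) (hE : ∀ y, 0 ≤ E y)
    (Nn : ℝ) (S2 : ∀ y, ((good.filter fun s => y ∈ S.Q (bs s)).card : ℝ) ≤ Nn) :
    ∑ s ∈ good, ∑ y ∈ S.Q (bs s), E y ≤ Nn * ∑ y, E y := by
  have h1 : ∑ s ∈ good, ∑ y ∈ S.Q (bs s), E y =
      ∑ y, E y * ((good.filter fun s => y ∈ S.Q (bs s)).card : ℝ) := by
    have h2 : ∀ s ∈ good, ∑ y ∈ S.Q (bs s), E y =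
        ∑ y, if y ∈ S.Q (bs s) then E y else 0 := by
      intro s _
      rw [← Finset.sum_filter]
      congr 1
      ext y
      simp
    rw [Finset.sum_congr rfl h2, Finset.sum_comm]
    refine Finset.sum_congr rfl fun y _ => ?_
    rw [← Finset.sum_filter, Finset.sum_const, nsmul_eq_mul]
    ring
  rw [h1, Finset.mul_sum]
  refine Finset.sum_le_sum fun y _ => ?_
  rw [mul_comm Nn]
  exact mul_le_mul_of_nonneg_left (S2 y) (hE y)

section main

variable (S : Sys ι 𝔅) (m : ℕ)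

open Classical in
/-- the blocks of class `> m` that meet `Q b0` -/
noncomputable def NB (b0 : 𝔅) : Finset 𝔅 :=
  univ.filter fun b => m < S.cls b ∧ ¬ Disjoint (S.Q b) (S.Q b0)

theorem Adm_sub (b0 : 𝔅) : (Adm S m b0).filter (fun σ => σ.Nonempty) ⊆
    (NB S m b0).powerset.filter (fun σ => σ.Nonempty) := by
  classical
  intro σ hσ
  rw [Finset.mem_filter] at hσ ⊢
  refine ⟨?_, hσ.2⟩
  have h := hσ.1
  unfold Adm at h
  rw [Finset.mem_filter] at h
  rw [Finset.mem_powerset]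
  intro b hb
  unfold NB
  rw [Finset.mem_filter]
  exact ⟨Finset.mem_univ b, h.2.1 b hb, h.2.2.1 b hb⟩

/-- for one site: the sum of the weights of the non-empty admissible sets -/
theorem sum_Adm_one (b0 : 𝔅) (q : 𝔅 → ℝ) (hq : ∀ b, 0 ≤ q b) (qb : ℝ) (hqb : qb ≤ 1)
    (S1 : ∑ b ∈ NB S m b0, q b ≤ qb) :
    ∑ σ ∈ (Adm S m b0).filter (fun σ => σ.Nonempty), ∏ b ∈ σ, q b ≤ 2 * qb :=
  le_trans (Finset.sum_le_sum_of_subset_of_nonneg (Adm_sub S m b0)
    fun σ _ _ => Finset.prod_nonneg fun b _ => hq b)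
    (sum_prod_ne_le _ q (fun b _ => hq b) qb S1 hqb)

/-- sum of the weights over all good sites -/
theorem sum_near (good : Finset ι) (bs : ι → 𝔅) (q : 𝔅 → ℝ) (hq : ∀ b, 0 ≤ q b) (qb : ℝ)
    (hqb : qb ≤ 1) (S1 : ∀ s ∈ good, ∑ b ∈ NB S m (bs s), q b ≤ qb) :
    ∑ s ∈ good, ∑ σ ∈ (Adm S m (bs s)).filter (fun σ => σ.Nonempty), ∏ b ∈ σ, q b ≤
      2 * qb * (good.card : ℝ) := by
  calc ∑ s ∈ good, ∑ σ ∈ (Adm S m (bs s)).filter (fun σ => σ.Nonempty), ∏ b ∈ σ, q b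
      ≤ ∑ s ∈ good, 2 * qb :=
        Finset.sum_le_sum fun s hs => sum_Adm_one S m (bs s) q hq qb hqb (S1 s hs)
    _ = 2 * qb * (good.card : ℝ) := by rw [Finset.sum_const, nsmul_eq_mul]; ring

/-- for one site: the weighted sum of the shares of the regions -/
theorem sum_Adm_Reg (b0 : 𝔅) (q : 𝔅 → ℝ) (hq : ∀ b, 0 ≤ q b) (E : ι → ℝ) (hE : ∀ y, 0 ≤ E y)
    (qb : ℝ) (hqb : qb ≤ 1 / 2) (S1 : ∑ b ∈ NB S m b0, q b ≤ qb) :
    ∑ σ ∈ (Adm S m b0).filter (fun σ => σ.Nonempty),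
        (∏ b ∈ σ, q b) * ∑ y ∈ Reg S b0 σ, E y ≤
      2 * qb * ∑ y ∈ S.Q b0, E y + 2 * ∑ b ∈ NB S m b0, q b * ∑ y ∈ S.Q b, E y := by
  have hpn : ∀ σ : Finset 𝔅, 0 ≤ ∏ b ∈ σ, q b := fun σ => Finset.prod_nonneg fun b _ => hq b
  have hRn : ∀ T : Finset ι, 0 ≤ ∑ y ∈ T, E y := fun T => Finset.sum_nonneg fun y _ => hE y
  have h1 : ∑ σ ∈ (Adm S m b0).filter (fun σ => σ.Nonempty),
        (∏ b ∈ σ, q b) * ∑ y ∈ Reg S b0 σ, E y ≤
      ∑ σ ∈ (NB S m b0).powerset.filter (fun σ => σ.Nonempty),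
        ((∏ b ∈ σ, q b) * ∑ y ∈ S.Q b0, E y + (∏ b ∈ σ, q b) * ∑ b ∈ σ, ∑ y ∈ S.Q b, E y) := by
    refine le_trans (Finset.sum_le_sum_of_subset_of_nonneg (Adm_sub S m b0)
      fun σ _ _ => mul_nonneg (hpn σ) (hRn _)) (Finset.sum_le_sum fun σ _ => ?_)
    rw [← mul_add]
    exact mul_le_mul_of_nonneg_left (sum_Reg_le S b0 σ E hE) (hpn σ)
  refine le_trans h1 ?_
  rw [Finset.sum_add_distrib, ← Finset.sum_mul]
  have h2 := sum_prod_ne_le (NB S m b0) q (fun b _ => hq b) qb S1 (by linarith)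
  have h3 : ∑ σ ∈ (NB S m b0).powerset.filter (fun σ => σ.Nonempty),
      (∏ b ∈ σ, q b) * ∑ b ∈ σ, ∑ y ∈ S.Q b, E y ≤
      2 * ∑ b ∈ NB S m b0, q b * ∑ y ∈ S.Q b, E y := by
    refine le_trans (Finset.sum_le_sum_of_subset_of_nonneg (Finset.filter_subset _ _)
      fun σ _ _ => mul_nonneg (hpn σ) (Finset.sum_nonneg fun b _ => hRn _)) ?_
    refine le_trans (sum_prod_mark_le (NB S m b0) q (fun b => ∑ y ∈ S.Q b, E y)
      (fun b _ => hq b) (fun b _ => hRn _)) ?_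
    have h4 := prod_one_add_le (NB S m b0) q (fun b _ => hq b) qb S1 (by linarith)
    rw [mul_comm]
    exact mul_le_mul_of_nonneg_right (by linarith)
      (Finset.sum_nonneg fun b _ => mul_nonneg (hq b) (hRn _))
  exact add_le_add (mul_le_mul_of_nonneg_right h2 (hRn _)) h3

open Classical in
/-- the main sum -/
theorem sum_far (good : Finset ι) (bs : ι → 𝔅) (q : 𝔅 → ℝ) (hq : ∀ b, 0 ≤ q b) (E : ι → ℝ)
    (hE : ∀ y, 0 ≤ E y) (qb Nn qc : ℝ) (hqb0 : 0 ≤ qb) (hqb : qb ≤ 1 / 2)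
    (S1 : ∀ s ∈ good, ∑ b ∈ NB S m (bs s), q b ≤ qb)
    (S2 : ∀ y, ((good.filter fun s => y ∈ S.Q (bs s)).card : ℝ) ≤ Nn)
    (S3 : ∀ y, ∑ b ∈ univ.filter (fun b => m < S.cls b ∧ y ∈ S.Q b),
      q b * ((good.filter fun s => ¬ Disjoint (S.Q b) (S.Q (bs s))).card : ℝ) ≤ qc) :
    ∑ s ∈ good, ∑ σ ∈ (Adm S m (bs s)).filter (fun σ => σ.Nonempty),
        (∏ b ∈ σ, q b) * ∑ y ∈ Reg S (bs s) σ, E y ≤
      (2 * Nn * qb + 2 * qc) * ∑ y, E y := by
  have hRn : ∀ T : Finset ι, 0 ≤ ∑ y ∈ T, E y := fun T => Finset.sum_nonneg fun y _ => hE y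
  refine le_trans (Finset.sum_le_sum fun s hs =>
    sum_Adm_Reg S m (bs s) q hq E hE qb hqb (S1 s hs)) ?_
  rw [Finset.sum_add_distrib, ← Finset.mul_sum, ← Finset.mul_sum, add_mul]
  have h1 := sum_one S good bs E hE Nn (fun y => by convert S2 y)
  have h2 : ∑ s ∈ good, ∑ b ∈ NB S m (bs s), q b * ∑ y ∈ S.Q b, E y ≤ qc * ∑ y, E y := by
    have e1 : ∑ s ∈ good, ∑ b ∈ NB S m (bs s), q b * ∑ y ∈ S.Q b, E y =
        ∑ y, E y * ∑ b ∈ univ.filter (fun b => m < S.cls b ∧ y ∈ S.Q b),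
          q b * ((good.filter fun s => ¬ Disjoint (S.Q b) (S.Q (bs s))).card : ℝ) := by
      have e2 : ∀ s ∈ good, ∑ b ∈ NB S m (bs s), q b * ∑ y ∈ S.Q b, E y =
          ∑ b, ∑ y, if (m < S.cls b ∧ y ∈ S.Q b) ∧ ¬ Disjoint (S.Q b) (S.Q (bs s))
            then q b * E y else 0 := by
        intro s _
        unfold NB
        rw [Finset.sum_filter]
        refine Finset.sum_congr rfl fun b _ => ?_
        split_ifs with hb
        · rw [Finset.mul_sum, ← Finset.sum_filter]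
          refine Finset.sum_congr ?_ fun y _ => rfl
          ext y
          simp only [Finset.mem_filter, Finset.mem_univ, true_and]
          tauto
        · symm
          refine Finset.sum_eq_zero fun y _ => ?_
          rw [if_neg]
          tauto
      rw [Finset.sum_congr rfl e2, Finset.sum_comm]
      have e3 : ∀ b : 𝔅, ∑ s ∈ good, ∑ y, (if (m < S.cls b ∧ y ∈ S.Q b) ∧
          ¬ Disjoint (S.Q b) (S.Q (bs s)) then q b * E y else 0) =
          ∑ y, if m < S.cls b ∧ y ∈ S.Q b then E y *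
            (q b * ((good.filter fun s => ¬ Disjoint (S.Q b) (S.Q (bs s))).card : ℝ)) else 0 := by
        intro b
        rw [Finset.sum_comm]
        refine Finset.sum_congr rfl fun y _ => ?_
        split_ifs with hy
        · simp only [hy.1, hy.2, and_self, true_and]
          rw [← Finset.sum_filter, Finset.sum_const, nsmul_eq_mul]
          ring
        · exact Finset.sum_eq_zero fun s _ => if_neg fun h => hy h.1
      rw [Finset.sum_congr rfl fun b _ => e3 b, Finset.sum_comm]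
      refine Finset.sum_congr rfl fun y _ => ?_
      rw [Finset.mul_sum, ← Finset.sum_filter]
    rw [e1, Finset.mul_sum]
    refine Finset.sum_le_sum fun y _ => ?_
    rw [mul_comm qc]
    exact mul_le_mul_of_nonneg_left (S3 y) (hE y)
  have h3 := mul_le_mul_of_nonneg_left h1 (show (0:ℝ) ≤ 2 * qb by positivity)
  have h4 := mul_le_mul_of_nonneg_left h2 (show (0:ℝ) ≤ 2 by norm_num)
  linarith

end main

end Pool.Agent.Lib.MP_562b47_mp.LH
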