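import Pool.Agent.Lib.MP_562b47_mp.LH.Main
import Pool.Agent.Lib.MP_562b47_mp.LH.Sum
import Pool.Agent.Lib.MP_562b47_mp.LH.Near
import Pool.Agent.Lib.MP_562b47_mp.LH.Bad
import Pool.Agent.Lib.MP_562b47_mp.LH.Fub
import Pool.Agent.Lib.MP_562b47_mp.LH.EA

/-!
MP_562b47, Lemma H': lowering of the background (final form).
-/

open MeasureTheory Matrix Finset

namespace Pool.Agent.Lib.MP_562b47_mp.LH

open Pool.Agent.Lib.MP_562b47_mp.AL Pool.Agent.Lib.MP_562b47_mp.WO Pool.Agent.Lib.MP_562b47_mp.LW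
  Pool.Agent.Lib.MP_562b47_mp

section num

variable {ι 𝔅 κ' : Type} [Fintype ι] [DecidableEq ι] [Fintype 𝔅] [DecidableEq 𝔅] [Fintype κ']
  {S : Sys ι 𝔅} {A : Matrix ι ι ℝ} {m : ℕ} {a : ℝ} {ξ : κ' → ι → ℝ} {good : Finset ι}
  {bs : ι → 𝔅} {l0 C : ℝ} {Z0 W0 D0 K2 Nn qb qc : ℝ} {q : 𝔅 → ℝ}

theorem Num.NB_le (h : Num S A m a ξ good bs l0 C Z0 W0 D0 K2 Nn qb qc q) :
    ∀ s ∈ good, ∑ b ∈ NB S m (bs s), q b ≤ qb := by
  intro s hs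
  refine le_trans (le_of_eq ?_) (h.S1 s hs)
  unfold NB
  congr!

theorem Num.sumHyp (h : Num S A m a ξ good bs l0 C Z0 W0 D0 K2 Nn qb qc q) :
    SumHyp S m good bs Nn qb qc q := by
  classical
  intro E hE
  refine ⟨?_, ?_⟩
  · refine sum_one S good bs E hE Nn fun y => ?_
    convert h.S2 y
  · refine sum_far S m good bs q h.q_nonneg E hE qb Nn qc h.qb_nonneg h.qb_le h.NB_le ?_ ?_
    · intro y
      convert h.S2 y
    · intro y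
      convert h.S3 y

theorem Num.sum_le_one (h : Num S A m a ξ good bs l0 C Z0 W0 D0 K2 Nn qb qc q) :
    ∀ s ∈ good, ∑ σ ∈ (Adm S m (bs s)).filter (·.Nonempty), ∏ b ∈ σ, q b ≤ 1 := by
  intro s hs
  have h1 := sum_Adm_one S m (bs s) q h.q_nonneg qb (by linarith [h.qb_le]) (h.NB_le s hs)
  linarith [h.qb_le]

end num

section bad

variable {ι 𝔅 κ' : Type} [Fintype ι] [DecidableEq ι] [Fintype 𝔅] [DecidableEq 𝔅] [Fintype κ']
  (S : Sys ι 𝔅) {A : Matrix ι ι ℝ} {m : ℕ} {a η : ℝ} {ξ : κ' → ι → ℝ} {V : ι → ℝ}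
  {Ac : Finset 𝔅}

theorem gam_uA_ge (hS : WO.Good S A) (hη : η ≤ a) (hη' : ∀ b, m < S.cls b → η ≤ S.et (S.cls b))
    (hA : Ac ⊆ S.Comp V) (x : ι) : η ≤ gam (S.uA A m a Ac V) x := by
  unfold gam
  by_cases h : ∃ b ∈ Ac, x = S.w b
  · obtain ⟨b, hb, rfl⟩ := h
    rw [S.uA_w' hA hb, Complex.sub_im, Complex.ofReal_im, Complex.im_ofReal_mul, Complex.I_im]
    have h1 := hS.g_pos b V ((S.mem_Comp).mp (hA hb))
    split_ifs with h2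
    · linarith [hη' b h2]
    · linarith
  · push Not at h
    rw [S.uA_off h, Complex.sub_im, Complex.ofReal_im, Complex.im_ofReal_mul, Complex.I_im]
    rcases S.bk_cases m a V x with h1 | ⟨b, hb, hm, hx, h1⟩
    · rw [h1.2]; linarith
    · rw [h1]; linarith [hη' b hm]

/-- the crude bound at a bad site -/
theorem bad_le (hS : WO.Good S A) {N : ι → Finset ι} {d : ℝ} (hG : ST.Geo A ξ N d) (hη0 : 0 < η)
    (hη : η ≤ a) (hη' : ∀ b, m < S.cls b → η ≤ S.et (S.cls b)) (s : ι) :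
    S.Ex A (S.pim m 0) (fun Ac V => -S.dDs A ξ m a s Ac V) ≤
      10 * Fintype.card κ' * d ^ 2 / η ^ 3 := by
  have ha : 0 < a := lt_of_lt_of_le hη0 hη
  have hp := S.adm_pim m (le_refl 0) zero_le_one
  have hb : Sys.Bdd S fun Ac V => -S.dDs A ξ m a s Ac V := by
    have := (S.bdd_dDs hS ξ m ha s).mul_const S (-1)
    simpa using this
  rw [← S.Ex_const (A := A) (p := S.pim m 0) (10 * Fintype.card κ' * d ^ 2 / η ^ 3)]
  refine S.Ex_mono hS hp hb (Sys.Bdd.const S _) fun V Ac hA => ?_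
  have hL := S.uA_loss (m := m) hS ha hA
  have h1 := abs_dD_le hG hS.symm hL hη0 (gam_uA_ge S hS hη hη' hA) s
  have h0 : 0 ≤ 10 * Fintype.card κ' * d ^ 2 / η ^ 3 := (abs_nonneg _).trans h1
  unfold Sys.dDs
  rcases S.msk_cases hS m hA s with h | h
  · rw [h.1]; simpa using h0
  · rw [h.1, one_mul]; exact (neg_le_abs _).trans h1

end bad

/-- all parts of the rate inequality -/
theorem parts {ι 𝔅 κ' : Type} [Fintype ι] [DecidableEq ι] [Fintype 𝔅] [DecidableEq 𝔅] [Fintype κ']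
    {S : Sys ι 𝔅} {A : Matrix ι ι ℝ} {m : ℕ} {a : ℝ} {ξ : κ' → ι → ℝ} {good : Finset ι}
    {bs : ι → 𝔅} {j0 j1 l0 G0 : ℝ} (hG : WO.Good S A) (hgeo : Geo S m ξ good bs j0 j1 l0)
    (ha : 0 < a) (ha1 : a ≤ 1 / 2) (hG0 : ∀ b V, S.comp b V → (S.gg A b V)⁻¹ ≤ G0) :
    Parts S A m a ξ good bs j0 j1 l0 (Pc.Cst S.c S.r S.κ l0) where
  pieces := fun s => Pc.pieces hG ξ m s ha (by linarith) hgeo.l0_pos hgeo.l0_le hG0
  EA_le := fun _ hs _ hσ => EA_le_EY hG hgeo ha hs (Finset.mem_filter.mp hσ).2.1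
  EY_nonneg := fun y => NR.EY_nonneg hG ξ m ha y
  EG_nonneg := fun b => NR.EG_nonneg hG ξ m ha b
  sum_EY := NR.sum_EY hG ξ m ha
  sum_EG := NR.sum_EG hG ξ m ha good bs hgeo.bs_w

/-- RATE INEQUALITY, final form (one value of the background) -/
theorem rate_fin (c l1 : ℝ) (hc : 0 < c) (hl1 : 0 < l1) : ∃ C : ℝ, 1 ≤ C ∧
    ∀ (ι 𝔅 κ' : Type) [Fintype ι] [DecidableEq ι] [Fintype 𝔅] [DecidableEq 𝔅] [Fintype κ']
      (S : Sys ι 𝔅) (A : Matrix ι ι ℝ) (m : ℕ) (a : ℝ) (ξ : κ' → ι → ℝ) (good : Finset ι)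
      (bs : ι → 𝔅) (j0 j1 l0 : ℝ), S.c = c → WO.Good S A → Geo S m ξ good bs j0 j1 l0 →
      l1 ≤ j1 - j0 → 0 < a → a ≤ 1 / 2 →
    ∀ (Z0 W0 D0 K2 Nn qb qc : ℝ) (q : 𝔅 → ℝ),
      Num S A m a ξ good bs l0 C Z0 W0 D0 K2 Nn qb qc q →
    ∀ Cp : ℝ, 0 ≤ Cp → Parts S A m a ξ good bs j0 j1 l0 Cp →
    ∀ (N : ι → Finset ι) (d η e1 : ℝ), ST.Geo A ξ N d → 0 < η → η ≤ a →
      (∀ b, m < S.cls b → η ≤ S.et (S.cls b)) → 0 ≤ e1 →
      10 * Fintype.card κ' * d ^ 2 / η ^ 3 * ((univ \ good).card : ℝ) ≤ e1 * Fintype.card ι →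
      S.Ex A (S.pim m 0) (fun Ac V => -S.dDw A ξ m a Ac V) ≤
        ((2 * (C * (Cp + 1)) * (Z0 * (W0 + (2 + 2 * D0) * Nn) + C * (Cp + 1) * (2 + 2 * D0) * Nn)) *
            a ^ (-(7 / 8) : ℝ) +
          (C * (Cp + 1) * K2 * (2 * Nn * qb + 2 * qc)) * a⁻¹ +
            (C * (Cp + 1) * (2 * D0 + 1) + e1)) * (S.Dw A ξ m 0 a + (Fintype.card ι : ℝ)) := by
  obtain ⟨C, hC, H⟩ := rate c l1 hc hl1
  refine ⟨C, hC, ?_⟩
  intro ι 𝔅 κ' _ _ _ _ _ S A m a ξ good bs j0 j1 l0 hSc hG hgeo hlj ha ha1 Z0 W0 D0 K2 Nn qb qc q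
    hN Cp hCp hP N d η e1 hgeoA hη0 hη hη' he1 hbad
  have hB : 0 ≤ 10 * Fintype.card κ' * d ^ 2 / η ^ 3 := by positivity
  have h3 := H ι 𝔅 κ' S A m a ξ good bs j0 j1 l0 hSc hG hgeo hlj ha ha1 Z0 W0 D0 K2 Nn
    qb qc q hN hN.sumHyp hN.sum_le_one Cp
    (10 * Fintype.card κ' * d ^ 2 / η ^ 3) hCp hP hB
    fun s _ => bad_le S hG hgeoA hη0 hη hη' s
  refine h3.trans ?_
  have hD : 0 ≤ S.Dw A ξ m 0 a := by
    unfold Sys.Dw
    exact S.Ex_nonneg hG (S.adm_pim m (le_refl 0) zero_le_one) fun V Ac hA =>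
      DU_nonneg ξ (S.uA_loss hG ha hA)
  have h4 : e1 * Fintype.card ι ≤ e1 * (S.Dw A ξ m 0 a + Fintype.card ι) :=
    mul_le_mul_of_nonneg_left (by linarith) he1
  linarith

end Pool.Agent.Lib.MP_562b47_mp.LH
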