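import Mathlib

/-!
MP_562b47, Lemma H': the numerical inequality behind `LH.Num`.
-/

namespace Pool.Agent.Lib.MP_562b47_mp.LH

open Real

/-- product of two exponential bounds -/
theorem mul_le_exp {x y a b T : ℝ} (hx : 0 ≤ x) (hy : 0 ≤ y) (h1 : x ≤ exp (a * T))
    (h2 : y ≤ exp (b * T)) : x * y ≤ exp ((a + b) * T) ∧ 0 ≤ x * y := by
  refine ⟨?_, mul_nonneg hx hy⟩
  rw [add_mul, exp_add]
  exact mul_le_mul h1 h2 hy (exp_pos _).le

theorem le_exp_self (x : ℝ) : x ≤ exp x := by linarith [add_one_le_exp x]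

/-- power of an exponential bound -/
theorem pow_le_exp {x a t : ℝ} (hx : 0 ≤ x) (h : x ≤ exp a) (ha : 0 ≤ a) (n : ℕ)
    (hn : (n : ℝ) ≤ t) : x ^ n ≤ exp (t * a) := by
  calc x ^ n ≤ exp a ^ n := pow_le_pow_left₀ hx h n
    _ = exp (n * a) := by rw [← exp_nat_mul]
    _ ≤ exp (t * a) := exp_le_exp.2 (mul_le_mul_of_nonneg_right hn ha)

section num

variable {C C1 α M : ℝ}

theorem M_pow_le (hM : 1 ≤ M) (i : ℕ) (hi : i ≤ 5) : M ^ i ≤ M ^ 5 :=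
  pow_le_pow_right₀ hM hi

/-- `log`-type factor: `L ≤ C1 M^12` gives `L ≤ exp ((C1 + 12) M)` -/
theorem L_le (hC1 : 1 ≤ C1) (hM : 1 ≤ M) {L : ℝ} (hL : L ≤ C1 * M ^ 12) :
    L ≤ exp ((C1 + 12) * M) := by
  have h1 : M ^ 12 ≤ exp (12 * M) := by
    have := pow_le_exp (t := 12) (by linarith) (le_exp_self M) (by linarith) 12 (by norm_num)
    simpa using this
  have h2 : C1 ≤ exp (C1 * M) := (le_exp_self C1).trans (exp_le_exp.2 (by nlinarith))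
  calc L ≤ C1 * M ^ 12 := hL
    _ ≤ exp (C1 * M) * exp (12 * M) :=
        mul_le_mul h2 h1 (by positivity) (exp_pos _).le
    _ = exp ((C1 + 12) * M) := by rw [← exp_add]; ring_nf

/-- the constant of `ZZ` -/
noncomputable def CZ (C C1 α : ℝ) : ℝ :=
  log C * (15 * C1 + 3) + 2 * (36 * C1 ^ 2) +
    14 * C1 * (107 + 16 * C1 + 6 * log α + 6 * C1) + 6 * C1 * (C1 + 12)

/-- the constant of the prefactor -/
noncomputable def CP (C1 : ℝ) : ℝ := 15 + (19 + ((C1 + 12) + 4 * C1)) + (35 + C1)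

theorem CZ_nonneg (hC : 1 ≤ C) (hC1 : 1 ≤ C1) (hα : 1 ≤ α) : 0 ≤ CZ C C1 α := by
  have h1 := log_nonneg hC
  have h2 := log_nonneg hα
  unfold CZ
  positivity

theorem CP_nonneg (hC1 : 1 ≤ C1) : 0 ≤ CP C1 := by unfold CP; positivity

/-- bound of `ZZ` -/
theorem zz_le (hC : 1 ≤ C) (hC1 : 1 ≤ C1) (hα : 1 ≤ α) (hM : 1 ≤ M) {nB nF nL n : ℕ}
    (hB : (nB : ℝ) ≤ 5 * C1 * M ^ 2) (hF : (nF : ℝ) ≤ 5 * C1 * M ^ 2)
    (hLm : (nL : ℝ) ≤ 5 * C1 * M ^ 2) (hn : (n : ℝ) ≤ 5 * C1 * M ^ 2) {Γ0 L : ℝ}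
    (hΓ1 : 1 ≤ Γ0) (hΓ : Γ0 ≤ exp (4 * C1 * M ^ 3)) (hL0 : 0 ≤ L) (hL : L ≤ C1 * M ^ 12) :
    C ^ (3 * nB + 3) * ((nF + 1).factorial : ℝ) ^ 2 *
      (108 * (Γ0 ^ 4 * α ^ 6) * (n + 1)) ^ (2 * nF + 4) * L ^ (nL + 1) ≤
      exp (CZ C C1 α * M ^ 5) := by
  have hM2 : 1 ≤ M ^ 2 := one_le_pow₀ hM
  have hM3 : 1 ≤ M ^ 3 := one_le_pow₀ hM
  have hM5 : 1 ≤ M ^ 5 := one_le_pow₀ hM
  have h25 := M_pow_le hM 2 (by norm_num)
  have h35 := M_pow_le hM 3 (by norm_num)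
  have h45 := M_pow_le hM 4 (by norm_num)
  have hlC := log_nonneg hC
  have hlα := log_nonneg hα
  have hCM : 1 ≤ C1 * M ^ 2 := by nlinarith
  -- (c)
  have hc : C ^ (3 * nB + 3) ≤ exp (log C * (15 * C1 + 3) * M ^ 5) := by
    have h1 : C ≤ exp (log C) := by rw [exp_log (by linarith)]
    refine (pow_le_exp (t := (15 * C1 + 3) * M ^ 5) (by linarith) h1 hlC _ ?_).trans
      (exp_le_exp.2 (le_of_eq (by ring)))
    push_cast
    have : C1 * M ^ 2 ≤ C1 * M ^ 5 := mul_le_mul_of_nonneg_left h25 (by linarith)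
    nlinarith
  -- (d)
  have hd1 : ((nF + 1 : ℕ) : ℝ) ≤ 6 * C1 * M ^ 2 := by push_cast; linarith
  have hd : ((nF + 1).factorial : ℝ) ^ 2 ≤ exp (2 * (36 * C1 ^ 2) * M ^ 5) := by
    have h1 : ((nF + 1).factorial : ℝ) ≤ ((nF + 1 : ℕ) : ℝ) ^ (nF + 1) := by
      exact_mod_cast Nat.factorial_le_pow (nF + 1)
    have h2 : ((nF + 1 : ℕ) : ℝ) ^ (nF + 1) ≤ exp (6 * C1 * M ^ 2 * ((nF + 1 : ℕ) : ℝ)) :=
      pow_le_exp (by positivity) (le_exp_self _) (by positivity) _ hd1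
    have h3 : 6 * C1 * M ^ 2 * ((nF + 1 : ℕ) : ℝ) ≤ 36 * C1 ^ 2 * M ^ 5 := by
      calc 6 * C1 * M ^ 2 * ((nF + 1 : ℕ) : ℝ) ≤ 6 * C1 * M ^ 2 * (6 * C1 * M ^ 2) :=
            mul_le_mul_of_nonneg_left hd1 (by positivity)
        _ = 36 * C1 ^ 2 * M ^ 4 := by ring
        _ ≤ 36 * C1 ^ 2 * M ^ 5 := mul_le_mul_of_nonneg_left h45 (by positivity)
    have h4 : ((nF + 1).factorial : ℝ) ≤ exp (36 * C1 ^ 2 * M ^ 5) :=
      h1.trans (h2.trans (exp_le_exp.2 h3))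
    calc ((nF + 1).factorial : ℝ) ^ 2 ≤ exp (36 * C1 ^ 2 * M ^ 5) ^ 2 :=
          pow_le_pow_left₀ (by positivity) h4 2
      _ = exp (2 * (36 * C1 ^ 2) * M ^ 5) := by
          rw [← exp_nat_mul]; push_cast; ring_nf
  -- (e)
  have he1 : 108 * (Γ0 ^ 4 * α ^ 6) * ((n : ℝ) + 1) ≤
      exp ((107 + 16 * C1 + 6 * log α + 6 * C1) * M ^ 3) := by
    have e1 : (108 : ℝ) ≤ exp (107 * M ^ 3) := by
      have : (108 : ℝ) ≤ exp 107 := by linarith [add_one_le_exp (107 : ℝ)]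
      exact this.trans (exp_le_exp.2 (by linarith))
    have e2 : Γ0 ^ 4 ≤ exp (16 * C1 * M ^ 3) := by
      have := pow_le_exp (t := 4) (by linarith) hΓ (by positivity) 4 (by norm_num)
      refine this.trans (exp_le_exp.2 (by linarith))
    have e3 : α ^ 6 ≤ exp (6 * log α * M ^ 3) := by
      have h1 : α ≤ exp (log α) := by rw [exp_log (by linarith)]
      have := pow_le_exp (t := 6) (by linarith) h1 hlα 6 (by norm_num)
      refine this.trans (exp_le_exp.2 ?_)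
      nlinarith
    have e4 : (n : ℝ) + 1 ≤ exp (6 * C1 * M ^ 3) := by
      refine (le_exp_self _).trans (exp_le_exp.2 ?_)
      have h23 : M ^ 2 ≤ M ^ 3 := pow_le_pow_right₀ hM (by norm_num)
      have : C1 * M ^ 2 ≤ C1 * M ^ 3 := mul_le_mul_of_nonneg_left h23 (by linarith)
      linarith
    have hΓ4 : 0 ≤ Γ0 ^ 4 := by positivity
    have hα6 : 0 ≤ α ^ 6 := by positivity
    obtain ⟨f1, f1'⟩ := mul_le_exp hΓ4 hα6 e2 e3
    obtain ⟨f2, f2'⟩ := mul_le_exp (by norm_num) f1' e1 f1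
    obtain ⟨f3, _⟩ := mul_le_exp f2' (by positivity : (0:ℝ) ≤ (n : ℝ) + 1) f2 e4
    refine f3.trans (exp_le_exp.2 (le_of_eq (by ring)))
  have he : (108 * (Γ0 ^ 4 * α ^ 6) * ((n : ℝ) + 1)) ^ (2 * nF + 4) ≤
      exp (14 * C1 * (107 + 16 * C1 + 6 * log α + 6 * C1) * M ^ 5) := by
    have hK : 0 ≤ 107 + 16 * C1 + 6 * log α + 6 * C1 := by positivity
    refine (pow_le_exp (t := 14 * C1 * M ^ 2) (by positivity) he1 (by positivity) _ ?_).trans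
      (exp_le_exp.2 (le_of_eq (by ring)))
    push_cast
    linarith
  -- (f)
  have hf : L ^ (nL + 1) ≤ exp (6 * C1 * (C1 + 12) * M ^ 5) := by
    refine (pow_le_exp (t := 6 * C1 * M ^ 2) hL0 (L_le hC1 hM hL) (by positivity) _ ?_).trans
      (exp_le_exp.2 ?_)
    · push_cast; linarith
    · calc 6 * C1 * M ^ 2 * ((C1 + 12) * M) = 6 * C1 * (C1 + 12) * M ^ 3 := by ring
        _ ≤ 6 * C1 * (C1 + 12) * M ^ 5 := mul_le_mul_of_nonneg_left h35 (by positivity)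
  obtain ⟨g1, g1'⟩ := mul_le_exp (by positivity) (by positivity) hc hd
  obtain ⟨g2, g2'⟩ := mul_le_exp g1' (by positivity) g1 he
  obtain ⟨g3, _⟩ := mul_le_exp g2' (by positivity) g2 hf
  exact g3

/-- bound of the prefactor -/
theorem pre_le (hC1 : 1 ≤ C1) (hM : 1 ≤ M) {k : ℕ} (hk : k ≤ 4) {L G D : ℝ} (hL0 : 0 ≤ L)
    (hL : L ≤ C1 * M ^ 12) (hG1 : 1 ≤ G) (hG : G ≤ exp (4 * C1 * M ^ 3)) (hD0 : 0 ≤ D)
    (hD : D ≤ 16 * C1 * M ^ 2) :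
    2 ^ k * (2 + 2 * L * G + 4 * (k : ℝ)) * (2 + 2 * D) ≤ exp (CP C1 * M ^ 5) := by
  have hM2 : 1 ≤ M ^ 2 := one_le_pow₀ hM
  have hM5 : 1 ≤ M ^ 5 := one_le_pow₀ hM
  have h15 : M ≤ M ^ 5 := by simpa using M_pow_le hM 1 (by norm_num)
  have h25 := M_pow_le hM 2 (by norm_num)
  have h35 := M_pow_le hM 3 (by norm_num)
  have hk' : (k : ℝ) ≤ 4 := by exact_mod_cast hk
  have ha : (2 : ℝ) ^ k ≤ exp (15 * M ^ 5) := by
    have h1 : (2 : ℝ) ^ k ≤ 2 ^ 4 := pow_le_pow_right₀ (by norm_num) hk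
    have h2 : (16 : ℝ) ≤ exp 15 := by linarith [add_one_le_exp (15 : ℝ)]
    have h3 : exp 15 ≤ exp (15 * M ^ 5) := exp_le_exp.2 (by linarith)
    linarith
  have hL' : L ≤ exp ((C1 + 12) * M ^ 5) :=
    (L_le hC1 hM hL).trans (exp_le_exp.2 (mul_le_mul_of_nonneg_left h15 (by positivity)))
  have hG' : G ≤ exp (4 * C1 * M ^ 5) :=
    hG.trans (exp_le_exp.2 (mul_le_mul_of_nonneg_left h35 (by positivity)))
  obtain ⟨h1, h1'⟩ := mul_le_exp hL0 (by linarith) hL' hG'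
  have hb : 2 + 2 * L * G + 4 * (k : ℝ) ≤ exp ((19 + ((C1 + 12) + 4 * C1)) * M ^ 5) := by
    have e1 : 1 ≤ exp (((C1 + 12) + 4 * C1) * M ^ 5) := one_le_exp (by positivity)
    have e2 : (20 : ℝ) ≤ exp (19 * M ^ 5) := by
      have : (20 : ℝ) ≤ exp 19 := by linarith [add_one_le_exp (19 : ℝ)]
      exact this.trans (exp_le_exp.2 (by linarith))
    rw [add_mul, exp_add]
    nlinarith
  have hg : 2 + 2 * D ≤ exp ((35 + C1) * M ^ 5) := by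
    have e1 : 2 + 2 * D ≤ 34 * (C1 * M ^ 2) := by nlinarith
    have e2 : (34 : ℝ) ≤ exp (33 * M ^ 5) := by
      have : (34 : ℝ) ≤ exp 33 := by linarith [add_one_le_exp (33 : ℝ)]
      exact this.trans (exp_le_exp.2 (by linarith))
    have e3 : C1 ≤ exp (C1 * M ^ 5) := (le_exp_self C1).trans (exp_le_exp.2 (by nlinarith))
    have e4 : M ^ 2 ≤ exp (2 * M ^ 5) := by
      have := pow_le_exp (t := 2) (by linarith) (le_exp_self M) (by linarith) 2 (by norm_num)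
      exact this.trans (exp_le_exp.2 (by linarith))
    obtain ⟨f1, f1'⟩ := mul_le_exp (by linarith) (by positivity) e3 e4
    obtain ⟨f2, _⟩ := mul_le_exp (by norm_num) f1' e2 f1
    refine e1.trans (f2.trans (exp_le_exp.2 (le_of_eq (by ring))))
  have hpos : 0 ≤ 2 + 2 * L * G + 4 * (k : ℝ) := by
    have : 0 ≤ L * G := h1'
    nlinarith [Nat.cast_nonneg (α := ℝ) k]
  obtain ⟨f1, f1'⟩ := mul_le_exp (by positivity) hpos ha hb
  obtain ⟨f2, _⟩ := mul_le_exp f1' (by linarith) f1 hg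
  exact f2

/-- the summability condition -/
theorem sumcond (hC1 : 1 ≤ C1) {x : ℝ} (hx : 3 * C1 ≤ x) (hx2 : 2 ≤ x) :
    C1 ^ 3 * x ^ 6 * exp (-x ^ 5) ≤ exp (-x) := by
  have h1 : C1 ^ 3 ≤ exp (3 * C1) :=
    (pow_le_exp (t := 3) (by linarith) (le_exp_self C1) (by linarith) 3 (by norm_num))
  have h2 : x ^ 6 ≤ exp (6 * x) :=
    (pow_le_exp (t := 6) (by linarith) (le_exp_self x) (by linarith) 6 (by norm_num))
  have h3 : C1 ^ 3 * x ^ 6 ≤ exp (3 * C1) * exp (6 * x) :=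
    mul_le_mul h1 h2 (by positivity) (exp_pos _).le
  have h4 : 16 * x ≤ x ^ 5 := by
    have : (2 : ℝ) ^ 4 ≤ x ^ 4 := pow_le_pow_left₀ (by norm_num) hx2 4
    nlinarith
  calc C1 ^ 3 * x ^ 6 * exp (-x ^ 5) ≤ exp (3 * C1) * exp (6 * x) * exp (-x ^ 5) :=
        mul_le_mul_of_nonneg_right h3 (exp_pos _).le
    _ = exp (3 * C1 + 6 * x + -x ^ 5) := by rw [exp_add, exp_add]
    _ ≤ exp (-x) := exp_le_exp.2 (by linarith)

end num

end Pool.Agent.Lib.MP_562b47_mp.LH
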