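import Pool.Agent.Lib.MP_562b47_mp.LH.Defs
import Pool.Agent.Lib.MP_562b47_mp.WO.Weights

/-!
MP_562b47, Lemma H', pieces: the set of complete blocks as a function of the potential at one site.
-/

open MeasureTheory Matrix Finset

set_option linter.unusedSectionVars false

namespace Pool.Agent.Lib.MP_562b47_mp.LH.Pc

open Pool.Agent.Lib.MP_562b47_mp.AL Pool.Agent.Lib.MP_562b47_mp.WO Pool.Agent.Lib.MP_562b47_mp

variable {ι 𝔅 κ' : Type*} [Fintype ι] [DecidableEq ι] [Fintype 𝔅] [DecidableEq 𝔅] [Fintype κ']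
  {S : Sys ι 𝔅} {A : Matrix ι ι ℝ} {m : ℕ} {a : ℝ} {s : ι} {V : ι → ℝ}

theorem mem_CC {b : 𝔅} : b ∈ CC S m V ↔ S.comp b V ∧ m < S.cls b := by
  unfold CC
  rw [mem_filter, S.mem_Comp]

theorem CC_sub : CC S m V ⊆ S.Comp V := filter_subset _ _

theorem CC_disj {b b' : 𝔅} (hb : b ∈ CC S m V) (hb' : b' ∈ CC S m V) (h : b ≠ b') :
    Disjoint (S.Q b) (S.Q b') := S.Comp_disj (CC_sub hb) (CC_sub hb') h

theorem mem_CN {b : 𝔅} : b ∈ CN S m s V ↔ S.comp b V ∧ m < S.cls b ∧ s ∉ S.Q b := by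
  unfold CN
  rw [mem_filter, mem_CC, and_assoc]

theorem mem_CW {b : 𝔅} : b ∈ CW S m s V ↔ S.comp b V ∧ m < S.cls b ∧ S.w b = s := by
  unfold CW
  rw [mem_filter, mem_CC, and_assoc]

theorem mem_AS {b : 𝔅} : b ∈ AS S m s V ↔ m < S.cls b ∧ s ∈ S.Q b ∧ s ≠ S.w b ∧
    ∀ x ∈ S.Q b, x ≠ S.w b → x ≠ s → V x ∈ Set.Icc (S.lo b x) (S.hi b x) := by
  unfold AS
  simp

/-- a block of `AS` is complete as soon as `V s` is in its window -/
theorem comp_of_AS {b : 𝔅} (hb : b ∈ AS S m s V) {v : ℝ}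
    (hv : v ∈ Set.Icc (S.lo b s) (S.hi b s)) : S.comp b (Function.update V s v) := by
  obtain ⟨_, _, _, h⟩ := mem_AS.mp hb
  intro x hx hxw
  by_cases hxs : x = s
  · subst hxs
    rw [Function.update_self]; exact hv
  · rw [Function.update_of_ne hxs]
    exact h x hx hxw hxs

theorem comp_update {b : 𝔅} (h : s ∉ S.Q b ∨ S.w b = s) (v : ℝ) :
    S.comp b (Function.update V s v) ↔ S.comp b V := by
  apply S.comp_congr
  intro x hx hxw
  rw [Function.update_of_ne]
  rintro rfl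
  rcases h with h | h
  · exact h hx
  · exact hxw h.symm

theorem CN_update (v : ℝ) : CN S m s (Function.update V s v) = CN S m s V := by
  ext b
  rw [mem_CN, mem_CN]
  constructor
  · rintro ⟨h1, h2, h3⟩
    exact ⟨(comp_update (Or.inl h3) v).mp h1, h2, h3⟩
  · rintro ⟨h1, h2, h3⟩
    exact ⟨(comp_update (Or.inl h3) v).mpr h1, h2, h3⟩

theorem CW_update (v : ℝ) : CW S m s (Function.update V s v) = CW S m s V := by
  ext b
  rw [mem_CW, mem_CW]
  constructor
  · rintro ⟨h1, h2, h3⟩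
    exact ⟨(comp_update (Or.inr h3) v).mp h1, h2, h3⟩
  · rintro ⟨h1, h2, h3⟩
    exact ⟨(comp_update (Or.inr h3) v).mpr h1, h2, h3⟩

theorem AS_update (v : ℝ) : AS S m s (Function.update V s v) = AS S m s V := by
  ext b
  rw [mem_AS, mem_AS]
  have key : (∀ x ∈ S.Q b, x ≠ S.w b → x ≠ s →
      Function.update V s v x ∈ Set.Icc (S.lo b x) (S.hi b x)) ↔
      ∀ x ∈ S.Q b, x ≠ S.w b → x ≠ s → V x ∈ Set.Icc (S.lo b x) (S.hi b x) := by
    constructor
    · intro h x hx hxw hxs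
      have := h x hx hxw hxs
      rwa [Function.update_of_ne hxs] at this
    · intro h x hx hxw hxs
      rw [Function.update_of_ne hxs]
      exact h x hx hxw hxs
  rw [key]

/-- two different almost complete blocks have disjoint windows at `s` -/
theorem AS_win {b b' : 𝔅} (hb : b ∈ AS S m s V) (hb' : b' ∈ AS S m s V) {v : ℝ}
    (hv : v ∈ Set.Icc (S.lo b s) (S.hi b s)) (hv' : v ∈ Set.Icc (S.lo b' s) (S.hi b' s)) :
    b = b' := by
  by_contra hne
  have h := S.disj b b' (Function.update V s v) hne (comp_of_AS hb hv) (comp_of_AS hb' hv')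
  exact (Finset.disjoint_left.mp h) (mem_AS.mp hb).2.1 (mem_AS.mp hb').2.1

/-- if a complete block has centre `s` then there is no almost complete block at `s` -/
theorem AS_of_CW {b : 𝔅} (hb : b ∈ CW S m s V) : AS S m s V = ∅ := by
  rw [Finset.eq_empty_iff_forall_notMem]
  intro b' hb'
  obtain ⟨h1, h2, h3⟩ := mem_CW.mp hb
  obtain ⟨k1, k2, k3, k4⟩ := mem_AS.mp hb'
  have hne : b ≠ b' := by
    rintro rfl
    exact k3 h3.symm
  have hv : S.lo b' s ∈ Set.Icc (S.lo b' s) (S.hi b' s) := ⟨le_refl _, (S.lo_lt b' s).le⟩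
  have h := S.disj b b' (Function.update V s (S.lo b' s)) hne
    ((comp_update (Or.inr h3) _).mpr h1) (comp_of_AS hb' hv)
  refine (Finset.disjoint_left.mp h) ?_ k2
  rw [← h3]
  exact S.w_mem b

theorem CW_single {b : 𝔅} (hb : b ∈ CW S m s V) : CW S m s V = {b} := by
  ext b'
  rw [mem_singleton]
  constructor
  · intro hb'
    by_contra hne
    obtain ⟨h1, h2, h3⟩ := mem_CW.mp hb
    obtain ⟨k1, k2, k3⟩ := mem_CW.mp hb'
    have h := S.disj b' b V hne k1 h1
    refine (Finset.disjoint_left.mp h) (S.w_mem b') ?_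
    rw [k3, ← h3]
    exact S.w_mem b
  · rintro rfl
    exact hb

/-- the complete blocks, `V s` outside all windows -/
theorem CC_rest {v : ℝ} (hv : ∀ b ∈ AS S m s V, v ∉ Set.Icc (S.lo b s) (S.hi b s)) :
    CC S m (Function.update V s v) = CN S m s V ∪ CW S m s V := by
  ext b
  rw [mem_union, mem_CC, mem_CN, mem_CW]
  constructor
  · rintro ⟨h1, h2⟩
    by_cases hs : s ∈ S.Q b
    · by_cases hw : S.w b = s
      · exact Or.inr ⟨(comp_update (Or.inr hw) v).mp h1, h2, hw⟩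
      · exfalso
        have hb : b ∈ AS S m s V := by
          rw [mem_AS]
          refine ⟨h2, hs, fun h => hw h.symm, fun x hx hxw hxs => ?_⟩
          have := h1 x hx hxw
          rwa [Function.update_of_ne hxs] at this
        have := h1 s hs fun h => hw h.symm
        rw [Function.update_self] at this
        exact hv b hb this
    · exact Or.inl ⟨(comp_update (Or.inl hs) v).mp h1, h2, hs⟩
  · rintro (⟨h1, h2, h3⟩ | ⟨h1, h2, h3⟩)
    · exact ⟨(comp_update (Or.inl h3) v).mpr h1, h2⟩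
    · exact ⟨(comp_update (Or.inr h3) v).mpr h1, h2⟩

/-- the complete blocks, `V s` in the window of `b` -/
theorem CC_win {b : 𝔅} (hb : b ∈ AS S m s V) {v : ℝ}
    (hv : v ∈ Set.Icc (S.lo b s) (S.hi b s)) :
    CC S m (Function.update V s v) = insert b (CN S m s V) := by
  ext b'
  rw [mem_insert, mem_CC, mem_CN]
  constructor
  · rintro ⟨h1, h2⟩
    by_cases hne : b' = b
    · exact Or.inl hne
    · refine Or.inr ?_
      have hd := S.disj b' b (Function.update V s v) hne h1 (comp_of_AS hb hv)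
      have hs : s ∉ S.Q b' := fun hs => (Finset.disjoint_left.mp hd) hs (mem_AS.mp hb).2.1
      exact ⟨(comp_update (Or.inl hs) v).mp h1, h2, hs⟩
  · rintro (rfl | ⟨h1, h2, h3⟩)
    · exact ⟨comp_of_AS hb hv, (mem_AS.mp hb).1⟩
    · exact ⟨(comp_update (Or.inl h3) v).mpr h1, h2⟩

theorem CC_out : CC S m (Function.update V s (S.c + 1)) = CN S m s V ∪ CW S m s V := by
  refine CC_rest fun b _ hv => ?_
  have := S.hi_le b s
  linarith [hv.2]

theorem CC_lo {b : 𝔅} (hb : b ∈ AS S m s V) :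
    CC S m (Function.update V s (S.lo b s)) = insert b (CN S m s V) :=
  CC_win hb ⟨le_refl _, (S.lo_lt b s).le⟩

theorem AS_not_CN {b : 𝔅} (hb : b ∈ AS S m s V) : b ∉ CN S m s V := fun h =>
  (mem_CN.mp h).2.2 (mem_AS.mp hb).2.1

theorem CN_CW_disj : Disjoint (CN S m s V) (CW S m s V) := by
  rw [Finset.disjoint_left]
  intro b h1 h2
  refine (mem_CN.mp h1).2.2 ?_
  rw [← (mem_CW.mp h2).2.2]
  exact S.w_mem b

/-! ### the weights and the potential -/

/-- the weight of the worlds, classes `> m` only -/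
theorem wt_pim_zero (V : ι → ℝ) {Ac : Finset 𝔅} (hA : Ac ⊆ S.Comp V) :
    S.wt A (S.pim m 0) V Ac = if Ac ⊆ CC S m V then wC S A (CC S m V) Ac V else 0 := by
  have p1 : ∀ b, m < S.cls b → S.pim m 0 b = 1 := fun b hb => by
    unfold Sys.pim
    rw [if_neg (by omega), if_neg (by omega)]
  have p0 : ∀ b, ¬ m < S.cls b → S.pim m 0 b = 0 := fun b hb => by
    unfold Sys.pim
    split_ifs
    · rfl
    · rfl
    · omega
  split_ifs with h
  · unfold Sys.wt wC
    have e1 : ∏ b ∈ Ac, S.pim m 0 b * S.hh A b V = ∏ b ∈ Ac, S.hh A b V := by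
      refine prod_congr rfl fun b hb => ?_
      rw [p1 b (mem_CC.mp (h hb)).2, one_mul]
    have e2 : ∏ b ∈ S.Comp V \ Ac, (1 - S.pim m 0 b * S.hh A b V) =
        ∏ b ∈ CC S m V \ Ac, (1 - S.hh A b V) := by
      have hsub : CC S m V \ Ac ⊆ S.Comp V \ Ac := sdiff_subset_sdiff CC_sub (le_refl _)
      rw [← prod_subset hsub]
      · refine prod_congr rfl fun b hb => ?_
        rw [p1 b (mem_CC.mp (mem_sdiff.mp hb).1).2, one_mul]
      · intro b hb hb'
        rw [mem_sdiff] at hb hb'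
        have : ¬ m < S.cls b := fun hm => by
          apply hb'
          exact ⟨mem_CC.mpr ⟨(S.mem_Comp).mp hb.1, hm⟩, hb.2⟩
        rw [p0 b this, zero_mul, sub_zero]
    rw [e1, e2]
  · obtain ⟨b, hb, hb'⟩ := Finset.not_subset.mp h
    have : ¬ m < S.cls b := fun hm => hb' (mem_CC.mpr ⟨(S.mem_Comp).mp (hA hb), hm⟩)
    unfold Sys.wt
    rw [prod_eq_zero hb, zero_mul]
    rw [p0 b this, zero_mul]

/-- the sum over the active sets, classes `> m` only -/
theorem Ei_pim_zero (F : Finset 𝔅 → (ι → ℝ) → ℝ) (V : ι → ℝ) :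
    S.Ei A (S.pim m 0) F V = ∑ Ac ∈ (CC S m V).powerset, wC S A (CC S m V) Ac V * F Ac V := by
  unfold Sys.Ei
  have hsub : (CC S m V).powerset ⊆ (S.Comp V).powerset := powerset_mono.mpr CC_sub
  rw [← sum_subset hsub]
  · refine sum_congr rfl fun Ac hAc => ?_
    have h := mem_powerset.mp hAc
    rw [wt_pim_zero V (h.trans CC_sub), if_pos h]
  · intro Ac hAc hAc'
    rw [mem_powerset] at hAc hAc'
    rw [wt_pim_zero V hAc, if_neg hAc', zero_mul]

theorem uA_eq_uC {Ac : Finset 𝔅} (hA : Ac ⊆ CC S m V) :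
    S.uA A m a Ac V = uC S A a (CC S m V) Ac V := by
  funext x
  unfold Sys.uA uC Sys.bk
  have e1 : (S.Comp V).filter (fun b => m < S.cls b) = CC S m V := rfl
  have e2 : (∑ b ∈ Ac, (if x = S.w b then ((S.ze A b V - V x : ℝ) : ℂ) -
      ((S.gg A b V + if m < S.cls b then S.et (S.cls b) - a else 0 : ℝ) : ℂ) * Complex.I else 0)) =
      ∑ b ∈ Ac, (if x = S.w b then ((S.ze A b V - V x : ℝ) : ℂ) -
      ((S.gg A b V + (S.et (S.cls b) - a) : ℝ) : ℂ) * Complex.I else 0) := by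
    refine sum_congr rfl fun b hb => ?_
    rw [if_pos (mem_CC.mp (hA hb)).2]
  rw [e1, e2]

theorem inn_update {b : 𝔅} (hs : s ∉ S.inn b) (v : ℝ) :
    ∀ x ∈ S.inn b, Function.update V s v x = V x := by
  intro x hx
  rw [Function.update_of_ne]
  rintro rfl
  exact hs hx

theorem gg_update {b : 𝔅} (hs : s ∉ S.inn b) (v : ℝ) :
    S.gg A b (Function.update V s v) = S.gg A b V := S.gg_congr A (inn_update hs v)

theorem ze_update {b : 𝔅} (hs : s ∉ S.inn b) (v : ℝ) :
    S.ze A b (Function.update V s v) = S.ze A b V := S.ze_congr A (inn_update hs v)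

theorem hh_update {b : 𝔅} (hs : s ∉ S.inn b) (hw : s ≠ S.w b) (v : ℝ) :
    S.hh A b (Function.update V s v) = S.hh A b V :=
  S.hh_congr A (inn_update hs v) (by rw [Function.update_of_ne (Ne.symm hw)])

/-- the weight does not see `V s` -/
theorem wC_update {C Ac : Finset 𝔅} (hA : Ac ⊆ C) (h : ∀ b ∈ C, s ∉ S.inn b ∧ s ≠ S.w b) (v : ℝ) :
    wC S A C Ac (Function.update V s v) = wC S A C Ac V := by
  unfold wC
  have e1 : ∏ b ∈ Ac, S.hh A b (Function.update V s v) = ∏ b ∈ Ac, S.hh A b V :=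
    prod_congr rfl fun b hb => hh_update (h b (hA hb)).1 (h b (hA hb)).2 v
  have e2 : ∏ b ∈ C \ Ac, (1 - S.hh A b (Function.update V s v)) =
      ∏ b ∈ C \ Ac, (1 - S.hh A b V) := by
    refine prod_congr rfl fun b hb => ?_
    have hb' := (mem_sdiff.mp hb).1
    rw [hh_update (h b hb').1 (h b hb').2 v]
  rw [e1, e2]

/-- the potential off `s` does not see `V s` -/
theorem uC_update {C Ac : Finset 𝔅} (h : ∀ b ∈ Ac, s ∉ S.inn b) (v : ℝ) {x : ι} (hx : x ≠ s) :
    uC S A a C Ac (Function.update V s v) x = uC S A a C Ac V x := by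
  unfold uC
  rw [Function.update_of_ne hx]
  have e2 : (∑ b ∈ Ac, (if x = S.w b then ((S.ze A b (Function.update V s v) - V x : ℝ) : ℂ) -
      ((S.gg A b (Function.update V s v) + (S.et (S.cls b) - a) : ℝ) : ℂ) * Complex.I else 0)) =
      ∑ b ∈ Ac, (if x = S.w b then ((S.ze A b V - V x : ℝ) : ℂ) -
      ((S.gg A b V + (S.et (S.cls b) - a) : ℝ) : ℂ) * Complex.I else 0) := by
    refine sum_congr rfl fun b hb => ?_
    rw [ze_update (h b hb), gg_update (h b hb)]
  rw [e2]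

theorem uC_update' {C Ac : Finset 𝔅} (h : ∀ b ∈ Ac, s ∉ S.inn b) (v : ℝ) (z : ℂ) :
    Function.update (uC S A a C Ac (Function.update V s v)) s z =
      Function.update (uC S A a C Ac V) s z := by
  funext x
  by_cases hx : x = s
  · subst hx; rw [Function.update_self, Function.update_self]
  · rw [Function.update_of_ne hx, Function.update_of_ne hx, uC_update h v hx]

theorem dD_uC_update {C Ac : Finset 𝔅} (h : ∀ b ∈ Ac, s ∉ S.inn b) (ξ : κ' → ι → ℝ) (v : ℝ)
    (z : ℂ) : dD A ξ (uC S A a C Ac (Function.update V s v)) s z =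
      dD A ξ (uC S A a C Ac V) s z := by
  rw [← dD_update ξ 0 z, uC_update' h v, dD_update]

theorem uC_lossOff (hS : Good S A) (ha : 0 < a) {C Ac : Finset 𝔅} {v : ℝ}
    (hC : CC S m (Function.update V s v) = C) (hA : Ac ⊆ C) (h : ∀ b ∈ Ac, s ∉ S.inn b) :
    LossOff (uC S A a C Ac V) s := by
  intro x hx
  rw [← uC_update h v hx, ← hC, ← uA_eq_uC (by rw [hC]; exact hA)]
  exact S.uA_loss hS ha ((by rw [hC]; exact hA : Ac ⊆ CC S m _).trans CC_sub) x

theorem wC_nonneg (hS : Good S A) {Ac : Finset 𝔅} (hA : Ac ⊆ CC S m V) :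
    0 ≤ wC S A (CC S m V) Ac V := by
  have h := S.wt_nonneg hS (S.adm_pim m (le_refl 0) zero_le_one) (hA.trans CC_sub) (V := V)
  rwa [wt_pim_zero V (hA.trans CC_sub), if_pos hA] at h

theorem wC_le_one (hS : Good S A) {Ac : Finset 𝔅} (hA : Ac ⊆ CC S m V) :
    wC S A (CC S m V) Ac V ≤ 1 := by
  have h := S.wt_le_one hS (S.adm_pim m (le_refl 0) zero_le_one) (hA.trans CC_sub) (V := V)
  rwa [wt_pim_zero V (hA.trans CC_sub), if_pos hA] at h

end Pool.Agent.Lib.MP_562b47_mp.LH.Pc
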