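import Pool.Agent.Lib.MP_562b47_mp.LH.CrudeA
import Pool.Agent.Lib.MP_562b47_mp.LW.Main

/-!
Far sources, crude bound: the local theorem integrated over the frozen sites and the exterior.
-/

open MeasureTheory Matrix Finset

set_option linter.unusedSectionVars false
set_option linter.unusedVariables false

namespace Pool.Agent.Lib.MP_562b47_mp.LH.FA

open Pool.Agent.Lib.MP_562b47_mp.AL Pool.Agent.Lib.MP_562b47_mp.WO Pool.Agent.Lib.MP_562b47_mp.LW
  Pool.Agent.Lib.MP_562b47_mp.LH Pool.Agent.Lib.MP_562b47_mp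

section core

variable {ι 𝔅 κ' : Type*} [Fintype ι] [DecidableEq ι] [Fintype 𝔅] [DecidableEq 𝔅] [Fintype κ']
variable {S : Sys ι 𝔅} {A : Matrix ι ι ℝ} {m : ℕ} {a : ℝ} {b0 : 𝔅} {σ σC σA Ac : Finset 𝔅} {s : ι}
  {V : ι → ℝ}

open Classical in
/-- the indicator of the windows -/
noncomputable def omw (S : Sys ι 𝔅) (σ : Finset 𝔅) (s : ι) (T : Finset ι) (V U : ι → ℝ) : ℝ :=
  if evw S σ s (mix T U V) then 1 else 0

theorem omw_meas (σ : Finset 𝔅) (s : ι) (T : Finset ι) (V : ι → ℝ) :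
    Measurable (omw S σ s T V) := by
  unfold omw
  exact Measurable.ite (((measurable_mix T).comp (measurable_const.prodMk measurable_id))
    (evw_meas σ s)) measurable_const measurable_const

theorem omw_nonneg (σ : Finset 𝔅) (s : ι) (T : Finset ι) (V U : ι → ℝ) : 0 ≤ omw S σ s T V U := by
  unfold omw; split_ifs <;> norm_num

theorem omw_le_one (σ : Finset 𝔅) (s : ι) (T : Finset ι) (V U : ι → ℝ) : omw S σ s T V U ≤ 1 := by
  unfold omw; split_ifs <;> norm_num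

open Classical in
/-- the functional of `FT` -/
noncomputable def FF (S : Sys ι 𝔅) (A : Matrix ι ι ℝ) (m : ℕ) (a : ℝ) (ξ : κ' → ι → ℝ) (b0 : 𝔅)
    (σ σC σA : Finset 𝔅) (s : ι) (e l : ℝ) (Ac : Finset 𝔅) (V : ι → ℝ) : ℝ :=
  if evw S σ s V then
    TI S A a ξ (univ \ Reg S b0 σ) s (CX S m (Reg S b0 σ) V ∪ σC) (Ac ∪ σA) V e l else 0

theorem FT_eq (ξ : κ' → ι → ℝ) (b0 : 𝔅) (σ σC σA : Finset 𝔅) (s : ι) (e l : ℝ) :
    FT S A m a ξ b0 σ σC σA s e l =
      FX.EX S A m (Reg S b0 σ) (FF S A m a ξ b0 σ σC σA s e l) := rfl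

theorem FF_meas (ξ : κ' → ι → ℝ) (b0 : 𝔅) (σ σC σA : Finset 𝔅) (s : ι) {e l : ℝ} (hl : 0 < l)
    (Ac : Finset 𝔅) : Measurable (FF S A m a ξ b0 σ σC σA s e l Ac) := by
  unfold FF
  refine Measurable.ite (evw_meas σ s) ?_ measurable_const
  exact FX.meas_of_CX (F := fun C V => TI S A a ξ (univ \ Reg S b0 σ) s (C ∪ σC) (Ac ∪ σA) V e l)
    fun C => TI_meas ξ _ (C ∪ σC) (Ac ∪ σA) e l hl

theorem CX_facts (hA : Ac ⊆ CX S m (Reg S b0 σ) V) :
    (∀ b ∈ CX S m (Reg S b0 σ) V, S.comp b V) ∧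
      (∀ b ∈ CX S m (Reg S b0 σ) V, Disjoint (S.Q b) (Reg S b0 σ)) ∧
      (∀ b ∈ Ac, Disjoint (S.Q b) (Reg S b0 σ)) :=
  ⟨fun b hb => (FX.mem_CX.mp hb).1.1, fun b hb => FX.CX_disj hb,
    fun b hb => FX.CX_disj (hA hb)⟩

theorem vv_loss (hG : Good S A) (ha : 0 < a) (hσ : PD S σ) (hCσ : σC ⊆ σ) (hAC : σA ⊆ σC)
    (h1 : ∀ b ∈ σC, s ∉ S.inn b) (hF : evF S σ s V) (hA : Ac ⊆ CX S m (Reg S b0 σ) V) :
    Loss (vv S A m a b0 σ σC σA Ac V) := by
  obtain ⟨h2, h3, _⟩ := CX_facts hA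
  exact uC_loss_union A hG ha h2 h3 hA hσ hCσ hAC h1 hF

theorem FF_BX (hG : Good S A) (ha : 0 < a) (ξ : κ' → ι → ℝ) (hs : S.w b0 = s) (hσ : PD S σ)
    (hCσ : σC ⊆ σ) (hAC : σA ⊆ σC) (h1 : ∀ b ∈ σC, s ∉ S.inn b) {e l : ℝ} (hl : 0 < l) :
    FX.BX S m (Reg S b0 σ) (FF S A m a ξ b0 σ σC σA s e l) := by
  refine ⟨fun Ac => FF_meas ξ b0 σ σC σA s hl Ac,
    (∑ x ∈ univ \ Reg S b0 σ, ff ξ x s * a⁻¹) * l, fun V Ac hA => ?_⟩
  unfold FF
  split_ifs with h
  · exact TI_abs_le hG.symm ha (fun h => (Finset.mem_sdiff.mp h).2 (s_mem_Reg hs))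
      (vv_loss hG ha hσ hCσ hAC h1 (evF_of_evw h) hA) hl
  · rw [abs_zero]
    refine mul_nonneg (Finset.sum_nonneg fun x _ => mul_nonneg (ff_nonneg ξ x s) ?_) hl.le
    exact (inv_pos.mpr ha).le

/-- the integrand of the left side for fixed frozen sites and exterior -/
theorem FF_mix (hG : Good S A) (ha : 0 < a) (ξ : κ' → ι → ℝ) (hs : S.w b0 = s) (hσ : PD S σ)
    (hCσ : σC ⊆ σ) (hAC : σA ⊆ σC) (h1 : ∀ b ∈ σC, s ∉ S.inn b) {e l : ℝ} (hl : 0 < l)
    (hF : evF S σ s V) (hA : Ac ⊆ CX S m (Reg S b0 σ) V) (U : ι → ℝ) :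
    FF S A m a ξ b0 σ σC σA s e l Ac (mix (Lm S b0 σ σA s) U V) =
      ∑ x ∈ univ \ Reg S b0 σ, gam (uC S A a (CX S m (Reg S b0 σ) V) Ac V) x * ff ξ x s *
        (omw S σ s (Lm S b0 σ σA s) V U * ∫ t in (0 : ℝ)..l,
          ‖GM A (Function.update (pot (Lm S b0 σ σA s) (fun _ => a) (vv S A m a b0 σ σC σA Ac V) U)
            s ((e : ℂ) - ((t + a : ℝ) : ℂ) * Complex.I)) s x‖ ^ 2) := by
  unfold FF omw
  by_cases h : evw S σ s (mix (Lm S b0 σ σA s) U V)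
  · rw [if_pos h, if_pos h]
    have hT : Lm S b0 σ σA s ⊆ Reg S b0 σ := Lm_sub_Reg
    have hA' : Ac ⊆ CX S m (Reg S b0 σ) (mix (Lm S b0 σ σA s) U V) := by
      rw [FX.CX_mix hT]; exact hA
    have hL := vv_loss hG ha hσ hCσ hAC h1 (evF_of_evw h) hA'
    unfold vv at hL
    rw [TI_sum hG.symm ha (fun h => (Finset.mem_sdiff.mp h).2 (s_mem_Reg hs)) hL hl]
    refine Finset.sum_congr rfl fun x hx => ?_
    have hxR := (Finset.mem_sdiff.mp hx).2
    obtain ⟨h2, h3, h4⟩ := CX_facts hA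
    have e1 : gam (uC S A a (CX S m (Reg S b0 σ) (mix (Lm S b0 σ σA s) U V) ∪ σC) (Ac ∪ σA)
        (mix (Lm S b0 σ σA s) U V)) x = gam (uC S A a (CX S m (Reg S b0 σ) V) Ac V) x := by
      have := gam_out (a := a) (A := A) hA hT U hxR
      rw [← this]
      unfold gam
      rw [uC_out A hCσ (hAC.trans hCσ) hxR]
    rw [e1, one_mul]
    congr 1
    refine intervalIntegral.integral_congr fun t _ => ?_
    rw [FX.CX_mix hT, uC_mix A hs h3 h4 hCσ hAC h1]
    rfl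
  · rw [if_neg h]
    symm
    apply Finset.sum_eq_zero
    intro x _
    rw [if_neg h, zero_mul, mul_zero]

theorem UU_int (hG : Good S A) (ha : 0 < a) (ξ : κ' → ι → ℝ) (hs : S.w b0 = s)
    {v : ι → ℂ} (hv : Loss v) (T : Finset ι) {om : (ι → ℝ) → ℝ} (hom : Measurable om)
    (hom0 : ∀ V, 0 ≤ om V) (hom1 : ∀ V, om V ≤ 1) {e l : ℝ} (hl : 0 < l) {x : ι} (hx : x ≠ s)
    (hxT : x ∉ T) {c : ℝ} (hc : 0 < c) :
    Integrable (fun U => om U * ∫ t in (0 : ℝ)..l,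
      ‖GM A (Function.update (pot T (fun _ => a) v U) s
        ((e : ℂ) - ((t + a : ℝ) : ℂ) * Complex.I)) s x‖ ^ 2) (muc ι c) := by
  have hp := muc_prob (ι := ι) hc
  have hm : Measurable fun U : ι → ℝ => ∫ t in (0 : ℝ)..l,
      ‖GM A (Function.update (pot T (fun _ => a) v U) s
        ((e : ℂ) - ((t + a : ℝ) : ℂ) * Complex.I)) s x‖ ^ 2 := by
    simp_rw [intervalIntegral.integral_of_le hl.le]
    have h1 : ∀ y, Measurable fun q : (ι → ℝ) × ℝ => pot T (fun _ => a) v q.1 y := fun y =>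
      FX.meas_pot T (fun _ => a) (v := fun _ => v) (fun _ => measurable_const) measurable_fst y
    have h : Measurable fun q : (ι → ℝ) × ℝ =>
        ‖GM A (Function.update (pot T (fun _ => a) v q.1) s
          ((e : ℂ) - ((q.2 + a : ℝ) : ℂ) * Complex.I)) s x‖ ^ 2 :=
      (measurable_GM' A (fun z => upd_meas h1 ((ust_meas e a).comp measurable_snd) s z)
        s x).norm.pow_const 2
    exact (h.stronglyMeasurable.integral_prod_right'
      (ν := (volume : Measure ℝ).restrict (Set.Ioc 0 l))).measurable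
  refine Integrable.of_bound (hom.mul hm).aestronglyMeasurable (a⁻¹ * (gam v x)⁻¹ * l)
    (Filter.Eventually.of_forall fun U => ?_)
  have hL : Loss (pot T (fun _ => a) v U) := by
    intro y
    unfold pot
    split_ifs
    · rw [Complex.sub_im, Complex.ofReal_im, Complex.im_ofReal_mul, Complex.I_im]
      linarith
    · exact hv y
  have hgx : gam (pot T (fun _ => a) v U) x = gam v x := by
    unfold gam pot
    rw [if_neg hxT]
  have hg := gam_pos hv x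
  have hI := intervalIntegral.norm_integral_le_of_norm_le_const (a := 0) (b := l)
    (f := fun t => ‖GM A (Function.update (pot T (fun _ => a) v U) s
        ((e : ℂ) - ((t + a : ℝ) : ℂ) * Complex.I)) s x‖ ^ 2)
    (C := a⁻¹ * (gam v x)⁻¹) (fun t ht => by
      rw [Set.uIoc_of_le hl.le] at ht
      rw [Real.norm_eq_abs, abs_of_nonneg (sq_nonneg _)]
      have h := entry_us (s := s) hG.symm ha hL (e := e) ht.1.le hx
      rw [hgx] at h
      rw [← div_eq_mul_inv, le_div_iff₀ hg]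
      linarith)
  rw [sub_zero, abs_of_pos hl] at hI
  rw [norm_mul, Real.norm_eq_abs, abs_of_nonneg (hom0 U)]
  calc om U * ‖∫ t in (0 : ℝ)..l, ‖GM A (Function.update (pot T (fun _ => a) v U) s
        ((e : ℂ) - ((t + a : ℝ) : ℂ) * Complex.I)) s x‖ ^ 2‖
      ≤ 1 * (a⁻¹ * (gam v x)⁻¹ * l) := by
        refine mul_le_mul (hom1 U) hI (norm_nonneg _) zero_le_one
    _ = a⁻¹ * (gam v x)⁻¹ * l := one_mul _

/-- the left side for fixed frozen sites and exterior -/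
theorem FF_int (hG : Good S A) (ha : 0 < a) (ξ : κ' → ι → ℝ) (hs : S.w b0 = s) (hσ : PD S σ)
    (hCσ : σC ⊆ σ) (hAC : σA ⊆ σC) (h1 : ∀ b ∈ σC, s ∉ S.inn b) {e l : ℝ} (hl : 0 < l)
    (hF : evF S σ s V) (hA : Ac ⊆ CX S m (Reg S b0 σ) V) :
    ∫ U, FF S A m a ξ b0 σ σC σA s e l Ac (mix (Lm S b0 σ σA s) U V) ∂(muc ι S.c) =
      ∑ x ∈ univ \ Reg S b0 σ, gam (uC S A a (CX S m (Reg S b0 σ) V) Ac V) x * ff ξ x s *
        UU S.c a A (vv S A m a b0 σ σC σA Ac V) (Lm S b0 σ σA s) s x e l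
          (omw S σ s (Lm S b0 σ σA s) V) := by
  simp_rw [FF_mix hG ha ξ hs hσ hCσ hAC h1 hl hF hA]
  rw [integral_finsetSum]
  · refine Finset.sum_congr rfl fun x _ => ?_
    rw [integral_const_mul]
    rfl
  · intro x hx
    refine Integrable.const_mul ?_ _
    have hxR := (Finset.mem_sdiff.mp hx).2
    exact UU_int hG ha ξ hs (vv_loss hG ha hσ hCσ hAC h1 hF hA) _ (omw_meas σ s _ V)
      (omw_nonneg σ s _ V) (omw_le_one σ s _ V) hl
      (fun h => hxR (by rw [h]; exact s_mem_Reg hs)) (fun h => hxR (Lm_sub_Reg h)) S.c_pos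

/-- (G) and (F) only depend on the frozen sites and the exterior -/
theorem hyp_of (hG : Good S A) (ξ : κ' → ι → ℝ) (hs : S.w b0 = s) (hσ : PD S σ)
    (hCσ : σC ⊆ σ) (hAC : σA ⊆ σC) (h1 : ∀ b ∈ σC, s ∉ S.inn b) {e l Γ : ℝ}
    (hGF : HypGF S A m a ξ b0 σ σC σA s e l Γ)
    (hF : evF S σ s V) (hA : Ac ⊆ CX S m (Reg S b0 σ) V) {t : ℝ} (ht : t ∈ Set.Icc 0 l) :
    HypG A (vv S A m a b0 σ σC σA Ac V) (Lm S b0 σ σA s) (Fz S σ σA s) s Γ
        ((e : ℂ) - ((t + a : ℝ) : ℂ) * Complex.I) ∧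
      ∀ x ∉ Reg S b0 σ, HypF S.c a A (vv S A m a b0 σ σC σA Ac V) (Lm S b0 σ σA s)
        (Fz S σ σA s) s x Γ ((e : ℂ) - ((t + a : ℝ) : ℂ) * Complex.I) := by
  obtain ⟨V0, hV0, hoff⟩ := exists_evw (b0 := b0) hσ (hAC.trans hCσ) hF
  have hCX : CX S m (Reg S b0 σ) V0 = CX S m (Reg S b0 σ) V :=
    FX.CX_congr fun x hx => hoff x fun h => hx (Lm_sub_Reg h)
  obtain ⟨h2, h3, h4⟩ := CX_facts hA
  have hu : ∀ x, x ∉ Lm S b0 σ σA s → x ≠ s →
      vv S A m a b0 σ σC σA Ac V0 x = vv S A m a b0 σ σC σA Ac V x := by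
    intro x hx hxs
    unfold vv
    rw [hCX]
    exact uC_congr_Lm A hs h3 h4 hCσ hAC h1 (fun y hy _ => hoff y hy) hx hxs
  have hA0 : Ac ⊆ CX S m (Reg S b0 σ) V0 := by rw [hCX]; exact hA
  have h := hGF V0 hV0 Ac hA0 t ht
  constructor
  · intro y hy z hz
    have h5 := h.1 y hy z hz
    have e1 : Function.update (flat (Lm S b0 σ σA s) (vv S A m a b0 σ σC σA Ac V)) s
        ((e : ℂ) - ((t + a : ℝ) : ℂ) * Complex.I) =
        Function.update (flat (Lm S b0 σ σA s) (vv S A m a b0 σ σC σA Ac V0)) s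
        ((e : ℂ) - ((t + a : ℝ) : ℂ) * Complex.I) := by
      funext x
      by_cases hxs : x = s
      · rw [hxs, Function.update_self, Function.update_self]
      · rw [Function.update_of_ne hxs, Function.update_of_ne hxs]
        unfold flat
        by_cases hx : x ∈ Lm S b0 σ σA s
        · rw [if_pos hx, if_pos hx]
        · rw [if_neg hx, if_neg hx, hu x hx hxs]
    rw [e1]
    exact h5
  · intro x hx V' hV'
    have h5 := h.2 x hx V' hV'
    have e1 : Function.update (pot (Lm S b0 σ σA s) (fun _ => a)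
        (vv S A m a b0 σ σC σA Ac V) V') s ((e : ℂ) - ((t + a : ℝ) : ℂ) * Complex.I) =
        Function.update (pot (Lm S b0 σ σA s) (fun _ => a)
        (vv S A m a b0 σ σC σA Ac V0) V') s ((e : ℂ) - ((t + a : ℝ) : ℂ) * Complex.I) := by
      funext y
      by_cases hys : y = s
      · rw [hys, Function.update_self, Function.update_self]
      · rw [Function.update_of_ne hys, Function.update_of_ne hys]
        unfold pot
        by_cases hy : y ∈ Lm S b0 σ σA s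
        · rw [if_pos hy, if_pos hy]
        · rw [if_neg hy, if_neg hy, hu y hy hys]
    rw [e1]
    exact h5

/-! ### the frozen windows -/

open Classical in
/-- the windows of the blocks of `σ` as functions on the sites -/
noncomputable def lo' (S : Sys ι 𝔅) (σ : Finset 𝔅) (x : ι) : ℝ :=
  if h : ∃ b ∈ σ, x ∈ S.Q b then S.lo h.choose x else -S.c

open Classical in
noncomputable def hi' (S : Sys ι 𝔅) (σ : Finset 𝔅) (x : ι) : ℝ :=
  if h : ∃ b ∈ σ, x ∈ S.Q b then S.hi h.choose x else S.c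

theorem choose_eq (hσ : PD S σ) {b : 𝔅} (hb : b ∈ σ) {x : ι} (hx : x ∈ S.Q b)
    (h : ∃ b ∈ σ, x ∈ S.Q b) : h.choose = b := by
  by_contra hne
  exact (Finset.disjoint_left.mp (hσ _ h.choose_spec.1 b hb hne)) h.choose_spec.2 hx

theorem lo'_eq (hσ : PD S σ) {b : 𝔅} (hb : b ∈ σ) {x : ι} (hx : x ∈ S.Q b) :
    lo' S σ x = S.lo b x := by
  have h : ∃ b ∈ σ, x ∈ S.Q b := ⟨b, hb, hx⟩
  unfold lo'
  rw [dif_pos h, choose_eq hσ hb hx h]

theorem hi'_eq (hσ : PD S σ) {b : 𝔅} (hb : b ∈ σ) {x : ι} (hx : x ∈ S.Q b) :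
    hi' S σ x = S.hi b x := by
  have h : ∃ b ∈ σ, x ∈ S.Q b := ⟨b, hb, hx⟩
  unfold hi'
  rw [dif_pos h, choose_eq hσ hb hx h]

/-- the frozen sites with windows -/
def DF (S : Sys ι 𝔅) (σ : Finset 𝔅) (s : ι) : Finset ι :=
  σ.biUnion fun b => (S.inn b).erase s

theorem mem_DF {x : ι} : x ∈ DF S σ s ↔ x ≠ s ∧ ∃ b ∈ σ, x ∈ S.inn b := by
  unfold DF
  rw [mem_biUnion]
  constructor
  · rintro ⟨b, hb, hx⟩
    exact ⟨ne_of_mem_erase hx, b, hb, mem_of_mem_erase hx⟩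
  · rintro ⟨h1, b, hb, hx⟩
    exact ⟨b, hb, mem_erase.mpr ⟨h1, hx⟩⟩

theorem DF_sub : DF S σ s ⊆ Reg S b0 σ := by
  intro x hx
  obtain ⟨_, b, hb, hx'⟩ := mem_DF.mp hx
  exact Q_sub_Reg hb (S.inn_sub hx')

theorem DF_not_Lm {x : ι} (hx : x ∈ DF S σ s) : x ∉ Lm S b0 σ σA s := by
  intro h
  obtain ⟨_, b, hb, hx'⟩ := mem_DF.mp hx
  exact Lm_not_inn h hb hx'

theorem win_DF (hσ : PD S σ) (V : ι → ℝ) :
    (∀ y ∈ DF S σ s, V y ∈ Set.Icc (lo' S σ y) (hi' S σ y)) ↔ evF S σ s V := by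
  constructor
  · intro h b hb x hx hxs
    have h2 := h x (mem_DF.mpr ⟨hxs, b, hb, hx⟩)
    rwa [lo'_eq hσ hb (S.inn_sub hx), hi'_eq hσ hb (S.inn_sub hx)] at h2
  · intro h y hy
    obtain ⟨hys, b, hb, hyb⟩ := mem_DF.mp hy
    rw [lo'_eq hσ hb (S.inn_sub hyb), hi'_eq hσ hb (S.inn_sub hyb)]
    exact h b hb y hyb hys

theorem prod_DF (hσ : PD S σ) :
    ∏ y ∈ DF S σ s, ((hi' S σ y - lo' S σ y) / (2 * S.c)) = PF S σ s := by
  unfold DF PF
  rw [prod_biUnion]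
  · refine prod_congr rfl fun b hb => prod_congr rfl fun x hx => ?_
    have hxQ := S.inn_sub (mem_of_mem_erase hx)
    rw [lo'_eq hσ hb hxQ, hi'_eq hσ hb hxQ]
  · intro b hb b' hb' hne
    simp only [Function.onFun]
    rw [Finset.disjoint_left]
    intro x hx hx'
    exact (Finset.disjoint_left.mp (hσ b hb b' hb' hne)) (S.inn_sub (mem_of_mem_erase hx))
      (S.inn_sub (mem_of_mem_erase hx'))

end core

/-- crude bound (used for `σ ≠ ∅`) -/
theorem far_crude (c l1 : ℝ) (hc : 0 < c) (hl1 : 0 < l1) : ∃ C : ℝ, 1 ≤ C ∧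
    ∀ (ι 𝔅 κ' : Type) [Fintype ι] [DecidableEq ι] [Fintype 𝔅] [DecidableEq 𝔅] [Fintype κ']
      (S : Sys ι 𝔅) (A : Matrix ι ι ℝ) (m : ℕ) (a : ℝ) (ξ : κ' → ι → ℝ) (good : Finset ι)
      (bs : ι → 𝔅) (j0 j1 l0 : ℝ), S.c = c → WO.Good S A → Geo S m ξ good bs j0 j1 l0 →
      l1 ≤ j1 - j0 → 0 < a → a ≤ 1 / 2 →
    ∀ (s : ι) (σ σC σA : Finset 𝔅) (e l Γ Df : ℝ), s ∈ good → (∀ b ∈ σ, m < S.cls b) →
      (∀ b ∈ σ, ¬ Disjoint (S.Q b) (S.Q (bs s))) →
      (∀ b ∈ σ, ∀ b' ∈ σ, b ≠ b' → Disjoint (S.Q b) (S.Q b')) →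
      σC ⊆ σ → σA ⊆ σC → |e| ≤ c → 0 < l → l ≤ 2 * c → 1 ≤ Γ →
      (∀ b ∈ σA, s ≠ S.w b) → (∀ b ∈ σC, s ∉ S.inn b) →
      (∀ y ∈ Reg S (bs s) σ, ff ξ s y ≤ Df) →
      HypGF S A m a ξ (bs s) σ σC σA s e l Γ →
      FT S A m a ξ (bs s) σ σC σA s e l ≤
        PF S σ s * ZZ a (Lm S (bs s) σ σA s) (Fz S σ σA s) s C Γ * a⁻¹ * (2 + 2 * Df) *
          EA S A m a ξ (Reg S (bs s) σ) j0 j1 := by
  obtain ⟨C, hC1, hloc⟩ := LW.local_bound c (3 * c + 3) l1 hc hl1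
  refine ⟨C, hC1, ?_⟩
  intro ι 𝔅 κ' _ _ _ _ _ S A m a ξ good bs j0 j1 l0 hSc hG hgeo hj ha ha1 s σ σC σA e l Γ Df
    hgood hcls hmeet hσ hCσ hAC he hl hl2 hΓ hsw hsinn hDf hGF
  have hs : S.w (bs s) = s := hgeo.bs_w s hgood
  have hPD : PD S σ := hσ
  have hAσ : σA ⊆ σ := hAC.trans hCσ
  have hBB : BB (Lm S (bs s) σ σA s) (Fz S σ σA s) s = Reg S (bs s) σ := BB_eq hs hAσ
  set B : Finset ι := Reg S (bs s) σ with hBdef
  set T : Finset ι := Lm S (bs s) σ σA s with hTdef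
  set Z : ℝ := ZZ a T (Fz S σ σA s) s C Γ with hZdef
  have hZ0 : 0 ≤ Z := by
    have hlog : 0 ≤ Real.log (2 / a) := by
      apply Real.log_nonneg
      rw [le_div_iff₀ ha]
      linarith
    rw [hZdef]
    unfold ZZ
    positivity
  have hTB : T ⊆ B := Lm_sub_Reg
  have hDB : DF S σ s ⊆ B := DF_sub
  have hvm : ∀ (Ac : Finset 𝔅) (y : ι), Measurable fun V : ι → ℝ =>
      vv S A m a (bs s) σ σC σA Ac V y := fun Ac y => vv_meas Ac y
  have hvv : ∀ V, ∀ Ac ⊆ CX S m B V, ∀ y, y ∉ B →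
      vv S A m a (bs s) σ σC σA Ac V y = uC S A a (CX S m B V) Ac V y :=
    fun V Ac _ y hy => vv_out hCσ hAσ V y hy
  have hF1 : FX.BX S m B (FX.F1 S A m a ξ B T (Fz S σ σA s) s j0 j1
      (vv S A m a (bs s) σ σC σA)) :=
    FX.F1_BX hG ha ξ hBB j0 j1 Df hgeo.j0_ge hgeo.ff_one hDf hvm hvv
  have hFF : FX.BX S m B (FF S A m a ξ (bs s) σ σC σA s e l) :=
    FF_BX hG ha ξ hs hPD hCσ hAC hsinn hl
  set H : Finset 𝔅 → (ι → ℝ) → ℝ := fun Ac V => (Z * a⁻¹) *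
    FX.F1 S A m a ξ B T (Fz S σ σA s) s j0 j1 (vv S A m a (bs s) σ σC σA) Ac V with hHdef
  have hH : FX.BX S m B H := hF1.const_mul _
  have hF' : FX.BX S m B fun Ac V => win (DF S σ s) (lo' S σ) (hi' S σ) V * H Ac V :=
    hH.ind (FX.win_meas _ _ _) (FX.win_nonneg _ _ _) (FX.win_le_one _ _ _)
  have hHmix : ∀ (T' : Finset ι), T' ⊆ B → ∀ V U, ∀ Ac ⊆ CX S m B V,
      H Ac (mix T' U V) = H Ac V := by
    intro T' hT' V U Ac hA
    rw [hHdef]
    simp only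
    rw [F1_mix ξ hs hCσ hAσ j0 j1 hA hT' U]
  have hp := muc_prob (ι := ι) S.c_pos
  -- the comparison
  have hstep : FX.EX S A m B (FF S A m a ξ (bs s) σ σC σA s e l) ≤
      FX.EX S A m B fun Ac V => win (DF S σ s) (lo' S σ) (hi' S σ) V * H Ac V := by
    refine FX.EX_le_of_mix hG hTB hFF hF' fun V Ac hA => ?_
    have hR : ∀ U, win (DF S σ s) (lo' S σ) (hi' S σ) (mix T U V) * H Ac (mix T U V) =
        win (DF S σ s) (lo' S σ) (hi' S σ) V * H Ac V := by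
      intro U
      rw [hHmix T hTB V U Ac hA]
      congr 1
      unfold win
      congr 1
      apply propext
      constructor
      · intro h y hy
        have := h y hy
        rwa [mix_not (DF_not_Lm hy)] at this
      · intro h y hy
        rw [mix_not (DF_not_Lm hy)]
        exact h y hy
    simp_rw [hR]
    rw [integral_const, probReal_univ, one_smul]
    by_cases hF : evF S σ s V
    · have hw : win (DF S σ s) (lo' S σ) (hi' S σ) V = 1 := by
        unfold win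
        rw [if_pos ((win_DF hPD V).mpr hF)]
      rw [hw, one_mul, FF_int hG ha ξ hs hPD hCσ hAC hsinn hl hF hA, hHdef]
      simp only
      unfold FX.F1
      rw [Finset.mul_sum]
      refine Finset.sum_le_sum fun x hx => ?_
      have hxR := (Finset.mem_sdiff.mp hx).2
      obtain ⟨h2, h3, h4⟩ := CX_facts hA
      have hset : Setup S.c a A (vv S A m a (bs s) σ σC σA Ac V) T (Fz S σ σA s) s
          (3 * S.c + 3) :=
        setup A hG ha ha1 hs h2 h3 hA hPD hCσ hAC hsinn hF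
      rw [hSc] at hset
      have hgf := fun t (ht : t ∈ Set.Icc 0 l) =>
        hyp_of hG ξ hs hPD hCσ hAC hsinn hGF hF hA ht
      have hb := (hloc ι a A (vv S A m a (bs s) σ σC σA Ac V) T (Fz S σ σA s) s x hset
        j0 j1 (by rw [← hSc]; exact hgeo.j0_ge) (by rw [← hSc]; exact hgeo.j1_le) hj
        (fun _ => -c) (fun _ => c) (fun _ => 1) (fun _ => -Complex.I) (fun _ => le_refl _)
        (fun _ => le_refl _) (fun _ => by linarith) (fun _ => one_pos) (fun _ => le_refl _)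
        measurable_const 1 one_pos (fun _ => by simp) (fun _ => by simp; linarith)
        e l 1 Γ (omw S σ s T V) he hl hl2 (Or.inl rfl) hΓ (omw_meas σ s T V)
        (omw_nonneg σ s T V) (omw_le_one σ s T V) (fun t ht => (hgf t ht).1)
        (fun t ht => by
          have := (hgf t ht).2 x hxR
          rw [hSc] at this
          exact this)).2
      rw [← hSc] at hb
      have hgam := (gam_pos (FX.uC_loss (V := V) (C := CX S m B V) hG ha FX.CX_sub hA) x).le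
      have hff := ff_nonneg ξ x s
      calc gam (uC S A a (CX S m B V) Ac V) x * ff ξ x s *
            UU S.c a A (vv S A m a (bs s) σ σC σA Ac V) T s x e l (omw S σ s T V)
          ≤ gam (uC S A a (CX S m B V) Ac V) x * ff ξ x s *
            (Z * a⁻¹ * A1 S.c a A (vv S A m a (bs s) σ σC σA Ac V) T (Fz S σ σA s) s x j0 j1) :=
            mul_le_mul_of_nonneg_left hb (mul_nonneg hgam hff)
        _ = _ := by ring
    · have hw : win (DF S σ s) (lo' S σ) (hi' S σ) V = 0 := by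
        unfold win
        rw [if_neg fun h => hF ((win_DF hPD V).mp h)]
      have hz : ∀ U, FF S A m a ξ (bs s) σ σC σA s e l Ac (mix T U V) = 0 := by
        intro U
        unfold FF
        rw [if_neg]
        intro h
        apply hF
        rw [← evF_congr (V := mix T U V)]
        · exact evF_of_evw h
        · rintro y ⟨b, hb, hy⟩ hys
          exact mix_not (DF_not_Lm (mem_DF.mpr ⟨hys, b, hb, hy⟩)) U V
      simp_rw [hz]
      rw [hw, zero_mul, integral_zero]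
  rw [FT_eq]
  refine hstep.trans ?_
  rw [FX.EX_win hG hDB hH (fun V U Ac hA => hHmix _ hDB V U Ac hA) (lo' S σ) (hi' S σ), prod_DF hPD]
  · have hPF : 0 ≤ PF S σ s := by
      unfold PF
      refine Finset.prod_nonneg fun b _ => Finset.prod_nonneg fun x _ => ?_
      have h1 := S.lo_lt b x
      have h2 := S.c_pos
      exact div_nonneg (by linarith) (by linarith)
    rw [hHdef, FX.EX_mul]
    have hA1 := FX.A1_int hG ha ξ hBB j0 j1 Df hgeo.j0_ge hgeo.ff_one hDf hvm hvv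
    calc PF S σ s * (Z * a⁻¹ * FX.EX S A m B (FX.F1 S A m a ξ B T (Fz S σ σA s) s j0 j1
          (vv S A m a (bs s) σ σC σA)))
        ≤ PF S σ s * (Z * a⁻¹ * ((2 + 2 * Df) * EA S A m a ξ B j0 j1)) := by
          refine mul_le_mul_of_nonneg_left ?_ hPF
          refine mul_le_mul_of_nonneg_left hA1 ?_
          exact mul_nonneg hZ0 (inv_pos.mpr ha).le
      _ = _ := by ring
  · intro y hy
    obtain ⟨_, b, hb, hyb⟩ := mem_DF.mp hy
    rw [lo'_eq hPD hb (S.inn_sub hyb)]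
    exact S.lo_ge b y
  · intro y hy
    obtain ⟨_, b, hb, hyb⟩ := mem_DF.mp hy
    rw [hi'_eq hPD hb (S.inn_sub hyb)]
    exact S.hi_le b y
  · intro y hy
    obtain ⟨_, b, hb, hyb⟩ := mem_DF.mp hy
    rw [lo'_eq hPD hb (S.inn_sub hyb), hi'_eq hPD hb (S.inn_sub hyb)]
    exact (S.lo_lt b y).le

end Pool.Agent.Lib.MP_562b47_mp.LH.FA
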