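import Pool.Agent.Lib.MP_562b47_mp.LH.FarX

/-!
MP_562b47, Lemma H', global part: the price of the frozen windows, and the comparison of the local
quantity `A1` with the expected share `EA` of a region.
-/

open MeasureTheory Matrix Finset

set_option linter.unusedSectionVars false
set_option linter.unusedVariables false

namespace Pool.Agent.Lib.MP_562b47_mp.LH.FX

open Pool.Agent.Lib.MP_562b47_mp.AL Pool.Agent.Lib.MP_562b47_mp.WO Pool.Agent.Lib.MP_562b47_mp.LW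
  Pool.Agent.Lib.MP_562b47_mp.LH Pool.Agent.Lib.MP_562b47_mp

variable {ι 𝔅 κ' : Type*} [Fintype ι] [DecidableEq ι] [Fintype 𝔅] [DecidableEq 𝔅] [Fintype κ']
  {S : Sys ι 𝔅} {A : Matrix ι ι ℝ} {m : ℕ} {a : ℝ} {B T D : Finset ι} {U V : ι → ℝ}
  {Ac C : Finset 𝔅} {b : 𝔅}

/-! ### windows -/

theorem win_nonneg (D : Finset ι) (lo hi V : ι → ℝ) : 0 ≤ win D lo hi V := by
  unfold win; split_ifs <;> norm_num

theorem win_le_one (D : Finset ι) (lo hi V : ι → ℝ) : win D lo hi V ≤ 1 := by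
  unfold win; split_ifs <;> norm_num

theorem winset_eq (D : Finset ι) (lo hi : ι → ℝ) :
    {V : ι → ℝ | ∀ y ∈ D, V y ∈ Set.Icc (lo y) (hi y)} =
      Set.pi Set.univ fun y => if y ∈ D then Set.Icc (lo y) (hi y) else Set.univ := by
  ext V
  simp only [Set.mem_ofPred_eq, Set.mem_pi, Set.mem_univ, true_implies]
  constructor
  · intro h y
    by_cases hy : y ∈ D
    · rw [if_pos hy]; exact h y hy
    · rw [if_neg hy]; trivial
  · intro h y hy
    have := h y
    rwa [if_pos hy] at this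

theorem winset_meas (D : Finset ι) (lo hi : ι → ℝ) :
    MeasurableSet {V : ι → ℝ | ∀ y ∈ D, V y ∈ Set.Icc (lo y) (hi y)} := by
  rw [winset_eq]
  refine MeasurableSet.univ_pi fun y => ?_
  split_ifs
  · exact measurableSet_Icc
  · exact MeasurableSet.univ

theorem win_meas (D : Finset ι) (lo hi : ι → ℝ) : Measurable fun V : ι → ℝ => win D lo hi V := by
  unfold win
  exact Measurable.ite (winset_meas D lo hi) measurable_const measurable_const

theorem win_mix (D : Finset ι) (lo hi : ι → ℝ) : win D lo hi (mix D U V) = win D lo hi U := by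
  unfold win
  congr 1
  apply propext
  constructor
  · intro h y hy
    have := h y hy
    rwa [mix_mem hy] at this
  · intro h y hy
    rw [mix_mem hy]; exact h y hy

theorem unif_Icc {c x y : ℝ} (hc : 0 < c) (hx : -c ≤ x) (hy : y ≤ c) (hxy : x ≤ y) :
    (unif c).real (Set.Icc x y) = (y - x) / (2 * c) := by
  unfold unif
  rw [measureReal_def, Measure.smul_apply, Measure.restrict_apply measurableSet_Icc,
    Set.inter_eq_left.mpr (Set.Icc_subset_Icc hx hy), Real.volume_Icc, smul_eq_mul,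
    ENNReal.toReal_mul, ENNReal.toReal_inv, ENNReal.toReal_ofReal (by linarith),
    ENNReal.toReal_ofReal (by linarith)]
  field_simp

/-- the probability of the windows -/
theorem win_int {c : ℝ} (hc : 0 < c) (D : Finset ι) (lo hi : ι → ℝ)
    (hlo : ∀ y ∈ D, -c ≤ lo y) (hhi : ∀ y ∈ D, hi y ≤ c) (hle : ∀ y ∈ D, lo y ≤ hi y) :
    ∫ U, win D lo hi U ∂(muc ι c) = ∏ y ∈ D, ((hi y - lo y) / (2 * c)) := by
  have hprob := unif_prob hc
  have e : (fun U : ι → ℝ => win D lo hi U) =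
      Set.indicator {V : ι → ℝ | ∀ y ∈ D, V y ∈ Set.Icc (lo y) (hi y)} (fun _ => (1 : ℝ)) := by
    funext U
    unfold win
    rw [Set.indicator_apply]
    rfl
  rw [e, integral_indicator_const _ (winset_meas D lo hi), smul_eq_mul, mul_one, winset_eq]
  unfold muc
  rw [measureReal_def, Measure.pi_pi, ENNReal.toReal_prod,
    ← Finset.prod_subset (Finset.subset_univ D)]
  · refine Finset.prod_congr rfl fun y hy => ?_
    rw [if_pos hy]
    exact unif_Icc hc (hlo y hy) (hhi y hy) (hle y hy)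
  · intro y _ hy
    rw [if_neg hy, measure_univ]
    rfl

/-- (T2) the windows of the sites of `D` are independent of everything else -/
theorem EX_win (hS : WO.Good S A) (hD : D ⊆ B) {H : Finset 𝔅 → (ι → ℝ) → ℝ} (hH : BX S m B H)
    (h : ∀ V U, ∀ Ac ⊆ CX S m B V, H Ac (mix D U V) = H Ac V) (lo hi : ι → ℝ)
    (hlo : ∀ y ∈ D, -S.c ≤ lo y) (hhi : ∀ y ∈ D, hi y ≤ S.c) (hle : ∀ y ∈ D, lo y ≤ hi y) :
    EX S A m B (fun Ac V => win D lo hi V * H Ac V) =
      (∏ y ∈ D, ((hi y - lo y) / (2 * S.c))) * EX S A m B H := by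
  have hB := hH.ind (win_meas D lo hi) (win_nonneg D lo hi) (win_le_one D lo hi)
  rw [EX_eq, EX_eq, ← integral_const_mul]
  have h1 : ∫ V, EI S A m B (fun Ac V => win D lo hi V * H Ac V) V ∂(S.mu) =
      ∫ V, ∫ U, EI S A m B (fun Ac V => win D lo hi V * H Ac V) (mix D U V) ∂(muc ι S.c)
        ∂(muc ι S.c) := integral_mix S.c_pos D (int_EI hS hB)
  rw [h1]
  refine integral_congr_ae (Filter.Eventually.of_forall fun V => ?_)
  simp only
  rw [int_EI_mix hS hD hB]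
  unfold EI
  rw [Finset.mul_sum]
  refine Finset.sum_congr rfl fun Ac hA => ?_
  have hA' := Finset.mem_powerset.mp hA
  have h2 : ∀ U, win D lo hi (mix D U V) * H Ac (mix D U V) = win D lo hi U * H Ac V := by
    intro U
    rw [win_mix, h V U Ac hA']
  simp_rw [h2]
  rw [integral_mul_const, win_int S.c_pos D lo hi hlo hhi hle]
  ring

/-! ### the potential -/

theorem uC_loss (hS : WO.Good S A) (ha : 0 < a) (hC : C ⊆ S.Comp V) (hA : Ac ⊆ C) :
    Loss (uC S A a C Ac V) := by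
  intro x
  have him : (uC S A a C Ac V x).im = -(a + ∑ b ∈ C, (if x ∈ S.inn b then S.et (S.cls b) - a else 0)) -
      ∑ b ∈ Ac, (if x = S.w b then S.gg A b V + (S.et (S.cls b) - a) else 0) := by
    unfold uC
    simp only [Complex.add_im, Complex.sub_im, Complex.ofReal_im, Complex.mul_im, Complex.ofReal_re,
      Complex.I_im, Complex.I_re, mul_one, mul_zero, add_zero, Complex.im_sum, zero_sub]
    rw [sub_eq_add_neg (-(a + _)), ← Finset.sum_neg_distrib]
    congr 1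
    refine Finset.sum_congr rfl fun b _ => ?_
    split_ifs
    · simp
    · simp
  rw [him]
  by_cases h1 : ∃ b ∈ Ac, x = S.w b
  · obtain ⟨b, hb, hx⟩ := h1
    have e1 : ∑ b ∈ C, (if x ∈ S.inn b then S.et (S.cls b) - a else 0) = 0 := by
      refine Finset.sum_eq_zero fun b' hb' => if_neg fun h => ?_
      by_cases hbb : b' = b
      · subst hbb
        exact ((S.mem_inn).mp h).1 hx
      · exact S.not_mem_of_ne (hC (hA hb)) (hC hb') hbb (S.inn_sub h) (by rw [hx]; exact S.w_mem b)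
    have e2 : ∑ b ∈ Ac, (if x = S.w b then S.gg A b V + (S.et (S.cls b) - a) else 0) =
        S.gg A b V + (S.et (S.cls b) - a) := by
      rw [Finset.sum_eq_single b]
      · rw [if_pos hx]
      · intro b' hb' hne
        rw [if_neg]
        intro h
        exact S.not_mem_of_ne (hC (hA hb)) (hC (hA hb')) hne (S.w_mem b')
          (by rw [← h, hx]; exact S.w_mem b)
      · intro h; exact absurd hb h
    rw [e1, e2]
    have h2 := hS.g_pos b V ((S.mem_Comp).mp (hC (hA hb)))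
    have h3 := S.et_pos (S.cls b)
    linarith
  · push Not at h1
    have e2 : ∑ b ∈ Ac, (if x = S.w b then S.gg A b V + (S.et (S.cls b) - a) else 0) = 0 :=
      Finset.sum_eq_zero fun b hb => if_neg (h1 b hb)
    rw [e2]
    by_cases h2 : ∃ b ∈ C, x ∈ S.inn b
    · obtain ⟨b, hb, hx⟩ := h2
      have e1 : ∑ b ∈ C, (if x ∈ S.inn b then S.et (S.cls b) - a else 0) =
          S.et (S.cls b) - a := by
        rw [Finset.sum_eq_single b]
        · rw [if_pos hx]
        · intro b' hb' hne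
          rw [if_neg]
          intro h
          exact S.not_mem_of_ne (hC hb) (hC hb') hne (S.inn_sub h) (S.inn_sub hx)
        · intro h; exact absurd hb h
      rw [e1]
      have h3 := S.et_pos (S.cls b)
      linarith
    · push Not at h2
      have e1 : ∑ b ∈ C, (if x ∈ S.inn b then S.et (S.cls b) - a else 0) = 0 :=
        Finset.sum_eq_zero fun b hb => if_neg (h2 b hb)
      rw [e1]
      linarith

theorem CXAc_disj (hA : Ac ⊆ CX S m B V) : ∀ b ∈ Ac, Disjoint (S.Q b) B := fun b hb => CX_disj (hA hb)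

theorem CX_disj' : ∀ b ∈ CX S m B V, Disjoint (S.Q b) B := fun b hb => CX_disj hb

/-- the potential in the region after resampling -/
noncomputable def pB (S : Sys ι 𝔅) (A : Matrix ι ι ℝ) (m : ℕ) (a : ℝ) (B : Finset ι)
    (Ac : Finset 𝔅) (V U : ι → ℝ) : ι → ℂ :=
  pot B (fun _ => a) (uC S A a (CX S m B V) Ac V) U

theorem pB_eq (hA : Ac ⊆ CX S m B V) :
    uC S A a (CX S m B (mix B U V)) Ac (mix B U V) = pB S A m a B Ac V U := by
  rw [CX_mix (Finset.Subset.refl B)]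
  exact uC_mix (Finset.Subset.refl B) CX_disj' (CXAc_disj hA)

theorem pB_on {y : ι} (hy : y ∈ B) : pB S A m a B Ac V U y = (U y : ℂ) - (a : ℂ) * Complex.I := by
  unfold pB pot
  rw [if_pos hy]

theorem pB_off {y : ι} (hy : y ∉ B) :
    pB S A m a B Ac V U y = uC S A a (CX S m B V) Ac V y := by
  unfold pB pot
  rw [if_neg hy]

theorem pB_loss (hS : WO.Good S A) (ha : 0 < a) (hA : Ac ⊆ CX S m B V) :
    Loss (pB S A m a B Ac V U) := by
  rw [← pB_eq hA]
  refine uC_loss hS ha CX_sub ?_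
  rw [CX_mix (Finset.Subset.refl B)]
  exact hA

theorem gam_pB_on {y : ι} (hy : y ∈ B) : gam (pB S A m a B Ac V U) y = a := by
  unfold gam
  rw [pB_on hy]
  simp

theorem pot_eq_pB {Lam Fz : Finset ι} {s : ι} (hB : BB Lam Fz s = B) {v : ι → ℂ}
    (hv : ∀ y, y ∉ B → v y = uC S A a (CX S m B V) Ac V y) :
    pot (BB Lam Fz s) (fun _ => a) v U = pB S A m a B Ac V U := by
  funext y
  rw [hB]
  unfold pB pot
  by_cases hy : y ∈ B
  · rw [if_pos hy, if_pos hy]
  · rw [if_neg hy, if_neg hy, hv y hy]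

theorem meas_pot {Ω : Type*} [MeasurableSpace Ω] (T : Finset ι) (γ : ι → ℝ) {v : Ω → ι → ℂ}
    (hv : ∀ y, Measurable fun ω => v ω y) {W : Ω → ι → ℝ} (hW : Measurable W) (y : ι) :
    Measurable fun ω => pot T γ (v ω) (W ω) y := by
  unfold pot
  by_cases hy : y ∈ T
  · simp only [if_pos hy]
    exact (Complex.measurable_ofReal.comp ((measurable_pi_apply y).comp hW)).sub measurable_const
  · simp only [if_neg hy]
    exact hv y

theorem uCX_meas (Ac : Finset 𝔅) (x : ι) :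
    Measurable fun V : ι → ℝ => uC S A a (CX S m B V) Ac V x :=
  meas_of_CX (F := fun C V => uC S A a C Ac V x) fun C => uC_meas C Ac x

/-! ### EA -/

open Classical in
/-- the functional of `EA` -/
noncomputable def FA (S : Sys ι 𝔅) (A : Matrix ι ι ℝ) (m : ℕ) (a : ℝ) (ξ : κ' → ι → ℝ)
    (B : Finset ι) (j0 j1 : ℝ) (Ac : Finset 𝔅) (V : ι → ℝ) : ℝ :=
  if ∀ y ∈ B, V y ∈ Set.Icc j0 j1 then
      ∑ y ∈ B, a * ∑ x, gam (uC S A a (CX S m B V) Ac V) x * ff ξ x y *
        ‖GM A (uC S A a (CX S m B V) Ac V) y x‖ ^ 2 else 0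

theorem EA_eq (ξ : κ' → ι → ℝ) (B : Finset ι) (j0 j1 : ℝ) :
    EA S A m a ξ B j0 j1 = EX S A m B (FA S A m a ξ B j0 j1) := rfl

theorem FA_meas (ξ : κ' → ι → ℝ) (B : Finset ι) (j0 j1 : ℝ) (Ac : Finset 𝔅) :
    Measurable (FA S A m a ξ B j0 j1 Ac) := by
  unfold FA
  refine Measurable.ite (winset_meas B (fun _ => j0) (fun _ => j1)) ?_ measurable_const
  refine Finset.measurable_fun_sum _ fun y _ => Measurable.const_mul ?_ _
  refine Finset.measurable_fun_sum _ fun x _ => ?_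
  exact ((measurable_gam (fun x => uCX_meas Ac x) x).mul measurable_const).mul
    ((measurable_GM' A (fun x => uCX_meas Ac x) y x).norm.pow_const 2)

theorem row_le (hS : WO.Good S A) {u : ι → ℂ} (hu : Loss u) (ξ : κ' → ι → ℝ) {y : ι}
    (hy : gam u y = a) :
    a * ∑ x, gam u x * ff ξ x y * ‖GM A u y x‖ ^ 2 ≤ ∑ x, ff ξ x y := by
  rw [Finset.mul_sum]
  refine Finset.sum_le_sum fun x _ => ?_
  have h := entry_le hS.symm hu y x
  rw [hy] at h
  calc a * (gam u x * ff ξ x y * ‖GM A u y x‖ ^ 2)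
      = ff ξ x y * (a * gam u x * ‖GM A u y x‖ ^ 2) := by ring
    _ ≤ ff ξ x y * 1 := mul_le_mul_of_nonneg_left h (ff_nonneg ξ x y)
    _ = ff ξ x y := mul_one _

theorem row_nonneg (ha : 0 < a) {u : ι → ℂ} (hu : Loss u) (ξ : κ' → ι → ℝ) (y : ι) :
    0 ≤ a * ∑ x, gam u x * ff ξ x y * ‖GM A u y x‖ ^ 2 :=
  mul_nonneg ha.le (Finset.sum_nonneg fun x _ => mul_nonneg (mul_nonneg (gam_pos hu x).le
    (ff_nonneg ξ x y)) (sq_nonneg _))

theorem FA_nonneg (hS : WO.Good S A) (ha : 0 < a) (ξ : κ' → ι → ℝ) (j0 j1 : ℝ)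
    (hA : Ac ⊆ CX S m B V) : 0 ≤ FA S A m a ξ B j0 j1 Ac V := by
  unfold FA
  split_ifs
  · exact Finset.sum_nonneg fun y _ => row_nonneg ha (uC_loss hS ha CX_sub hA) ξ y
  · exact le_refl _

theorem FA_BX (hS : WO.Good S A) (ha : 0 < a) (ξ : κ' → ι → ℝ) (B : Finset ι) (j0 j1 : ℝ) :
    BX S m B (FA S A m a ξ B j0 j1) := by
  refine ⟨fun Ac => FA_meas ξ B j0 j1 Ac, ∑ y ∈ B, ∑ x, ff ξ x y, fun V Ac hA => ?_⟩
  rw [abs_of_nonneg (FA_nonneg hS ha ξ j0 j1 hA)]
  unfold FA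
  split_ifs
  · refine Finset.sum_le_sum fun y hy => row_le hS (uC_loss hS ha CX_sub hA) ξ ?_
    unfold gam
    rw [uC_on CX_disj' (CXAc_disj hA) hy]
    simp
  · exact Finset.sum_nonneg fun y _ => Finset.sum_nonneg fun x _ => ff_nonneg ξ x y

theorem FA_mix (ξ : κ' → ι → ℝ) (j0 j1 : ℝ) (hA : Ac ⊆ CX S m B V) :
    FA S A m a ξ B j0 j1 Ac (mix B U V) = win B (fun _ => j0) (fun _ => j1) U *
      ∑ y ∈ B, a * ∑ x, gam (pB S A m a B Ac V U) x * ff ξ x y *
        ‖GM A (pB S A m a B Ac V U) y x‖ ^ 2 := by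
  have h1 : (∀ y ∈ B, mix B U V y ∈ Set.Icc j0 j1) ↔ ∀ y ∈ B, U y ∈ Set.Icc j0 j1 := by
    constructor
    · intro h y hy
      have := h y hy
      rwa [mix_mem hy] at this
    · intro h y hy
      rw [mix_mem hy]; exact h y hy
  unfold FA win
  rw [pB_eq hA]
  by_cases h : ∀ y ∈ B, U y ∈ Set.Icc j0 j1
  · rw [if_pos (h1.mpr h), if_pos h, one_mul]
  · rw [if_neg (fun h' => h (h1.mp h')), if_neg h, zero_mul]

/-! ### A1 -/

/-- the functional with `A1` -/
noncomputable def F1 (S : Sys ι 𝔅) (A : Matrix ι ι ℝ) (m : ℕ) (a : ℝ) (ξ : κ' → ι → ℝ)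
    (B Lam Fz : Finset ι) (s : ι) (j0 j1 : ℝ) (vv : Finset 𝔅 → (ι → ℝ) → ι → ℂ)
    (Ac : Finset 𝔅) (V : ι → ℝ) : ℝ :=
  ∑ x ∈ univ \ B, gam (uC S A a (CX S m B V) Ac V) x * ff ξ x s *
      A1 S.c a A (vv Ac V) Lam Fz s x j0 j1

theorem A1_meas {vv : (ι → ℝ) → ι → ℂ} (hvm : ∀ y, Measurable fun V => vv V y)
    (Lam Fz : Finset ι) (s x : ι) (c j0 j1 : ℝ) (hc : 0 < c) :
    Measurable fun V => A1 c a A (vv V) Lam Fz s x j0 j1 := by
  have hp := muc_prob (ι := ι) hc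
  have h : Measurable fun q : (ι → ℝ) × (ι → ℝ) =>
      win (BB Lam Fz s) (fun _ => j0) (fun _ => j1) q.2 * ∑ y ∈ BB Lam Fz s, a *
        ‖GM A (pot (BB Lam Fz s) (fun _ => a) (vv q.1) q.2) y x‖ ^ 2 := by
    refine ((win_meas _ _ _).comp measurable_snd).mul (Finset.measurable_fun_sum _ fun y _ => ?_)
    refine Measurable.const_mul ?_ _
    exact (measurable_GM' A (fun z => meas_pot (BB Lam Fz s) (fun _ => a)
      (v := fun q : (ι → ℝ) × (ι → ℝ) => vv q.1) (fun y => (hvm y).comp measurable_fst)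
      measurable_snd z) y x).norm.pow_const 2
  unfold A1
  exact (h.stronglyMeasurable.integral_prod_right' (ν := muc ι c)).measurable

theorem F1_meas (ξ : κ' → ι → ℝ) (B Lam Fz : Finset ι) (s : ι) (j0 j1 : ℝ)
    {vv : Finset 𝔅 → (ι → ℝ) → ι → ℂ} (hvm : ∀ Ac y, Measurable fun V => vv Ac V y)
    (Ac : Finset 𝔅) : Measurable (F1 S A m a ξ B Lam Fz s j0 j1 vv Ac) := by
  unfold F1
  refine Finset.measurable_fun_sum _ fun x _ => ?_
  exact ((measurable_gam (fun x => uCX_meas Ac x) x).mul measurable_const).mul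
    (A1_meas (hvm Ac) Lam Fz s x S.c j0 j1 S.c_pos)

theorem A1_eq {Lam Fz : Finset ι} {s : ι} (hB : BB Lam Fz s = B) {v : ι → ℂ}
    (hv : ∀ y, y ∉ B → v y = uC S A a (CX S m B V) Ac V y) (x : ι) (j0 j1 : ℝ) :
    A1 S.c a A v Lam Fz s x j0 j1 = ∫ U, win B (fun _ => j0) (fun _ => j1) U *
      ∑ y ∈ B, a * ‖GM A (pB S A m a B Ac V U) y x‖ ^ 2 ∂(muc ι S.c) := by
  unfold A1
  simp_rw [pot_eq_pB hB hv, hB]

theorem pB_meas (Ac : Finset 𝔅) (V : ι → ℝ) (y : ι) :
    Measurable fun U : ι → ℝ => pB S A m a B Ac V U y :=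
  meas_pot B (fun _ => a) (v := fun _ => uC S A a (CX S m B V) Ac V) (fun _ => measurable_const)
    measurable_id y

/-- integrability of the terms -/
theorem term_int (hS : WO.Good S A) (ha : 0 < a) (hA : Ac ⊆ CX S m B V) (x : ι) (hx : x ∉ B)
    (j0 j1 c : ℝ) (hc : 0 < c) :
    Integrable (fun U => gam (uC S A a (CX S m B V) Ac V) x *
      (win B (fun _ => j0) (fun _ => j1) U *
        ∑ y ∈ B, a * ‖GM A (pB S A m a B Ac V U) y x‖ ^ 2)) (muc ι c) := by
  have hp := muc_prob (ι := ι) hc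
  have hm : Measurable fun U => gam (uC S A a (CX S m B V) Ac V) x *
      (win B (fun _ => j0) (fun _ => j1) U *
        ∑ y ∈ B, a * ‖GM A (pB S A m a B Ac V U) y x‖ ^ 2) := by
    refine Measurable.const_mul ((win_meas _ _ _).mul (Finset.measurable_fun_sum _ fun y _ => ?_)) _
    exact Measurable.const_mul ((measurable_GM' A (fun z => pB_meas Ac V z) y x).norm.pow_const 2) _
  refine Integrable.of_bound hm.aestronglyMeasurable (∑ _y ∈ B, (1 : ℝ))
    (Filter.Eventually.of_forall fun U => ?_)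
  have hL := pB_loss (U := U) hS ha hA
  have hg : gam (uC S A a (CX S m B V) Ac V) x = gam (pB S A m a B Ac V U) x := by
    unfold gam
    rw [pB_off hx]
  have h0 : 0 ≤ gam (pB S A m a B Ac V U) x := (gam_pos hL x).le
  have hs : 0 ≤ ∑ y ∈ B, a * ‖GM A (pB S A m a B Ac V U) y x‖ ^ 2 :=
    Finset.sum_nonneg fun y _ => mul_nonneg ha.le (sq_nonneg _)
  have hw0 := win_nonneg B (fun _ => j0) (fun _ => j1) U
  have hw1 := win_le_one B (fun _ => j0) (fun _ => j1) U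
  rw [hg, Real.norm_eq_abs, abs_of_nonneg (mul_nonneg h0 (mul_nonneg hw0 hs))]
  calc gam (pB S A m a B Ac V U) x * (win B (fun _ => j0) (fun _ => j1) U *
        ∑ y ∈ B, a * ‖GM A (pB S A m a B Ac V U) y x‖ ^ 2)
      ≤ gam (pB S A m a B Ac V U) x * (1 *
        ∑ y ∈ B, a * ‖GM A (pB S A m a B Ac V U) y x‖ ^ 2) :=
        mul_le_mul_of_nonneg_left (mul_le_mul_of_nonneg_right hw1 hs) h0
    _ = ∑ y ∈ B, a * gam (pB S A m a B Ac V U) x * ‖GM A (pB S A m a B Ac V U) y x‖ ^ 2 := by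
        rw [one_mul, Finset.mul_sum]
        exact Finset.sum_congr rfl fun y _ => by ring
    _ ≤ ∑ _y ∈ B, (1 : ℝ) := by
        refine Finset.sum_le_sum fun y hy => ?_
        have h := entry_le hS.symm hL y x
        rwa [gam_pB_on hy] at h

/-- `ff x s ≤ (2 + 2 Df) ff x y` -/
theorem ff_le {ξ : κ' → ι → ℝ} {s x y : ι} {Df : ℝ} (h1 : 1 ≤ ff ξ x y) (h2 : ff ξ s y ≤ Df) :
    ff ξ x s ≤ (2 + 2 * Df) * ff ξ x y := by
  have h3 : ff ξ x s ≤ 2 * ff ξ x y + 2 * ff ξ s y := by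
    unfold ff
    rw [Finset.mul_sum, Finset.mul_sum, ← Finset.sum_add_distrib]
    refine Finset.sum_le_sum fun j _ => ?_
    nlinarith [sq_nonneg ((ξ j x - ξ j y) + (ξ j s - ξ j y))]
  have h4 : 0 ≤ ff ξ s y := ff_nonneg ξ s y
  nlinarith

/-- for fixed exterior -/
theorem F1_le_point (hS : WO.Good S A) (ha : 0 < a) (ξ : κ' → ι → ℝ) {Lam Fz : Finset ι} {s : ι}
    (hB : BB Lam Fz s = B) (j0 j1 Df : ℝ) (hff : ∀ x y : ι, x ≠ y → 1 ≤ ff ξ x y)
    (hDf : ∀ y ∈ B, ff ξ s y ≤ Df) {v : ι → ℂ} (hA : Ac ⊆ CX S m B V)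
    (hv : ∀ y, y ∉ B → v y = uC S A a (CX S m B V) Ac V y) :
    ∑ x ∈ univ \ B, gam (uC S A a (CX S m B V) Ac V) x * ff ξ x s *
      A1 S.c a A v Lam Fz s x j0 j1 ≤
      (2 + 2 * Df) * ∫ U, FA S A m a ξ B j0 j1 Ac (mix B U V) ∂(muc ι S.c) := by
  have hp := muc_prob (ι := ι) S.c_pos
  have hc := S.c_pos
  have e1 : ∑ x ∈ univ \ B, gam (uC S A a (CX S m B V) Ac V) x * ff ξ x s *
      A1 S.c a A v Lam Fz s x j0 j1 = ∫ U, ∑ x ∈ univ \ B, ff ξ x s *
        (gam (uC S A a (CX S m B V) Ac V) x * (win B (fun _ => j0) (fun _ => j1) U *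
        ∑ y ∈ B, a * ‖GM A (pB S A m a B Ac V U) y x‖ ^ 2)) ∂(muc ι S.c) := by
    rw [integral_finsetSum]
    · refine Finset.sum_congr rfl fun x _ => ?_
      rw [A1_eq hB hv, integral_const_mul, integral_const_mul]
      ring
    · intro x hx
      exact (term_int hS ha hA x (Finset.mem_sdiff.mp hx).2 j0 j1 S.c hc).const_mul _
  rw [e1, ← integral_const_mul]
  refine integral_mono ?_ ?_ fun U => ?_
  · exact integrable_finset_sum _ fun x hx =>
      (term_int hS ha hA x (Finset.mem_sdiff.mp hx).2 j0 j1 S.c hc).const_mul _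
  · refine Integrable.const_mul ?_ _
    obtain ⟨c, hcb⟩ := (FA_BX (m := m) hS ha ξ B j0 j1).bdd
    refine Integrable.of_bound ((FA_meas ξ B j0 j1 Ac).comp
      ((measurable_mix B).comp (measurable_const.prodMk measurable_id))).aestronglyMeasurable c
      (Filter.Eventually.of_forall fun U => ?_)
    rw [Real.norm_eq_abs]
    refine hcb _ Ac ?_
    rw [CX_mix (Finset.Subset.refl B)]
    exact hA
  · simp only
    rw [FA_mix ξ j0 j1 hA]
    have hL := pB_loss (U := U) hS ha hA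
    have hw0 := win_nonneg B (fun _ => j0) (fun _ => j1) U
    have e2 : (2 + 2 * Df) * (win B (fun _ => j0) (fun _ => j1) U *
        ∑ y ∈ B, a * ∑ x, gam (pB S A m a B Ac V U) x * ff ξ x y *
          ‖GM A (pB S A m a B Ac V U) y x‖ ^ 2) =
        ∑ x, ∑ y ∈ B, win B (fun _ => j0) (fun _ => j1) U * (a * (gam (pB S A m a B Ac V U) x *
          ((2 + 2 * Df) * ff ξ x y) * ‖GM A (pB S A m a B Ac V U) y x‖ ^ 2)) := by
      rw [Finset.sum_comm, Finset.mul_sum, Finset.mul_sum]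
      refine Finset.sum_congr rfl fun y _ => ?_
      rw [Finset.mul_sum, Finset.mul_sum, Finset.mul_sum]
      exact Finset.sum_congr rfl fun x _ => by ring
    rw [e2, ← Finset.sum_sdiff (Finset.subset_univ B)]
    have hDf0 : B.Nonempty → 0 ≤ Df := fun ⟨y, hy⟩ => (ff_nonneg ξ s y).trans (hDf y hy)
    have hrest : 0 ≤ ∑ x ∈ B, ∑ y ∈ B, win B (fun _ => j0) (fun _ => j1) U *
        (a * (gam (pB S A m a B Ac V U) x *
          ((2 + 2 * Df) * ff ξ x y) * ‖GM A (pB S A m a B Ac V U) y x‖ ^ 2)) := by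
      refine Finset.sum_nonneg fun x hx => Finset.sum_nonneg fun y _ => ?_
      have h1 := hDf0 ⟨x, hx⟩
      have h2 := ff_nonneg ξ x y
      have h3 := (gam_pos hL x).le
      positivity
    refine le_trans ?_ (le_add_of_nonneg_right hrest)
    refine Finset.sum_le_sum fun x hx => ?_
    have hxB := (Finset.mem_sdiff.mp hx).2
    have hg : gam (uC S A a (CX S m B V) Ac V) x = gam (pB S A m a B Ac V U) x := by
      unfold gam
      rw [pB_off hxB]
    rw [hg, Finset.mul_sum, Finset.mul_sum, Finset.mul_sum]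
    refine Finset.sum_le_sum fun y hy => ?_
    have h1 : ff ξ x s ≤ (2 + 2 * Df) * ff ξ x y :=
      ff_le (hff x y fun h => hxB (h ▸ hy)) (hDf y hy)
    have h3 := (gam_pos hL x).le
    calc ff ξ x s * (gam (pB S A m a B Ac V U) x * (win B (fun _ => j0) (fun _ => j1) U *
          (a * ‖GM A (pB S A m a B Ac V U) y x‖ ^ 2)))
        = (win B (fun _ => j0) (fun _ => j1) U * a * gam (pB S A m a B Ac V U) x *
          ‖GM A (pB S A m a B Ac V U) y x‖ ^ 2) * ff ξ x s := by ring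
      _ ≤ (win B (fun _ => j0) (fun _ => j1) U * a * gam (pB S A m a B Ac V U) x *
          ‖GM A (pB S A m a B Ac V U) y x‖ ^ 2) * ((2 + 2 * Df) * ff ξ x y) :=
          mul_le_mul_of_nonneg_left h1 (by positivity)
      _ = _ := by ring

theorem A1_nonneg (ha : 0 < a) (c : ℝ) (v : ι → ℂ) (Lam Fz : Finset ι) (s x : ι) (j0 j1 : ℝ) :
    0 ≤ A1 c a A v Lam Fz s x j0 j1 := by
  unfold A1
  refine integral_nonneg fun U => mul_nonneg (win_nonneg _ _ _ _)
    (Finset.sum_nonneg fun y _ => mul_nonneg ha.le (sq_nonneg _))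

theorem F1_nonneg (hS : WO.Good S A) (ha : 0 < a) (ξ : κ' → ι → ℝ) (Lam Fz : Finset ι) (s : ι)
    (j0 j1 : ℝ) (vv : Finset 𝔅 → (ι → ℝ) → ι → ℂ) (hA : Ac ⊆ CX S m B V) :
    0 ≤ F1 S A m a ξ B Lam Fz s j0 j1 vv Ac V := by
  unfold F1
  exact Finset.sum_nonneg fun x _ => mul_nonneg (mul_nonneg
    (gam_pos (uC_loss hS ha CX_sub hA) x).le (ff_nonneg ξ x s)) (A1_nonneg ha _ _ _ _ _ _ _ _)

theorem FA_int_le (hS : WO.Good S A) (ha : 0 < a) (ξ : κ' → ι → ℝ) (j0 j1 : ℝ) (hj : -S.c ≤ j0)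
    (hA : Ac ⊆ CX S m B V) :
    ∫ U, FA S A m a ξ B j0 j1 Ac (mix B U V) ∂(muc ι S.c) ≤ ∑ y ∈ B, ∑ x, ff ξ x y := by
  have hp := muc_prob (ι := ι) S.c_pos
  have hb : ∀ U, ‖FA S A m a ξ B j0 j1 Ac (mix B U V)‖ ≤ ∑ y ∈ B, ∑ x, ff ξ x y := by
    intro U
    have hA2 : Ac ⊆ CX S m B (mix B U V) := by
      rw [CX_mix (Finset.Subset.refl B)]; exact hA
    rw [Real.norm_eq_abs, abs_of_nonneg (FA_nonneg hS ha ξ j0 j1 hA2)]
    unfold FA
    split_ifs
    · refine Finset.sum_le_sum fun y hy => row_le hS (uC_loss hS ha CX_sub hA2) ξ ?_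
      unfold gam
      rw [uC_on CX_disj' (CXAc_disj hA2) hy]
      simp
    · exact Finset.sum_nonneg fun y _ => Finset.sum_nonneg fun x _ => ff_nonneg ξ x y
  have := norm_integral_le_of_norm_le_const (μ := muc ι S.c)
    (Filter.Eventually.of_forall hb)
  rw [probReal_univ, mul_one] at this
  exact (le_abs_self _).trans this

theorem F1_BX (hS : WO.Good S A) (ha : 0 < a) (ξ : κ' → ι → ℝ) {Lam Fz : Finset ι} {s : ι}
    (hB : BB Lam Fz s = B) (j0 j1 Df : ℝ) (hj : -S.c ≤ j0)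
    (hff : ∀ x y : ι, x ≠ y → 1 ≤ ff ξ x y)
    (hDf : ∀ y ∈ B, ff ξ s y ≤ Df) {vv : Finset 𝔅 → (ι → ℝ) → ι → ℂ}
    (hvm : ∀ Ac y, Measurable fun V => vv Ac V y)
    (hvv : ∀ V, ∀ Ac ⊆ CX S m B V, ∀ y, y ∉ B → vv Ac V y = uC S A a (CX S m B V) Ac V y) :
    BX S m B (F1 S A m a ξ B Lam Fz s j0 j1 vv) := by
  have hs : s ∈ B := by
    rw [← hB]; unfold BB; exact Finset.mem_insert_self _ _
  have hDf0 : 0 ≤ Df := (ff_nonneg ξ s s).trans (hDf s hs)
  refine ⟨fun Ac => F1_meas ξ B Lam Fz s j0 j1 hvm Ac,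
    (2 + 2 * Df) * ∑ y ∈ B, ∑ x, ff ξ x y, fun V Ac hA => ?_⟩
  rw [abs_of_nonneg (F1_nonneg hS ha ξ Lam Fz s j0 j1 vv hA)]
  refine (F1_le_point hS ha ξ hB j0 j1 Df hff hDf hA (hvv V Ac hA)).trans ?_
  exact mul_le_mul_of_nonneg_left (FA_int_le hS ha ξ j0 j1 hj hA) (by linarith)

/-- (A1) the local quantity `A1`, integrated over the exterior -/
theorem A1_int (hS : WO.Good S A) (ha : 0 < a) (ξ : κ' → ι → ℝ) {Lam Fz : Finset ι} {s : ι}
    (hB : BB Lam Fz s = B) (j0 j1 Df : ℝ) (hj : -S.c ≤ j0)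
    (hff : ∀ x y : ι, x ≠ y → 1 ≤ ff ξ x y)
    (hDf : ∀ y ∈ B, ff ξ s y ≤ Df) {vv : Finset 𝔅 → (ι → ℝ) → ι → ℂ}
    (hvm : ∀ Ac y, Measurable fun V => vv Ac V y)
    (hvv : ∀ V, ∀ Ac ⊆ CX S m B V, ∀ y, y ∉ B → vv Ac V y = uC S A a (CX S m B V) Ac V y) :
    EX S A m B (F1 S A m a ξ B Lam Fz s j0 j1 vv) ≤ (2 + 2 * Df) * EA S A m a ξ B j0 j1 := by
  have hp := muc_prob (ι := ι) S.c_pos
  rw [EA_eq, ← EX_mul]
  refine EX_le_of_mix hS (Finset.Subset.refl B) (F1_BX hS ha ξ hB j0 j1 Df hj hff hDf hvm hvv)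
    ((FA_BX hS ha ξ B j0 j1).const_mul _) fun V Ac hA => ?_
  have e1 : ∀ U, F1 S A m a ξ B Lam Fz s j0 j1 vv Ac (mix B U V) =
      ∑ x ∈ univ \ B, gam (uC S A a (CX S m B V) Ac V) x * ff ξ x s *
        A1 S.c a A (vv Ac (mix B U V)) Lam Fz s x j0 j1 := by
    intro U
    unfold F1
    refine Finset.sum_congr rfl fun x hx => ?_
    have : gam (uC S A a (CX S m B (mix B U V)) Ac (mix B U V)) x =
        gam (uC S A a (CX S m B V) Ac V) x := by
      unfold gam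
      rw [pB_eq hA, pB_off (Finset.mem_sdiff.mp hx).2]
    rw [this]
  have hle : ∀ U, F1 S A m a ξ B Lam Fz s j0 j1 vv Ac (mix B U V) ≤
      (2 + 2 * Df) * ∫ U, FA S A m a ξ B j0 j1 Ac (mix B U V) ∂(muc ι S.c) := by
    intro U
    rw [e1]
    refine F1_le_point hS ha ξ hB j0 j1 Df hff hDf hA fun y hy => ?_
    have hA2 : Ac ⊆ CX S m B (mix B U V) := by
      rw [CX_mix (Finset.Subset.refl B)]; exact hA
    rw [hvv _ Ac hA2 y hy, pB_eq hA, pB_off hy]
  have h2 : ∫ U, F1 S A m a ξ B Lam Fz s j0 j1 vv Ac (mix B U V) ∂(muc ι S.c) ≤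
      ∫ _U, ((2 + 2 * Df) * ∫ U, FA S A m a ξ B j0 j1 Ac (mix B U V) ∂(muc ι S.c))
        ∂(muc ι S.c) := by
    refine integral_mono_of_nonneg (Filter.Eventually.of_forall fun U => ?_)
      (integrable_const _) (Filter.Eventually.of_forall hle)
    have hA2 : Ac ⊆ CX S m B (mix B U V) := by
      rw [CX_mix (Finset.Subset.refl B)]; exact hA
    exact F1_nonneg hS ha ξ Lam Fz s j0 j1 vv hA2
  rw [integral_const, probReal_univ, one_smul] at h2
  rw [integral_const_mul]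
  exact h2

end Pool.Agent.Lib.MP_562b47_mp.LH.FX
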