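import Pool.Agent.Lib.MP_562b47_mp.LH.FarM
import Pool.Agent.Lib.MP_562b47_mp.LH.FarB

/-!
Far sources, crude bound: the local theorem integrated over the frozen sites and the exterior.
-/

open MeasureTheory Matrix Finset

set_option linter.unusedSectionVars false
set_option linter.unusedVariables false

namespace Pool.Agent.Lib.MP_562b47_mp.LH.FA

open Pool.Agent.Lib.MP_562b47_mp.AL Pool.Agent.Lib.MP_562b47_mp.WO Pool.Agent.Lib.MP_562b47_mp.LW
  Pool.Agent.Lib.MP_562b47_mp.LH Pool.Agent.Lib.MP_562b47_mp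

variable {ι 𝔅 κ' : Type*} [Fintype ι] [DecidableEq ι] [Fintype 𝔅] [DecidableEq 𝔅] [Fintype κ']

/-! ### measurability and bounds -/

section basic

variable {S : Sys ι 𝔅} {A : Matrix ι ι ℝ} {m : ℕ} {a : ℝ} {s : ι}

theorem evw_meas (σ : Finset 𝔅) (s : ι) : MeasurableSet {V : ι → ℝ | evw S σ s V} := by
  have : {V : ι → ℝ | evw S σ s V} = ⋂ b : 𝔅, ⋂ x : ι,
      {V : ι → ℝ | b ∈ σ → x ∈ S.Q b → x ≠ S.w b → x ≠ s → V x ∈ Set.Icc (S.lo b x) (S.hi b x)} := by
    ext V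
    simp only [evw, Set.mem_iInter, Set.mem_ofPred_eq]
    exact ⟨fun h b x h1 h2 h3 h4 => h b h1 x h2 h3 h4, fun h b h1 x h2 h3 h4 => h b x h1 h2 h3 h4⟩
  rw [this]
  refine MeasurableSet.iInter fun b => MeasurableSet.iInter fun x => ?_
  by_cases h : b ∈ σ ∧ x ∈ S.Q b ∧ x ≠ S.w b ∧ x ≠ s
  · have : {V : ι → ℝ | b ∈ σ → x ∈ S.Q b → x ≠ S.w b → x ≠ s →
        V x ∈ Set.Icc (S.lo b x) (S.hi b x)} =
        (fun V : ι → ℝ => V x) ⁻¹' Set.Icc (S.lo b x) (S.hi b x) := by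
      ext V
      simp only [Set.mem_ofPred_eq, Set.mem_preimage]
      exact ⟨fun h' => h' h.1 h.2.1 h.2.2.1 h.2.2.2, fun h' _ _ _ _ => h'⟩
    rw [this]
    exact (measurable_pi_apply x) measurableSet_Icc
  · have : {V : ι → ℝ | b ∈ σ → x ∈ S.Q b → x ≠ S.w b → x ≠ s →
        V x ∈ Set.Icc (S.lo b x) (S.hi b x)} = Set.univ := by
      ext V
      simp only [Set.mem_ofPred_eq, Set.mem_univ, iff_true]
      intro h1 h2 h3 h4
      exact absurd ⟨h1, h2, h3, h4⟩ h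
    rw [this]
    exact MeasurableSet.univ

theorem loss_update {u : ι → ℂ} (hu : Loss u) {us : ℂ} (h : us.im < 0) :
    Loss (Function.update u s us) := by
  intro x
  by_cases hx : x = s
  · rw [hx, Function.update_self]; exact h
  · rw [Function.update_of_ne hx]; exact hu x

theorem us_im (e t : ℝ) : ((e : ℂ) - ((t + a : ℝ) : ℂ) * Complex.I).im = -(t + a) := by
  rw [Complex.sub_im, Complex.ofReal_im, Complex.im_ofReal_mul, Complex.I_im]
  ring

theorem entry_us (hA : A.IsSymm) (ha : 0 < a) {u : ι → ℂ} (hu : Loss u) {e t : ℝ} (ht : 0 ≤ t)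
    {x : ι} (hx : x ≠ s) :
    gam u x * ‖GM A (Function.update u s ((e : ℂ) - ((t + a : ℝ) : ℂ) * Complex.I)) s x‖ ^ 2 ≤
      a⁻¹ := by
  have him := us_im (a := a) e t
  have hL := loss_update (s := s) hu (us := (e : ℂ) - ((t + a : ℝ) : ℂ) * Complex.I)
    (by rw [him]; linarith)
  have h := entry_le hA hL s x
  have e1 : gam (Function.update u s ((e : ℂ) - ((t + a : ℝ) : ℂ) * Complex.I)) s = t + a := by
    unfold gam
    rw [Function.update_self, him, neg_neg]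
  have e2 : gam (Function.update u s ((e : ℂ) - ((t + a : ℝ) : ℂ) * Complex.I)) x = gam u x := by
    unfold gam
    rw [Function.update_of_ne hx]
  rw [e1, e2] at h
  have hg := gam_pos hu x
  set G := ‖GM A (Function.update u s ((e : ℂ) - ((t + a : ℝ) : ℂ) * Complex.I)) s x‖ ^ 2
  have hG : 0 ≤ G := sq_nonneg _
  have h2 : a * (gam u x * G) ≤ 1 := by
    refine le_trans ?_ h
    rw [mul_assoc]
    exact mul_le_mul_of_nonneg_right (by linarith) (mul_nonneg hg.le hG)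
  rw [← one_div, le_div_iff₀ ha]
  linarith

/-- the sum over the sources at fixed `t` -/
theorem TT_nonneg {ξ : κ' → ι → ℝ} {X : Finset ι} {C Ac : Finset 𝔅} {V : ι → ℝ}
    (hu : Loss (uC S A a C Ac V)) (us : ℂ) : 0 ≤ TT S A a ξ X s C Ac V us := by
  unfold TT
  exact Finset.sum_nonneg fun x _ =>
    mul_nonneg (mul_nonneg (gam_pos hu x).le (ff_nonneg ξ x s)) (sq_nonneg _)

theorem TT_le (hA : A.IsSymm) (ha : 0 < a) {ξ : κ' → ι → ℝ} {X : Finset ι} (hX : s ∉ X)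
    {C Ac : Finset 𝔅} {V : ι → ℝ} (hu : Loss (uC S A a C Ac V)) {e t : ℝ} (ht : 0 ≤ t) :
    TT S A a ξ X s C Ac V ((e : ℂ) - ((t + a : ℝ) : ℂ) * Complex.I) ≤
      ∑ x ∈ X, ff ξ x s * a⁻¹ := by
  unfold TT
  refine Finset.sum_le_sum fun x hx => ?_
  have h := entry_us (s := s) hA ha hu (e := e) ht (x := x) (fun h => hX (h ▸ hx))
  calc gam (uC S A a C Ac V) x * ff ξ x s * ‖GM A (Function.update (uC S A a C Ac V) s
        ((e : ℂ) - ((t + a : ℝ) : ℂ) * Complex.I)) s x‖ ^ 2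
      = ff ξ x s * (gam (uC S A a C Ac V) x * ‖GM A (Function.update (uC S A a C Ac V) s
        ((e : ℂ) - ((t + a : ℝ) : ℂ) * Complex.I)) s x‖ ^ 2) := by ring
    _ ≤ ff ξ x s * a⁻¹ := mul_le_mul_of_nonneg_left h (ff_nonneg ξ x s)

theorem TI_abs_le (hA : A.IsSymm) (ha : 0 < a) {ξ : κ' → ι → ℝ} {X : Finset ι} (hX : s ∉ X)
    {C Ac : Finset 𝔅} {V : ι → ℝ} (hu : Loss (uC S A a C Ac V)) {e l : ℝ} (hl : 0 < l) :
    |TI S A a ξ X s C Ac V e l| ≤ (∑ x ∈ X, ff ξ x s * a⁻¹) * l := by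
  unfold TI
  have h := intervalIntegral.norm_integral_le_of_norm_le_const (a := 0) (b := l)
    (f := fun t => TT S A a ξ X s C Ac V ((e : ℂ) - ((t + a : ℝ) : ℂ) * Complex.I))
    (C := ∑ x ∈ X, ff ξ x s * a⁻¹) (fun t ht => by
      rw [Set.uIoc_of_le hl.le] at ht
      rw [Real.norm_eq_abs, abs_of_nonneg (TT_nonneg hu _)]
      exact TT_le hA ha hX hu ht.1.le)
  rw [sub_zero, abs_of_pos hl] at h
  exact h

theorem upd_meas {Ω : Type*} [MeasurableSpace Ω] {u : Ω → ι → ℂ}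
    (hu : ∀ x, Measurable fun ω => u ω x) {us : Ω → ℂ} (hus : Measurable us) (s x : ι) :
    Measurable fun ω => Function.update (u ω) s (us ω) x := by
  by_cases h : x = s
  · subst h
    simp only [Function.update_self]
    exact hus
  · simp only [Function.update_of_ne h]
    exact hu x

theorem ust_meas (e a : ℝ) : Measurable fun t : ℝ => (e : ℂ) - ((t + a : ℝ) : ℂ) * Complex.I := by
  fun_prop

theorem TI_meas (ξ : κ' → ι → ℝ) (X : Finset ι) (C Ac : Finset 𝔅) (e l : ℝ) (hl : 0 < l) :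
    Measurable fun V : ι → ℝ => TI S A a ξ X s C Ac V e l := by
  have h : Measurable fun q : (ι → ℝ) × ℝ =>
      TT S A a ξ X s C Ac q.1 ((e : ℂ) - ((q.2 + a : ℝ) : ℂ) * Complex.I) := by
    unfold TT
    refine Finset.measurable_fun_sum _ fun x _ => ?_
    have h1 : ∀ y, Measurable fun q : (ι → ℝ) × ℝ => uC S A a C Ac q.1 y := fun y =>
      (FX.uC_meas C Ac y).comp measurable_fst
    refine ((measurable_gam h1 x).mul measurable_const).mul ?_
    exact (measurable_GM' A (fun z => upd_meas h1 ((ust_meas e a).comp measurable_snd) s z)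
      s x).norm.pow_const 2
  have e1 : (fun V : ι → ℝ => TI S A a ξ X s C Ac V e l) = fun V => ∫ t in Set.Ioc 0 l,
      TT S A a ξ X s C Ac V ((e : ℂ) - ((t + a : ℝ) : ℂ) * Complex.I) := by
    funext V
    unfold TI
    rw [intervalIntegral.integral_of_le hl.le]
  rw [e1]
  exact (h.stronglyMeasurable.integral_prod_right'
    (ν := (volume : Measure ℝ).restrict (Set.Ioc 0 l))).measurable

/-- `TI` as a sum over the sources -/
theorem TI_sum (hA : A.IsSymm) (ha : 0 < a) {ξ : κ' → ι → ℝ} {X : Finset ι} (hX : s ∉ X)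
    {C Ac : Finset 𝔅} {V : ι → ℝ} (hu : Loss (uC S A a C Ac V)) {e l : ℝ} (hl : 0 < l) :
    TI S A a ξ X s C Ac V e l = ∑ x ∈ X, gam (uC S A a C Ac V) x * ff ξ x s *
      ∫ t in (0 : ℝ)..l, ‖GM A (Function.update (uC S A a C Ac V) s
        ((e : ℂ) - ((t + a : ℝ) : ℂ) * Complex.I)) s x‖ ^ 2 := by
  unfold TI TT
  rw [intervalIntegral.integral_finsetSum]
  · refine Finset.sum_congr rfl fun x _ => ?_
    rw [intervalIntegral.integral_const_mul]
  · intro x hx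
    refine IntervalIntegrable.const_mul ?_ _
    rw [intervalIntegrable_iff_integrableOn_Ioc_of_le hl.le]
    have hm : Measurable fun t : ℝ => ‖GM A (Function.update (uC S A a C Ac V) s
        ((e : ℂ) - ((t + a : ℝ) : ℂ) * Complex.I)) s x‖ ^ 2 :=
      (measurable_GM' A (fun z => upd_meas (u := fun _ : ℝ => uC S A a C Ac V)
        (fun _ => measurable_const) (ust_meas e a) s z) s x).norm.pow_const 2
    refine Measure.integrableOn_of_bounded (M := a⁻¹ * (gam (uC S A a C Ac V) x)⁻¹)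
      (by simp) hm.aestronglyMeasurable ?_
    rw [ae_restrict_iff' measurableSet_Ioc]
    refine Filter.Eventually.of_forall fun t ht => ?_
    rw [Real.norm_eq_abs, abs_of_nonneg (sq_nonneg _)]
    have h := entry_us (s := s) hA ha hu (e := e) ht.1.le (x := x) (fun h => hX (h ▸ hx))
    have hg := gam_pos hu x
    rw [← div_eq_mul_inv, le_div_iff₀ hg]
    linarith

end basic

/-! ### invariance -/

section inv

variable {S : Sys ι 𝔅} {A : Matrix ι ι ℝ} {m : ℕ} {a : ℝ} {b0 : 𝔅} {σ σC σA Ac : Finset 𝔅} {s : ι}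
  {V : ι → ℝ}

/-- the potential of the local theorem -/
noncomputable def vv (S : Sys ι 𝔅) (A : Matrix ι ι ℝ) (m : ℕ) (a : ℝ) (b0 : 𝔅)
    (σ σC σA Ac : Finset 𝔅) (V : ι → ℝ) : ι → ℂ :=
  uC S A a (CX S m (Reg S b0 σ) V ∪ σC) (Ac ∪ σA) V

theorem vv_meas (Ac : Finset 𝔅) (y : ι) :
    Measurable fun V : ι → ℝ => vv S A m a b0 σ σC σA Ac V y := by
  unfold vv
  exact FX.meas_of_CX (F := fun C V => uC S A a (C ∪ σC) (Ac ∪ σA) V y)
    fun C => FX.uC_meas (C ∪ σC) (Ac ∪ σA) y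

theorem vv_out (hCσ : σC ⊆ σ) (hAσ : σA ⊆ σ) (V : ι → ℝ) (y : ι) (hy : y ∉ Reg S b0 σ) :
    vv S A m a b0 σ σC σA Ac V y = uC S A a (CX S m (Reg S b0 σ) V) Ac V y :=
  uC_out A hCσ hAσ hy

theorem gam_out (hA : Ac ⊆ CX S m (Reg S b0 σ) V) {T : Finset ι} (hT : T ⊆ Reg S b0 σ)
    (U : ι → ℝ) {x : ι} (hx : x ∉ Reg S b0 σ) :
    gam (uC S A a (CX S m (Reg S b0 σ) (mix T U V)) Ac (mix T U V)) x =
      gam (uC S A a (CX S m (Reg S b0 σ) V) Ac V) x := by
  unfold gam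
  rw [FX.CX_mix hT, FX.uC_off FX.CX_disj' (FX.CXAc_disj hA) (FX.mix_off hT) hx]

/-- the functional with `A1` does not see the potentials of the region -/
theorem F1_mix (ξ : κ' → ι → ℝ) (hs : S.w b0 = s) (hCσ : σC ⊆ σ) (hAσ : σA ⊆ σ) (j0 j1 : ℝ)
    (hA : Ac ⊆ CX S m (Reg S b0 σ) V) {T : Finset ι} (hT : T ⊆ Reg S b0 σ) (U : ι → ℝ) :
    FX.F1 S A m a ξ (Reg S b0 σ) (Lm S b0 σ σA s) (Fz S σ σA s) s j0 j1
        (vv S A m a b0 σ σC σA) Ac (mix T U V) =
      FX.F1 S A m a ξ (Reg S b0 σ) (Lm S b0 σ σA s) (Fz S σ σA s) s j0 j1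
        (vv S A m a b0 σ σC σA) Ac V := by
  unfold FX.F1
  refine Finset.sum_congr rfl fun x hx => ?_
  have hB : BB (Lm S b0 σ σA s) (Fz S σ σA s) s = Reg S b0 σ := BB_eq hs hAσ
  rw [gam_out hA hT U (Finset.mem_sdiff.mp hx).2]
  congr 1
  rw [FX.A1_eq (V := V) (Ac := Ac) (m := m) hB (fun y hy => vv_out hCσ hAσ V y hy),
    FX.A1_eq (V := V) (Ac := Ac) (m := m) hB]
  intro y hy
  rw [vv_out hCσ hAσ _ y hy, FX.CX_mix hT]
  exact FX.uC_off FX.CX_disj' (FX.CXAc_disj hA) (FX.mix_off hT) hy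

end inv

end Pool.Agent.Lib.MP_562b47_mp.LH.FA
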