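import Pool.Agent.Lib.MP_562b47_mp.WO.Defs

/-!
MP_562b47, d = 2, Lemma H' (lowering of the background), global part: definitions.

Stage `m`: the classes `> m` are active.  `C` = set of complete blocks of class `> m`, `Ac` = set of
active blocks.
-/

open MeasureTheory Matrix Finset

namespace Pool.Agent.Lib.MP_562b47_mp.LH

open Pool.Agent.Lib.MP_562b47_mp.AL Pool.Agent.Lib.MP_562b47_mp.WO Pool.Agent.Lib.MP_562b47_mp

variable {ι 𝔅 κ' : Type*} [Fintype ι] [DecidableEq ι] [Fintype 𝔅] [DecidableEq 𝔅] [Fintype κ']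
  (S : Sys ι 𝔅) (A : Matrix ι ι ℝ) (m : ℕ) (a : ℝ)

open Classical in
/-- the complete blocks of class `> m` -/
noncomputable def CC (V : ι → ℝ) : Finset 𝔅 := (S.Comp V).filter fun b => m < S.cls b

/-- the potential with set `C` of complete blocks and set `Ac` of active blocks -/
noncomputable def uC (C Ac : Finset 𝔅) (V : ι → ℝ) (x : ι) : ℂ :=
  (V x : ℂ) - ((a + ∑ b ∈ C, (if x ∈ S.inn b then S.et (S.cls b) - a else 0) : ℝ) : ℂ) *
      Complex.I +
    ∑ b ∈ Ac, (if x = S.w b then ((S.ze A b V - V x : ℝ) : ℂ) -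
      ((S.gg A b V + (S.et (S.cls b) - a) : ℝ) : ℂ) * Complex.I else 0)

/-- the weight of `Ac ⊆ C` -/
noncomputable def wC (C Ac : Finset 𝔅) (V : ι → ℝ) : ℝ :=
  (∏ b ∈ Ac, S.hh A b V) * ∏ b ∈ C \ Ac, (1 - S.hh A b V)

open Classical in
/-- the complete blocks (class `> m`) not containing `s` -/
noncomputable def CN (s : ι) (V : ι → ℝ) : Finset 𝔅 := (CC S m V).filter fun b => s ∉ S.Q b

open Classical in
/-- the complete blocks (class `> m`) with centre `s` -/
noncomputable def CW (s : ι) (V : ι → ℝ) : Finset 𝔅 := (CC S m V).filter fun b => S.w b = s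

open Classical in
/-- the blocks (class `> m`) containing `s`, not as centre, which are complete except possibly at
`s` -/
noncomputable def AS (s : ι) (V : ι → ℝ) : Finset 𝔅 :=
  univ.filter fun b => m < S.cls b ∧ s ∈ S.Q b ∧ s ≠ S.w b ∧
    ∀ x ∈ S.Q b, x ≠ S.w b → x ≠ s → V x ∈ Set.Icc (S.lo b x) (S.hi b x)

/-- sum over the sources `x ∈ X`, potential `us` at `s` -/
noncomputable def TT (ξ : κ' → ι → ℝ) (X : Finset ι) (s : ι) (C Ac : Finset 𝔅) (V : ι → ℝ)
    (us : ℂ) : ℝ :=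
  ∑ x ∈ X, gam (uC S A a C Ac V) x * ff ξ x s *
    ‖GM A (Function.update (uC S A a C Ac V) s us) s x‖ ^ 2

/-- its integral over `u_s = e - i (t + a)`, `0 ≤ t ≤ l` -/
noncomputable def TI (ξ : κ' → ι → ℝ) (X : Finset ι) (s : ι) (C Ac : Finset 𝔅) (V : ι → ℝ)
    (e l : ℝ) : ℝ :=
  ∫ t in (0 : ℝ)..l, TT S A a ξ X s C Ac V ((e : ℂ) - ((t + a : ℝ) : ℂ) * Complex.I)

/-- a site is lowered: it is not in the inner block of a complete block of class `> m`, and not an
active centre -/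
def Low (C Ac : Finset 𝔅) (s : ι) : Prop := (∀ b ∈ C, s ∉ S.inn b) ∧ ∀ b ∈ Ac, s ≠ S.w b

open Classical in
/-- the background share of the site `y` (`x` runs over all sources), expectation in the world -/
noncomputable def EY (ξ : κ' → ι → ℝ) (y : ι) : ℝ :=
  ∫ V, ∑ Ac ∈ (CC S m V).powerset, wC S A (CC S m V) Ac V *
    (if Low S (CC S m V) Ac y then
      a * ∑ x, gam (S.uA A m a Ac V) x * ff ξ x y * ‖GM A (S.uA A m a Ac V) y x‖ ^ 2 else 0) ∂(S.mu)

open Classical in
/-- the region: the block `b0` and the blocks of `σ` -/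
noncomputable def Reg (b0 : 𝔅) (σ : Finset 𝔅) : Finset ι := S.Q b0 ∪ σ.biUnion S.Q

open Classical in
/-- the blocks of `C` that meet `Q b0` -/
noncomputable def meet (b0 : 𝔅) (C : Finset 𝔅) : Finset 𝔅 :=
  C.filter fun b => ¬ Disjoint (S.Q b) (S.Q b0)

open Classical in
/-- the complete blocks (class `> m`) disjoint from the region `B` -/
noncomputable def CX (B : Finset ι) (V : ι → ℝ) : Finset 𝔅 :=
  (CC S m V).filter fun b => Disjoint (S.Q b) B

open Classical in
/-- the expected share of the region `B` with all potentials of `B` in `[j0, j1]` -/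
noncomputable def EA (ξ : κ' → ι → ℝ) (B : Finset ι) (j0 j1 : ℝ) : ℝ :=
  ∫ V, ∑ Ac ∈ (CX S m B V).powerset, wC S A (CX S m B V) Ac V *
    (if ∀ y ∈ B, V y ∈ Set.Icc j0 j1 then
      ∑ y ∈ B, a * ∑ x, gam (uC S A a (CX S m B V) Ac V) x * ff ξ x y *
        ‖GM A (uC S A a (CX S m B V) Ac V) y x‖ ^ 2 else 0) ∂(S.mu)

end Pool.Agent.Lib.MP_562b47_mp.LH
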