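import Pool.Agent.Lib.MP_562b47_mp.LH.FineG

/-!
MP_562b47, Lemma H', global part: the refined bound for the far sources.
-/

open MeasureTheory Matrix Finset

set_option linter.unusedSectionVars false
set_option linter.unusedVariables false

namespace Pool.Agent.Lib.MP_562b47_mp.LH.FX

open Pool.Agent.Lib.MP_562b47_mp.AL Pool.Agent.Lib.MP_562b47_mp.WO Pool.Agent.Lib.MP_562b47_mp.LW
  Pool.Agent.Lib.MP_562b47_mp.LH Pool.Agent.Lib.MP_562b47_mp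

/-- refined bound (`σ = ∅`, `e = ± c`) -/
theorem far_fine (c l1 : ℝ) (hc : 0 < c) (hl1 : 0 < l1) : ∃ C : ℝ, 1 ≤ C ∧
    ∀ (ι 𝔅 κ' : Type) [Fintype ι] [DecidableEq ι] [Fintype 𝔅] [DecidableEq 𝔅] [Fintype κ']
      (S : Sys ι 𝔅) (A : Matrix ι ι ℝ) (m : ℕ) (a : ℝ) (ξ : κ' → ι → ℝ) (good : Finset ι)
      (bs : ι → 𝔅) (j0 j1 l0 : ℝ), S.c = c → WO.Good S A → Geo S m ξ good bs j0 j1 l0 →
      l1 ≤ j1 - j0 → 0 < a → a ≤ 1 / 2 →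
    ∀ (s : ι) (e Γ Df gm : ℝ), s ∈ good → (e = c ∨ e = -c) → 1 ≤ Γ → 0 < gm →
      (∀ V, S.comp (bs s) V → gm ≤ S.gg A (bs s) V) →
      (∀ y ∈ S.Q (bs s), ff ξ s y ≤ Df) →
      HypGF S A m a ξ (bs s) ∅ ∅ ∅ s e l0 Γ →
      F0 S A m a ξ (bs s) s e l0 ≤
        ZZ a (Lm S (bs s) ∅ ∅ s) ∅ s C Γ *
          (a ^ (-(1 / 2) : ℝ) * (WG S (bs s) * (S.κ * gm ^ 2)⁻¹ * EG S A m a ξ (bs s)) +
            a ^ (-(7 / 8) : ℝ) * (2 + 2 * Df) * EA S A m a ξ (S.Q (bs s)) j0 j1) +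
          C * a ^ (-(3 / 4) : ℝ) * (2 + 2 * Df) * ∑ y ∈ S.Q (bs s), EY S A m a ξ y := by
  obtain ⟨C, hC, hfine⟩ := fine_abs c l1 hc hl1
  refine ⟨C, hC, ?_⟩
  intro ι 𝔅 κ' _ _ _ _ _ S A m a ξ good bs j0 j1 l0 hSc hS hgeo hj ha ha1 s e Γ Df gm hs he hΓ
    hgm hg hDf hGF
  have hw : S.w (bs s) = s := hgeo.bs_w s hs
  have hsQ : s ∈ S.Q (bs s) := by
    have := S.w_mem (bs s)
    rwa [hw] at this
  have h2 : EX S A m (S.Q (bs s)) (F2 S A m a ξ (S.Q (bs s)) (Lm S (bs s) ∅ ∅ s) ∅ s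
      (S.lo (bs s)) (S.hi (bs s)) (gaG S a (bs s)) (usG S A (bs s))) ≤
      (S.κ * gm ^ 2)⁻¹ * EG S A m a ξ (bs s) := by
    have h := A2_int (A := A) (m := m) (a := a) (Lam := Lm S (bs s) ∅ ∅ s) (Fz := ∅) hS ha
      (by linarith) ξ (hgeo.bs_cls s hs) (by rw [hw]; exact Lm_BB hsQ) hgm hg
    rwa [hw] at h
  have h := hfine ι 𝔅 κ' S A m a ξ good bs j0 j1 l0 hSc hS hgeo hj ha ha1 s e Γ Df hs he hΓ hDf
    hGF (gaG S a (bs s)) (usG S A (bs s)) (S.et (S.cls (bs s)))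
    ((S.κ * gm ^ 2)⁻¹ * EG S A m a ξ (bs s)) (gaG_pos ha (bs s)) (gaG_le (by linarith) (bs s))
    (usG_meas S A (bs s)) (S.et_pos _) (usG_im hS (bs s))
    (fun V => by rw [← hSc]; exact usG_norm hS (bs s) V) h2
  rw [← mul_assoc (WG S (bs s))] at h
  exact h

end Pool.Agent.Lib.MP_562b47_mp.LH.FX
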