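import Pool.Agent.Lib.MP_562b47_mp.LH.Geo
import Pool.Agent.Lib.MP_562b47_mp.LW.Main
import Pool.Agent.Lib.MP_562b47_mp.LH.Crude
import Pool.Agent.Lib.MP_562b47_mp.LH.Fine

/-!
Far sources: the local theorem integrated over the frozen sites and the exterior.
-/

open MeasureTheory Matrix Finset

namespace Pool.Agent.Lib.MP_562b47_mp.LH

open Pool.Agent.Lib.MP_562b47_mp.AL Pool.Agent.Lib.MP_562b47_mp.WO Pool.Agent.Lib.MP_562b47_mp.LW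
  Pool.Agent.Lib.MP_562b47_mp

/-- crude bound (used for `σ ≠ ∅`) -/
theorem far_crude (c l1 : ℝ) (hc : 0 < c) (hl1 : 0 < l1) : ∃ C : ℝ, 1 ≤ C ∧
    ∀ (ι 𝔅 κ' : Type) [Fintype ι] [DecidableEq ι] [Fintype 𝔅] [DecidableEq 𝔅] [Fintype κ']
      (S : Sys ι 𝔅) (A : Matrix ι ι ℝ) (m : ℕ) (a : ℝ) (ξ : κ' → ι → ℝ) (good : Finset ι)
      (bs : ι → 𝔅) (j0 j1 l0 : ℝ), S.c = c → WO.Good S A → Geo S m ξ good bs j0 j1 l0 →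
      l1 ≤ j1 - j0 → 0 < a → a ≤ 1 / 2 →
    ∀ (s : ι) (σ σC σA : Finset 𝔅) (e l Γ Df : ℝ), s ∈ good → (∀ b ∈ σ, m < S.cls b) →
      (∀ b ∈ σ, ¬ Disjoint (S.Q b) (S.Q (bs s))) →
      (∀ b ∈ σ, ∀ b' ∈ σ, b ≠ b' → Disjoint (S.Q b) (S.Q b')) →
      σC ⊆ σ → σA ⊆ σC → |e| ≤ c → 0 < l → l ≤ 2 * c → 1 ≤ Γ →
      (∀ b ∈ σA, s ≠ S.w b) → (∀ b ∈ σC, s ∉ S.inn b) →
      (∀ y ∈ Reg S (bs s) σ, ff ξ s y ≤ Df) →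
      HypGF S A m a ξ (bs s) σ σC σA s e l Γ →
      FT S A m a ξ (bs s) σ σC σA s e l ≤
        PF S σ s * ZZ a (Lm S (bs s) σ σA s) (Fz S σ σA s) s C Γ * a⁻¹ * (2 + 2 * Df) *
          EA S A m a ξ (Reg S (bs s) σ) j0 j1 := by
  exact FA.far_crude c l1 hc hl1

/-- refined bound (`σ = ∅`, `e = ± c`) -/
theorem far_fine (c l1 : ℝ) (hc : 0 < c) (hl1 : 0 < l1) : ∃ C : ℝ, 1 ≤ C ∧
    ∀ (ι 𝔅 κ' : Type) [Fintype ι] [DecidableEq ι] [Fintype 𝔅] [DecidableEq 𝔅] [Fintype κ']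
      (S : Sys ι 𝔅) (A : Matrix ι ι ℝ) (m : ℕ) (a : ℝ) (ξ : κ' → ι → ℝ) (good : Finset ι)
      (bs : ι → 𝔅) (j0 j1 l0 : ℝ), S.c = c → WO.Good S A → Geo S m ξ good bs j0 j1 l0 →
      l1 ≤ j1 - j0 → 0 < a → a ≤ 1 / 2 →
    ∀ (s : ι) (e Γ Df gm : ℝ), s ∈ good → (e = c ∨ e = -c) → 1 ≤ Γ → 0 < gm →
      (∀ V, S.comp (bs s) V → gm ≤ S.gg A (bs s) V) →
      (∀ y ∈ S.Q (bs s), ff ξ s y ≤ Df) →
      HypGF S A m a ξ (bs s) ∅ ∅ ∅ s e l0 Γ →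
      F0 S A m a ξ (bs s) s e l0 ≤
        ZZ a (Lm S (bs s) ∅ ∅ s) ∅ s C Γ *
          (a ^ (-(1 / 2) : ℝ) * (WG S (bs s) * (S.κ * gm ^ 2)⁻¹ * EG S A m a ξ (bs s)) +
            a ^ (-(7 / 8) : ℝ) * (2 + 2 * Df) * EA S A m a ξ (S.Q (bs s)) j0 j1) +
          C * a ^ (-(3 / 4) : ℝ) * (2 + 2 * Df) * ∑ y ∈ S.Q (bs s), EY S A m a ξ y := by
  exact FX.far_fine c l1 hc hl1

end Pool.Agent.Lib.MP_562b47_mp.LH
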