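import Pool.Agent.Lib.MP_562b47_mp.LH.Geo
import Pool.Agent.Lib.MP_562b47_mp.LW.Defs
import Pool.Agent.Lib.MP_562b47_mp.WO.Weights

/-!
Far sources: the potential in the region and off the region; common lemmas.
-/

open MeasureTheory Matrix Finset

set_option linter.unusedSectionVars false

namespace Pool.Agent.Lib.MP_562b47_mp.LH.FA

open Pool.Agent.Lib.MP_562b47_mp.AL Pool.Agent.Lib.MP_562b47_mp.WO Pool.Agent.Lib.MP_562b47_mp.LW
  Pool.Agent.Lib.MP_562b47_mp.LH Pool.Agent.Lib.MP_562b47_mp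

variable {ι 𝔅 κ' : Type*} [Fintype ι] [DecidableEq ι] [Fintype 𝔅] [DecidableEq 𝔅] [Fintype κ']
  (S : Sys ι 𝔅) (A : Matrix ι ι ℝ) (m : ℕ) (a : ℝ)

/-! ### the region -/

section region

variable {S} {b0 : 𝔅} {σ σC σA C Ac : Finset 𝔅} {s : ι}

theorem Q_sub_Reg {b : 𝔅} (hb : b ∈ σ) : S.Q b ⊆ Reg S b0 σ := by
  intro x hx
  exact mem_union_right _ (mem_biUnion.mpr ⟨b, hb, hx⟩)

theorem Q0_sub_Reg : S.Q b0 ⊆ Reg S b0 σ := subset_union_left

theorem s_mem_Reg (hs : S.w b0 = s) : s ∈ Reg S b0 σ := by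
  rw [← hs]
  exact Q0_sub_Reg (S.w_mem b0)

theorem Fz_sub_Reg (hA : σA ⊆ σ) : Fz S σ σA s ⊆ Reg S b0 σ := by
  intro x hx
  have h := mem_of_mem_erase hx
  rcases mem_union.mp h with h | h
  · obtain ⟨b, hb, hx'⟩ := mem_biUnion.mp h
    exact Q_sub_Reg hb (S.inn_sub hx')
  · obtain ⟨b, hb, rfl⟩ := mem_image.mp h
    exact Q_sub_Reg (hA hb) (S.w_mem b)

theorem Lm_sub_Reg : Lm S b0 σ σA s ⊆ Reg S b0 σ :=
  (erase_subset _ _).trans sdiff_subset

theorem s_not_Lm : s ∉ Lm S b0 σ σA s := notMem_erase _ _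

theorem s_not_Fz : s ∉ Fz S σ σA s := notMem_erase _ _

theorem Lm_disj_Fz : Disjoint (Lm S b0 σ σA s) (Fz S σ σA s) := by
  rw [Finset.disjoint_left]
  intro x hx
  exact (mem_sdiff.mp (mem_of_mem_erase hx)).2

theorem BB_eq (hs : S.w b0 = s) (hA : σA ⊆ σ) :
    BB (Lm S b0 σ σA s) (Fz S σ σA s) s = Reg S b0 σ := by
  ext x
  unfold BB
  rw [mem_insert, mem_union]
  constructor
  · rintro (rfl | h | h)
    · exact s_mem_Reg hs
    · exact Lm_sub_Reg h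
    · exact Fz_sub_Reg hA h
  · intro hx
    by_cases h1 : x = s
    · exact Or.inl h1
    · by_cases h2 : x ∈ Fz S σ σA s
      · exact Or.inr (Or.inr h2)
      · exact Or.inr (Or.inl (mem_erase.mpr ⟨h1, mem_sdiff.mpr ⟨hx, h2⟩⟩))

theorem Lm_not_inn {x : ι} (hx : x ∈ Lm S b0 σ σA s) {b : 𝔅} (hb : b ∈ σ) : x ∉ S.inn b := by
  intro h
  have h1 := mem_erase.mp hx
  have h2 := (mem_sdiff.mp h1.2).2
  exact h2 (mem_erase.mpr ⟨h1.1, mem_union_left _ (mem_biUnion.mpr ⟨b, hb, h⟩)⟩)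

theorem Lm_ne_w {x : ι} (hx : x ∈ Lm S b0 σ σA s) {b : 𝔅} (hb : b ∈ σA) : x ≠ S.w b := by
  intro h
  have h1 := mem_erase.mp hx
  have h2 := (mem_sdiff.mp h1.2).2
  exact h2 (mem_erase.mpr ⟨h1.1, mem_union_right _ (mem_image.mpr ⟨b, hb, h.symm⟩)⟩)

/-- a site of the region which is not varied and not `s` is frozen -/
theorem mem_Fz_of {x : ι} (hx : x ∈ Reg S b0 σ) (hL : x ∉ Lm S b0 σ σA s) (hs : x ≠ s) :
    x ∈ Fz S σ σA s := by
  by_contra h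
  exact hL (mem_erase.mpr ⟨hs, mem_sdiff.mpr ⟨hx, h⟩⟩)

end region

/-! ### congruences -/

section congr

variable {S} {B : Finset ι} {C Ac : Finset 𝔅}

theorem comp_congr_off {b : 𝔅} (hb : Disjoint (S.Q b) B) {V V' : ι → ℝ}
    (h : ∀ y, y ∉ B → V y = V' y) : S.comp b V ↔ S.comp b V' :=
  S.comp_congr fun x hx _ => h x ((Finset.disjoint_left.mp hb) hx)

theorem mem_CC {b : 𝔅} {V : ι → ℝ} : b ∈ CC S m V ↔ S.comp b V ∧ m < S.cls b := by
  unfold CC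
  rw [mem_filter, S.mem_Comp]

theorem mem_CX {b : 𝔅} {V : ι → ℝ} :
    b ∈ CX S m B V ↔ S.comp b V ∧ m < S.cls b ∧ Disjoint (S.Q b) B := by
  unfold CX
  rw [mem_filter, mem_CC, and_assoc]

variable {m}

theorem CX_disj {V : ι → ℝ} {b : 𝔅} (hb : b ∈ CX S m B V) : Disjoint (S.Q b) B :=
  ((mem_CX m).mp hb).2.2

theorem CX_comp {V : ι → ℝ} {b : 𝔅} (hb : b ∈ CX S m B V) : S.comp b V :=
  ((mem_CX m).mp hb).1

theorem CX_congr {V V' : ι → ℝ} (h : ∀ y, y ∉ B → V y = V' y) : CX S m B V = CX S m B V' := by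
  ext b
  rw [mem_CX, mem_CX]
  constructor
  · rintro ⟨h1, h2, h3⟩
    exact ⟨(comp_congr_off h3 h).mp h1, h2, h3⟩
  · rintro ⟨h1, h2, h3⟩
    exact ⟨(comp_congr_off h3 h).mpr h1, h2, h3⟩

theorem ze_congr_off {b : 𝔅} (hb : Disjoint (S.Q b) B) {V V' : ι → ℝ}
    (h : ∀ y, y ∉ B → V y = V' y) : S.ze A b V = S.ze A b V' :=
  S.ze_congr A fun x hx => h x ((Finset.disjoint_left.mp hb) (S.inn_sub hx))

theorem gg_congr_off {b : 𝔅} (hb : Disjoint (S.Q b) B) {V V' : ι → ℝ}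
    (h : ∀ y, y ∉ B → V y = V' y) : S.gg A b V = S.gg A b V' :=
  S.gg_congr A fun x hx => h x ((Finset.disjoint_left.mp hb) (S.inn_sub hx))

theorem hh_congr_off {b : 𝔅} (hb : Disjoint (S.Q b) B) {V V' : ι → ℝ}
    (h : ∀ y, y ∉ B → V y = V' y) : S.hh A b V = S.hh A b V' :=
  S.hh_congr A (fun x hx => h x ((Finset.disjoint_left.mp hb) (S.inn_sub hx)))
    (h _ ((Finset.disjoint_left.mp hb) (S.w_mem b)))

theorem wC_congr (hC : ∀ b ∈ C, Disjoint (S.Q b) B) (hAc : Ac ⊆ C) {V V' : ι → ℝ}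
    (h : ∀ y, y ∉ B → V y = V' y) : wC S A C Ac V = wC S A C Ac V' := by
  unfold wC
  refine congrArg₂ (· * ·) ?_ ?_
  · exact prod_congr rfl fun b hb => hh_congr_off A (hC b (hAc hb)) h
  · exact prod_congr rfl fun b hb => by rw [hh_congr_off A (hC b (mem_sdiff.mp hb).1) h]

theorem wC_nonneg (hS : Good S A) {V : ι → ℝ} (hC : ∀ b ∈ C, S.comp b V) (hAc : Ac ⊆ C) :
    0 ≤ wC S A C Ac V := by
  unfold wC
  apply mul_nonneg
  · exact prod_nonneg fun b hb => S.hh_nonneg hS ((S.mem_Comp).mpr (hC b (hAc hb)))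
  · refine prod_nonneg fun b hb => ?_
    have := S.hh_le hS ((S.mem_Comp).mpr (hC b (mem_sdiff.mp hb).1))
    linarith

theorem wC_le_one (hS : Good S A) {V : ι → ℝ} (hC : ∀ b ∈ C, S.comp b V) (hAc : Ac ⊆ C) :
    wC S A C Ac V ≤ 1 := by
  unfold wC
  apply mul_le_one₀
  · refine prod_le_one (fun b hb => S.hh_nonneg hS ((S.mem_Comp).mpr (hC b (hAc hb))))
      fun b hb => ?_
    have := S.hh_le hS ((S.mem_Comp).mpr (hC b (hAc hb)))
    linarith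
  · refine prod_nonneg fun b hb => ?_
    have := S.hh_le hS ((S.mem_Comp).mpr (hC b (mem_sdiff.mp hb).1))
    linarith
  · refine prod_le_one (fun b hb => ?_) fun b hb => ?_
    · have := S.hh_le hS ((S.mem_Comp).mpr (hC b (mem_sdiff.mp hb).1))
      linarith
    · have := S.hh_nonneg hS ((S.mem_Comp).mpr (hC b (mem_sdiff.mp hb).1))
      linarith

end congr

/-! ### the potential -/

section potential

variable {S} {a} {b0 : 𝔅} {σ σC σA C Ac : Finset 𝔅} {s : ι} {V V' : ι → ℝ} {x : ι}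

/-- no inner block and no active centre: loss `a` -/
theorem uC_none (h1 : ∀ b ∈ C, x ∉ S.inn b) (h2 : ∀ b ∈ Ac, x ≠ S.w b) :
    uC S A a C Ac V x = (V x : ℂ) - (a : ℂ) * Complex.I := by
  unfold uC
  rw [Finset.sum_eq_zero (s := C) (fun b hb => if_neg (h1 b hb)),
    Finset.sum_eq_zero (s := Ac) (fun b hb => if_neg (h2 b hb)), add_zero, add_zero]

/-- blocks which do not contain `x` can be removed -/
theorem uC_union (h1 : ∀ b ∈ σC, x ∉ S.inn b) (h2 : ∀ b ∈ σA, x ≠ S.w b) :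
    uC S A a (C ∪ σC) (Ac ∪ σA) V x = uC S A a C Ac V x := by
  unfold uC
  rw [← Finset.sum_subset (subset_union_left (s₁ := C) (s₂ := σC)) fun b hb hb' =>
      if_neg (h1 b ((mem_union.mp hb).resolve_left hb')),
    ← Finset.sum_subset (subset_union_left (s₁ := Ac) (s₂ := σA)) fun b hb hb' =>
      if_neg (h2 b ((mem_union.mp hb).resolve_left hb'))]

/-- off the region -/
theorem uC_out (hCσ : σC ⊆ σ) (hAσ : σA ⊆ σ) (hx : x ∉ Reg S b0 σ) :
    uC S A a (C ∪ σC) (Ac ∪ σA) V x = uC S A a C Ac V x :=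
  uC_union A (fun _ hb h => hx (Q_sub_Reg (hCσ hb) (S.inn_sub h)))
    (fun b hb h => hx (Q_sub_Reg (hAσ hb) (by rw [h]; exact S.w_mem b)))

/-- in the region -/
theorem uC_in (hC : ∀ b ∈ C, Disjoint (S.Q b) (Reg S b0 σ))
    (hAc : ∀ b ∈ Ac, Disjoint (S.Q b) (Reg S b0 σ)) (hx : x ∈ Reg S b0 σ) :
    uC S A a (C ∪ σC) (Ac ∪ σA) V x = uC S A a σC σA V x := by
  rw [union_comm C, union_comm Ac]
  exact uC_union A (fun b hb h => (Finset.disjoint_left.mp (hC b hb)) (S.inn_sub h) hx)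
    (fun b hb h => (Finset.disjoint_left.mp (hAc b hb)) (by rw [h]; exact S.w_mem b) hx)

/-- off the region the potential does not see `V` in the region -/
theorem uC_out_congr {B : Finset ι} (hAc : ∀ b ∈ Ac, Disjoint (S.Q b) B)
    (h : ∀ y, y ∉ B → V y = V' y) (hx : x ∉ B) : uC S A a C Ac V x = uC S A a C Ac V' x := by
  unfold uC
  rw [h x hx, add_right_inj]
  refine sum_congr rfl fun b hb => ?_
  rw [ze_congr_off A (hAc b hb) h, gg_congr_off A (hAc b hb) h]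

/-- at the varied sites -/
theorem uC_Lm (hC : ∀ b ∈ C, Disjoint (S.Q b) (Reg S b0 σ))
    (hAc : ∀ b ∈ Ac, Disjoint (S.Q b) (Reg S b0 σ)) (hCσ : σC ⊆ σ)
    (hx : x ∈ Lm S b0 σ σA s) :
    uC S A a (C ∪ σC) (Ac ∪ σA) V x = (V x : ℂ) - (a : ℂ) * Complex.I := by
  rw [uC_in A hC hAc (Lm_sub_Reg hx)]
  exact uC_none A (fun b hb => Lm_not_inn hx (hCσ hb)) (fun b hb => Lm_ne_w hx hb)

/-- at `s` -/
theorem uC_s (hs : S.w b0 = s) (hC : ∀ b ∈ C, Disjoint (S.Q b) (Reg S b0 σ))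
    (hAc : ∀ b ∈ Ac, Disjoint (S.Q b) (Reg S b0 σ)) (h1 : ∀ b ∈ σC, s ∉ S.inn b)
    (h2 : ∀ b ∈ σA, s ≠ S.w b) :
    uC S A a (C ∪ σC) (Ac ∪ σA) V s = (V s : ℂ) - (a : ℂ) * Complex.I := by
  rw [uC_in A hC hAc (s_mem_Reg hs)]
  exact uC_none A h1 h2

/-- the potential does not see `V` at the varied sites and at `s`, elsewhere -/
theorem uC_congr_Lm (hs : S.w b0 = s) (hC : ∀ b ∈ C, Disjoint (S.Q b) (Reg S b0 σ))
    (hAc : ∀ b ∈ Ac, Disjoint (S.Q b) (Reg S b0 σ)) (hCσ : σC ⊆ σ) (hAC : σA ⊆ σC)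
    (h1 : ∀ b ∈ σC, s ∉ S.inn b)
    (h : ∀ y, y ∉ Lm S b0 σ σA s → y ≠ s → V y = V' y) (hx : x ∉ Lm S b0 σ σA s) (hxs : x ≠ s) :
    uC S A a (C ∪ σC) (Ac ∪ σA) V x = uC S A a (C ∪ σC) (Ac ∪ σA) V' x := by
  have hVR : ∀ y, y ∉ Reg S b0 σ → V y = V' y := fun y hy =>
    h y (fun hy' => hy (Lm_sub_Reg hy')) (fun hys => hy (by rw [hys]; exact s_mem_Reg hs))
  by_cases hxR : x ∈ Reg S b0 σ
  · rw [uC_in A hC hAc hxR, uC_in A hC hAc hxR]
    unfold uC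
    rw [h x hx hxs, add_right_inj]
    refine sum_congr rfl fun b hb => ?_
    have hin : ∀ y ∈ S.inn b, V y = V' y := by
      intro y hy
      refine h y (fun hy' => Lm_not_inn hy' (hCσ (hAC hb)) hy) ?_
      rintro rfl
      exact h1 b (hAC hb) hy
    rw [S.ze_congr A hin, S.gg_congr A hin]
  · rw [uC_out A hCσ (hAC.trans hCσ) hxR, uC_out A hCσ (hAC.trans hCσ) hxR]
    exact uC_out_congr A hAc hVR hxR

/-- the potential as a function of `V` at the varied sites -/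
theorem uC_mix (hs : S.w b0 = s) (hC : ∀ b ∈ C, Disjoint (S.Q b) (Reg S b0 σ))
    (hAc : ∀ b ∈ Ac, Disjoint (S.Q b) (Reg S b0 σ)) (hCσ : σC ⊆ σ) (hAC : σA ⊆ σC)
    (h1 : ∀ b ∈ σC, s ∉ S.inn b) (U : ι → ℝ) (us : ℂ) :
    Function.update (uC S A a (C ∪ σC) (Ac ∪ σA) (mix (Lm S b0 σ σA s) U V)) s us =
      Function.update (pot (Lm S b0 σ σA s) (fun _ => a)
        (uC S A a (C ∪ σC) (Ac ∪ σA) V) U) s us := by
  funext x
  by_cases hxs : x = s
  · rw [hxs, Function.update_self, Function.update_self]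
  · rw [Function.update_of_ne hxs, Function.update_of_ne hxs]
    unfold pot
    by_cases hx : x ∈ Lm S b0 σ σA s
    · rw [if_pos hx, uC_Lm A hC hAc hCσ hx, mix_mem hx]
    · rw [if_neg hx]
      exact uC_congr_Lm A hs hC hAc hCσ hAC h1 (fun y hy _ => mix_not hy U V) hx hxs

/-- the same with all sites of the region varied, no block near the region -/
theorem uC_mixB (hCσ : σC ⊆ σ) (hAσ : σA ⊆ σ)
    (hC : ∀ b ∈ C, Disjoint (S.Q b) (Reg S b0 σ))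
    (hAc : ∀ b ∈ Ac, Disjoint (S.Q b) (Reg S b0 σ)) (U : ι → ℝ) :
    uC S A a C Ac (mix (Reg S b0 σ) U V) =
      pot (Reg S b0 σ) (fun _ => a) (uC S A a (C ∪ σC) (Ac ∪ σA) V) U := by
  funext x
  unfold pot
  by_cases hx : x ∈ Reg S b0 σ
  · rw [if_pos hx, uC_none A, mix_mem hx]
    · exact fun b hb h => (Finset.disjoint_left.mp (hC b hb)) (S.inn_sub h) hx
    · exact fun b hb h => (Finset.disjoint_left.mp (hAc b hb)) (by rw [h]; exact S.w_mem b) hx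
  · rw [if_neg hx, uC_out A hCσ hAσ hx]
    exact uC_out_congr A hAc (fun y hy => mix_not hy U V) hx

end potential

end Pool.Agent.Lib.MP_562b47_mp.LH.FA
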