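import Pool.Agent.Lib.MP_562b47_mp.LH.Geo
import Pool.Agent.Lib.MP_562b47_mp.WO.Weights

/-!
MP_562b47, d = 2, Lemma H', global part: the region of a site, replacement of the potential in the
region.
-/

open MeasureTheory Matrix Finset

set_option linter.unusedSectionVars false

namespace Pool.Agent.Lib.MP_562b47_mp.LH

open Pool.Agent.Lib.MP_562b47_mp.AL Pool.Agent.Lib.MP_562b47_mp.WO Pool.Agent.Lib.MP_562b47_mp

variable {ι 𝔅 κ' : Type*} [Fintype ι] [DecidableEq ι] [Fintype 𝔅] [DecidableEq 𝔅] [Fintype κ']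
  {S : Sys ι 𝔅} {A : Matrix ι ι ℝ} {m : ℕ} {a : ℝ} {V V' U : ι → ℝ} {b b' b0 : 𝔅} {s : ι}
  {B : Finset ι} {C Ac σ : Finset 𝔅}

/-! ### membership -/

theorem mem_CC : b ∈ CC S m V ↔ S.comp b V ∧ m < S.cls b := by
  unfold CC
  rw [mem_filter, S.mem_Comp]

theorem CC_sub : CC S m V ⊆ S.Comp V := filter_subset _ _

theorem mem_CN : b ∈ CN S m s V ↔ b ∈ CC S m V ∧ s ∉ S.Q b := by
  unfold CN
  rw [mem_filter]

theorem mem_CW : b ∈ CW S m s V ↔ b ∈ CC S m V ∧ S.w b = s := by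
  unfold CW
  rw [mem_filter]

theorem mem_AS : b ∈ AS S m s V ↔ m < S.cls b ∧ s ∈ S.Q b ∧ s ≠ S.w b ∧
    ∀ x ∈ S.Q b, x ≠ S.w b → x ≠ s → V x ∈ Set.Icc (S.lo b x) (S.hi b x) := by
  unfold AS
  simp only [mem_filter, mem_univ, true_and]

theorem mem_meet : b ∈ meet S b0 C ↔ b ∈ C ∧ ¬ Disjoint (S.Q b) (S.Q b0) := by
  unfold meet
  rw [mem_filter]

theorem mem_CX : b ∈ CX S m B V ↔ b ∈ CC S m V ∧ Disjoint (S.Q b) B := by
  unfold CX
  rw [mem_filter]

theorem CX_sub : CX S m B V ⊆ CC S m V := filter_subset _ _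

theorem CN_sub : CN S m s V ⊆ CC S m V := filter_subset _ _

theorem CW_sub : CW S m s V ⊆ CC S m V := filter_subset _ _

theorem CC_disj (hb : b ∈ CC S m V) (hb' : b' ∈ CC S m V) (h : b ≠ b') :
    Disjoint (S.Q b) (S.Q b') :=
  S.Comp_disj (CC_sub hb) (CC_sub hb') h

theorem mem_Reg {x : ι} : x ∈ Reg S b0 σ ↔ x ∈ S.Q b0 ∨ ∃ b ∈ σ, x ∈ S.Q b := by
  unfold Reg
  rw [mem_union, mem_biUnion]

theorem Q0_sub_Reg : S.Q b0 ⊆ Reg S b0 σ := fun _ hx => mem_Reg.mpr (Or.inl hx)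

theorem Q_sub_Reg (hb : b ∈ σ) : S.Q b ⊆ Reg S b0 σ := fun _ hx => mem_Reg.mpr (Or.inr ⟨b, hb, hx⟩)

theorem disj_Reg : Disjoint (S.Q b) (Reg S b0 σ) ↔
    Disjoint (S.Q b) (S.Q b0) ∧ ∀ b' ∈ σ, Disjoint (S.Q b) (S.Q b') := by
  unfold Reg
  rw [disjoint_union_right, disjoint_biUnion_right]

/-! ### the exterior of a region -/

/-- blocks outside the region do not see the potential inside -/
theorem mem_CX_of (h : ∀ x, x ∉ B → V' x = V x) (hb : b ∈ CX S m B V) : b ∈ CX S m B V' := by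
  rw [mem_CX, mem_CC] at hb ⊢
  refine ⟨⟨?_, hb.1.2⟩, hb.2⟩
  rw [S.comp_congr (V' := V)]
  · exact hb.1.1
  · intro x hx _
    exact h x fun hxB => (Finset.disjoint_left.mp hb.2) hx hxB

theorem CX_congr (h : ∀ x, x ∉ B → V' x = V x) : CX S m B V' = CX S m B V := by
  ext b
  exact ⟨mem_CX_of fun x hx => (h x hx).symm, mem_CX_of h⟩

/-- (R1) -/
theorem CX_mix : CX S m B (mix B U V) = CX S m B V :=
  CX_congr fun _ hx => mix_not hx _ _

/-- also for a smaller set of replaced sites -/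
theorem CX_mix_sub {T : Finset ι} (hT : T ⊆ B) : CX S m B (mix T U V) = CX S m B V :=
  CX_congr fun _ hx => mix_not (fun h => hx (hT h)) _ _

theorem CX_update (hs : s ∈ B) (v : ℝ) : CX S m B (Function.update V s v) = CX S m B V :=
  CX_congr fun x hx => Function.update_of_ne (fun h => hx (by rw [h]; exact hs)) _ _

theorem not_mem_of_CX (hb : b ∈ CX S m B V) {x : ι} (hx : x ∈ S.Q b) : x ∉ B := fun hxB =>
  (Finset.disjoint_left.mp (mem_CX.mp hb).2) hx hxB

/-- a block that meets the region is not in `CX` -/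
theorem CX_not (hb : ¬ Disjoint (S.Q b) B) : b ∉ CX S m B V := fun h => hb (mem_CX.mp h).2

theorem CX_disj_sub (hσ : ∀ b ∈ σ, S.w b ∈ B) : Disjoint (CX S m B V) σ := by
  rw [Finset.disjoint_left]
  intro b hb hbσ
  exact not_mem_of_CX hb (S.w_mem b) (hσ b hbσ)

theorem CX_disj_Reg : Disjoint (CX S m (Reg S b0 σ) V) σ :=
  CX_disj_sub fun b hb => Q_sub_Reg hb (S.w_mem b)

/-! ### decomposition -/

/-- the two parts of `C` -/
theorem dec_gen (hw : S.w b0 = s) {D : Finset 𝔅}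
    (h1 : ∀ b ∈ C, b ∉ meet S b0 C → b ∈ CC S m V)
    (h2 : ∀ b ∈ C, b ∉ meet S b0 C → ∀ b' ∈ D, Disjoint (S.Q b) (S.Q b'))
    (h3 : ∀ b ∈ CC S m V, s ∉ S.Q b → b ∈ C) (h4 : meet S b0 C ⊆ D) :
    C = meet S b0 C ∪ CX S m (Reg S b0 D) V := by
  ext b
  rw [mem_union]
  constructor
  · intro hb
    by_cases hm : b ∈ meet S b0 C
    · exact Or.inl hm
    · right
      rw [mem_CX, disj_Reg]
      refine ⟨h1 b hb hm, ?_, fun b' hb' => h2 b hb hm b' hb'⟩
      by_contra hd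
      exact hm (mem_meet.mpr ⟨hb, hd⟩)
  · rintro (hb | hb)
    · exact (mem_meet.mp hb).1
    · have hB := mem_CX.mp hb
      refine h3 b hB.1 fun hs => ?_
      refine not_mem_of_CX hb hs ?_
      rw [← hw]
      exact Q0_sub_Reg (S.w_mem b0)

/-- the complete blocks that do not depend on `V s` -/
theorem dec1 (hw : S.w b0 = s) : CN S m s V ∪ CW S m s V =
    meet S b0 (CN S m s V ∪ CW S m s V) ∪
      CX S m (Reg S b0 (meet S b0 (CN S m s V ∪ CW S m s V))) V := by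
  have hsub : CN S m s V ∪ CW S m s V ⊆ CC S m V := union_subset CN_sub CW_sub
  refine dec_gen hw (fun b hb _ => hsub hb) ?_ ?_ (Finset.Subset.refl _)
  · intro b hb hm b' hb'
    have hb2 := (mem_meet.mp hb').1
    refine CC_disj (hsub hb) (hsub hb2) ?_
    rintro rfl
    exact hm hb'
  · intro b hb hs
    exact mem_union_left _ (mem_CN.mpr ⟨hb, hs⟩)

/-- an almost complete block is complete for suitable `V s` -/
theorem AS_comp (hb : b ∈ AS S m s V) {v : ℝ} (hv : v ∈ Set.Icc (S.lo b s) (S.hi b s)) :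
    b ∈ CC S m (Function.update V s v) := by
  obtain ⟨h1, _, _, h4⟩ := mem_AS.mp hb
  refine mem_CC.mpr ⟨fun x hx hxw => ?_, h1⟩
  by_cases hxs : x = s
  · rw [hxs, Function.update_self]; exact hv
  · rw [Function.update_of_ne hxs]; exact h4 x hx hxw hxs

theorem CN_update (v : ℝ) (hb : b ∈ CN S m s V) : b ∈ CC S m (Function.update V s v) := by
  obtain ⟨h1, h2⟩ := mem_CN.mp hb
  rw [mem_CC] at h1 ⊢
  refine ⟨?_, h1.2⟩
  rw [S.comp_congr (V' := V)]
  · exact h1.1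
  · intro x hx _
    rw [Function.update_of_ne]
    rintro rfl
    exact h2 hx

/-- an almost complete block is disjoint from the complete blocks not containing `s` -/
theorem AS_CN_disj (hb : b ∈ AS S m s V) (hb' : b' ∈ CN S m s V) :
    Disjoint (S.Q b') (S.Q b) := by
  have hv : S.lo b s ∈ Set.Icc (S.lo b s) (S.hi b s) := ⟨le_refl _, (S.lo_lt b s).le⟩
  refine CC_disj (CN_update (S.lo b s) hb') (AS_comp hb hv) ?_
  rintro rfl
  exact (mem_CN.mp hb').2 (mem_AS.mp hb).2.1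

theorem AS_mem (hb : b ∈ AS S m s V) : s ∈ S.Q b := (mem_AS.mp hb).2.1

/-- `CN ∪ {b}`, `b` almost complete -/
theorem dec2 (hw : S.w b0 = s) (hb : b ∈ AS S m s V) : CN S m s V ∪ {b} =
    meet S b0 (CN S m s V ∪ {b}) ∪
      CX S m (Reg S b0 (meet S b0 (CN S m s V ∪ {b}))) V := by
  have hbm : b ∈ meet S b0 (CN S m s V ∪ {b}) := by
    refine mem_meet.mpr ⟨mem_union_right _ (mem_singleton_self b), ?_⟩
    rw [Finset.not_disjoint_iff]
    exact ⟨s, AS_mem hb, by rw [← hw]; exact S.w_mem b0⟩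
  have key : ∀ b1 ∈ CN S m s V ∪ {b}, b1 ∉ meet S b0 (CN S m s V ∪ {b}) → b1 ∈ CN S m s V := by
    intro b1 h1 h2
    rcases mem_union.mp h1 with h | h
    · exact h
    · rw [mem_singleton] at h
      rw [h] at h2
      exact absurd hbm h2
  refine dec_gen hw (fun b1 h1 h2 => CN_sub (key b1 h1 h2)) ?_ ?_ (Finset.Subset.refl _)
  · intro b1 h1 h2 b' hb'
    have h3 := key b1 h1 h2
    rcases mem_union.mp (mem_meet.mp hb').1 with h | h
    · refine CC_disj (CN_sub h3) (CN_sub h) ?_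
      rintro rfl
      exact h2 hb'
    · rw [mem_singleton] at h
      rw [h]
      exact AS_CN_disj hb h3
  · intro b1 h1 hs
    exact mem_union_left _ (mem_CN.mpr ⟨h1, hs⟩)

/-- `CN`, region with the almost complete block `b` -/
theorem dec3 (hw : S.w b0 = s) (hb : b ∈ AS S m s V) : CN S m s V =
    meet S b0 (CN S m s V) ∪
      CX S m (Reg S b0 (meet S b0 (CN S m s V) ∪ {b})) V := by
  refine dec_gen hw (fun b1 h1 _ => CN_sub h1) ?_ (fun b1 h1 hs => mem_CN.mpr ⟨h1, hs⟩)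
    subset_union_left
  intro b1 h1 h2 b' hb'
  rcases mem_union.mp hb' with h | h
  · refine CC_disj (CN_sub h1) (CN_sub (mem_meet.mp h).1) ?_
    rintro rfl
    exact h2 h
  · rw [mem_singleton] at h
    rw [h]
    exact AS_CN_disj hb h1

/-- the members of `meet` meet the region -/
theorem meet_disj_CX {D : Finset 𝔅} :
    Disjoint (meet S b0 C) (CX S m (Reg S b0 D) V) := by
  rw [Finset.disjoint_left]
  intro b hb hX
  exact (mem_meet.mp hb).2 (disj_Reg.mp (mem_CX.mp hX).2).1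

/-- pairwise disjointness of the complete and of the almost complete block -/
theorem meet1_disj {b1 b2 : 𝔅} (h1 : b1 ∈ meet S b0 (CN S m s V ∪ CW S m s V))
    (h2 : b2 ∈ meet S b0 (CN S m s V ∪ CW S m s V)) (hne : b1 ≠ b2) :
    Disjoint (S.Q b1) (S.Q b2) := by
  have hsub : CN S m s V ∪ CW S m s V ⊆ CC S m V := union_subset CN_sub CW_sub
  exact CC_disj (hsub (mem_meet.mp h1).1) (hsub (mem_meet.mp h2).1) hne

theorem pair_disj (hb : b ∈ AS S m s V) {b1 b2 : 𝔅} (h1 : b1 ∈ CN S m s V ∪ {b})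
    (h2 : b2 ∈ CN S m s V ∪ {b}) (hne : b1 ≠ b2) : Disjoint (S.Q b1) (S.Q b2) := by
  rcases mem_union.mp h1 with h | h
  · rcases mem_union.mp h2 with h' | h'
    · exact CC_disj (CN_sub h) (CN_sub h') hne
    · rw [mem_singleton] at h'
      rw [h']
      exact AS_CN_disj hb h
  · rw [mem_singleton] at h
    rcases mem_union.mp h2 with h' | h'
    · rw [h]
      exact (AS_CN_disj hb h').symm
    · rw [mem_singleton] at h'
      exact absurd (h.trans h'.symm) hne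

/-! ### the potentials -/

/-- `uA` in terms of `uC` -/
theorem uA_eq (hA : Ac ⊆ CC S m V) : S.uA A m a Ac V = uC S A a (CC S m V) Ac V := by
  funext x
  unfold Sys.uA uC Sys.bk CC
  refine congrArg₂ (· + ·) rfl ?_
  refine Finset.sum_congr rfl fun b hb => ?_
  rw [if_pos (mem_CC.mp (hA hb)).2]

theorem uC_off {x : ι} (h1 : ∀ b ∈ C, x ∉ S.inn b) (h2 : ∀ b ∈ Ac, x ≠ S.w b) :
    uC S A a C Ac V x = (V x : ℂ) - (a : ℂ) * Complex.I := by
  unfold uC
  rw [Finset.sum_eq_zero (s := C), Finset.sum_eq_zero (s := Ac), add_zero, add_zero]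
  · intro b hb
    rw [if_neg (h2 b hb)]
  · intro b hb
    rw [if_neg (h1 b hb)]

/-- the potential at `x` depends on `V` at `x` and on the inner blocks with centre `x` -/
theorem uC_congr {x : ι} (hx : V' x = V x)
    (h : ∀ b ∈ Ac, x = S.w b → ∀ y ∈ S.inn b, V' y = V y) :
    uC S A a C Ac V' x = uC S A a C Ac V x := by
  unfold uC
  rw [hx]
  refine congrArg₂ (· + ·) rfl ?_
  refine Finset.sum_congr rfl fun b hb => ?_
  by_cases hxw : x = S.w b
  · rw [if_pos hxw, if_pos hxw, S.ze_congr A (h b hb hxw), S.gg_congr A (h b hb hxw)]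
  · rw [if_neg hxw, if_neg hxw]

/-- the potential of the world with the potentials `U` on `Lam`: off `s` it is `U - i a` on `Lam`
and the old one outside -/
theorem uC_mix {T : Finset ι} {Ac0 σC σA : Finset 𝔅} (hT : T ⊆ B) (hA0 : Ac0 ⊆ CX S m B V)
    (hinn : ∀ b ∈ σC, ∀ x ∈ S.inn b, x ∉ T) (hw : ∀ b ∈ σA, S.w b ∉ T) (hσ : σA ⊆ σC) (x : ι) :
    uC S A a (CX S m B V ∪ σC) (Ac0 ∪ σA) (mix T U V) x =
      LW.pot T (fun _ => a) (uC S A a (CX S m B V ∪ σC) (Ac0 ∪ σA) V) U x := by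
  by_cases hx : x ∈ T
  · rw [uC_off, LW.pot, if_pos hx, mix_mem hx]
    · intro b hb hxb
      rcases mem_union.mp hb with h | h
      · exact not_mem_of_CX h (S.inn_sub hxb) (hT hx)
      · exact hinn b h x hxb hx
    · intro b hb hxw
      rcases mem_union.mp hb with h | h
      · exact not_mem_of_CX (hA0 h) (S.w_mem b) (by rw [← hxw]; exact hT hx)
      · exact hw b h (by rw [← hxw]; exact hx)
  · rw [LW.pot, if_neg hx]
    refine uC_congr (mix_not hx _ _) fun b hb _ y hy => ?_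
    refine mix_not ?_ _ _
    rcases mem_union.mp hb with h | h
    · exact fun hyT => not_mem_of_CX (hA0 h) (S.inn_sub hy) (hT hyT)
    · exact hinn b (hσ h) y hy

/-- the same when only the values off `s` are needed -/
theorem uC_mix_upd {T : Finset ι} {Ac0 σC σA : Finset 𝔅} (hT : T ⊆ B) (hA0 : Ac0 ⊆ CX S m B V)
    (hinn : ∀ b ∈ σC, ∀ x ∈ S.inn b, x ∉ T) (hw : ∀ b ∈ σA, S.w b ∉ T) (hσ : σA ⊆ σC) (us : ℂ) :
    Function.update (uC S A a (CX S m B V ∪ σC) (Ac0 ∪ σA) (mix T U V)) s us =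
      Function.update (LW.pot T (fun _ => a) (uC S A a (CX S m B V ∪ σC) (Ac0 ∪ σA) V) U) s us := by
  rw [funext (uC_mix (A := A) (a := a) (U := U) hT hA0 hinn hw hσ)]

/-! ### the weights -/

theorem wC_congr (h : ∀ b ∈ C, (∀ x ∈ S.inn b, V' x = V x) ∧ V' (S.w b) = V (S.w b))
    (hA : Ac ⊆ C) : wC S A C Ac V' = wC S A C Ac V := by
  unfold wC
  refine congrArg₂ (· * ·) ?_ ?_
  · exact Finset.prod_congr rfl fun b hb => S.hh_congr A (h b (hA hb)).1 (h b (hA hb)).2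
  · refine Finset.prod_congr rfl fun b hb => ?_
    have hb' := (mem_sdiff.mp hb).1
    rw [S.hh_congr A (h b hb').1 (h b hb').2]

/-- the weight of the exterior does not see the region -/
theorem wC_CX_congr (h : ∀ x, x ∉ B → V' x = V x) (hA : Ac ⊆ CX S m B V) :
    wC S A (CX S m B V) Ac V' = wC S A (CX S m B V) Ac V := by
  refine wC_congr (fun b hb => ?_) hA
  exact ⟨fun x hx => h x (not_mem_of_CX hb (S.inn_sub hx)), h _ (not_mem_of_CX hb (S.w_mem b))⟩

theorem wC_CX_mix {T : Finset ι} (hT : T ⊆ B) (hA : Ac ⊆ CX S m B V) :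
    wC S A (CX S m B V) Ac (mix T U V) = wC S A (CX S m B V) Ac V :=
  wC_CX_congr (fun _ hx => mix_not (fun h => hx (hT h)) _ _) hA

/-- factorisation of the weight -/
theorem wC_union {C1 C2 A1 A2 : Finset 𝔅} (hd : Disjoint C1 C2) (h1 : A1 ⊆ C1) (h2 : A2 ⊆ C2) :
    wC S A (C1 ∪ C2) (A1 ∪ A2) V = wC S A C1 A1 V * wC S A C2 A2 V := by
  unfold wC
  have hdA : Disjoint A1 A2 := disjoint_of_subset_left h1 (disjoint_of_subset_right h2 hd)
  have e : (C1 ∪ C2) \ (A1 ∪ A2) = (C1 \ A1) ∪ (C2 \ A2) := by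
    ext b
    simp only [mem_sdiff, mem_union]
    constructor
    · rintro ⟨h | h, hn⟩
      · exact Or.inl ⟨h, fun h' => hn (Or.inl h')⟩
      · exact Or.inr ⟨h, fun h' => hn (Or.inr h')⟩
    · rintro (⟨h, hn⟩ | ⟨h, hn⟩)
      · refine ⟨Or.inl h, ?_⟩
        rintro (h' | h')
        · exact hn h'
        · exact (Finset.disjoint_left.mp hd) h (h2 h')
      · refine ⟨Or.inr h, ?_⟩
        rintro (h' | h')
        · exact (Finset.disjoint_left.mp hd) (h1 h') h
        · exact hn h'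
  have hd2 : Disjoint (C1 \ A1) (C2 \ A2) :=
    disjoint_of_subset_left sdiff_subset (disjoint_of_subset_right sdiff_subset hd)
  rw [e, Finset.prod_union hdA, Finset.prod_union hd2]
  ring

theorem wC_nonneg (hS : Good S A) (hC : C ⊆ S.Comp V) (hA : Ac ⊆ C) : 0 ≤ wC S A C Ac V := by
  unfold wC
  apply mul_nonneg
  · exact Finset.prod_nonneg fun b hb => S.hh_nonneg hS (hC (hA hb))
  · refine Finset.prod_nonneg fun b hb => ?_
    have := S.hh_le hS (hC (mem_sdiff.mp hb).1)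
    linarith

theorem wC_sum (V : ι → ℝ) : ∑ Ac ∈ C.powerset, wC S A C Ac V = 1 := by
  unfold wC
  rw [← Finset.prod_add]
  exact Finset.prod_eq_one fun b _ => by ring

theorem wC_le_one (hS : Good S A) (hC : C ⊆ S.Comp V) (hA : Ac ⊆ C) : wC S A C Ac V ≤ 1 := by
  rw [← wC_sum (S := S) (A := A) (C := C) V]
  exact Finset.single_le_sum (f := fun Ac => wC S A C Ac V)
    (fun A' hA' => wC_nonneg hS hC (Finset.mem_powerset.mp hA')) (Finset.mem_powerset.mpr hA)

/-! ### (R3) -/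

theorem CC_b0 (h0 : b0 ∈ CC S m V) : CC S m V = CX S m (S.Q b0) V ∪ {b0} := by
  ext b
  rw [mem_union, mem_singleton, mem_CX]
  constructor
  · intro hb
    by_cases h : b = b0
    · exact Or.inr h
    · exact Or.inl ⟨hb, CC_disj hb h0 h⟩
  · rintro (h | h)
    · exact h.1
    · rw [h]; exact h0

theorem CC_win (h0 : m < S.cls b0)
    (hV : ∀ x ∈ S.Q b0, x ≠ S.w b0 → V x ∈ Set.Icc (S.lo b0 x) (S.hi b0 x)) :
    CC S m V = CX S m (S.Q b0) V ∪ {b0} :=
  CC_b0 (mem_CC.mpr ⟨hV, h0⟩)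

/-! ### (R2) -/

theorem CC_J0_gen {j0 j1 : ℝ} (h0 : m < S.cls b0) (hσ : ∀ b ∈ σ, m < S.cls b)
    (hj : ∀ b, m < S.cls b → ∀ x ∈ S.Q b, x ≠ S.w b →
      Disjoint (Set.Icc j0 j1) (Set.Icc (S.lo b x) (S.hi b x)))
    (g1 : ∀ b b', m < S.cls b → m < S.cls b' → S.w b ∈ S.Q b' →
      ∃ x ∈ S.Q b, x ∈ S.Q b' ∧ x ≠ S.w b)
    (hV : ∀ y ∈ Reg S b0 σ, V y ∈ Set.Icc j0 j1) : CC S m V = CX S m (Reg S b0 σ) V := by
  refine Finset.Subset.antisymm (fun b hb => ?_) CX_sub
  rw [mem_CX]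
  refine ⟨hb, ?_⟩
  rw [Finset.disjoint_left]
  intro x hx hxB
  have hcomp := mem_CC.mp hb
  have key : ∀ y ∈ S.Q b, y ≠ S.w b → y ∉ Reg S b0 σ := fun y hy hyw hyB =>
    Set.disjoint_left.mp (hj b hcomp.2 y hy hyw) (hV y hyB) (hcomp.1 y hy hyw)
  by_cases hxw : x = S.w b
  · rw [hxw] at hxB
    rcases mem_Reg.mp hxB with h | ⟨b', hb', h⟩
    · obtain ⟨y, hy, hy0, hyw⟩ := g1 b b0 hcomp.2 h0 h
      exact key y hy hyw (Q0_sub_Reg hy0)
    · obtain ⟨y, hy, hy0, hyw⟩ := g1 b b' hcomp.2 (hσ b' hb') h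
      exact key y hy hyw (Q_sub_Reg hb' hy0)
  · exact key x hx hxw hxB

theorem Low_J0 {y : ι} (hy : y ∈ B) (hA : Ac ⊆ CX S m B V) : Low S (CX S m B V) Ac y :=
  ⟨fun _ hb hyb => not_mem_of_CX hb (S.inn_sub hyb) hy,
    fun b hb hyw => not_mem_of_CX (hA hb) (S.w_mem b) (by rw [← hyw]; exact hy)⟩

section geo

variable {ξ : κ' → ι → ℝ} {good : Finset ι} {bs : ι → 𝔅} {j0 j1 l0 : ℝ}

/-- (R2): no complete block meets the region when all its potentials are in `[j0, j1]` -/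
theorem CC_J0 (hgeo : Geo S m ξ good bs j0 j1 l0) (hs : s ∈ good) (hσ : ∀ b ∈ σ, m < S.cls b)
    (hV : ∀ y ∈ Reg S (bs s) σ, V y ∈ Set.Icc j0 j1) :
    CC S m V = CX S m (Reg S (bs s) σ) V :=
  CC_J0_gen (hgeo.bs_cls s hs) hσ hgeo.j_free hgeo.g1 hV

end geo

/-! ### the sets of the pieces theorem, in the form used there -/

/-- `insert b CN`, `b` almost complete -/
theorem dec2' (hw : S.w b0 = s) (hb : b ∈ AS S m s V) : insert b (CN S m s V) =
    meet S b0 (insert b (CN S m s V)) ∪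
      CX S m (Reg S b0 (meet S b0 (insert b (CN S m s V)))) V := by
  have e : insert b (CN S m s V) = CN S m s V ∪ {b} := by
    rw [union_comm, ← insert_eq]
  rw [e]
  exact dec2 hw hb

theorem dec3' (hw : S.w b0 = s) (hb : b ∈ AS S m s V) : CN S m s V =
    meet S b0 (CN S m s V) ∪
      CX S m (Reg S b0 (insert b (meet S b0 (CN S m s V)))) V := by
  have e : insert b (meet S b0 (CN S m s V)) = meet S b0 (CN S m s V) ∪ {b} := by
    rw [union_comm, ← insert_eq]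
  rw [e]
  exact dec3 hw hb

/-- a complete or almost complete block containing `s = w b0` meets `b0` -/
theorem mem_meet_of (hw : S.w b0 = s) (hb : b ∈ C) (hs : s ∈ S.Q b) : b ∈ meet S b0 C := by
  refine mem_meet.mpr ⟨hb, ?_⟩
  rw [Finset.not_disjoint_iff]
  exact ⟨s, hs, by rw [← hw]; exact S.w_mem b0⟩

theorem meet_insert (hw : S.w b0 = s) (hs : s ∈ S.Q b) (C : Finset 𝔅) :
    meet S b0 (insert b C) = insert b (meet S b0 C) := by
  ext b1
  rw [mem_meet, mem_insert, mem_insert, mem_meet]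
  constructor
  · rintro ⟨h | h, hd⟩
    · exact Or.inl h
    · exact Or.inr ⟨h, hd⟩
  · rintro (h | h)
    · refine ⟨Or.inl h, ?_⟩
      rw [h, Finset.not_disjoint_iff]
      exact ⟨s, hs, by rw [← hw]; exact S.w_mem b0⟩
    · exact ⟨Or.inr h.1, h.2⟩

theorem meet_mono {C1 C2 : Finset 𝔅} (h : C1 ⊆ C2) : meet S b0 C1 ⊆ meet S b0 C2 :=
  filter_subset_filter _ h

/-- `CN`, `CW`, `AS` do not depend on `V s` -/
theorem CN_upd (v : ℝ) : CN S m s (Function.update V s v) = CN S m s V := by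
  have key : ∀ (V : ι → ℝ) (v : ℝ), CN S m s V ⊆ CN S m s (Function.update V s v) := by
    intro V v b hb
    exact mem_CN.mpr ⟨CN_update v hb, (mem_CN.mp hb).2⟩
  refine Finset.Subset.antisymm ?_ (key V v)
  have h := key (Function.update V s v) (V s)
  rwa [Function.update_idem, Function.update_eq_self] at h

theorem CW_upd (v : ℝ) : CW S m s (Function.update V s v) = CW S m s V := by
  ext b
  rw [mem_CW, mem_CW, mem_CC, mem_CC]
  constructor
  · rintro ⟨⟨h1, h2⟩, h3⟩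
    rw [← h3, S.comp_update_w] at h1
    exact ⟨⟨h1, h2⟩, h3⟩
  · rintro ⟨⟨h1, h2⟩, h3⟩
    refine ⟨⟨?_, h2⟩, h3⟩
    rw [← h3, S.comp_update_w]
    exact h1

theorem AS_upd (v : ℝ) : AS S m s (Function.update V s v) = AS S m s V := by
  ext b
  rw [mem_AS, mem_AS]
  have : (∀ x ∈ S.Q b, x ≠ S.w b → x ≠ s →
      Function.update V s v x ∈ Set.Icc (S.lo b x) (S.hi b x)) ↔
      ∀ x ∈ S.Q b, x ≠ S.w b → x ≠ s → V x ∈ Set.Icc (S.lo b x) (S.hi b x) := by
    constructor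
    · intro h x h1 h2 h3
      have := h x h1 h2 h3
      rwa [Function.update_of_ne h3] at this
    · intro h x h1 h2 h3
      rw [Function.update_of_ne h3]
      exact h x h1 h2 h3
  rw [this]

/-- if the centre `s` belongs to a complete block, no block is almost complete -/
theorem AS_empty (h : (CW S m s V).Nonempty) : AS S m s V = ∅ := by
  obtain ⟨b1, hb1⟩ := h
  rw [Finset.eq_empty_iff_forall_notMem]
  intro b hb
  obtain ⟨h1, h2⟩ := mem_CW.mp hb1
  have h3 : b1 ∈ CC S m (Function.update V s (S.lo b s)) := by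
    rw [mem_CC] at h1 ⊢
    refine ⟨?_, h1.2⟩
    rw [← h2, S.comp_update_w]
    exact h1.1
  have h4 := AS_comp hb (v := S.lo b s) ⟨le_refl _, (S.lo_lt b s).le⟩
  have hne : b1 ≠ b := by
    rintro rfl
    exact (mem_AS.mp hb).2.2.1 h2.symm
  refine (Finset.disjoint_left.mp (CC_disj h3 h4 hne)) (a := s) ?_ (AS_mem hb)
  rw [← h2]
  exact S.w_mem b1

theorem CW_card_le : (CW S m s V).card ≤ 1 := by
  rw [Finset.card_le_one]
  intro b1 h1 b2 h2
  obtain ⟨h1, e1⟩ := mem_CW.mp h1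
  obtain ⟨h2, e2⟩ := mem_CW.mp h2
  by_contra hne
  have m1 : s ∈ S.Q b1 := by rw [← e1]; exact S.w_mem b1
  have m2 : s ∈ S.Q b2 := by rw [← e2]; exact S.w_mem b2
  exact (Finset.disjoint_left.mp (CC_disj h1 h2 hne)) m1 m2

/-- two almost complete blocks meet only in `s` -/
theorem AS_inter {b1 b2 : 𝔅} (h1 : b1 ∈ AS S m s V) (h2 : b2 ∈ AS S m s V) {v : ℝ}
    (hv1 : v ∈ Set.Icc (S.lo b1 s) (S.hi b1 s)) (hv2 : v ∈ Set.Icc (S.lo b2 s) (S.hi b2 s)) :
    b1 = b2 := by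
  by_contra hne
  exact (Finset.disjoint_left.mp (CC_disj (AS_comp h1 hv1) (AS_comp h2 hv2) hne)) (AS_mem h1)
    (AS_mem h2)

/-! ### the complete blocks as a function of `V s` -/

theorem CC_of_CW (h : (CW S m s V).Nonempty) : CC S m V = CN S m s V ∪ CW S m s V := by
  ext b
  rw [mem_union]
  constructor
  · intro hb
    by_cases hs : s ∈ S.Q b
    · right
      rw [mem_CW]
      refine ⟨hb, ?_⟩
      by_contra hw
      have : b ∈ AS S m s V := mem_AS.mpr ⟨(mem_CC.mp hb).2, hs, fun h => hw h.symm,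
        fun x hx hxw _ => (mem_CC.mp hb).1 x hx hxw⟩
      rw [AS_empty h] at this
      exact absurd this (notMem_empty b)
    · exact Or.inl (mem_CN.mpr ⟨hb, hs⟩)
  · rintro (hb | hb)
    · exact CN_sub hb
    · exact CW_sub hb

theorem CC_of_win (hb : b ∈ AS S m s V) (hv : V s ∈ Set.Icc (S.lo b s) (S.hi b s)) :
    CC S m V = insert b (CN S m s V) := by
  have hbC : b ∈ CC S m V := by
    have := AS_comp hb hv
    rwa [Function.update_eq_self] at this
  ext b1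
  rw [mem_insert]
  constructor
  · intro h1
    by_cases hs : s ∈ S.Q b1
    · left
      by_contra hne
      exact (Finset.disjoint_left.mp (CC_disj h1 hbC hne)) hs (AS_mem hb)
    · exact Or.inr (mem_CN.mpr ⟨h1, hs⟩)
  · rintro (h1 | h1)
    · rw [h1]; exact hbC
    · exact CN_sub h1

theorem CC_of_rest (h : ¬ (CW S m s V).Nonempty)
    (hv : ∀ b ∈ AS S m s V, V s ∉ Set.Icc (S.lo b s) (S.hi b s)) :
    CC S m V = CN S m s V := by
  ext b1
  constructor
  · intro h1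
    by_cases hs : s ∈ S.Q b1
    · exfalso
      by_cases hw : S.w b1 = s
      · exact h ⟨b1, mem_CW.mpr ⟨h1, hw⟩⟩
      · have hAS : b1 ∈ AS S m s V := mem_AS.mpr ⟨(mem_CC.mp h1).2, hs, fun h => hw h.symm,
          fun x hx hxw _ => (mem_CC.mp h1).1 x hx hxw⟩
        exact hv b1 hAS ((mem_CC.mp h1).1 s hs fun h => hw h.symm)
    · exact mem_CN.mpr ⟨h1, hs⟩
  · exact fun h1 => CN_sub h1

end Pool.Agent.Lib.MP_562b47_mp.LH
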