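import Pool.Agent.Lib.MP_562b47_mp.LH.FarB
import Pool.Agent.Lib.MP_562b47_mp.LH.Region

/-!
MP_562b47, Lemma H', global part: the comparison of the local quantity `A3` (background share in the
real world) with the expected background shares `EY`.
-/

open MeasureTheory Matrix Finset

set_option linter.unusedSectionVars false
set_option linter.unusedVariables false

namespace Pool.Agent.Lib.MP_562b47_mp.LH.FX

open Pool.Agent.Lib.MP_562b47_mp.AL Pool.Agent.Lib.MP_562b47_mp.WO Pool.Agent.Lib.MP_562b47_mp.LW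
  Pool.Agent.Lib.MP_562b47_mp.LH Pool.Agent.Lib.MP_562b47_mp

variable {ι 𝔅 κ' : Type*} [Fintype ι] [DecidableEq ι] [Fintype 𝔅] [DecidableEq 𝔅] [Fintype κ']
  {S : Sys ι 𝔅} {A : Matrix ι ι ℝ} {m : ℕ} {a : ℝ} {B T D : Finset ι} {U V : ι → ℝ}
  {Ac C : Finset 𝔅} {b : 𝔅}

/-! ### general weights -/

/-- the share of the region with a weight -/
noncomputable def FW (S : Sys ι 𝔅) (A : Matrix ι ι ℝ) (m : ℕ) (a : ℝ) (ξ : κ' → ι → ℝ)
    (B : Finset ι) (W : (ι → ℝ) → ℝ) (Ac : Finset 𝔅) (V : ι → ℝ) : ℝ :=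
  W V * ∑ y ∈ B, a * ∑ x, gam (uC S A a (CX S m B V) Ac V) x * ff ξ x y *
        ‖GM A (uC S A a (CX S m B V) Ac V) y x‖ ^ 2

theorem FW_meas (ξ : κ' → ι → ℝ) (B : Finset ι) {W : (ι → ℝ) → ℝ} (hW : Measurable W)
    (Ac : Finset 𝔅) : Measurable (FW S A m a ξ B W Ac) := by
  unfold FW
  refine hW.mul ?_
  refine Finset.measurable_fun_sum _ fun y _ => Measurable.const_mul ?_ _
  refine Finset.measurable_fun_sum _ fun x _ => ?_
  exact ((measurable_gam (fun x => uCX_meas Ac x) x).mul measurable_const).mul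
    ((measurable_GM' A (fun x => uCX_meas Ac x) y x).norm.pow_const 2)

theorem FW_nonneg (hS : WO.Good S A) (ha : 0 < a) (ξ : κ' → ι → ℝ) {W : (ι → ℝ) → ℝ}
    (h0 : ∀ V, 0 ≤ W V) (hA : Ac ⊆ CX S m B V) : 0 ≤ FW S A m a ξ B W Ac V := by
  unfold FW
  exact mul_nonneg (h0 V) (Finset.sum_nonneg fun y _ =>
    row_nonneg ha (uC_loss hS ha CX_sub hA) ξ y)

theorem FW_le (hS : WO.Good S A) (ha : 0 < a) (ξ : κ' → ι → ℝ) {W : (ι → ℝ) → ℝ}
    (h0 : ∀ V, 0 ≤ W V) (h1 : ∀ V, W V ≤ 1) (hA : Ac ⊆ CX S m B V) :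
    FW S A m a ξ B W Ac V ≤ ∑ y ∈ B, ∑ x, ff ξ x y := by
  have h2 : 0 ≤ ∑ y ∈ B, a * ∑ x, gam (uC S A a (CX S m B V) Ac V) x * ff ξ x y *
        ‖GM A (uC S A a (CX S m B V) Ac V) y x‖ ^ 2 := Finset.sum_nonneg fun y _ =>
    row_nonneg ha (uC_loss hS ha CX_sub hA) ξ y
  unfold FW
  refine (mul_le_of_le_one_left h2 (h1 V)).trans ?_
  refine Finset.sum_le_sum fun y hy => row_le hS (uC_loss hS ha CX_sub hA) ξ ?_
  unfold gam
  rw [uC_on CX_disj' (CXAc_disj hA) hy]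
  simp

theorem FW_BX (hS : WO.Good S A) (ha : 0 < a) (ξ : κ' → ι → ℝ) (B : Finset ι) {W : (ι → ℝ) → ℝ}
    (hW : Measurable W) (h0 : ∀ V, 0 ≤ W V) (h1 : ∀ V, W V ≤ 1) :
    BX S m B (FW S A m a ξ B W) := by
  refine ⟨fun Ac => FW_meas ξ B hW Ac, ∑ y ∈ B, ∑ x, ff ξ x y, fun V Ac hA => ?_⟩
  rw [abs_of_nonneg (FW_nonneg hS ha ξ h0 hA)]
  exact FW_le hS ha ξ h0 h1 hA

theorem FW_mix (ξ : κ' → ι → ℝ) (W : (ι → ℝ) → ℝ) (hA : Ac ⊆ CX S m B V) :
    FW S A m a ξ B W Ac (mix B U V) = W (mix B U V) *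
      ∑ y ∈ B, a * ∑ x, gam (pB S A m a B Ac V U) x * ff ξ x y *
        ‖GM A (pB S A m a B Ac V U) y x‖ ^ 2 := by
  unfold FW
  rw [pB_eq hA]

theorem mixm (T : Finset ι) (V : ι → ℝ) : Measurable fun U : ι → ℝ => mix T U V :=
  (measurable_mix T).comp (measurable_const.prodMk measurable_id)

/-- integrability of the terms -/
theorem termW_int (hS : WO.Good S A) (ha : 0 < a) (hA : Ac ⊆ CX S m B V) (x : ι) (hx : x ∉ B)
    {W : (ι → ℝ) → ℝ} (hW : Measurable W) (h0 : ∀ V, 0 ≤ W V) (h1 : ∀ V, W V ≤ 1) :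
    Integrable (fun U => gam (uC S A a (CX S m B V) Ac V) x *
      (W (mix B U V) * ∑ y ∈ B, a * ‖GM A (pB S A m a B Ac V U) y x‖ ^ 2)) (muc ι S.c) := by
  have hp := muc_prob (ι := ι) S.c_pos
  have hm : Measurable fun U => gam (uC S A a (CX S m B V) Ac V) x *
      (W (mix B U V) * ∑ y ∈ B, a * ‖GM A (pB S A m a B Ac V U) y x‖ ^ 2) := by
    refine Measurable.const_mul ((hW.comp (mixm B V)).mul
      (Finset.measurable_fun_sum _ fun y _ => ?_)) _
    exact Measurable.const_mul ((measurable_GM' A (fun z => pB_meas Ac V z) y x).norm.pow_const 2) _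
  refine Integrable.of_bound hm.aestronglyMeasurable (∑ _y ∈ B, (1 : ℝ))
    (Filter.Eventually.of_forall fun U => ?_)
  have hL := pB_loss (U := U) hS ha hA
  have hg : gam (uC S A a (CX S m B V) Ac V) x = gam (pB S A m a B Ac V U) x := by
    unfold gam
    rw [pB_off hx]
  have hg0 : 0 ≤ gam (pB S A m a B Ac V U) x := (gam_pos hL x).le
  have hs : 0 ≤ ∑ y ∈ B, a * ‖GM A (pB S A m a B Ac V U) y x‖ ^ 2 :=
    Finset.sum_nonneg fun y _ => mul_nonneg ha.le (sq_nonneg _)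
  have hw0 := h0 (mix B U V)
  have hw1 := h1 (mix B U V)
  rw [hg, Real.norm_eq_abs, abs_of_nonneg (mul_nonneg hg0 (mul_nonneg hw0 hs))]
  calc gam (pB S A m a B Ac V U) x * (W (mix B U V) *
        ∑ y ∈ B, a * ‖GM A (pB S A m a B Ac V U) y x‖ ^ 2)
      ≤ gam (pB S A m a B Ac V U) x * (1 *
        ∑ y ∈ B, a * ‖GM A (pB S A m a B Ac V U) y x‖ ^ 2) :=
        mul_le_mul_of_nonneg_left (mul_le_mul_of_nonneg_right hw1 hs) hg0
    _ = ∑ y ∈ B, a * gam (pB S A m a B Ac V U) x * ‖GM A (pB S A m a B Ac V U) y x‖ ^ 2 := by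
        rw [one_mul, Finset.mul_sum]
        exact Finset.sum_congr rfl fun y _ => by ring
    _ ≤ ∑ _y ∈ B, (1 : ℝ) := by
        refine Finset.sum_le_sum fun y hy => ?_
        have h := entry_le hS.symm hL y x
        rwa [gam_pB_on hy] at h

/-- for fixed exterior -/
theorem FW_le_point (hS : WO.Good S A) (ha : 0 < a) (ξ : κ' → ι → ℝ) {s : ι} (Df : ℝ)
    (hff : ∀ x y : ι, x ≠ y → 1 ≤ ff ξ x y) (hDf : ∀ y ∈ B, ff ξ s y ≤ Df)
    (hA : Ac ⊆ CX S m B V) {W : (ι → ℝ) → ℝ} (hW : Measurable W) (h0 : ∀ V, 0 ≤ W V)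
    (h1 : ∀ V, W V ≤ 1) :
    ∑ x ∈ univ \ B, gam (uC S A a (CX S m B V) Ac V) x * ff ξ x s *
      ∫ U, W (mix B U V) * ∑ y ∈ B, a * ‖GM A (pB S A m a B Ac V U) y x‖ ^ 2 ∂(muc ι S.c) ≤
      (2 + 2 * Df) * ∫ U, FW S A m a ξ B W Ac (mix B U V) ∂(muc ι S.c) := by
  have hp := muc_prob (ι := ι) S.c_pos
  have e1 : ∑ x ∈ univ \ B, gam (uC S A a (CX S m B V) Ac V) x * ff ξ x s *
      ∫ U, W (mix B U V) * ∑ y ∈ B, a * ‖GM A (pB S A m a B Ac V U) y x‖ ^ 2 ∂(muc ι S.c) =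
        ∫ U, ∑ x ∈ univ \ B, ff ξ x s *
        (gam (uC S A a (CX S m B V) Ac V) x * (W (mix B U V) *
        ∑ y ∈ B, a * ‖GM A (pB S A m a B Ac V U) y x‖ ^ 2)) ∂(muc ι S.c) := by
    rw [integral_finsetSum]
    · refine Finset.sum_congr rfl fun x _ => ?_
      rw [integral_const_mul, integral_const_mul]
      ring
    · intro x hx
      exact (termW_int hS ha hA x (Finset.mem_sdiff.mp hx).2 hW h0 h1).const_mul _
  rw [e1, ← integral_const_mul]
  refine integral_mono ?_ ?_ fun U => ?_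
  · exact integrable_finsetSum _ fun x hx =>
      (termW_int hS ha hA x (Finset.mem_sdiff.mp hx).2 hW h0 h1).const_mul _
  · refine Integrable.const_mul ?_ _
    refine Integrable.of_bound ((FW_meas ξ B hW Ac).comp (mixm B V)).aestronglyMeasurable
      (∑ y ∈ B, ∑ x, ff ξ x y) (Filter.Eventually.of_forall fun U => ?_)
    have hA2 : Ac ⊆ CX S m B (mix B U V) := by
      rw [FX.CX_mix (Finset.Subset.refl B)]; exact hA
    rw [Real.norm_eq_abs, abs_of_nonneg (FW_nonneg hS ha ξ h0 hA2)]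
    exact FW_le hS ha ξ h0 h1 hA2
  · simp only
    rw [FW_mix ξ W hA]
    have hL := pB_loss (U := U) hS ha hA
    have hw0 := h0 (mix B U V)
    have e2 : (2 + 2 * Df) * (W (mix B U V) *
        ∑ y ∈ B, a * ∑ x, gam (pB S A m a B Ac V U) x * ff ξ x y *
          ‖GM A (pB S A m a B Ac V U) y x‖ ^ 2) =
        ∑ x, ∑ y ∈ B, W (mix B U V) * (a * (gam (pB S A m a B Ac V U) x *
          ((2 + 2 * Df) * ff ξ x y) * ‖GM A (pB S A m a B Ac V U) y x‖ ^ 2)) := by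
      rw [Finset.sum_comm, Finset.mul_sum, Finset.mul_sum]
      refine Finset.sum_congr rfl fun y _ => ?_
      rw [Finset.mul_sum, Finset.mul_sum, Finset.mul_sum]
      exact Finset.sum_congr rfl fun x _ => by ring
    rw [e2, ← Finset.sum_sdiff (Finset.subset_univ B)]
    have hDf0 : B.Nonempty → 0 ≤ Df := fun ⟨y, hy⟩ => (ff_nonneg ξ s y).trans (hDf y hy)
    have hrest : 0 ≤ ∑ x ∈ B, ∑ y ∈ B, W (mix B U V) *
        (a * (gam (pB S A m a B Ac V U) x *
          ((2 + 2 * Df) * ff ξ x y) * ‖GM A (pB S A m a B Ac V U) y x‖ ^ 2)) := by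
      refine Finset.sum_nonneg fun x hx => Finset.sum_nonneg fun y _ => ?_
      have h1 := hDf0 ⟨x, hx⟩
      have h2 := ff_nonneg ξ x y
      have h3 := (gam_pos hL x).le
      positivity
    refine le_trans ?_ (le_add_of_nonneg_right hrest)
    refine Finset.sum_le_sum fun x hx => ?_
    have hxB := (Finset.mem_sdiff.mp hx).2
    have hg : gam (uC S A a (CX S m B V) Ac V) x = gam (pB S A m a B Ac V U) x := by
      unfold gam
      rw [pB_off hxB]
    rw [hg, Finset.mul_sum, Finset.mul_sum, Finset.mul_sum]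
    refine Finset.sum_le_sum fun y hy => ?_
    have h1 : ff ξ x s ≤ (2 + 2 * Df) * ff ξ x y :=
      ff_le (hff x y fun h => hxB (h ▸ hy)) (hDf y hy)
    have h3 := (gam_pos hL x).le
    calc ff ξ x s * (gam (pB S A m a B Ac V U) x * (W (mix B U V) *
          (a * ‖GM A (pB S A m a B Ac V U) y x‖ ^ 2)))
        = (W (mix B U V) * a * gam (pB S A m a B Ac V U) x *
          ‖GM A (pB S A m a B Ac V U) y x‖ ^ 2) * ff ξ x s := by ring
      _ ≤ (W (mix B U V) * a * gam (pB S A m a B Ac V U) x *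
          ‖GM A (pB S A m a B Ac V U) y x‖ ^ 2) * ((2 + 2 * Df) * ff ξ x y) :=
          mul_le_mul_of_nonneg_left h1 (by positivity)
      _ = _ := by ring

/-! ### one variable -/

/-- the interval of length `l` at the end `e = ± c` -/
def EndI (c l e σ : ℝ) (I : Set ℝ) : Prop :=
  (e = c ∧ σ = -1 ∧ I = Set.Ioc (c - l) c) ∨ (e = -c ∧ σ = 1 ∧ I = Set.Ioc (-c) (-c + l))

theorem EndI.meas {c l e σ : ℝ} {I : Set ℝ} (hI : EndI c l e σ I) : MeasurableSet I := by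
  rcases hI with ⟨-, -, rfl⟩ | ⟨-, -, rfl⟩ <;> exact measurableSet_Ioc

open Classical in
theorem int_end {c l e σ : ℝ} {I : Set ℝ} (hc : 0 < c) (hl : 0 < l) (hl2 : l ≤ 2 * c)
    (hI : EndI c l e σ I) (g : ℝ → ℝ) :
    ∫ w in (0 : ℝ)..l, g (e + σ * w) = 2 * c * ∫ v, (if v ∈ I then g v else 0) ∂(unif c) := by
  have e0 : (fun v => if v ∈ I then g v else 0) = I.indicator g := by
    funext v
    rw [Set.indicator_apply]
  rw [integral_unif hc, e0,
    intervalIntegral.integral_of_le (a := -c) (b := c) (f := I.indicator g) (by linarith),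
    setIntegral_indicator hI.meas]
  have h2c : 2 * c * ((2 * c)⁻¹ * ∫ x in Set.Ioc (-c) c ∩ I, g x) =
      ∫ x in Set.Ioc (-c) c ∩ I, g x := by
    rw [← mul_assoc, mul_inv_cancel₀ (by positivity), one_mul]
  rw [h2c]
  rcases hI with ⟨rfl, rfl, rfl⟩ | ⟨rfl, rfl, rfl⟩
  · have h1 : Set.Ioc (-e) e ∩ Set.Ioc (e - l) e = Set.Ioc (e - l) e := by
      apply Set.inter_eq_right.mpr
      exact Set.Ioc_subset_Ioc_left (by linarith)
    rw [h1, ← intervalIntegral.integral_of_le (by linarith)]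
    have h2 : ∀ w : ℝ, g (e + -1 * w) = g (e - w) := fun w => by
      congr 1; ring
    simp_rw [h2]
    rw [intervalIntegral.integral_comp_sub_left (fun v => g v) e, sub_zero]
  · have h1 : Set.Ioc (-c) c ∩ Set.Ioc (-c) (-c + l) = Set.Ioc (-c) (-c + l) := by
      apply Set.inter_eq_right.mpr
      exact Set.Ioc_subset_Ioc_right (by linarith)
    rw [h1, ← intervalIntegral.integral_of_le (by linarith)]
    have h2 : ∀ w : ℝ, g (-c + 1 * w) = g (-c + w) := fun w => by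
      rw [one_mul]
    simp_rw [h2]
    rw [intervalIntegral.integral_comp_add_left (fun v => g v) (-c), add_zero]

/-! ### the event of the refined bound -/

open Classical in
/-- no complete block near `s` -/
noncomputable def om0 (S : Sys ι 𝔅) (m : ℕ) (b0 : 𝔅) (s : ι) (V : ι → ℝ) : ℝ :=
  if meet S b0 (CN S m s V ∪ CW S m s V) = ∅ then 1 else 0

theorem CX_empty : CX S m ∅ V = CC S m V := by
  ext b
  rw [FX.mem_CX, LH.mem_CC]
  simp

theorem om0_meas (b0 : 𝔅) (s : ι) : Measurable (om0 S m b0 s) := by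
  classical
  have h := meas_of_CX (S := S) (m := m) (B := ∅) (β := ℝ)
    (F := fun C (_ : ι → ℝ) => if meet S b0 ((C.filter fun b => s ∉ S.Q b) ∪
      (C.filter fun b => S.w b = s)) = ∅ then (1 : ℝ) else 0) fun C => measurable_const
  convert h using 1
  funext V
  unfold om0
  rw [CX_empty]
  have e1 : CN S m s V = (CC S m V).filter fun b => s ∉ S.Q b := by
    ext b; rw [mem_CN, mem_filter]
  have e2 : CW S m s V = (CC S m V).filter fun b => S.w b = s := by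
    ext b; rw [mem_CW, mem_filter]
  rw [e1, e2]

theorem om0_nonneg (b0 : 𝔅) (s : ι) (V : ι → ℝ) : 0 ≤ om0 S m b0 s V := by
  unfold om0; split_ifs <;> norm_num

theorem om0_le_one (b0 : 𝔅) (s : ι) (V : ι → ℝ) : om0 S m b0 s V ≤ 1 := by
  unfold om0; split_ifs <;> norm_num

theorem om0_upd (b0 : 𝔅) (s : ι) (V : ι → ℝ) (v : ℝ) :
    om0 S m b0 s (Function.update V s v) = om0 S m b0 s V := by
  unfold om0
  rw [CN_upd, CW_upd]

theorem om0_congr {b0 : 𝔅} {s : ι} (h : ∀ x, x ≠ s → U x = V x) :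
    om0 S m b0 s U = om0 S m b0 s V := by
  have : U = Function.update V s (U s) := by
    funext x
    by_cases hx : x = s
    · subst hx; rw [Function.update_self]
    · rw [Function.update_of_ne hx]; exact h x hx
  rw [this, om0_upd]

open Classical in
/-- the weight: no complete block near `s` and `V s ∈ I` -/
noncomputable def WI (S : Sys ι 𝔅) (m : ℕ) (b0 : 𝔅) (s : ι) (I : Set ℝ) (V : ι → ℝ) : ℝ :=
  om0 S m b0 s V * if V s ∈ I then 1 else 0

theorem WI_meas (b0 : 𝔅) (s : ι) {I : Set ℝ} (hI : MeasurableSet I) :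
    Measurable (WI S m b0 s I) := by
  unfold WI
  exact (om0_meas b0 s).mul (Measurable.ite ((measurable_pi_apply s) hI) measurable_const
    measurable_const)

theorem WI_nonneg (b0 : 𝔅) (s : ι) (I : Set ℝ) (V : ι → ℝ) : 0 ≤ WI S m b0 s I V := by
  unfold WI
  refine mul_nonneg (om0_nonneg b0 s V) ?_
  split_ifs <;> norm_num

theorem WI_le_one (b0 : 𝔅) (s : ι) (I : Set ℝ) (V : ι → ℝ) : WI S m b0 s I V ≤ 1 := by
  unfold WI
  have h1 := om0_nonneg (S := S) (m := m) b0 s V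
  have h2 := om0_le_one (S := S) (m := m) b0 s V
  split_ifs <;> linarith

/-- the potential in the region, one variable -/
theorem pB_update {Lam : Finset ι} {s : ι} (hB : insert s Lam = B) (hs : s ∉ Lam) {v0 : ι → ℂ}
    (hv : ∀ y, y ∉ B → v0 y = uC S A a (CX S m B V) Ac V y) (v : ℝ) :
    pB S A m a B Ac V (Function.update U s v) =
      Function.update (pot Lam (fun _ => a) v0 U) s ((v : ℂ) - (a : ℂ) * Complex.I) := by
  funext y
  by_cases hy : y = s
  · subst hy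
    rw [Function.update_self, pB_on (by rw [← hB]; exact mem_insert_self _ _),
      Function.update_self]
  · rw [Function.update_of_ne hy]
    unfold pot
    by_cases hyL : y ∈ Lam
    · rw [if_pos hyL, pB_on (by rw [← hB]; exact mem_insert_of_mem hyL),
        Function.update_of_ne hy]
    · have hyB : y ∉ B := by
        rw [← hB, mem_insert]
        push Not
        exact ⟨hy, hyL⟩
      rw [if_neg hyL, pB_off hyB, hv y hyB]

/-- `A3` in terms of the region -/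
theorem A3_eq (hS : WO.Good S A) (ha : 0 < a) {Lam : Finset ι} {s : ι} (hB : insert s Lam = B)
    (hs : s ∉ Lam) (hA : Ac ⊆ CX S m B V) {v0 : ι → ℂ}
    (hv : ∀ y, y ∉ B → v0 y = uC S A a (CX S m B V) Ac V y) {l e σ : ℝ} {I : Set ℝ}
    (hl : 0 < l) (hl2 : l ≤ 2 * S.c) (hI : EndI S.c l e σ I) (b0 : 𝔅) (x : ι) (hx : x ∉ B) :
    A3 S.c a A v0 Lam s x e l σ (fun U => om0 S m b0 s (mix Lam U V)) =
      2 * S.c * ∫ U, WI S m b0 s I (mix B U V) *
        ∑ y ∈ B, a * ‖GM A (pB S A m a B Ac V U) y x‖ ^ 2 ∂(muc ι S.c) := by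
  classical
  have hp := muc_prob (ι := ι) S.c_pos
  have hsB : s ∈ B := by rw [← hB]; exact mem_insert_self _ _
  -- integrability of the right integrand
  have hint : Integrable (fun U => WI S m b0 s I (mix B U V) *
        ∑ y ∈ B, a * ‖GM A (pB S A m a B Ac V U) y x‖ ^ 2) (muc ι S.c) := by
    have h := termW_int hS ha hA x hx (WI_meas (S := S) (m := m) b0 s hI.meas)
      (WI_nonneg b0 s I) (WI_le_one b0 s I)
    have hg : gam (uC S A a (CX S m B V) Ac V) x ≠ 0 :=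
      (gam_pos (uC_loss hS ha CX_sub hA) x).ne'
    have h2 := h.const_mul (gam (uC S A a (CX S m B V) Ac V) x)⁻¹
    refine h2.congr (Filter.Eventually.of_forall fun U => ?_)
    simp only
    rw [← mul_assoc, inv_mul_cancel₀ hg, one_mul]
  rw [integral_upd S.c_pos s hint, ← integral_const_mul]
  unfold A3
  refine integral_congr_ae (Filter.Eventually.of_forall fun U => ?_)
  simp only
  have e1 : ∀ v : ℝ, WI S m b0 s I (mix B (Function.update U s v) V) =
      om0 S m b0 s (mix Lam U V) * if v ∈ I then 1 else 0 := by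
    intro v
    unfold WI
    rw [mix_mem hsB, Function.update_self]
    congr 1
    apply om0_congr
    intro z hz
    by_cases hzL : z ∈ Lam
    · rw [mix_mem hzL, mix_mem (by rw [← hB]; exact mem_insert_of_mem hzL),
        Function.update_of_ne hz]
    · have hzB : z ∉ B := by
        rw [← hB, mem_insert]
        push Not
        exact ⟨hz, hzL⟩
      rw [mix_not hzL, mix_not hzB]
  simp_rw [e1, pB_update hB hs hv]
  have e2 : ∀ v : ℝ, (om0 S m b0 s (mix Lam U V) * if v ∈ I then 1 else 0) *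
      ∑ y ∈ B, a * ‖GM A (Function.update (pot Lam (fun _ => a) v0 U) s
        ((v : ℂ) - (a : ℂ) * Complex.I)) y x‖ ^ 2 =
      om0 S m b0 s (mix Lam U V) * (if v ∈ I then
        ∑ y ∈ B, a * ‖GM A (Function.update (pot Lam (fun _ => a) v0 U) s
        ((v : ℂ) - (a : ℂ) * Complex.I)) y x‖ ^ 2 else 0) := by
    intro v
    split_ifs <;> simp
  simp_rw [e2]
  rw [integral_const_mul, ← mul_assoc, mul_comm (2 * S.c), mul_assoc,
    ← int_end S.c_pos hl hl2 hI (fun v => ∑ y ∈ B, a * ‖GM A (Function.update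
      (pot Lam (fun _ => a) v0 U) s ((v : ℂ) - (a : ℂ) * Complex.I)) y x‖ ^ 2), hB]

/-! ### EY -/

open Classical in
/-- the functional of `EY` -/
noncomputable def FY (S : Sys ι 𝔅) (A : Matrix ι ι ℝ) (m : ℕ) (a : ℝ) (ξ : κ' → ι → ℝ) (y : ι)
    (Ac : Finset 𝔅) (V : ι → ℝ) : ℝ :=
  if Low S (CC S m V) Ac y then
      a * ∑ x, gam (S.uA A m a Ac V) x * ff ξ x y * ‖GM A (S.uA A m a Ac V) y x‖ ^ 2 else 0

theorem EY_eq (ξ : κ' → ι → ℝ) (y : ι) :
    EY S A m a ξ y = EX S A m ∅ (FY S A m a ξ y) := by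
  unfold EY EX FY
  simp_rw [CX_empty]

theorem FY_meas (ξ : κ' → ι → ℝ) (y : ι) (Ac : Finset 𝔅) :
    Measurable (FY S A m a ξ y Ac) := by
  classical
  have h := meas_of_CX (S := S) (m := m) (B := ∅) (β := ℝ)
    (F := fun C (V : ι → ℝ) => if Low S C Ac y then
      a * ∑ x, gam (S.uA A m a Ac V) x * ff ξ x y * ‖GM A (S.uA A m a Ac V) y x‖ ^ 2 else 0)
    fun C => by
      by_cases hC : Low S C Ac y
      · simp only [if_pos hC]
        refine Measurable.const_mul (Finset.measurable_fun_sum _ fun x _ => ?_) _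
        exact ((measurable_gam (fun x => S.measurable_uA A m a Ac x) x).mul
          measurable_const).mul
          ((measurable_GM' A (fun x => S.measurable_uA A m a Ac x) y x).norm.pow_const 2)
      · simp only [if_neg hC]; exact measurable_const
  convert h using 1
  funext V
  unfold FY
  rw [CX_empty]

theorem gam_low (hA : Ac ⊆ CC S m V) {y : ι} (hy : Low S (CC S m V) Ac y) :
    gam (S.uA A m a Ac V) y = a := by
  rw [LH.uA_eq hA]
  unfold gam
  rw [LH.uC_off hy.1 hy.2]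
  simp

theorem FY_nonneg (hS : WO.Good S A) (ha : 0 < a) (ξ : κ' → ι → ℝ) (y : ι)
    (hA : Ac ⊆ CC S m V) : 0 ≤ FY S A m a ξ y Ac V := by
  unfold FY
  split_ifs
  · exact row_nonneg ha (S.uA_loss hS ha (hA.trans CC_sub)) ξ y
  · exact le_refl _

theorem FY_BX (hS : WO.Good S A) (ha : 0 < a) (ξ : κ' → ι → ℝ) (y : ι) :
    BX S m ∅ (FY S A m a ξ y) := by
  refine ⟨fun Ac => FY_meas ξ y Ac, ∑ x, ff ξ x y, fun V Ac hA => ?_⟩
  rw [CX_empty] at hA
  rw [abs_of_nonneg (FY_nonneg hS ha ξ y hA)]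
  unfold FY
  split_ifs with h
  · exact row_le hS (S.uA_loss hS ha (hA.trans CC_sub)) ξ (gam_low hA h)
  · exact Finset.sum_nonneg fun x _ => ff_nonneg ξ x y

theorem EX_sum (hS : WO.Good S A) {α : Type*} (s : Finset α) (F : α → Finset 𝔅 → (ι → ℝ) → ℝ)
    (hF : ∀ i ∈ s, BX S m B (F i)) :
    EX S A m B (fun Ac V => ∑ i ∈ s, F i Ac V) = ∑ i ∈ s, EX S A m B (F i) := by
  simp only [EX_eq]
  rw [← integral_finsetSum s fun i hi => int_EI hS (hF i hi)]
  refine integral_congr_ae (Filter.Eventually.of_forall fun V => ?_)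
  simp only [EI, Finset.mul_sum]
  rw [Finset.sum_comm]

/-- no complete block near `s` and `V s` near the end: the complete blocks are those outside -/
theorem CC_end {b0 : 𝔅} {s : ι} {l0 l e σ : ℝ} {I : Set ℝ} (hI : EndI S.c l e σ I) (hll : l ≤ l0)
    (hfree : ∀ b, m < S.cls b → ∀ x ∈ S.Q b, x ≠ S.w b →
      -S.c + l0 < S.lo b x ∧ S.hi b x < S.c - l0) (hsb : s ∈ S.Q b0)
    (hV : WI S m b0 s I V ≠ 0) : CC S m V = CX S m (S.Q b0) V := by
  classical
  have hm : meet S b0 (CN S m s V ∪ CW S m s V) = ∅ := by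
    by_contra h
    apply hV
    unfold WI om0
    rw [if_neg h, zero_mul]
  have hs : V s ∈ I := by
    by_contra h
    apply hV
    unfold WI
    rw [if_neg h, mul_zero]
  refine Finset.Subset.antisymm (fun b hb => ?_) LH.CX_sub
  have hd : b ∈ CN S m s V ∪ CW S m s V → Disjoint (S.Q b) (S.Q b0) := by
    intro h
    by_contra hn
    have : b ∈ meet S b0 (CN S m s V ∪ CW S m s V) := mem_meet.mpr ⟨h, hn⟩
    rw [hm] at this
    exact absurd this (Finset.notMem_empty b)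
  rw [LH.mem_CX]
  refine ⟨hb, ?_⟩
  by_cases h1 : s ∈ S.Q b
  · by_cases h2 : s = S.w b
    · exact hd (mem_union_right _ (mem_CW.mpr ⟨hb, h2.symm⟩))
    · exfalso
      have h3 := (LH.mem_CC.mp hb).1 s h1 h2
      have h4 := hfree b (LH.mem_CC.mp hb).2 s h1 h2
      rcases hI with ⟨-, -, rfl⟩ | ⟨-, -, rfl⟩
      · have := hs.1
        linarith [h3.2, h4.2]
      · have := hs.2
        linarith [h3.1, h4.1]
  · exact hd (mem_union_left _ (mem_CN.mpr ⟨hb, h1⟩))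

theorem FW_le_EY (hS : WO.Good S A) (ha : 0 < a) (ξ : κ' → ι → ℝ) {b0 : 𝔅} {s : ι}
    {l0 l e σ : ℝ} {I : Set ℝ} (hI : EndI S.c l e σ I) (hll : l ≤ l0)
    (hfree : ∀ b, m < S.cls b → ∀ x ∈ S.Q b, x ≠ S.w b →
      -S.c + l0 < S.lo b x ∧ S.hi b x < S.c - l0) (hsb : s ∈ S.Q b0) :
    EX S A m (S.Q b0) (FW S A m a ξ (S.Q b0) (WI S m b0 s I)) ≤
      ∑ y ∈ S.Q b0, EY S A m a ξ y := by
  simp_rw [EY_eq]
  rw [← EX_sum hS _ _ fun y _ => FY_BX hS ha ξ y, EX_eq, EX_eq]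
  refine integral_mono (int_EI hS (FW_BX hS ha ξ _ (WI_meas b0 s hI.meas) (WI_nonneg b0 s I)
    (WI_le_one b0 s I))) (int_EI hS (BX.sum _ fun y _ => FY_BX hS ha ξ y)) fun V => ?_
  by_cases h0 : WI S m b0 s I V = 0
  · have e1 : EI S A m (S.Q b0) (FW S A m a ξ (S.Q b0) (WI S m b0 s I)) V = 0 := by
      unfold EI FW
      refine Finset.sum_eq_zero fun Ac _ => ?_
      rw [h0, zero_mul, mul_zero]
    rw [e1]
    unfold EI
    refine Finset.sum_nonneg fun Ac hA => ?_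
    have hA' := Finset.mem_powerset.mp hA
    refine mul_nonneg (wC_nonneg hS FX.CX_sub hA') (Finset.sum_nonneg fun y _ => ?_)
    rw [CX_empty] at hA'
    exact FY_nonneg hS ha ξ y hA'
  · have hCC := CC_end hI hll hfree hsb h0
    unfold EI
    rw [CX_empty, hCC]
    refine Finset.sum_le_sum fun Ac hA => ?_
    have hA' := Finset.mem_powerset.mp hA
    refine mul_le_mul_of_nonneg_left ?_ (wC_nonneg hS FX.CX_sub hA')
    unfold FW
    have hs0 : 0 ≤ ∑ y ∈ S.Q b0, a * ∑ x, gam (uC S A a (CX S m (S.Q b0) V) Ac V) x * ff ξ x y *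
        ‖GM A (uC S A a (CX S m (S.Q b0) V) Ac V) y x‖ ^ 2 := Finset.sum_nonneg fun y _ =>
      row_nonneg ha (uC_loss hS ha FX.CX_sub hA') ξ y
    refine (mul_le_of_le_one_left hs0 (WI_le_one b0 s I V)).trans ?_
    refine Finset.sum_le_sum fun y hy => ?_
    unfold FY
    rw [hCC, if_pos (LH.Low_J0 hy hA'), LH.uA_eq (by rw [hCC]; exact hA'), hCC]

/-- the functional with `A3` -/
noncomputable def F3 (S : Sys ι 𝔅) (A : Matrix ι ι ℝ) (m : ℕ) (a : ℝ) (ξ : κ' → ι → ℝ)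
    (b0 : 𝔅) (Lam : Finset ι) (s : ι) (e l σ : ℝ) (Ac : Finset 𝔅) (V : ι → ℝ) : ℝ :=
  ∑ x ∈ univ \ S.Q b0, gam (uC S A a (CX S m (S.Q b0) V) Ac V) x * ff ξ x s *
      A3 S.c a A (uC S A a (CX S m (S.Q b0) V) Ac V) Lam s x e l σ
        (fun U => om0 S m b0 s (mix Lam U V))

theorem F3_eq (hS : WO.Good S A) (ha : 0 < a) (ξ : κ' → ι → ℝ) {b0 : 𝔅} {Lam : Finset ι} {s : ι}
    (hB : insert s Lam = S.Q b0) (hs : s ∉ Lam) {l e σ : ℝ} {I : Set ℝ}
    (hl : 0 < l) (hl2 : l ≤ 2 * S.c) (hI : EndI S.c l e σ I) (hA : Ac ⊆ CX S m (S.Q b0) V) :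
    F3 S A m a ξ b0 Lam s e l σ Ac V = 2 * S.c *
      ∑ x ∈ univ \ S.Q b0, gam (uC S A a (CX S m (S.Q b0) V) Ac V) x * ff ξ x s *
      ∫ U, WI S m b0 s I (mix (S.Q b0) U V) *
        ∑ y ∈ S.Q b0, a * ‖GM A (pB S A m a (S.Q b0) Ac V U) y x‖ ^ 2 ∂(muc ι S.c) := by
  unfold F3
  rw [Finset.mul_sum]
  refine Finset.sum_congr rfl fun x hx => ?_
  rw [A3_eq hS ha hB hs hA (fun y _ => rfl) hl hl2 hI b0 x (Finset.mem_sdiff.mp hx).2]
  ring

theorem F3_le_point (hS : WO.Good S A) (ha : 0 < a) (ξ : κ' → ι → ℝ) {b0 : 𝔅} {Lam : Finset ι}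
    {s : ι} (hB : insert s Lam = S.Q b0) (hs : s ∉ Lam) {l e σ : ℝ} {I : Set ℝ}
    (hl : 0 < l) (hl2 : l ≤ 2 * S.c) (hI : EndI S.c l e σ I) (Df : ℝ)
    (hff : ∀ x y : ι, x ≠ y → 1 ≤ ff ξ x y) (hDf : ∀ y ∈ S.Q b0, ff ξ s y ≤ Df)
    (hA : Ac ⊆ CX S m (S.Q b0) V) :
    F3 S A m a ξ b0 Lam s e l σ Ac V ≤ 2 * S.c * (2 + 2 * Df) *
      ∫ U, FW S A m a ξ (S.Q b0) (WI S m b0 s I) Ac (mix (S.Q b0) U V) ∂(muc ι S.c) := by
  rw [F3_eq hS ha ξ hB hs hl hl2 hI hA, mul_assoc (2 * S.c)]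
  have hc := S.c_pos
  exact mul_le_mul_of_nonneg_left (FW_le_point hS ha ξ Df hff hDf hA (WI_meas b0 s hI.meas)
    (WI_nonneg b0 s I) (WI_le_one b0 s I)) (by positivity)

theorem A3_nonneg (ha : 0 < a) (c : ℝ) (v : ι → ℂ) (Lam : Finset ι) (s x : ι) {e l σ : ℝ}
    (hl : 0 < l) {om : (ι → ℝ) → ℝ} (h : ∀ V, 0 ≤ om V) : 0 ≤ A3 c a A v Lam s x e l σ om := by
  unfold A3
  refine integral_nonneg fun U => mul_nonneg (h U) ?_
  exact intervalIntegral.integral_nonneg hl.le fun w _ =>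
    Finset.sum_nonneg fun y _ => mul_nonneg ha.le (sq_nonneg _)

theorem F3_nonneg (hS : WO.Good S A) (ha : 0 < a) (ξ : κ' → ι → ℝ) (b0 : 𝔅) (Lam : Finset ι)
    (s : ι) {e l σ : ℝ} (hl : 0 < l) (hA : Ac ⊆ CX S m (S.Q b0) V) :
    0 ≤ F3 S A m a ξ b0 Lam s e l σ Ac V := by
  unfold F3
  exact Finset.sum_nonneg fun x _ => mul_nonneg (mul_nonneg
    (gam_pos (uC_loss hS ha FX.CX_sub hA) x).le (ff_nonneg ξ x s))
    (A3_nonneg ha _ _ _ _ _ hl fun _ => om0_nonneg _ _ _)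

theorem A3_meas {vv : (ι → ℝ) → ι → ℂ} (hvm : ∀ y, Measurable fun V => vv V y)
    (Lam : Finset ι) (s x : ι) {c : ℝ} (hc : 0 < c) (a e l σ : ℝ)
    {om : (ι → ℝ) → (ι → ℝ) → ℝ} (hom : Measurable fun q : (ι → ℝ) × (ι → ℝ) => om q.1 q.2) :
    Measurable fun V => A3 c a A (vv V) Lam s x e l σ (om V) := by
  have hp := muc_prob (ι := ι) hc
  have hu : ∀ z, Measurable fun q : ((ι → ℝ) × (ι → ℝ)) × ℝ =>
      Function.update (pot Lam (fun _ => a) (vv q.1.1) q.1.2) s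
        (((e + σ * q.2 : ℝ) : ℂ) - (a : ℂ) * Complex.I) z := by
    intro z
    by_cases hz : z = s
    · subst hz
      simp only [Function.update_self]
      exact (Complex.measurable_ofReal.comp (measurable_const.add
        (measurable_snd.const_mul σ))).sub measurable_const
    · simp only [Function.update_of_ne hz]
      exact meas_pot Lam (fun _ => a) (v := fun q : ((ι → ℝ) × (ι → ℝ)) × ℝ => vv q.1.1)
        (fun y => (hvm y).comp (measurable_fst.comp measurable_fst))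
        (measurable_snd.comp measurable_fst) z
  have h1 : Measurable fun q : ((ι → ℝ) × (ι → ℝ)) × ℝ => ∑ y ∈ insert s Lam,
      a * ‖GM A (Function.update (pot Lam (fun _ => a) (vv q.1.1) q.1.2) s
        (((e + σ * q.2 : ℝ) : ℂ) - (a : ℂ) * Complex.I)) y x‖ ^ 2 :=
    Finset.measurable_fun_sum _ fun y _ =>
      Measurable.const_mul ((measurable_GM' A hu y x).norm.pow_const 2) _
  have h2 : Measurable fun q : (ι → ℝ) × (ι → ℝ) => ∫ w in (0 : ℝ)..l, ∑ y ∈ insert s Lam,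
      a * ‖GM A (Function.update (pot Lam (fun _ => a) (vv q.1) q.2) s
        (((e + σ * w : ℝ) : ℂ) - (a : ℂ) * Complex.I)) y x‖ ^ 2 := by
    unfold intervalIntegral
    exact ((h1.stronglyMeasurable.integral_prod_right'
      (ν := volume.restrict (Set.Ioc 0 l))).measurable).sub
      ((h1.stronglyMeasurable.integral_prod_right'
      (ν := volume.restrict (Set.Ioc l 0))).measurable)
  unfold A3
  exact ((hom.mul h2).stronglyMeasurable.integral_prod_right' (ν := muc ι c)).measurable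

theorem F3_meas (ξ : κ' → ι → ℝ) (b0 : 𝔅) (Lam : Finset ι) (s : ι) (e l σ : ℝ)
    (Ac : Finset 𝔅) : Measurable (F3 S A m a ξ b0 Lam s e l σ Ac) := by
  unfold F3
  refine Finset.measurable_fun_sum _ fun x _ => ?_
  refine ((measurable_gam (fun x => uCX_meas Ac x) x).mul measurable_const).mul ?_
  exact A3_meas (vv := fun V => uC S A a (CX S m (S.Q b0) V) Ac V) (fun y => uCX_meas Ac y)
    Lam s x S.c_pos a e l σ (om := fun V U => om0 S m b0 s (mix Lam U V))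
    ((om0_meas b0 s).comp (measurable_mix Lam))

theorem FWint_le (hS : WO.Good S A) (ha : 0 < a) (ξ : κ' → ι → ℝ) {W : (ι → ℝ) → ℝ}
    (h0 : ∀ V, 0 ≤ W V) (h1 : ∀ V, W V ≤ 1) (hA : Ac ⊆ CX S m B V) :
    ∫ U, FW S A m a ξ B W Ac (mix B U V) ∂(muc ι S.c) ≤ ∑ y ∈ B, ∑ x, ff ξ x y := by
  have hp := muc_prob (ι := ι) S.c_pos
  have hb : ∀ U, ‖FW S A m a ξ B W Ac (mix B U V)‖ ≤ ∑ y ∈ B, ∑ x, ff ξ x y := by
    intro U
    have hA2 : Ac ⊆ CX S m B (mix B U V) := by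
      rw [FX.CX_mix (Finset.Subset.refl B)]; exact hA
    rw [Real.norm_eq_abs, abs_of_nonneg (FW_nonneg hS ha ξ h0 hA2)]
    exact FW_le hS ha ξ h0 h1 hA2
  have := norm_integral_le_of_norm_le_const (μ := muc ι S.c)
    (Filter.Eventually.of_forall hb)
  rw [probReal_univ, mul_one] at this
  exact (le_abs_self _).trans this

theorem F3_BX (hS : WO.Good S A) (ha : 0 < a) (ξ : κ' → ι → ℝ) {b0 : 𝔅} {Lam : Finset ι}
    {s : ι} (hB : insert s Lam = S.Q b0) (hs : s ∉ Lam) {l e σ : ℝ} {I : Set ℝ}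
    (hl : 0 < l) (hl2 : l ≤ 2 * S.c) (hI : EndI S.c l e σ I) (Df : ℝ)
    (hff : ∀ x y : ι, x ≠ y → 1 ≤ ff ξ x y) (hDf : ∀ y ∈ S.Q b0, ff ξ s y ≤ Df) :
    BX S m (S.Q b0) (F3 S A m a ξ b0 Lam s e l σ) := by
  have hsB : s ∈ S.Q b0 := by rw [← hB]; exact mem_insert_self _ _
  have hDf0 : 0 ≤ Df := (ff_nonneg ξ s s).trans (hDf s hsB)
  have hc := S.c_pos
  refine ⟨fun Ac => F3_meas ξ b0 Lam s e l σ Ac,
    2 * S.c * (2 + 2 * Df) * ∑ y ∈ S.Q b0, ∑ x, ff ξ x y, fun V Ac hA => ?_⟩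
  rw [abs_of_nonneg (F3_nonneg hS ha ξ b0 Lam s hl hA)]
  refine (F3_le_point hS ha ξ hB hs hl hl2 hI Df hff hDf hA).trans ?_
  exact mul_le_mul_of_nonneg_left (FWint_le hS ha ξ (WI_nonneg b0 s I) (WI_le_one b0 s I) hA)
    (by positivity)

/-- (A3) the local quantity `A3`, integrated over the exterior -/
theorem A3_int (hS : WO.Good S A) (ha : 0 < a) (ξ : κ' → ι → ℝ) {b0 : 𝔅} {Lam : Finset ι}
    {s : ι} (hB : insert s Lam = S.Q b0) (hs : s ∉ Lam) {l0 l e σ : ℝ}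
    (hl : 0 < l) (hl2 : l ≤ 2 * S.c) (hll : l ≤ l0)
    (he : (e = S.c ∧ σ = -1) ∨ (e = -S.c ∧ σ = 1)) (Df : ℝ)
    (hff : ∀ x y : ι, x ≠ y → 1 ≤ ff ξ x y) (hDf : ∀ y ∈ S.Q b0, ff ξ s y ≤ Df)
    (hfree : ∀ b, m < S.cls b → ∀ x ∈ S.Q b, x ≠ S.w b →
      -S.c + l0 < S.lo b x ∧ S.hi b x < S.c - l0) :
    EX S A m (S.Q b0) (F3 S A m a ξ b0 Lam s e l σ) ≤
      2 * S.c * (2 + 2 * Df) * ∑ y ∈ S.Q b0, EY S A m a ξ y := by
  have hp := muc_prob (ι := ι) S.c_pos
  obtain ⟨I, hI⟩ : ∃ I, EndI S.c l e σ I := by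
    rcases he with ⟨h1, h2⟩ | ⟨h1, h2⟩
    · exact ⟨_, Or.inl ⟨h1, h2, rfl⟩⟩
    · exact ⟨_, Or.inr ⟨h1, h2, rfl⟩⟩
  have hsB : s ∈ S.Q b0 := by rw [← hB]; exact mem_insert_self _ _
  have hDf0 : 0 ≤ Df := (ff_nonneg ξ s s).trans (hDf s hsB)
  have hc := S.c_pos
  refine le_trans ?_ (mul_le_mul_of_nonneg_left (FW_le_EY hS ha ξ hI hll hfree hsB)
    (by positivity))
  rw [← EX_mul]
  refine EX_le_of_mix hS (Finset.Subset.refl (S.Q b0)) (F3_BX hS ha ξ hB hs hl hl2 hI Df hff hDf)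
    ((FW_BX hS ha ξ _ (WI_meas b0 s hI.meas) (WI_nonneg b0 s I)
    (WI_le_one b0 s I)).const_mul _) fun V Ac hA => ?_
  have e1 : ∀ U, F3 S A m a ξ b0 Lam s e l σ Ac (mix (S.Q b0) U V) =
      F3 S A m a ξ b0 Lam s e l σ Ac V := by
    intro U
    have hA2 : Ac ⊆ CX S m (S.Q b0) (mix (S.Q b0) U V) := by
      rw [FX.CX_mix (Finset.Subset.refl _)]; exact hA
    rw [F3_eq hS ha ξ hB hs hl hl2 hI hA2, F3_eq hS ha ξ hB hs hl hl2 hI hA]
    congr 1
    refine Finset.sum_congr rfl fun x hx => ?_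
    have hxB := (Finset.mem_sdiff.mp hx).2
    have h1 : gam (uC S A a (CX S m (S.Q b0) (mix (S.Q b0) U V)) Ac (mix (S.Q b0) U V)) x =
        gam (uC S A a (CX S m (S.Q b0) V) Ac V) x := by
      unfold gam
      rw [pB_eq hA, pB_off hxB]
    rw [h1]
    congr 1
    refine integral_congr_ae (Filter.Eventually.of_forall fun U' => ?_)
    simp only
    have h2 : mix (S.Q b0) U' (mix (S.Q b0) U V) = mix (S.Q b0) U' V := by
      funext z
      by_cases hz : z ∈ S.Q b0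
      · rw [mix_mem hz, mix_mem hz]
      · rw [mix_not hz, mix_not hz, mix_not hz]
    have h3 : pB S A m a (S.Q b0) Ac (mix (S.Q b0) U V) U' = pB S A m a (S.Q b0) Ac V U' := by
      rw [← pB_eq hA2, h2, pB_eq hA]
    rw [h2, h3]
  simp_rw [e1]
  rw [integral_const, probReal_univ, one_smul, integral_const_mul]
  exact F3_le_point hS ha ξ hB hs hl hl2 hI Df hff hDf hA

end Pool.Agent.Lib.MP_562b47_mp.LH.FX
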