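import Pool.Agent.Lib.MP_562b47_mp.LH.FarA

/-!
Far sources: values of the potential, losses, the hypotheses of the local theorem, measurability.
-/

open MeasureTheory Matrix Finset

set_option linter.unusedSectionVars false

namespace Pool.Agent.Lib.MP_562b47_mp.LH.FA

open Pool.Agent.Lib.MP_562b47_mp.AL Pool.Agent.Lib.MP_562b47_mp.WO Pool.Agent.Lib.MP_562b47_mp.LW
  Pool.Agent.Lib.MP_562b47_mp.LH Pool.Agent.Lib.MP_562b47_mp

variable {ι 𝔅 κ' : Type*} [Fintype ι] [DecidableEq ι] [Fintype 𝔅] [DecidableEq 𝔅] [Fintype κ']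
  (S : Sys ι 𝔅) (A : Matrix ι ι ℝ) (m : ℕ) (a : ℝ)

/-! ### values of the potential -/

section values

variable {S} {a} {C Ac : Finset 𝔅} {V : ι → ℝ} {x : ι}

/-- pairwise disjoint blocks -/
def PD (S : Sys ι 𝔅) (C : Finset 𝔅) : Prop :=
  ∀ b ∈ C, ∀ b' ∈ C, b ≠ b' → Disjoint (S.Q b) (S.Q b')

theorem uC_inn (hC : PD S C) (hAc : Ac ⊆ C) {b : 𝔅} (hb : b ∈ C) (hx : x ∈ S.inn b) :
    uC S A a C Ac V x = (V x : ℂ) - (S.et (S.cls b) : ℂ) * Complex.I := by
  unfold uC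
  rw [Finset.sum_eq_single_of_mem b hb, if_pos hx, Finset.sum_eq_zero (s := Ac), add_zero,
    add_sub_cancel]
  · intro b' hb'
    rw [if_neg]
    intro h
    by_cases hbb : b = b'
    · rw [hbb] at hx
      exact ((S.mem_inn).mp hx).1 h
    · exact (Finset.disjoint_left.mp (hC b hb b' (hAc hb') hbb)) (S.inn_sub hx)
        (by rw [h]; exact S.w_mem b')
  · intro b' hb' hne
    rw [if_neg]
    intro h
    exact (Finset.disjoint_left.mp (hC b hb b' hb' hne.symm)) (S.inn_sub hx) (S.inn_sub h)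

theorem uC_w (hC : PD S C) (hAc : Ac ⊆ C) {b : 𝔅} (hb : b ∈ Ac) :
    uC S A a C Ac V (S.w b) = ((S.ze A b V : ℝ) : ℂ) -
      ((S.gg A b V + S.et (S.cls b) : ℝ) : ℂ) * Complex.I := by
  unfold uC
  rw [Finset.sum_eq_zero (s := C), Finset.sum_eq_single_of_mem b hb, if_pos rfl]
  · push_cast
    ring
  · intro b' hb' hne
    rw [if_neg]
    intro h
    exact (Finset.disjoint_left.mp (hC b (hAc hb) b' (hAc hb') hne.symm)) (S.w_mem b)
      (by rw [h]; exact S.w_mem b')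
  · intro b' hb'
    rw [if_neg]
    intro h
    by_cases hbb : b = b'
    · rw [← hbb] at h
      exact ((S.mem_inn).mp h).1 rfl
    · exact (Finset.disjoint_left.mp (hC b (hAc hb) b' hb' hbb)) (S.w_mem b) (S.inn_sub h)

theorem uC_cases (hC : PD S C) (hAc : Ac ⊆ C) (V : ι → ℝ) (x : ι) :
    (∃ b ∈ C, x ∈ S.inn b ∧
      uC S A a C Ac V x = (V x : ℂ) - (S.et (S.cls b) : ℂ) * Complex.I) ∨
    (∃ b ∈ Ac, x = S.w b ∧ uC S A a C Ac V x = ((S.ze A b V : ℝ) : ℂ) -
      ((S.gg A b V + S.et (S.cls b) : ℝ) : ℂ) * Complex.I) ∨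
    uC S A a C Ac V x = (V x : ℂ) - (a : ℂ) * Complex.I := by
  by_cases h1 : ∃ b ∈ C, x ∈ S.inn b
  · obtain ⟨b, hb, hx⟩ := h1
    exact Or.inl ⟨b, hb, hx, uC_inn A hC hAc hb hx⟩
  · by_cases h2 : ∃ b ∈ Ac, x = S.w b
    · obtain ⟨b, hb, hx⟩ := h2
      refine Or.inr (Or.inl ⟨b, hb, hx, ?_⟩)
      rw [hx]
      exact uC_w A hC hAc hb
    · push Not at h1 h2
      exact Or.inr (Or.inr (uC_none A h1 h2))

theorem uC_loss (ha : 0 < a) (hC : PD S C) (hAc : Ac ⊆ C) (hg : ∀ b ∈ Ac, 0 < S.gg A b V) :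
    Loss (uC S A a C Ac V) := by
  intro x
  rcases uC_cases A (a := a) hC hAc V x with ⟨b, _, _, h⟩ | ⟨b, hb, _, h⟩ | h
  · rw [h, Complex.sub_im, Complex.ofReal_im, Complex.im_ofReal_mul, Complex.I_im]
    have := S.et_pos (S.cls b)
    linarith
  · rw [h, Complex.sub_im, Complex.ofReal_im, Complex.im_ofReal_mul, Complex.I_im]
    have := S.et_pos (S.cls b)
    have := hg b hb
    linarith
  · rw [h, Complex.sub_im, Complex.ofReal_im, Complex.im_ofReal_mul, Complex.I_im]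
    linarith

end values

/-! ### windows of the inner sites -/

/-- the windows of the inner sites of the blocks of `σ`, except at `s` -/
def evF (σ : Finset 𝔅) (s : ι) (V : ι → ℝ) : Prop :=
  ∀ b ∈ σ, ∀ x ∈ S.inn b, x ≠ s → V x ∈ Set.Icc (S.lo b x) (S.hi b x)

section windows

variable {S} {a} {b0 : 𝔅} {σ σC σA C Ac : Finset 𝔅} {s : ι} {V V' : ι → ℝ}

theorem evF_of_evw (h : evw S σ s V) : evF S σ s V := fun b hb x hx hxs =>
  h b hb x (S.inn_sub hx) ((S.mem_inn).mp hx).1 hxs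

theorem evF_congr (h : ∀ y, (∃ b ∈ σ, y ∈ S.inn b) → y ≠ s → V y = V' y) :
    evF S σ s V ↔ evF S σ s V' := by
  constructor
  · intro h1 b hb x hx hxs
    rw [← h x ⟨b, hb, hx⟩ hxs]; exact h1 b hb x hx hxs
  · intro h1 b hb x hx hxs
    rw [h x ⟨b, hb, hx⟩ hxs]; exact h1 b hb x hx hxs

/-- a configuration with the inner windows can be completed -/
theorem exists_evw (hσ : PD S σ) (hAσ : σA ⊆ σ) (h : evF S σ s V) :
    ∃ V0 : ι → ℝ, evw S σ s V0 ∧ ∀ x, x ∉ Lm S b0 σ σA s → V0 x = V x := by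
  classical
  refine ⟨fun x => if x ∈ Lm S b0 σ σA s then
    (if hx : ∃ b ∈ σ, x ∈ S.Q b then S.lo hx.choose x else 0) else V x, ?_, ?_⟩
  · intro b hb x hx hxw hxs
    by_cases hL : x ∈ Lm S b0 σ σA s
    · have hex : ∃ b ∈ σ, x ∈ S.Q b := ⟨b, hb, hx⟩
      have hch : hex.choose = b := by
        by_contra hne
        exact (Finset.disjoint_left.mp (hσ _ hex.choose_spec.1 b hb hne)) hex.choose_spec.2 hx
      simp only [if_pos hL, dif_pos hex, hch]
      exact ⟨le_refl _, (S.lo_lt b x).le⟩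
    · simp only [if_neg hL]
      have hF := mem_Fz_of (Q_sub_Reg hb hx) hL hxs
      rcases mem_union.mp (mem_of_mem_erase hF) with h1 | h1
      · obtain ⟨b', hb', hx'⟩ := mem_biUnion.mp h1
        have hbb : b' = b := by
          by_contra hne
          exact (Finset.disjoint_left.mp (hσ b' hb' b hb hne)) (S.inn_sub hx') hx
        rw [hbb] at hx'
        exact h b hb x hx' hxs
      · obtain ⟨b', hb', hx'⟩ := mem_image.mp h1
        have hbb : b' = b := by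
          by_contra hne
          exact (Finset.disjoint_left.mp (hσ b' (hAσ hb') b hb hne))
            (by rw [← hx']; exact S.w_mem b') hx
        rw [hbb] at hx'
        exact absurd hx'.symm hxw
  · intro x hx
    simp only [if_neg hx]

/-- a block of `σ` whose inner block does not contain `s` can be completed -/
theorem exists_comp (h : evF S σ s V) {b : 𝔅} (hb : b ∈ σ) (hs : s ∉ S.inn b) :
    ∃ V0 : ι → ℝ, S.comp b V0 ∧ ∀ x ∈ S.inn b, V0 x = V x := by
  refine ⟨fun x => if x ∈ S.inn b then V x else S.lo b x, ?_, ?_⟩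
  · intro x hx hxw
    by_cases hi : x ∈ S.inn b
    · simp only [if_pos hi]
      exact h b hb x hi fun hxs => hs (by rw [← hxs]; exact hi)
    · simp only [if_neg hi]
      exact ⟨le_refl _, (S.lo_lt b x).le⟩
  · intro x hx
    simp only [if_pos hx]

theorem gg_pos_evF (hG : Good S A) (h : evF S σ s V) {b : 𝔅} (hb : b ∈ σ) (hs : s ∉ S.inn b) :
    0 < S.gg A b V := by
  obtain ⟨V0, h1, h2⟩ := exists_comp h hb hs
  rw [← S.gg_congr A h2]
  exact hG.g_pos b V0 h1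

theorem gg_le_evF (hG : Good S A) (h : evF S σ s V) {b : 𝔅} (hb : b ∈ σ) (hs : s ∉ S.inn b) :
    S.gg A b V ≤ S.r := by
  obtain ⟨V0, h1, h2⟩ := exists_comp h hb hs
  rw [← S.gg_congr A h2]
  exact hG.g_le b V0 h1

theorem ze_le_evF (hG : Good S A) (h : evF S σ s V) {b : 𝔅} (hb : b ∈ σ) (hs : s ∉ S.inn b) :
    |S.ze A b V| + 5 * S.r ≤ S.c := by
  obtain ⟨V0, h1, h2⟩ := exists_comp h hb hs
  rw [← S.ze_congr A h2]
  exact hG.ze_mem b V0 h1

theorem PD_comp (h : ∀ b ∈ C, S.comp b V) : PD S C := fun b hb b' hb' hne =>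
  S.disj b b' V hne (h b hb) (h b' hb')

theorem PD_union (h : ∀ b ∈ C, S.comp b V) (hC : ∀ b ∈ C, Disjoint (S.Q b) (Reg S b0 σ))
    (hσ : PD S σ) (hCσ : σC ⊆ σ) : PD S (C ∪ σC) := by
  intro b hb b' hb' hne
  rcases mem_union.mp hb with h1 | h1
  · rcases mem_union.mp hb' with h2 | h2
    · exact PD_comp h b h1 b' h2 hne
    · exact (hC b h1).mono_right (Q_sub_Reg (hCσ h2))
  · rcases mem_union.mp hb' with h2 | h2
    · exact ((hC b' h2).mono_right (Q_sub_Reg (hCσ h1))).symm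
    · exact hσ b (hCσ h1) b' (hCσ h2) hne

/-- losses in the world with the blocks of `σC` -/
theorem uC_loss_union (hG : Good S A) (ha : 0 < a) (h : ∀ b ∈ C, S.comp b V)
    (hC : ∀ b ∈ C, Disjoint (S.Q b) (Reg S b0 σ)) (hAc : Ac ⊆ C) (hσ : PD S σ) (hCσ : σC ⊆ σ)
    (hAC : σA ⊆ σC) (h1 : ∀ b ∈ σC, s ∉ S.inn b) (hF : evF S σ s V) :
    Loss (uC S A a (C ∪ σC) (Ac ∪ σA) V) := by
  refine uC_loss A ha (PD_union h hC hσ hCσ) (union_subset_union hAc hAC) fun b hb => ?_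
  rcases mem_union.mp hb with h2 | h2
  · exact hG.g_pos b V (h b (hAc h2))
  · exact gg_pos_evF A hG hF (hCσ (hAC h2)) (h1 b (hAC h2))

/-- the hypotheses of the local theorem -/
theorem setup (hG : Good S A) (ha : 0 < a) (ha1 : a ≤ 1 / 2) (hs : S.w b0 = s)
    (h : ∀ b ∈ C, S.comp b V)
    (hC : ∀ b ∈ C, Disjoint (S.Q b) (Reg S b0 σ)) (hAc : Ac ⊆ C) (hσ : PD S σ) (hCσ : σC ⊆ σ)
    (hAC : σA ⊆ σC) (h1 : ∀ b ∈ σC, s ∉ S.inn b) (hF : evF S σ s V) :
    Setup S.c a A (uC S A a (C ∪ σC) (Ac ∪ σA) V) (Lm S b0 σ σA s) (Fz S σ σA s) s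
      (3 * S.c + 3) where
  symm := hG.symm
  c_pos := S.c_pos
  a_pos := ha
  a_le := ha1
  R_ge := le_refl _
  loss := uC_loss_union A hG ha h hC hAc hσ hCσ hAC h1 hF
  frz := by
    intro y hy
    have hc := S.c_pos
    have hr := S.r_pos
    have hyR : y ∈ Reg S b0 σ := Fz_sub_Reg (hAC.trans hCσ) hy
    rw [uC_in A hC (fun b hb => hC b (hAc hb)) hyR]
    have hVy : ∀ b ∈ σ, y ∈ S.inn b → |V y| ≤ S.c := by
      intro b hb hyb
      have h2 := hF b hb y hyb (ne_of_mem_erase hy)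
      have h3 := S.lo_ge b y
      have h4 := S.hi_le b y
      rw [abs_le]
      exact ⟨by linarith [h2.1], by linarith [h2.2]⟩
    have hPD : PD S σC := fun b hb b' hb' hne => hσ b (hCσ hb) b' (hCσ hb') hne
    have hnorm : ∀ p q : ℝ, |p| ≤ S.c → 0 ≤ q → q ≤ 2 * S.c + 3 →
        ‖(p : ℂ) - (q : ℂ) * Complex.I‖ ≤ 3 * S.c + 3 := by
      intro p q hp hq hq'
      refine (norm_sub_le _ _).trans ?_
      rw [norm_mul, Complex.norm_I, mul_one, Complex.norm_real, Complex.norm_real,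
        Real.norm_eq_abs, Real.norm_eq_abs, abs_of_nonneg hq]
      linarith
    have hw : ∀ b ∈ σA, ‖((S.ze A b V : ℝ) : ℂ) -
        ((S.gg A b V + S.et (S.cls b) : ℝ) : ℂ) * Complex.I‖ ≤ 3 * S.c + 3 := by
      intro b hb
      have h2 := ze_le_evF A hG hF (hCσ (hAC hb)) (h1 b (hAC hb))
      have h3 := gg_le_evF A hG hF (hCσ (hAC hb)) (h1 b (hAC hb))
      have h4 := gg_pos_evF A hG hF (hCσ (hAC hb)) (h1 b (hAC hb))
      have h5 := S.et_le (S.cls b)
      have h6 := S.et_pos (S.cls b)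
      have h7 := abs_nonneg (S.ze A b V)
      exact hnorm _ _ (by linarith) (by linarith) (by linarith)
    rcases mem_union.mp (mem_of_mem_erase hy) with h2 | h2
    · obtain ⟨b0', hb0', hyb0⟩ := mem_biUnion.mp h2
      have hV := hVy b0' hb0' hyb0
      rcases uC_cases A (a := a) hPD hAC V y with ⟨b, hb, hyb, hu⟩ | ⟨b, hb, hyb, hu⟩ | hu
      · rw [hu]
        exact hnorm _ _ hV (S.et_pos _).le (by linarith [S.et_le (S.cls b)])
      · rw [hu]
        exact hw b hb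
      · rw [hu]
        exact hnorm _ _ hV ha.le (by linarith)
    · obtain ⟨b, hb, hyb⟩ := mem_image.mp h2
      rw [← hyb, uC_w A hPD hAC hb]
      exact hw b hb
  s_lam := s_not_Lm
  s_frz := s_not_Fz
  disj := Lm_disj_Fz

end windows

end Pool.Agent.Lib.MP_562b47_mp.LH.FA
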