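import Pool.Agent.Lib.MP_562b47_mp.LH.FarC

/-!
MP_562b47, Lemma H', global part: the left side `TI` of the pieces theorem after resampling of the
varied sites (region without complete blocks).
-/

open MeasureTheory Matrix Finset

set_option linter.unusedSectionVars false
set_option linter.unusedVariables false

namespace Pool.Agent.Lib.MP_562b47_mp.LH.FX

open Pool.Agent.Lib.MP_562b47_mp.AL Pool.Agent.Lib.MP_562b47_mp.WO Pool.Agent.Lib.MP_562b47_mp.LW
  Pool.Agent.Lib.MP_562b47_mp.LH Pool.Agent.Lib.MP_562b47_mp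

variable {ι 𝔅 κ' : Type*} [Fintype ι] [DecidableEq ι] [Fintype 𝔅] [DecidableEq 𝔅] [Fintype κ']
  {S : Sys ι 𝔅} {A : Matrix ι ι ℝ} {m : ℕ} {a : ℝ} {B T D : Finset ι} {U V : ι → ℝ}
  {Ac C : Finset 𝔅} {b : 𝔅}

/-- comparison after resampling a part of the region, second form -/
theorem EX_le_of_mix' (hS : WO.Good S A) (hT : T ⊆ B) {F F' : Finset 𝔅 → (ι → ℝ) → ℝ}
    (hF : BX S m B F) (hF' : BX S m B F')
    (h : ∀ V, ∀ Ac ⊆ CX S m B V, ∫ U, F Ac (mix T U V) ∂(muc ι S.c) ≤ F' Ac V) :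
    EX S A m B F ≤ EX S A m B F' := by
  have hp := muc_prob (ι := ι) S.c_pos
  rw [EX_eq, EX_eq]
  have h1 : ∫ V, EI S A m B F V ∂(S.mu) =
      ∫ V, ∫ U, EI S A m B F (mix T U V) ∂(muc ι S.c) ∂(muc ι S.c) :=
    integral_mix S.c_pos T (int_EI hS hF)
  rw [h1]
  have h2 : Integrable (fun V => ∫ U, EI S A m B F (mix T U V) ∂(muc ι S.c)) (muc ι S.c) :=
    (integrable_mix S.c_pos T (int_EI hS hF)).integral_prod_left
  refine integral_mono h2 (int_EI hS hF') fun V => ?_
  simp only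
  rw [int_EI_mix hS hT hF]
  exact Finset.sum_le_sum fun Ac hA => mul_le_mul_of_nonneg_left
    (h V Ac (Finset.mem_powerset.mp hA)) (wC_nonneg hS FX.CX_sub (Finset.mem_powerset.mp hA))

/-- `u_s = e - i (t + a)` -/
noncomputable def us (e a t : ℝ) : ℂ := (e : ℂ) - ((t + a : ℝ) : ℂ) * Complex.I

theorem us_im (e a t : ℝ) : (us e a t).im = -(t + a) := by
  simp [us]

theorem loss_upd {p : ι → ℂ} (hp : Loss p) (s : ι) {z : ℂ} (hz : z.im < 0) :
    Loss (Function.update p s z) := by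
  intro x
  by_cases hx : x = s
  · subst hx; rw [Function.update_self]; exact hz
  · rw [Function.update_of_ne hx]; exact hp x

/-- the bound of the integrand -/
theorem g_le (hS : WO.Good S A) (ha : 0 < a) {p : ι → ℂ} (hp : Loss p) {s x : ι} (hx : x ≠ s)
    (e : ℝ) {t : ℝ} (ht : 0 ≤ t) :
    gam p x * ‖GM A (Function.update p s (us e a t)) s x‖ ^ 2 ≤ a⁻¹ := by
  have hL : Loss (Function.update p s (us e a t)) :=
    loss_upd hp s (by rw [us_im]; linarith)
  have h := entry_le hS.symm hL s x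
  have h1 : gam (Function.update p s (us e a t)) s = t + a := by
    unfold gam
    rw [Function.update_self, us_im, neg_neg]
  have h2 : gam (Function.update p s (us e a t)) x = gam p x := by
    unfold gam
    rw [Function.update_of_ne hx]
  rw [h1, h2] at h
  have hg := (gam_pos hp x).le
  have h4 : 0 ≤ gam p x * ‖GM A (Function.update p s (us e a t)) s x‖ ^ 2 := by positivity
  have h3 : a * (gam p x * ‖GM A (Function.update p s (us e a t)) s x‖ ^ 2) ≤ 1 := by
    nlinarith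
  calc gam p x * ‖GM A (Function.update p s (us e a t)) s x‖ ^ 2
      = a⁻¹ * (a * (gam p x * ‖GM A (Function.update p s (us e a t)) s x‖ ^ 2)) := by
        rw [← mul_assoc, inv_mul_cancel₀ ha.ne', one_mul]
    _ ≤ a⁻¹ * 1 := mul_le_mul_of_nonneg_left h3 (inv_pos.mpr ha).le
    _ = a⁻¹ := mul_one _

/-- one source, integrated over `t` -/
noncomputable def JT (A : Matrix ι ι ℝ) (p : ι → ℂ) (s x : ι) (e a l : ℝ) : ℝ :=
  ∫ t in (0 : ℝ)..l, ‖GM A (Function.update p s (us e a t)) s x‖ ^ 2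

theorem meas_us (e a : ℝ) : Measurable fun t : ℝ => us e a t := by
  unfold us
  exact measurable_const.sub ((Complex.measurable_ofReal.comp
    (measurable_id.add_const a)).mul_const _)

theorem g_int (hS : WO.Good S A) (ha : 0 < a) {p : ι → ℂ} (hp : Loss p) {s x : ι} (hx : x ≠ s)
    (e : ℝ) {l : ℝ} (hl : 0 < l) :
    IntervalIntegrable (fun t => ‖GM A (Function.update p s (us e a t)) s x‖ ^ 2) volume 0 l := by
  rw [intervalIntegrable_iff_integrableOn_Ioc_of_le hl.le]
  have hm : Measurable fun t : ℝ => ‖GM A (Function.update p s (us e a t)) s x‖ ^ 2 := by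
    refine (measurable_GM' A (fun z => ?_) s x).norm.pow_const 2
    by_cases hz : z = s
    · subst hz
      simp only [Function.update_self]
      exact meas_us e a
    · simp only [Function.update_of_ne hz]
      exact measurable_const
  have hg := gam_pos hp x
  refine Measure.integrableOn_of_bounded (M := (gam p x)⁻¹ * a⁻¹) (by simp)
    hm.aestronglyMeasurable ?_
  refine (ae_restrict_iff' measurableSet_Ioc).mpr (Filter.Eventually.of_forall fun t ht => ?_)
  rw [Real.norm_eq_abs, abs_of_nonneg (sq_nonneg _)]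
  have h := g_le hS ha hp hx e ht.1.le
  calc ‖GM A (Function.update p s (us e a t)) s x‖ ^ 2
      = (gam p x)⁻¹ * (gam p x * ‖GM A (Function.update p s (us e a t)) s x‖ ^ 2) := by
        rw [← mul_assoc, inv_mul_cancel₀ hg.ne', one_mul]
    _ ≤ (gam p x)⁻¹ * a⁻¹ := mul_le_mul_of_nonneg_left h (inv_pos.mpr hg).le

theorem JT_nonneg (p : ι → ℂ) (s x : ι) (e a : ℝ) {l : ℝ} (hl : 0 < l) : 0 ≤ JT A p s x e a l :=
  intervalIntegral.integral_nonneg hl.le fun _ _ => sq_nonneg _

theorem JT_le (hS : WO.Good S A) (ha : 0 < a) {p : ι → ℂ} (hp : Loss p) {s x : ι} (hx : x ≠ s)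
    (e : ℝ) {l : ℝ} (hl : 0 < l) : gam p x * JT A p s x e a l ≤ l * a⁻¹ := by
  unfold JT
  rw [← intervalIntegral.integral_const_mul]
  have h1 : ∫ t in (0 : ℝ)..l, gam p x * ‖GM A (Function.update p s (us e a t)) s x‖ ^ 2 ≤
      ∫ _t in (0 : ℝ)..l, a⁻¹ := by
    refine intervalIntegral.integral_mono_on hl.le ((g_int hS ha hp hx e hl).const_mul _)
      (by simp) fun t ht => ?_
    exact g_le hS ha hp hx e ht.1
  rw [intervalIntegral.integral_const, sub_zero, smul_eq_mul] at h1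
  exact h1

theorem TI_eq (hS : WO.Good S A) (ha : 0 < a) (ξ : κ' → ι → ℝ) {X : Finset ι} {s : ι}
    (hX : s ∉ X) {C Ac : Finset 𝔅} (hp : Loss (uC S A a C Ac V)) (e : ℝ) {l : ℝ} (hl : 0 < l) :
    TI S A a ξ X s C Ac V e l = ∑ x ∈ X, gam (uC S A a C Ac V) x * ff ξ x s *
      JT A (uC S A a C Ac V) s x e a l := by
  unfold TI TT JT
  rw [intervalIntegral.integral_finsetSum]
  · refine Finset.sum_congr rfl fun x hx => ?_
    rw [← intervalIntegral.integral_const_mul]
    rfl
  · intro x hx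
    exact (g_int hS ha hp (ne_of_mem_of_not_mem hx hX) e hl).const_mul _

theorem TI_nonneg (ξ : κ' → ι → ℝ) (X : Finset ι) (s : ι) {C Ac : Finset 𝔅}
    (hp : Loss (uC S A a C Ac V)) (e : ℝ) {l : ℝ} (hl : 0 < l) :
    0 ≤ TI S A a ξ X s C Ac V e l := by
  unfold TI TT
  exact intervalIntegral.integral_nonneg hl.le fun t _ => Finset.sum_nonneg fun x _ =>
    mul_nonneg (mul_nonneg (gam_pos hp x).le (ff_nonneg ξ x s)) (sq_nonneg _)

theorem TI_le (hS : WO.Good S A) (ha : 0 < a) (ξ : κ' → ι → ℝ) {X : Finset ι} {s : ι}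
    (hX : s ∉ X) {C Ac : Finset 𝔅} (hp : Loss (uC S A a C Ac V)) (e : ℝ) {l : ℝ} (hl : 0 < l) :
    TI S A a ξ X s C Ac V e l ≤ l * a⁻¹ * ∑ x, ff ξ x s := by
  rw [TI_eq hS ha ξ hX hp e hl, Finset.mul_sum]
  refine (Finset.sum_le_sum (f := fun x => gam (uC S A a C Ac V) x * ff ξ x s *
      JT A (uC S A a C Ac V) s x e a l) (g := fun x => l * a⁻¹ * ff ξ x s) fun x hx => ?_).trans ?_
  · have h := JT_le hS ha hp (x := x) (s := s) (ne_of_mem_of_not_mem hx hX) e hl
    calc gam (uC S A a C Ac V) x * ff ξ x s * JT A (uC S A a C Ac V) s x e a l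
        = (gam (uC S A a C Ac V) x * JT A (uC S A a C Ac V) s x e a l) * ff ξ x s := by ring
      _ ≤ l * a⁻¹ * ff ξ x s := mul_le_mul_of_nonneg_right h (ff_nonneg ξ x s)
  · refine Finset.sum_le_sum_of_subset_of_nonneg (Finset.subset_univ X) fun x _ _ => ?_
    have := ff_nonneg ξ x s
    have := (inv_pos.mpr ha).le
    positivity

theorem TI_meas (ξ : κ' → ι → ℝ) (X : Finset ι) (s : ι) (C Ac : Finset 𝔅) (e l : ℝ) :
    Measurable fun V : ι → ℝ => TI S A a ξ X s C Ac V e l := by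
  have hu : ∀ z, Measurable fun q : (ι → ℝ) × ℝ =>
      Function.update (uC S A a C Ac q.1) s (us e a q.2) z := by
    intro z
    by_cases hz : z = s
    · subst hz
      simp only [Function.update_self]
      exact (meas_us e a).comp measurable_snd
    · simp only [Function.update_of_ne hz]
      exact (uC_meas C Ac z).comp measurable_fst
  have h1 : Measurable fun q : (ι → ℝ) × ℝ => TT S A a ξ X s C Ac q.1 (us e a q.2) := by
    unfold TT
    refine Finset.measurable_fun_sum _ fun x _ => ?_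
    exact (((measurable_gam (fun x => uC_meas C Ac x) x).comp measurable_fst).mul
      measurable_const).mul ((measurable_GM' A hu s x).norm.pow_const 2)
  have h2 : (fun V : ι → ℝ => TI S A a ξ X s C Ac V e l) = fun V => ∫ t in (0 : ℝ)..l,
      TT S A a ξ X s C Ac V (us e a t) := rfl
  rw [h2]
  unfold intervalIntegral
  exact ((h1.stronglyMeasurable.integral_prod_right'
      (ν := volume.restrict (Set.Ioc 0 l))).measurable).sub
      ((h1.stronglyMeasurable.integral_prod_right'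
      (ν := volume.restrict (Set.Ioc l 0))).measurable)

/-- the functional of `F0` -/
noncomputable def FT0 (S : Sys ι 𝔅) (A : Matrix ι ι ℝ) (m : ℕ) (a : ℝ) (ξ : κ' → ι → ℝ)
    (b0 : 𝔅) (s : ι) (e l : ℝ) (Ac : Finset 𝔅) (V : ι → ℝ) : ℝ :=
  om0 S m b0 s V * TI S A a ξ (univ \ S.Q b0) s (CX S m (S.Q b0) V) Ac V e l

theorem F0_eq (ξ : κ' → ι → ℝ) (b0 : 𝔅) (s : ι) (e l : ℝ) :
    F0 S A m a ξ b0 s e l = EX S A m (S.Q b0) (FT0 S A m a ξ b0 s e l) := by
  unfold F0 EX FT0 om0
  congr 1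
  funext V
  refine Finset.sum_congr rfl fun Ac _ => ?_
  congr 1
  split_ifs
  · rw [one_mul]
  · rw [zero_mul]

theorem FT0_meas (ξ : κ' → ι → ℝ) (b0 : 𝔅) (s : ι) (e l : ℝ) (Ac : Finset 𝔅) :
    Measurable (FT0 S A m a ξ b0 s e l Ac) := by
  unfold FT0
  exact (om0_meas b0 s).mul (meas_of_CX (F := fun C V => TI S A a ξ (univ \ S.Q b0) s C Ac V e l)
    fun C => TI_meas ξ _ s C Ac e l)

theorem FT0_nonneg (hS : WO.Good S A) (ha : 0 < a) (ξ : κ' → ι → ℝ) (b0 : 𝔅) (s : ι) (e : ℝ)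
    {l : ℝ} (hl : 0 < l) (hA : Ac ⊆ CX S m (S.Q b0) V) : 0 ≤ FT0 S A m a ξ b0 s e l Ac V := by
  unfold FT0
  exact mul_nonneg (om0_nonneg b0 s V) (TI_nonneg ξ _ s (uC_loss hS ha FX.CX_sub hA) e hl)

theorem FT0_BX (hS : WO.Good S A) (ha : 0 < a) (ξ : κ' → ι → ℝ) {b0 : 𝔅} {s : ι}
    (hs : s ∈ S.Q b0) (e : ℝ) {l : ℝ} (hl : 0 < l) :
    BX S m (S.Q b0) (FT0 S A m a ξ b0 s e l) := by
  refine ⟨fun Ac => FT0_meas ξ b0 s e l Ac, l * a⁻¹ * ∑ x, ff ξ x s, fun V Ac hA => ?_⟩
  rw [abs_of_nonneg (FT0_nonneg hS ha ξ b0 s e hl hA)]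
  unfold FT0
  have hL := uC_loss hS ha FX.CX_sub hA
  have hX : s ∉ univ \ S.Q b0 := fun h => (Finset.mem_sdiff.mp h).2 hs
  exact (mul_le_of_le_one_left (TI_nonneg ξ _ s hL e hl) (om0_le_one b0 s V)).trans
    (TI_le hS ha ξ hX hL e hl)

/-- the left side for fixed exterior = sum over the sources of `UU` -/
theorem FT0_mix (hS : WO.Good S A) (ha : 0 < a) (ξ : κ' → ι → ℝ) {b0 : 𝔅} {s : ι}
    (hs : s ∈ S.Q b0) {Lam : Finset ι} (hLam : Lam ⊆ S.Q b0) (e : ℝ) {l : ℝ} (hl : 0 < l)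
    (hA : Ac ⊆ CX S m (S.Q b0) V) :
    ∫ U, FT0 S A m a ξ b0 s e l Ac (mix Lam U V) ∂(muc ι S.c) =
      ∑ x ∈ univ \ S.Q b0, gam (uC S A a (CX S m (S.Q b0) V) Ac V) x * ff ξ x s *
        UU S.c a A (uC S A a (CX S m (S.Q b0) V) Ac V) Lam s x e l
          (fun U => om0 S m b0 s (mix Lam U V)) := by
  have hp := muc_prob (ι := ι) S.c_pos
  set v := uC S A a (CX S m (S.Q b0) V) Ac V with hv
  have hLv : Loss v := uC_loss hS ha FX.CX_sub hA
  have hpot : ∀ U, uC S A a (CX S m (S.Q b0) (mix Lam U V)) Ac (mix Lam U V) =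
      pot Lam (fun _ => a) v U := by
    intro U
    rw [FX.CX_mix hLam]
    exact FX.uC_mix hLam CX_disj' (CXAc_disj hA)
  have hLp : ∀ U, Loss (pot Lam (fun _ => a) v U) := by
    intro U
    rw [← hpot]
    refine uC_loss hS ha FX.CX_sub ?_
    rw [FX.CX_mix hLam]
    exact hA
  have hX : s ∉ univ \ S.Q b0 := fun h => (Finset.mem_sdiff.mp h).2 hs
  have hg : ∀ U, ∀ x, x ∉ S.Q b0 → gam (pot Lam (fun _ => a) v U) x = gam v x := by
    intro U x hx
    unfold gam pot
    rw [if_neg (fun h => hx (hLam h))]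
  have e1 : ∀ U, FT0 S A m a ξ b0 s e l Ac (mix Lam U V) =
      ∑ x ∈ univ \ S.Q b0, (gam v x * ff ξ x s) * (om0 S m b0 s (mix Lam U V) *
        JT A (pot Lam (fun _ => a) v U) s x e a l) := by
    intro U
    unfold FT0
    rw [TI_eq hS ha ξ hX (by rw [hpot]; exact hLp U) e hl, Finset.mul_sum]
    refine Finset.sum_congr rfl fun x hx => ?_
    rw [hpot, hg U x (Finset.mem_sdiff.mp hx).2]
    ring
  simp_rw [e1]
  rw [integral_finsetSum]
  · refine Finset.sum_congr rfl fun x _ => ?_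
    rw [integral_const_mul]
    rfl
  · intro x hx
    have hxB := (Finset.mem_sdiff.mp hx).2
    have hxs : x ≠ s := fun h => hxB (h ▸ hs)
    refine Integrable.const_mul ?_ _
    have hgx := gam_pos hLv x
    have hmJ : Measurable fun U => JT A (pot Lam (fun _ => a) v U) s x e a l := by
      have hu : ∀ z, Measurable fun q : (ι → ℝ) × ℝ =>
          Function.update (pot Lam (fun _ => a) v q.1) s (us e a q.2) z := by
        intro z
        by_cases hz : z = s
        · subst hz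
          simp only [Function.update_self]
          exact (meas_us e a).comp measurable_snd
        · simp only [Function.update_of_ne hz]
          exact meas_pot Lam (fun _ => a) (v := fun _ : (ι → ℝ) × ℝ => v)
            (fun _ => measurable_const) measurable_fst z
      have h1 : Measurable fun q : (ι → ℝ) × ℝ =>
          ‖GM A (Function.update (pot Lam (fun _ => a) v q.1) s (us e a q.2)) s x‖ ^ 2 :=
        (measurable_GM' A hu s x).norm.pow_const 2
      unfold JT intervalIntegral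
      exact ((h1.stronglyMeasurable.integral_prod_right'
          (ν := volume.restrict (Set.Ioc 0 l))).measurable).sub
          ((h1.stronglyMeasurable.integral_prod_right'
          (ν := volume.restrict (Set.Ioc l 0))).measurable)
    have hmo : Measurable fun U => om0 S m b0 s (mix Lam U V) := (om0_meas b0 s).comp (mixm Lam V)
    refine Integrable.of_bound (hmo.mul hmJ).aestronglyMeasurable ((gam v x)⁻¹ * (l * a⁻¹))
      (Filter.Eventually.of_forall fun U => ?_)
    have h0 := om0_nonneg (S := S) (m := m) b0 s (mix Lam U V)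
    have h1 := om0_le_one (S := S) (m := m) b0 s (mix Lam U V)
    have hJ0 : 0 ≤ JT A (pot Lam (fun _ => a) v U) s x e a l := JT_nonneg _ s x e a hl
    rw [Real.norm_eq_abs, abs_of_nonneg (mul_nonneg h0 hJ0)]
    refine (mul_le_of_le_one_left hJ0 h1).trans ?_
    have h2 := JT_le hS ha (hLp U) hxs e hl
    rw [hg U x hxB] at h2
    calc JT A (pot Lam (fun _ => a) v U) s x e a l
        = (gam v x)⁻¹ * (gam v x * JT A (pot Lam (fun _ => a) v U) s x e a l) := by
          rw [← mul_assoc, inv_mul_cancel₀ hgx.ne', one_mul]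
      _ ≤ (gam v x)⁻¹ * (l * a⁻¹) := mul_le_mul_of_nonneg_left h2 (inv_pos.mpr hgx).le

end Pool.Agent.Lib.MP_562b47_mp.LH.FX
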