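import Pool.Agent.Lib.MP_562b47_mp.LH.Geo
import Pool.Agent.Lib.MP_562b47_mp.WO.Weights

/-!
MP_562b47, Lemma H', global part: expectations in the world of the blocks outside a region `B`.
-/

open MeasureTheory Matrix Finset

set_option linter.unusedSectionVars false
set_option linter.unusedVariables false

namespace Pool.Agent.Lib.MP_562b47_mp.LH.FX

open Pool.Agent.Lib.MP_562b47_mp.AL Pool.Agent.Lib.MP_562b47_mp.WO Pool.Agent.Lib.MP_562b47_mp.LW
  Pool.Agent.Lib.MP_562b47_mp.LH Pool.Agent.Lib.MP_562b47_mp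

variable {ι 𝔅 κ' : Type*} [Fintype ι] [DecidableEq ι] [Fintype 𝔅] [DecidableEq 𝔅] [Fintype κ']
  {S : Sys ι 𝔅} {A : Matrix ι ι ℝ} {m : ℕ} {a : ℝ} {B T : Finset ι} {U V : ι → ℝ}
  {Ac C : Finset 𝔅} {b : 𝔅}

/-! ### congruences -/

theorem mem_CX : b ∈ CX S m B V ↔ (S.comp b V ∧ m < S.cls b) ∧ Disjoint (S.Q b) B := by
  unfold CX CC
  rw [mem_filter, mem_filter, S.mem_Comp]

theorem CX_sub : CX S m B V ⊆ S.Comp V := fun _ hb => (S.mem_Comp).mpr (mem_CX.mp hb).1.1

theorem CX_disj (hb : b ∈ CX S m B V) : Disjoint (S.Q b) B := (mem_CX.mp hb).2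

theorem CX_congr (h : ∀ x, x ∉ B → U x = V x) : CX S m B U = CX S m B V := by
  ext b
  rw [mem_CX, mem_CX]
  by_cases hd : Disjoint (S.Q b) B
  · have : S.comp b U ↔ S.comp b V := S.comp_congr fun x hx _ =>
      h x (Finset.disjoint_left.mp hd hx)
    rw [this]
  · simp [hd]

theorem mix_off (hT : T ⊆ B) : ∀ x, x ∉ B → mix T U V x = V x := fun x hx =>
  mix_not (fun h => hx (hT h)) U V

theorem CX_mix (hT : T ⊆ B) : CX S m B (mix T U V) = CX S m B V := CX_congr (mix_off hT)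

theorem hh_congrX (hd : Disjoint (S.Q b) B) (h : ∀ x, x ∉ B → U x = V x) :
    S.hh A b U = S.hh A b V :=
  S.hh_congr A (fun x hx => h x (Finset.disjoint_left.mp hd (S.inn_sub hx)))
    (h _ (Finset.disjoint_left.mp hd (S.w_mem b)))

theorem ze_congrX (hd : Disjoint (S.Q b) B) (h : ∀ x, x ∉ B → U x = V x) :
    S.ze A b U = S.ze A b V :=
  S.ze_congr A (fun x hx => h x (Finset.disjoint_left.mp hd (S.inn_sub hx)))

theorem gg_congrX (hd : Disjoint (S.Q b) B) (h : ∀ x, x ∉ B → U x = V x) :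
    S.gg A b U = S.gg A b V :=
  S.gg_congr A (fun x hx => h x (Finset.disjoint_left.mp hd (S.inn_sub hx)))

theorem wC_congr (hC : ∀ b ∈ C, Disjoint (S.Q b) B) (hA : Ac ⊆ C)
    (h : ∀ x, x ∉ B → U x = V x) : wC S A C Ac U = wC S A C Ac V := by
  unfold wC
  refine congrArg₂ (· * ·) ?_ ?_
  · exact Finset.prod_congr rfl fun b hb => hh_congrX (hC b (hA hb)) h
  · exact Finset.prod_congr rfl fun b hb => by
      rw [hh_congrX (A := A) (hC b (Finset.mem_sdiff.mp hb).1) h]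

theorem uC_off (hC : ∀ b ∈ C, Disjoint (S.Q b) B) (hA : ∀ b ∈ Ac, Disjoint (S.Q b) B)
    (h : ∀ x, x ∉ B → U x = V x) {y : ι} (hy : y ∉ B) :
    uC S A a C Ac U y = uC S A a C Ac V y := by
  unfold uC
  rw [h y hy, add_right_inj]
  refine Finset.sum_congr rfl fun b hb => ?_
  rw [ze_congrX (A := A) (hA b hb) h, gg_congrX (A := A) (hA b hb) h]

theorem uC_on (hC : ∀ b ∈ C, Disjoint (S.Q b) B) (hA : ∀ b ∈ Ac, Disjoint (S.Q b) B)
    {y : ι} (hy : y ∈ B) : uC S A a C Ac V y = (V y : ℂ) - (a : ℂ) * Complex.I := by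
  unfold uC
  have h1 : ∑ b ∈ C, (if y ∈ S.inn b then S.et (S.cls b) - a else 0) = 0 :=
    Finset.sum_eq_zero fun b hb => if_neg fun h =>
      Finset.disjoint_left.mp (hC b hb) (S.inn_sub h) hy
  have h2 : ∑ b ∈ Ac, (if y = S.w b then ((S.ze A b V - V y : ℝ) : ℂ) -
      ((S.gg A b V + (S.et (S.cls b) - a) : ℝ) : ℂ) * Complex.I else 0) = 0 :=
    Finset.sum_eq_zero fun b hb => if_neg fun h : y = S.w b =>
      Finset.disjoint_left.mp (hA b hb) (S.w_mem b) (h ▸ hy)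
  rw [h1, h2, add_zero, add_zero]

theorem uC_mix (hT : T ⊆ B) (hC : ∀ b ∈ C, Disjoint (S.Q b) B)
    (hA : ∀ b ∈ Ac, Disjoint (S.Q b) B) :
    uC S A a C Ac (mix T U V) = pot T (fun _ => a) (uC S A a C Ac V) U := by
  funext y
  unfold pot
  by_cases hy : y ∈ T
  · rw [if_pos hy, uC_on hC hA (hT hy), mix_mem hy]
  · rw [if_neg hy]
    by_cases hyB : y ∈ B
    · rw [uC_on hC hA hyB, uC_on hC hA hyB, mix_not hy]
    · exact uC_off hC hA (mix_off hT) hyB

/-! ### weights -/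

theorem wC_nonneg (hS : WO.Good S A) (hC : C ⊆ S.Comp V) (hA : Ac ⊆ C) : 0 ≤ wC S A C Ac V := by
  unfold wC
  apply mul_nonneg
  · exact Finset.prod_nonneg fun b hb => S.hh_nonneg hS (hC (hA hb))
  · refine Finset.prod_nonneg fun b hb => ?_
    have h2 := S.hh_le hS (hC (Finset.mem_sdiff.mp hb).1)
    linarith

theorem wC_sum : ∑ Ac ∈ C.powerset, wC S A C Ac V = 1 := by
  unfold wC
  rw [← Finset.prod_add]
  exact Finset.prod_eq_one fun b _ => by ring

theorem uC_meas (C Ac : Finset 𝔅) (x : ι) : Measurable fun V : ι → ℝ => uC S A a C Ac V x := by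
  unfold uC
  apply Measurable.add
  · exact (Complex.measurable_ofReal.comp (measurable_pi_apply x)).sub measurable_const
  · refine Finset.measurable_fun_sum _ fun b _ => ?_
    by_cases h : x = S.w b
    · simp only [if_pos h]
      exact (Complex.measurable_ofReal.comp
        ((S.measurable_ze A b).sub (measurable_pi_apply x))).sub
        ((Complex.measurable_ofReal.comp ((S.measurable_gg A b).add_const _)).mul_const _)
    · simp only [if_neg h]; exact measurable_const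

theorem wC_meas (C Ac : Finset 𝔅) : Measurable fun V : ι → ℝ => wC S A C Ac V := by
  unfold wC
  apply Measurable.mul
  · exact Finset.measurable_prod _ fun b _ => S.measurable_hh A b
  · exact Finset.measurable_prod _ fun b _ => measurable_const.sub (S.measurable_hh A b)

/-- functions of `V` and of `CX` -/
theorem meas_of_CX {β : Type*} [MeasurableSpace β] {F : Finset 𝔅 → (ι → ℝ) → β}
    (hF : ∀ C, Measurable (F C)) : Measurable fun V : ι → ℝ => F (CX S m B V) V := by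
  classical
  intro s hs
  have : (fun V : ι → ℝ => F (CX S m B V) V) ⁻¹' s =
      ⋃ C : Finset 𝔅, ({V : ι → ℝ | S.Comp V = C} ∩ (F ((C.filter fun b => m < S.cls b).filter
        fun b => Disjoint (S.Q b) B)) ⁻¹' s) := by
    ext V
    simp only [Set.mem_preimage, Set.mem_iUnion, Set.mem_inter_iff, Set.mem_ofPred_eq]
    have e : ((S.Comp V).filter fun b => m < S.cls b).filter
        (fun b => Disjoint (S.Q b) B) = CX S m B V := by
      ext b
      rw [mem_CX, mem_filter, mem_filter, S.mem_Comp]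
    constructor
    · intro h
      refine ⟨S.Comp V, rfl, ?_⟩
      rw [e]; exact h
    · rintro ⟨C, rfl, h⟩
      rw [e] at h; exact h
  rw [this]
  exact MeasurableSet.iUnion fun C => (S.measurableSet_Comp C).inter ((hF _) hs)

/-! ### expectations -/

/-- expectation in the world of the blocks outside `B` -/
noncomputable def EX (S : Sys ι 𝔅) (A : Matrix ι ι ℝ) (m : ℕ) (B : Finset ι)
    (F : Finset 𝔅 → (ι → ℝ) → ℝ) : ℝ :=
  ∫ V, ∑ Ac ∈ (CX S m B V).powerset, wC S A (CX S m B V) Ac V * F Ac V ∂(S.mu)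

/-- the integrand -/
noncomputable def EI (S : Sys ι 𝔅) (A : Matrix ι ι ℝ) (m : ℕ) (B : Finset ι)
    (F : Finset 𝔅 → (ι → ℝ) → ℝ) (V : ι → ℝ) : ℝ :=
  ∑ Ac ∈ (CX S m B V).powerset, wC S A (CX S m B V) Ac V * F Ac V

theorem EX_eq (F : Finset 𝔅 → (ι → ℝ) → ℝ) : EX S A m B F = ∫ V, EI S A m B F V ∂(S.mu) := rfl

/-- bounded measurable functionals -/
structure BX (S : Sys ι 𝔅) (m : ℕ) (B : Finset ι) (F : Finset 𝔅 → (ι → ℝ) → ℝ) : Prop where
  meas : ∀ Ac, Measurable (F Ac)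
  bdd : ∃ C, ∀ V, ∀ Ac ⊆ CX S m B V, |F Ac V| ≤ C

theorem meas_EI {F : Finset 𝔅 → (ι → ℝ) → ℝ} (hF : ∀ Ac, Measurable (F Ac)) :
    Measurable (EI S A m B F) := by
  unfold EI
  exact meas_of_CX (F := fun C V => ∑ Ac ∈ C.powerset, wC S A C Ac V * F Ac V)
    fun C => Finset.measurable_fun_sum _ fun Ac _ => (wC_meas C Ac).mul (hF Ac)

theorem EI_mono (hS : WO.Good S A) {F F' : Finset 𝔅 → (ι → ℝ) → ℝ}
    (h : ∀ Ac ⊆ CX S m B V, F Ac V ≤ F' Ac V) : EI S A m B F V ≤ EI S A m B F' V :=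
  Finset.sum_le_sum fun Ac hA => mul_le_mul_of_nonneg_left (h Ac (Finset.mem_powerset.mp hA))
    (wC_nonneg hS CX_sub (Finset.mem_powerset.mp hA))

theorem EI_const (c : ℝ) : EI S A m B (fun _ _ => c) V = c := by
  unfold EI
  rw [← Finset.sum_mul, wC_sum, one_mul]

theorem abs_EI_le (hS : WO.Good S A) {F : Finset 𝔅 → (ι → ℝ) → ℝ} {c : ℝ}
    (h : ∀ Ac ⊆ CX S m B V, |F Ac V| ≤ c) : |EI S A m B F V| ≤ c := by
  rw [abs_le]
  constructor
  · rw [← EI_const (S := S) (A := A) (m := m) (B := B) (V := V) (-c)]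
    exact EI_mono hS fun Ac hA => (abs_le.mp (h Ac hA)).1
  · rw [← EI_const (S := S) (A := A) (m := m) (B := B) (V := V) c]
    exact EI_mono hS fun Ac hA => (abs_le.mp (h Ac hA)).2

theorem int_EI (hS : WO.Good S A) {F : Finset 𝔅 → (ι → ℝ) → ℝ} (hF : BX S m B F) :
    Integrable (EI S A m B F) S.mu := by
  obtain ⟨c, hc⟩ := hF.bdd
  exact Integrable.of_bound (meas_EI hF.meas).aestronglyMeasurable c
    (Filter.Eventually.of_forall fun V => by
      rw [Real.norm_eq_abs]; exact abs_EI_le hS (hc V))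

theorem EX_mono (hS : WO.Good S A) {F F' : Finset 𝔅 → (ι → ℝ) → ℝ} (hF : BX S m B F)
    (hF' : BX S m B F') (h : ∀ V, ∀ Ac ⊆ CX S m B V, F Ac V ≤ F' Ac V) :
    EX S A m B F ≤ EX S A m B F' := by
  rw [EX_eq, EX_eq]
  exact integral_mono (int_EI hS hF) (int_EI hS hF') fun V => EI_mono hS (h V)

theorem EX_nonneg (hS : WO.Good S A) {F : Finset 𝔅 → (ι → ℝ) → ℝ}
    (h : ∀ V, ∀ Ac ⊆ CX S m B V, 0 ≤ F Ac V) : 0 ≤ EX S A m B F := by
  rw [EX_eq]
  refine integral_nonneg fun V => ?_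
  exact Finset.sum_nonneg fun Ac hA => mul_nonneg
    (wC_nonneg hS CX_sub (Finset.mem_powerset.mp hA)) (h V Ac (Finset.mem_powerset.mp hA))

theorem EX_congr {F F' : Finset 𝔅 → (ι → ℝ) → ℝ}
    (h : ∀ V, ∀ Ac ⊆ CX S m B V, F Ac V = F' Ac V) : EX S A m B F = EX S A m B F' := by
  rw [EX_eq, EX_eq]
  congr 1
  funext V
  exact Finset.sum_congr rfl fun Ac hA => by rw [h V Ac (Finset.mem_powerset.mp hA)]

theorem EX_mul (c : ℝ) (F : Finset 𝔅 → (ι → ℝ) → ℝ) :
    EX S A m B (fun Ac V => c * F Ac V) = c * EX S A m B F := by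
  rw [EX_eq, EX_eq, ← integral_const_mul]
  congr 1
  funext V
  unfold EI
  rw [Finset.mul_sum]
  exact Finset.sum_congr rfl fun Ac _ => by ring

theorem EX_add (hS : WO.Good S A) {F F' : Finset 𝔅 → (ι → ℝ) → ℝ} (hF : BX S m B F)
    (hF' : BX S m B F') :
    EX S A m B (fun Ac V => F Ac V + F' Ac V) = EX S A m B F + EX S A m B F' := by
  rw [EX_eq, EX_eq, EX_eq, ← integral_add (int_EI hS hF) (int_EI hS hF')]
  congr 1
  funext V
  simp only [EI, mul_add, Finset.sum_add_distrib]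

theorem BX.add {F F' : Finset 𝔅 → (ι → ℝ) → ℝ} (hF : BX S m B F) (hF' : BX S m B F') :
    BX S m B fun Ac V => F Ac V + F' Ac V := by
  obtain ⟨C, hC⟩ := hF.bdd
  obtain ⟨C', hC'⟩ := hF'.bdd
  exact ⟨fun Ac => (hF.meas Ac).add (hF'.meas Ac), C + C', fun V Ac hA =>
    (abs_add_le _ _).trans (add_le_add (hC V Ac hA) (hC' V Ac hA))⟩

theorem BX.const_mul {F : Finset 𝔅 → (ι → ℝ) → ℝ} (hF : BX S m B F) (c : ℝ) :
    BX S m B fun Ac V => c * F Ac V := by
  obtain ⟨C, hC⟩ := hF.bdd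
  refine ⟨fun Ac => (hF.meas Ac).const_mul c, |c| * C, fun V Ac hA => ?_⟩
  rw [abs_mul]
  exact mul_le_mul_of_nonneg_left (hC V Ac hA) (abs_nonneg _)

theorem BX.sum {α : Type*} (s : Finset α) {F : α → Finset 𝔅 → (ι → ℝ) → ℝ}
    (hF : ∀ i ∈ s, BX S m B (F i)) : BX S m B fun Ac V => ∑ i ∈ s, F i Ac V := by
  refine ⟨fun Ac => Finset.measurable_fun_sum _ fun i hi => (hF i hi).meas Ac, ?_⟩
  choose! C hC using fun i (hi : i ∈ s) => (hF i hi).bdd
  refine ⟨∑ i ∈ s, C i, fun V Ac hA => ?_⟩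
  exact (Finset.abs_sum_le_sum_abs _ _).trans (Finset.sum_le_sum fun i hi => hC i hi V Ac hA)

/-- multiplication by a measurable function with values in `[0, 1]` -/
theorem BX.ind {F : Finset 𝔅 → (ι → ℝ) → ℝ} (hF : BX S m B F) {w : (ι → ℝ) → ℝ}
    (hw : Measurable w) (h0 : ∀ V, 0 ≤ w V) (h1 : ∀ V, w V ≤ 1) :
    BX S m B fun Ac V => w V * F Ac V := by
  obtain ⟨C, hC⟩ := hF.bdd
  refine ⟨fun Ac => hw.mul (hF.meas Ac), C, fun V Ac hA => ?_⟩
  rw [abs_mul, abs_of_nonneg (h0 V)]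
  exact (mul_le_of_le_one_left (abs_nonneg _) (h1 V)).trans (hC V Ac hA)

/-- one inner average of the integrand -/
theorem int_EI_mix (hS : WO.Good S A) (hT : T ⊆ B) {F : Finset 𝔅 → (ι → ℝ) → ℝ}
    (hF : BX S m B F) (V : ι → ℝ) :
    ∫ U, EI S A m B F (mix T U V) ∂(muc ι S.c) =
      ∑ Ac ∈ (CX S m B V).powerset, wC S A (CX S m B V) Ac V *
        ∫ U, F Ac (mix T U V) ∂(muc ι S.c) := by
  have hp := muc_prob (ι := ι) S.c_pos
  obtain ⟨c, hc⟩ := hF.bdd
  have h1 : ∀ U, EI S A m B F (mix T U V) = ∑ Ac ∈ (CX S m B V).powerset,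
      wC S A (CX S m B V) Ac V * F Ac (mix T U V) := by
    intro U
    unfold EI
    rw [CX_mix hT]
    refine Finset.sum_congr rfl fun Ac hA => ?_
    rw [wC_congr (fun b hb => CX_disj hb) (Finset.mem_powerset.mp hA) (mix_off hT)]
  simp_rw [h1]
  rw [integral_finsetSum]
  · refine Finset.sum_congr rfl fun Ac _ => ?_
    rw [integral_const_mul]
  · intro Ac hA
    refine Integrable.const_mul ?_ _
    refine Integrable.of_bound ((hF.meas Ac).comp
      ((measurable_mix T).comp (measurable_const.prodMk measurable_id))).aestronglyMeasurable c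
      (Filter.Eventually.of_forall fun U => ?_)
    rw [Real.norm_eq_abs]
    refine hc _ Ac ?_
    rw [CX_mix hT]
    exact Finset.mem_powerset.mp hA

/-- comparison after resampling a part of the region -/
theorem EX_le_of_mix (hS : WO.Good S A) (hT : T ⊆ B) {F F' : Finset 𝔅 → (ι → ℝ) → ℝ}
    (hF : BX S m B F) (hF' : BX S m B F')
    (h : ∀ V, ∀ Ac ⊆ CX S m B V, ∫ U, F Ac (mix T U V) ∂(muc ι S.c) ≤
      ∫ U, F' Ac (mix T U V) ∂(muc ι S.c)) :
    EX S A m B F ≤ EX S A m B F' := by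
  rw [EX_eq, EX_eq]
  refine integral_le_of_mix S.c_pos T (int_EI hS hF) (int_EI hS hF') fun V => ?_
  rw [int_EI_mix hS hT hF, int_EI_mix hS hT hF']
  exact Finset.sum_le_sum fun Ac hA => mul_le_mul_of_nonneg_left
    (h V Ac (Finset.mem_powerset.mp hA)) (wC_nonneg hS CX_sub (Finset.mem_powerset.mp hA))

end Pool.Agent.Lib.MP_562b47_mp.LH.FX
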