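import Pool.Agent.Lib.MP_562b47_mp.LH.FarT
import Pool.Agent.Lib.MP_562b47_mp.LW.Main

/-!
MP_562b47, Lemma H', global part: the refined bound for the far sources, abstract form (the gadget
term `A2` is still a hypothesis).
-/

open MeasureTheory Matrix Finset

set_option linter.unusedSectionVars false
set_option linter.unusedVariables false

namespace Pool.Agent.Lib.MP_562b47_mp.LH.FX

open Pool.Agent.Lib.MP_562b47_mp.AL Pool.Agent.Lib.MP_562b47_mp.WO Pool.Agent.Lib.MP_562b47_mp.LW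
  Pool.Agent.Lib.MP_562b47_mp.LH Pool.Agent.Lib.MP_562b47_mp

section

variable {ι 𝔅 κ' : Type*} [Fintype ι] [DecidableEq ι] [Fintype 𝔅] [DecidableEq 𝔅] [Fintype κ']
  {S : Sys ι 𝔅} {A : Matrix ι ι ℝ} {m : ℕ} {a : ℝ} {B T D : Finset ι} {U V : ι → ℝ}
  {Ac C : Finset 𝔅} {b : 𝔅}

/-- the functional with `A2` -/
noncomputable def F2 (S : Sys ι 𝔅) (A : Matrix ι ι ℝ) (m : ℕ) (a : ℝ) (ξ : κ' → ι → ℝ)
    (B Lam Fz : Finset ι) (s : ι) (lo hi γ : ι → ℝ) (us : (ι → ℝ) → ℂ)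
    (Ac : Finset 𝔅) (V : ι → ℝ) : ℝ :=
  ∑ x ∈ univ \ B, gam (uC S A a (CX S m B V) Ac V) x * ff ξ x s *
      A2 S.c A (uC S A a (CX S m B V) Ac V) Lam Fz s x lo hi γ us

theorem A2_nonneg (c : ℝ) (v : ι → ℂ) (Lam Fz : Finset ι) (s x : ι) (lo hi γ : ι → ℝ)
    (us : (ι → ℝ) → ℂ) : 0 ≤ A2 c A v Lam Fz s x lo hi γ us := by
  unfold A2
  exact integral_nonneg fun U => mul_nonneg (win_nonneg _ _ _ _) (sq_nonneg _)

theorem A2_le (hA : A.IsSymm) {c : ℝ} (hc : 0 < c) {v : ι → ℂ} (hv : Loss v)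
    {Lam Fz : Finset ι} {s x : ι} (hx : x ∉ BB Lam Fz s) (lo hi : ι → ℝ) {γ : ι → ℝ}
    (hγ : ∀ y, 0 < γ y) {us : (ι → ℝ) → ℂ} {g0 : ℝ} (hg0 : 0 < g0) (hus : ∀ V, (us V).im ≤ -g0) :
    gam v x * A2 c A v Lam Fz s x lo hi γ us ≤ g0⁻¹ := by
  have hp := muc_prob (ι := ι) hc
  unfold A2
  rw [← integral_const_mul]
  have hxs : x ≠ s := by
    rintro rfl
    exact hx (by unfold BB; exact mem_insert_self _ _)
  have hb : ∀ U : ι → ℝ, ‖gam v x * (win ((BB Lam Fz s).erase s) lo hi U *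
      ‖GM A (Function.update (pot ((BB Lam Fz s).erase s) γ v U) s (us U)) s x‖ ^ 2)‖ ≤ g0⁻¹ := by
    intro U
    have hL : Loss (Function.update (pot ((BB Lam Fz s).erase s) γ v U) s (us U)) := by
      apply loss_upd _ s (by linarith [hus U])
      intro y
      unfold pot
      split_ifs
      · simp only [Complex.sub_im, Complex.ofReal_im, Complex.mul_im, Complex.ofReal_re,
          Complex.I_im, Complex.I_re, mul_one, mul_zero, add_zero, zero_sub]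
        linarith [hγ y]
      · exact hv y
    have h := entry_le hA hL s x
    have h1 : g0 ≤ gam (Function.update (pot ((BB Lam Fz s).erase s) γ v U) s (us U)) s := by
      unfold gam
      rw [Function.update_self]
      linarith [hus U]
    have h2 : gam (Function.update (pot ((BB Lam Fz s).erase s) γ v U) s (us U)) x = gam v x := by
      unfold gam pot
      rw [Function.update_of_ne hxs, if_neg (fun h => hx (mem_of_mem_erase h))]
    rw [h2] at h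
    have hg := (gam_pos hv x).le
    have hw0 := win_nonneg ((BB Lam Fz s).erase s) lo hi U
    have hw1 := win_le_one ((BB Lam Fz s).erase s) lo hi U
    have h4 : 0 ≤ gam v x * ‖GM A (Function.update (pot ((BB Lam Fz s).erase s) γ v U) s (us U)) s x‖ ^ 2 := by
      positivity
    have h3 : g0 * (gam v x * ‖GM A (Function.update (pot ((BB Lam Fz s).erase s) γ v U) s (us U)) s x‖ ^ 2) ≤ 1 := by
      refine (mul_le_mul_of_nonneg_right h1 h4).trans ?_
      rw [← mul_assoc]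
      exact h
    rw [Real.norm_eq_abs, abs_of_nonneg (by positivity)]
    calc gam v x * (win ((BB Lam Fz s).erase s) lo hi U *
          ‖GM A (Function.update (pot ((BB Lam Fz s).erase s) γ v U) s (us U)) s x‖ ^ 2)
        = win ((BB Lam Fz s).erase s) lo hi U * (gam v x *
          ‖GM A (Function.update (pot ((BB Lam Fz s).erase s) γ v U) s (us U)) s x‖ ^ 2) := by ring
      _ ≤ gam v x *
          ‖GM A (Function.update (pot ((BB Lam Fz s).erase s) γ v U) s (us U)) s x‖ ^ 2 :=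
          mul_le_of_le_one_left h4 hw1
      _ = g0⁻¹ * (g0 * (gam v x *
          ‖GM A (Function.update (pot ((BB Lam Fz s).erase s) γ v U) s (us U)) s x‖ ^ 2)) := by
          rw [← mul_assoc, inv_mul_cancel₀ hg0.ne', one_mul]
      _ ≤ g0⁻¹ * 1 := mul_le_mul_of_nonneg_left h3 (inv_pos.mpr hg0).le
      _ = g0⁻¹ := mul_one _
  have := norm_integral_le_of_norm_le_const (μ := muc ι c) (Filter.Eventually.of_forall hb)
  rw [probReal_univ, mul_one] at this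
  exact (le_abs_self _).trans this

theorem A2_meas {vv : (ι → ℝ) → ι → ℂ} (hvm : ∀ y, Measurable fun V => vv V y)
    (Lam Fz : Finset ι) (s x : ι) {c : ℝ} (hc : 0 < c) (lo hi γ : ι → ℝ) {us : (ι → ℝ) → ℂ}
    (hus : Measurable us) : Measurable fun V => A2 c A (vv V) Lam Fz s x lo hi γ us := by
  have hp := muc_prob (ι := ι) hc
  have hu : ∀ z, Measurable fun q : (ι → ℝ) × (ι → ℝ) =>
      Function.update (pot ((BB Lam Fz s).erase s) γ (vv q.1) q.2) s (us q.2) z := by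
    intro z
    by_cases hz : z = s
    · subst hz
      simp only [Function.update_self]
      exact hus.comp measurable_snd
    · simp only [Function.update_of_ne hz]
      exact meas_pot _ γ (v := fun q : (ι → ℝ) × (ι → ℝ) => vv q.1)
        (fun y => (hvm y).comp measurable_fst) measurable_snd z
  have h1 : Measurable fun q : (ι → ℝ) × (ι → ℝ) => win ((BB Lam Fz s).erase s) lo hi q.2 *
      ‖GM A (Function.update (pot ((BB Lam Fz s).erase s) γ (vv q.1) q.2) s (us q.2)) s x‖ ^ 2 :=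
    ((win_meas _ _ _).comp measurable_snd).mul ((measurable_GM' A hu s x).norm.pow_const 2)
  unfold A2
  exact (h1.stronglyMeasurable.integral_prod_right' (ν := muc ι c)).measurable

theorem F2_BX (hS : WO.Good S A) (ha : 0 < a) (ξ : κ' → ι → ℝ) {Lam Fz : Finset ι} {s : ι}
    (hB : BB Lam Fz s = B) (lo hi : ι → ℝ) {γ : ι → ℝ}
    (hγ : ∀ y, 0 < γ y) {us : (ι → ℝ) → ℂ} {g0 : ℝ} (hg0 : 0 < g0) (husm : Measurable us)
    (hus : ∀ V, (us V).im ≤ -g0) : BX S m B (F2 S A m a ξ B Lam Fz s lo hi γ us) := by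
  refine ⟨fun Ac => ?_, ∑ x, g0⁻¹ * ff ξ x s, fun V Ac hA => ?_⟩
  · unfold F2
    refine Finset.measurable_fun_sum _ fun x _ => ?_
    exact ((measurable_gam (fun x => uCX_meas Ac x) x).mul measurable_const).mul
      (A2_meas (vv := fun V => uC S A a (CX S m B V) Ac V) (fun y => uCX_meas Ac y)
        Lam Fz s x S.c_pos lo hi γ husm)
  · have hL := uC_loss hS ha FX.CX_sub hA
    have h0 : 0 ≤ F2 S A m a ξ B Lam Fz s lo hi γ us Ac V := by
      unfold F2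
      exact Finset.sum_nonneg fun x _ => mul_nonneg (mul_nonneg (gam_pos hL x).le
        (ff_nonneg ξ x s)) (A2_nonneg _ _ _ _ _ _ _ _ _ _)
    rw [abs_of_nonneg h0]
    unfold F2
    refine (Finset.sum_le_sum (g := fun x => g0⁻¹ * ff ξ x s) fun x hx => ?_).trans ?_
    · have hxB := (Finset.mem_sdiff.mp hx).2
      have h := A2_le hS.symm S.c_pos hL (Lam := Lam) (Fz := Fz) (s := s) (x := x)
        (by rw [hB]; exact hxB) lo hi hγ hg0 hus
      calc gam (uC S A a (CX S m B V) Ac V) x * ff ξ x s *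
            A2 S.c A (uC S A a (CX S m B V) Ac V) Lam Fz s x lo hi γ us
          = (gam (uC S A a (CX S m B V) Ac V) x *
            A2 S.c A (uC S A a (CX S m B V) Ac V) Lam Fz s x lo hi γ us) * ff ξ x s := by ring
        _ ≤ g0⁻¹ * ff ξ x s := mul_le_mul_of_nonneg_right h (ff_nonneg ξ x s)
    · refine Finset.sum_le_sum_of_subset_of_nonneg (Finset.subset_univ _) fun x _ _ =>
        mul_nonneg (inv_pos.mpr hg0).le (ff_nonneg ξ x s)

/-! ### the region of a site without complete blocks -/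

theorem Reg_empty (b0 : 𝔅) : Reg S b0 ∅ = S.Q b0 := by
  unfold Reg
  simp

theorem Fz_empty (s : ι) : Fz S ∅ ∅ s = ∅ := by
  unfold Fz
  simp

theorem Lm_empty (b0 : 𝔅) (s : ι) : Lm S b0 ∅ ∅ s = (S.Q b0).erase s := by
  unfold Lm
  rw [Reg_empty, Fz_empty, Finset.sdiff_empty]

theorem Lm_insert {b0 : 𝔅} {s : ι} (hs : s ∈ S.Q b0) : insert s (Lm S b0 ∅ ∅ s) = S.Q b0 := by
  rw [Lm_empty, Finset.insert_erase hs]

theorem Lm_BB {b0 : 𝔅} {s : ι} (hs : s ∈ S.Q b0) : BB (Lm S b0 ∅ ∅ s) ∅ s = S.Q b0 := by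
  unfold BB
  rw [Finset.union_empty, Lm_insert hs]

theorem ZZ_mono {a : ℝ} (ha : 0 < a) (ha1 : a ≤ 1 / 2) (Lam Fz : Finset ι) (s : ι) {C C' Γ : ℝ}
    (hC : 0 ≤ C) (hCC : C ≤ C') (hΓ : 0 ≤ Γ) : ZZ a Lam Fz s C Γ ≤ ZZ a Lam Fz s C' Γ := by
  unfold ZZ
  have hlog : 0 ≤ Real.log (2 / a) := by
    apply Real.log_nonneg
    rw [le_div_iff₀ ha]; linarith
  gcongr

theorem ZZ_nonneg {a : ℝ} (ha : 0 < a) (ha1 : a ≤ 1 / 2) (Lam Fz : Finset ι) (s : ι) {C Γ : ℝ}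
    (hC : 0 ≤ C) (hΓ : 0 ≤ Γ) : 0 ≤ ZZ a Lam Fz s C Γ := by
  unfold ZZ
  have hlog : 0 ≤ Real.log (2 / a) := by
    apply Real.log_nonneg
    rw [le_div_iff₀ ha]; linarith
  positivity

end

/-- the refined bound, abstract form -/
theorem fine_abs (c l1 : ℝ) (hc : 0 < c) (hl1 : 0 < l1) : ∃ C : ℝ, 1 ≤ C ∧
    ∀ (ι 𝔅 κ' : Type) [Fintype ι] [DecidableEq ι] [Fintype 𝔅] [DecidableEq 𝔅] [Fintype κ']
      (S : Sys ι 𝔅) (A : Matrix ι ι ℝ) (m : ℕ) (a : ℝ) (ξ : κ' → ι → ℝ) (good : Finset ι)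
      (bs : ι → 𝔅) (j0 j1 l0 : ℝ), S.c = c → WO.Good S A → Geo S m ξ good bs j0 j1 l0 →
      l1 ≤ j1 - j0 → 0 < a → a ≤ 1 / 2 →
    ∀ (s : ι) (e Γ Df : ℝ), s ∈ good → (e = c ∨ e = -c) → 1 ≤ Γ →
      (∀ y ∈ S.Q (bs s), ff ξ s y ≤ Df) →
      HypGF S A m a ξ (bs s) ∅ ∅ ∅ s e l0 Γ →
    ∀ (γ : ι → ℝ) (us : (ι → ℝ) → ℂ) (g0 E2 : ℝ), (∀ y, 0 < γ y) → (∀ y, γ y ≤ 1) →
      Measurable us → 0 < g0 → (∀ V, (us V).im ≤ -g0) → (∀ V, ‖us V‖ ≤ 3 * c + 3) →
      EX S A m (S.Q (bs s)) (F2 S A m a ξ (S.Q (bs s)) (Lm S (bs s) ∅ ∅ s) ∅ s (S.lo (bs s))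
        (S.hi (bs s)) γ us) ≤ E2 →
      F0 S A m a ξ (bs s) s e l0 ≤
        ZZ a (Lm S (bs s) ∅ ∅ s) ∅ s C Γ *
          (a ^ (-(1 / 2) : ℝ) * (WG S (bs s) * E2) +
            a ^ (-(7 / 8) : ℝ) * (2 + 2 * Df) * EA S A m a ξ (S.Q (bs s)) j0 j1) +
          C * a ^ (-(3 / 4) : ℝ) * (2 + 2 * Df) * ∑ y ∈ S.Q (bs s), EY S A m a ξ y := by
  obtain ⟨C0, hC0, hloc⟩ := LW.local_bound c (3 * c + 3) l1 hc hl1
  refine ⟨C0 * (1 + 2 * c), by nlinarith, ?_⟩
  intro ι 𝔅 κ' _ _ _ _ _ S A m a ξ good bs j0 j1 l0 hSc hS hgeo hj ha ha1 s e Γ Df hs he hΓ hDf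
    hGF γ us g0 E2 hγ hγ1 husm hg0 hus husR hE2
  set b0 := bs s with hb0
  have hw : S.w b0 = s := hgeo.bs_w s hs
  have hsQ : s ∈ S.Q b0 := by
    have := S.w_mem b0
    rwa [hw] at this
  set B := S.Q b0 with hBdef
  set Lam := Lm S b0 ∅ ∅ s with hLamdef
  have hins : insert s Lam = B := Lm_insert hsQ
  have hBB : BB Lam ∅ s = B := Lm_BB hsQ
  have hsL : s ∉ Lam := by rw [hLamdef, Lm_empty]; exact Finset.notMem_erase _ _
  have hLamB : Lam ⊆ B := by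
    rw [hLamdef, Lm_empty]; exact Finset.erase_subset _ _
  have hl0 := hgeo.l0_pos
  have hl0c := hgeo.l0_le
  have hcS : 0 < S.c := S.c_pos
  have hDf0 : 0 ≤ Df := (ff_nonneg ξ s s).trans (hDf s hsQ)
  obtain ⟨σ, hσ, heσ⟩ : ∃ σ : ℝ, (σ = 1 ∨ σ = -1) ∧ ((e = S.c ∧ σ = -1) ∨ (e = -S.c ∧ σ = 1)) := by
    rcases he with h | h
    · exact ⟨-1, Or.inr rfl, Or.inl ⟨by rw [h, hSc], rfl⟩⟩
    · exact ⟨1, Or.inl rfl, Or.inr ⟨by rw [h, hSc], rfl⟩⟩
  have hec : |e| ≤ c := by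
    rcases he with h | h
    · rw [h, abs_of_pos hc]
    · rw [h, abs_neg, abs_of_pos hc]
  -- the three functionals
  set G1 := F1 S A m a ξ B Lam ∅ s j0 j1 (fun Ac V => uC S A a (CX S m B V) Ac V) with hG1
  set G2 := F2 S A m a ξ B Lam ∅ s (S.lo b0) (S.hi b0) γ us with hG2
  set G3 := F3 S A m a ξ b0 Lam s e l0 σ with hG3
  set K1 := ZZ a Lam ∅ s C0 Γ * (a ^ (-(1 / 2) : ℝ) * WG S b0) with hK1
  set K2 := ZZ a Lam ∅ s C0 Γ * a ^ (-(7 / 8) : ℝ) with hK2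
  set K3 := C0 * a ^ (-(3 / 4) : ℝ) with hK3
  have hZ0 : 0 ≤ ZZ a Lam ∅ s C0 Γ := ZZ_nonneg ha ha1 Lam ∅ s (by linarith) (by linarith)
  have hWG0 : 0 ≤ WG S b0 := by
    unfold WG
    refine Finset.prod_nonneg fun x _ => inv_nonneg.mpr (pow_nonneg ?_ 3)
    linarith [S.lo_lt b0 x]
  have hr1 := Real.rpow_nonneg ha.le (-(1 / 2) : ℝ)
  have hr2 := Real.rpow_nonneg ha.le (-(7 / 8) : ℝ)
  have hr3 := Real.rpow_nonneg ha.le (-(3 / 4) : ℝ)
  have hBX1 : BX S m B G1 := F1_BX hS ha ξ hBB j0 j1 Df (by linarith [hgeo.j0_ge]) hgeo.ff_one hDf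
    (fun Ac y => uCX_meas Ac y) fun V Ac _ y _ => rfl
  have hBX2 : BX S m B G2 := F2_BX hS ha ξ hBB (S.lo b0) (S.hi b0) hγ hg0 husm hus
  obtain ⟨I, hI⟩ : ∃ I, EndI S.c l0 e σ I := by
    rcases heσ with ⟨h1, h2⟩ | ⟨h1, h2⟩
    · exact ⟨_, Or.inl ⟨h1, h2, rfl⟩⟩
    · exact ⟨_, Or.inr ⟨h1, h2, rfl⟩⟩
  have hBX3 : BX S m B G3 := F3_BX hS ha ξ hins hsL hl0 (by linarith) hI Df hgeo.ff_one hDf
  have hmain : EX S A m B (FT0 S A m a ξ b0 s e l0) ≤
      EX S A m B (fun Ac V => K1 * G2 Ac V + (K2 * G1 Ac V + K3 * G3 Ac V)) := by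
    refine EX_le_of_mix' hS hLamB (FT0_BX hS ha ξ hsQ e hl0)
      ((hBX2.const_mul K1).add ((hBX1.const_mul K2).add (hBX3.const_mul K3))) fun V Ac hA => ?_
    rw [FT0_mix hS ha ξ hsQ hLamB e hl0 hA]
    have hLv := uC_loss hS ha FX.CX_sub hA
    have hsum : K1 * G2 Ac V + (K2 * G1 Ac V + K3 * G3 Ac V) =
        ∑ x ∈ univ \ B, gam (uC S A a (CX S m B V) Ac V) x * ff ξ x s *
          (K1 * A2 S.c A (uC S A a (CX S m B V) Ac V) Lam ∅ s x (S.lo b0) (S.hi b0) γ us +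
            K2 * A1 S.c a A (uC S A a (CX S m B V) Ac V) Lam ∅ s x j0 j1 +
            K3 * A3 S.c a A (uC S A a (CX S m B V) Ac V) Lam s x e l0 σ
              (fun U => om0 S m b0 s (mix Lam U V))) := by
      rw [hG1, hG2, hG3]
      unfold F1 F2 F3
      rw [Finset.mul_sum, Finset.mul_sum, Finset.mul_sum, ← Finset.sum_add_distrib,
        ← Finset.sum_add_distrib]
      exact Finset.sum_congr rfl fun x _ => by ring
    rw [hsum]
    refine Finset.sum_le_sum fun x hx => ?_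
    have hxB := (Finset.mem_sdiff.mp hx).2
    refine mul_le_mul_of_nonneg_left ?_ (mul_nonneg (gam_pos hLv x).le (ff_nonneg ξ x s))
    -- the local theorem
    have hsetup : Setup c a A (uC S A a (CX S m B V) Ac V) Lam ∅ s (3 * c + 3) :=
      { symm := hS.symm
        c_pos := hc
        a_pos := ha
        a_le := ha1
        R_ge := le_refl _
        loss := hLv
        frz := fun y hy => absurd hy (Finset.notMem_empty y)
        s_lam := hsL
        s_frz := Finset.notMem_empty s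
        disj := Finset.disjoint_empty_right _ }
    have hcx : CX S m (Reg S b0 ∅) V = CX S m B V := by rw [Reg_empty]
    have hGF2 := hGF V (fun b hb => absurd hb (Finset.notMem_empty b)) Ac (by rw [hcx]; exact hA)
    have hom : Measurable fun U => om0 S m b0 s (mix Lam U V) := (om0_meas b0 s).comp (mixm Lam V)
    have h := (hloc ι a A (uC S A a (CX S m B V) Ac V) Lam ∅ s x hsetup j0 j1
      (by linarith [hgeo.j0_ge]) (by linarith [hgeo.j1_le]) hj (S.lo b0) (S.hi b0) γ us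
      (fun y => by linarith [S.lo_ge b0 y]) (fun y => by linarith [S.hi_le b0 y])
      (fun y => S.lo_lt b0 y) hγ hγ1 husm g0 hg0 hus husR e l0 σ Γ
      (fun U => om0 S m b0 s (mix Lam U V)) hec hl0 (by linarith) hσ hΓ hom
      (fun U => om0_nonneg b0 s _) (fun U => om0_le_one b0 s _) ?_ ?_).1
    · have hWW : WW Lam ∅ s (S.lo b0) (S.hi b0) = WG S b0 := by
        unfold WW WG
        rw [hBB, hw]
      rw [hWW] at h
      rw [hSc]
      refine h.trans (le_of_eq ?_)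
      rw [hK1, hK2, hK3]
      ring
    · intro t ht
      have h1 := (hGF2 t ht).1
      rw [Fz_empty, hcx, Finset.union_empty, Finset.union_empty] at h1
      exact h1
    · intro t ht
      have h1 := (hGF2 t ht).2 x (by rw [Reg_empty]; exact hxB)
      rw [Fz_empty, hcx, Finset.union_empty, Finset.union_empty, hSc] at h1
      exact h1
  rw [F0_eq]
  refine hmain.trans ?_
  rw [EX_add hS (hBX2.const_mul K1) ((hBX1.const_mul K2).add (hBX3.const_mul K3)),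
    EX_add hS (hBX1.const_mul K2) (hBX3.const_mul K3), EX_mul, EX_mul, EX_mul]
  have h1 := A1_int hS ha ξ hBB j0 j1 Df (by linarith [hgeo.j0_ge]) hgeo.ff_one hDf
    (vv := fun Ac V => uC S A a (CX S m B V) Ac V) (fun Ac y => uCX_meas Ac y)
    (fun V Ac _ y _ => rfl)
  have h3 := A3_int hS ha ξ hins hsL hl0 (by linarith) (le_refl l0) heσ Df hgeo.ff_one hDf
    hgeo.l_free
  have hEY : 0 ≤ ∑ y ∈ B, EY S A m a ξ y := by
    refine Finset.sum_nonneg fun y _ => ?_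
    rw [EY_eq]
    refine EX_nonneg hS fun V Ac hA => ?_
    rw [CX_empty] at hA
    exact FY_nonneg hS ha ξ y hA
  have hEA : 0 ≤ EA S A m a ξ B j0 j1 := by
    rw [EA_eq]
    exact EX_nonneg hS fun V Ac hA => FA_nonneg hS ha ξ j0 j1 hA
  have hE20 : 0 ≤ E2 := by
    refine le_trans (EX_nonneg hS fun V Ac hA => ?_) hE2
    have hL := uC_loss hS ha FX.CX_sub hA
    rw [hG2]
    unfold F2
    exact Finset.sum_nonneg fun x _ => mul_nonneg (mul_nonneg (gam_pos hL x).le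
        (ff_nonneg ξ x s)) (A2_nonneg _ _ _ _ _ _ _ _ _ _)
  have hZm : ZZ a Lam ∅ s C0 Γ ≤ ZZ a Lam ∅ s (C0 * (1 + 2 * c)) Γ :=
    ZZ_mono ha ha1 Lam ∅ s (by linarith) (by nlinarith) (by linarith)
  have hK1' : 0 ≤ K1 := by positivity
  have hK2' : 0 ≤ K2 := by positivity
  have hK3' : 0 ≤ K3 := by positivity
  have step : K1 * EX S A m B G2 + (K2 * EX S A m B G1 + K3 * EX S A m B G3) ≤
      K1 * E2 + (K2 * ((2 + 2 * Df) * EA S A m a ξ B j0 j1) +
        K3 * (2 * S.c * (2 + 2 * Df) * ∑ y ∈ B, EY S A m a ξ y)) :=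
    add_le_add (mul_le_mul_of_nonneg_left hE2 hK1')
      (add_le_add (mul_le_mul_of_nonneg_left h1 hK2') (mul_le_mul_of_nonneg_left h3 hK3'))
  refine step.trans ?_
  have e1 : K1 * E2 + K2 * ((2 + 2 * Df) * EA S A m a ξ B j0 j1) =
      ZZ a Lam ∅ s C0 Γ * (a ^ (-(1 / 2) : ℝ) * (WG S b0 * E2) +
            a ^ (-(7 / 8) : ℝ) * (2 + 2 * Df) * EA S A m a ξ B j0 j1) := by
    rw [hK1, hK2]; ring
  have h5 : 0 ≤ a ^ (-(1 / 2) : ℝ) * (WG S b0 * E2) +
            a ^ (-(7 / 8) : ℝ) * (2 + 2 * Df) * EA S A m a ξ B j0 j1 := by positivity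
  have h6 := mul_le_mul_of_nonneg_right hZm h5
  have h7 : K3 * (2 * S.c * (2 + 2 * Df) * ∑ y ∈ B, EY S A m a ξ y) ≤
      C0 * (1 + 2 * c) * a ^ (-(3 / 4) : ℝ) * (2 + 2 * Df) * ∑ y ∈ B, EY S A m a ξ y := by
    rw [hK3, hSc]
    have h8 : 0 ≤ C0 * a ^ (-(3 / 4) : ℝ) * (2 + 2 * Df) * ∑ y ∈ B, EY S A m a ξ y := by
      positivity
    nlinarith
  calc K1 * E2 + (K2 * ((2 + 2 * Df) * EA S A m a ξ B j0 j1) +
        K3 * (2 * S.c * (2 + 2 * Df) * ∑ y ∈ B, EY S A m a ξ y))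
      = (K1 * E2 + K2 * ((2 + 2 * Df) * EA S A m a ξ B j0 j1)) +
        K3 * (2 * S.c * (2 + 2 * Df) * ∑ y ∈ B, EY S A m a ξ y) := by ring
    _ ≤ _ := by
        rw [e1]
        exact add_le_add h6 h7

end Pool.Agent.Lib.MP_562b47_mp.LH.FX
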