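import Pool.Agent.Lib.MP_562b47_mp.LH.FineA
import Pool.Agent.Lib.MP_562b47_mp.LH.FarM
import Pool.Agent.Lib.MP_562b47_mp.LH.Near
import Pool.Agent.Lib.MP_562b47_mp.WO.Coord

/-!
MP_562b47, Lemma H', global part: the local quantity `A2` (comparison gadget) against the expected
share `EG` of the gadget.
-/

open MeasureTheory Matrix Finset

set_option linter.unusedSectionVars false
set_option linter.unusedVariables false

namespace Pool.Agent.Lib.MP_562b47_mp.LH.FX

open Pool.Agent.Lib.MP_562b47_mp.AL Pool.Agent.Lib.MP_562b47_mp.WO Pool.Agent.Lib.MP_562b47_mp.LW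
  Pool.Agent.Lib.MP_562b47_mp.LH Pool.Agent.Lib.MP_562b47_mp

variable {ι 𝔅 κ' : Type*} [Fintype ι] [DecidableEq ι] [Fintype 𝔅] [DecidableEq 𝔅] [Fintype κ']
  {S : Sys ι 𝔅} {A : Matrix ι ι ℝ} {m : ℕ} {a : ℝ} {B T D : Finset ι} {U V : ι → ℝ}
  {Ac C : Finset 𝔅} {b b0 : 𝔅}

/-- losses of the comparison gadget -/
noncomputable def gaG (S : Sys ι 𝔅) (a : ℝ) (b0 : 𝔅) (y : ι) : ℝ :=
  if y ∈ S.inn b0 then S.et (S.cls b0) else a

open Classical in
/-- potential at the centre of the comparison gadget -/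
noncomputable def usG (S : Sys ι 𝔅) (A : Matrix ι ι ℝ) (b0 : 𝔅) (V : ι → ℝ) : ℂ :=
  if S.comp b0 V then ((S.ze A b0 V : ℝ) : ℂ) -
    ((S.gg A b0 V + S.et (S.cls b0) : ℝ) : ℂ) * Complex.I else -Complex.I

/-! ### the comparison gadget -/

theorem gaG_pos (ha : 0 < a) (b0 : 𝔅) (y : ι) : 0 < gaG S a b0 y := by
  unfold gaG
  split_ifs
  · exact S.et_pos _
  · exact ha

theorem gaG_le (ha : a ≤ 1) (b0 : 𝔅) (y : ι) : gaG S a b0 y ≤ 1 := by
  unfold gaG
  split_ifs
  · exact S.et_le _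
  · exact ha

theorem usG_meas (S : Sys ι 𝔅) (A : Matrix ι ι ℝ) (b0 : 𝔅) : Measurable (usG S A b0) := by
  unfold usG
  refine Measurable.ite (S.measurableSet_comp b0) ?_ measurable_const
  exact (Complex.measurable_ofReal.comp (S.measurable_ze A b0)).sub
    ((Complex.measurable_ofReal.comp ((S.measurable_gg A b0).add_const _)).mul_const _)

theorem usG_comp (h : S.comp b0 V) : usG S A b0 V = ((S.ze A b0 V : ℝ) : ℂ) -
    ((S.gg A b0 V + S.et (S.cls b0) : ℝ) : ℂ) * Complex.I := by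
  unfold usG
  rw [if_pos h]

theorem usG_im (hS : WO.Good S A) (b0 : 𝔅) (V : ι → ℝ) :
    (usG S A b0 V).im ≤ -S.et (S.cls b0) := by
  unfold usG
  split_ifs with h
  · rw [Complex.sub_im, Complex.ofReal_im, Complex.im_ofReal_mul, Complex.I_im]
    have := hS.g_pos b0 V h
    linarith
  · rw [Complex.neg_im, Complex.I_im]
    have := S.et_le (S.cls b0)
    linarith

theorem usG_norm (hS : WO.Good S A) (b0 : 𝔅) (V : ι → ℝ) :
    ‖usG S A b0 V‖ ≤ 3 * S.c + 3 := by
  have hc := S.c_pos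
  unfold usG
  split_ifs with h
  · have h1 := hS.ze_mem b0 V h
    have h2 := hS.g_le b0 V h
    have h3 := hS.g_pos b0 V h
    have h4 := S.et_le (S.cls b0)
    have h5 := S.et_pos (S.cls b0)
    have h6 := abs_nonneg (S.ze A b0 V)
    have h7 := S.r_pos
    refine (norm_sub_le _ _).trans ?_
    rw [norm_mul, Complex.norm_I, mul_one, Complex.norm_real, Complex.norm_real, Real.norm_eq_abs,
      Real.norm_eq_abs, abs_of_pos (by linarith : 0 < S.gg A b0 V + S.et (S.cls b0))]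
    linarith
  · rw [norm_neg, Complex.norm_I]
    linarith

/-- the complete blocks when `b0` is complete -/
theorem CC_insert (hm : m < S.cls b0) (h : S.comp b0 V) :
    CC S m V = insert b0 (CX S m (S.Q b0) V) := by
  ext b
  rw [Finset.mem_insert, FX.mem_CX, NR.near_mem_CC, S.mem_Comp]
  constructor
  · intro hb
    by_cases e : b = b0
    · exact Or.inl e
    · exact Or.inr ⟨hb, S.disj b b0 V e hb.1 h⟩
  · rintro (e | hb)
    · rw [e]; exact ⟨h, hm⟩
    · exact hb.1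

theorem not_mem_CX (b0 : 𝔅) (V : ι → ℝ) : b0 ∉ CX S m (S.Q b0) V := fun h =>
  Finset.disjoint_left.mp (FX.CX_disj h) (S.w_mem b0) (S.w_mem b0)

theorem wC_insert (hb : b0 ∉ C) (hA : Ac ⊆ C) :
    wC S A (insert b0 C) (insert b0 Ac) V = S.hh A b0 V * wC S A C Ac V := by
  unfold wC
  rw [Finset.prod_insert (fun h => hb (hA h)), Finset.insert_sdiff_insert,
    Finset.sdiff_insert_of_notMem hb]
  ring

/-- the potential with the active gadget `b0` -/
theorem uC_b0 (h : S.comp b0 V) (hA : Ac ⊆ CX S m (S.Q b0) V) :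
    uC S A a (insert b0 (CX S m (S.Q b0) V)) (insert b0 Ac) V =
      Function.update (pot ((S.Q b0).erase (S.w b0)) (gaG S a b0)
        (uC S A a (CX S m (S.Q b0) V) Ac V) V) (S.w b0) (usG S A b0 V) := by
  have hPD : FA.PD S (insert b0 (CX S m (S.Q b0) V)) := by
    refine FA.PD_comp (V := V) fun b hb => ?_
    rcases Finset.mem_insert.mp hb with e | hb
    · rw [e]; exact h
    · exact (FX.mem_CX.mp hb).1.1
  have hsub : insert b0 Ac ⊆ insert b0 (CX S m (S.Q b0) V) := Finset.insert_subset_insert _ hA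
  funext y
  by_cases hy : y = S.w b0
  · rw [hy, Function.update_self, FA.uC_w A hPD hsub (Finset.mem_insert_self _ _), usG_comp h]
  · rw [Function.update_of_ne hy]
    unfold pot gaG
    by_cases hyB : y ∈ S.Q b0
    · rw [if_pos (Finset.mem_erase.mpr ⟨hy, hyB⟩)]
      by_cases hyi : y ∈ S.inn b0
      · rw [FA.uC_inn A hPD hsub (Finset.mem_insert_self _ _) hyi, if_pos hyi]
      · rw [if_neg hyi, FA.uC_none A]
        · intro b hb
          rcases Finset.mem_insert.mp hb with e | hb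
          · rw [e]; exact hyi
          · exact fun hh => Finset.disjoint_left.mp (FX.CX_disj hb) (S.inn_sub hh) hyB
        · intro b hb
          rcases Finset.mem_insert.mp hb with e | hb
          · rw [e]; exact hy
          · intro e
            exact Finset.disjoint_left.mp (FX.CX_disj (hA hb)) (S.w_mem b) (by rw [← e]; exact hyB)
    · rw [if_neg (fun hh => hyB (Finset.mem_of_mem_erase hh))]
      unfold uC
      rw [Finset.sum_insert (not_mem_CX b0 V),
        Finset.sum_insert (fun hh => not_mem_CX b0 V (hA hh)),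
        if_neg (fun hh => hyB (S.inn_sub hh)), if_neg hy, zero_add, zero_add]

/-! ### the functionals -/

open Classical in
/-- the functional of `EG` -/
noncomputable def FGG (S : Sys ι 𝔅) (A : Matrix ι ι ℝ) (m : ℕ) (a : ℝ) (ξ : κ' → ι → ℝ) (b0 : 𝔅)
    (Ac : Finset 𝔅) (V : ι → ℝ) : ℝ :=
  if b0 ∈ Ac then S.gg A b0 V * ∑ x, gam (S.uA A m a Ac V) x * ff ξ x (S.w b0) *
      ‖GM A (S.uA A m a Ac V) (S.w b0) x‖ ^ 2 else 0

theorem EG_eqX (ξ : κ' → ι → ℝ) (b0 : 𝔅) :
    EG S A m a ξ b0 = EX S A m ∅ (FGG S A m a ξ b0) := by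
  unfold EG EX FGG
  simp_rw [CX_empty]

/-- the potential of the comparison gadget -/
noncomputable def pG (S : Sys ι 𝔅) (A : Matrix ι ι ℝ) (a : ℝ) (b0 : 𝔅) (v : ι → ℂ) (U : ι → ℝ) :
    ι → ℂ :=
  Function.update (pot ((S.Q b0).erase (S.w b0)) (gaG S a b0) v U) (S.w b0) (usG S A b0 U)

/-- the sum over the sources -/
noncomputable def RG (S : Sys ι 𝔅) (A : Matrix ι ι ℝ) (a : ℝ) (ξ : κ' → ι → ℝ) (b0 : 𝔅)
    (v : ι → ℂ) (U : ι → ℝ) : ℝ :=
  ∑ x ∈ univ \ S.Q b0, gam v x * ff ξ x (S.w b0) * ‖GM A (pG S A a b0 v U) (S.w b0) x‖ ^ 2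

open Classical in
/-- the intermediate functional -/
noncomputable def HG (S : Sys ι 𝔅) (A : Matrix ι ι ℝ) (m : ℕ) (a : ℝ) (ξ : κ' → ι → ℝ) (b0 : 𝔅)
    (Ac : Finset 𝔅) (V : ι → ℝ) : ℝ :=
  if S.comp b0 V then S.hh A b0 V * (S.gg A b0 V *
    RG S A a ξ b0 (uC S A a (CX S m (S.Q b0) V) Ac V) V) else 0

theorem pG_loss (hS : WO.Good S A) (ha : 0 < a) {v : ι → ℂ} (hv : Loss v) (U : ι → ℝ) :
    Loss (pG S A a b0 v U) := by
  unfold pG
  have h1 := usG_im hS b0 U
  have h2 := S.et_pos (S.cls b0)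
  refine loss_upd ?_ _ (by linarith)
  intro y
  unfold pot
  split_ifs
  · rw [Complex.sub_im, Complex.ofReal_im, Complex.im_ofReal_mul, Complex.I_im]
    have := gaG_pos (S := S) ha b0 y
    linarith
  · exact hv y

theorem gam_pG_off {v : ι → ℂ} {x : ι} (hx : x ∉ S.Q b0) : gam (pG S A a b0 v U) x = gam v x := by
  unfold gam pG pot
  rw [Function.update_of_ne (fun h => hx (by rw [h]; exact S.w_mem b0)),
    if_neg (fun h => hx (Finset.mem_of_mem_erase h))]

theorem gam_pG_w (v : ι → ℂ) (h : S.comp b0 U) :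
    gam (pG S A a b0 v U) (S.w b0) = S.gg A b0 U + S.et (S.cls b0) := by
  unfold gam pG
  rw [Function.update_self, usG_comp h, Complex.sub_im, Complex.ofReal_im, Complex.im_ofReal_mul,
    Complex.I_im]
  ring

theorem RG_nonneg (ξ : κ' → ι → ℝ) {v : ι → ℂ} (hv : Loss v) (U : ι → ℝ) :
    0 ≤ RG S A a ξ b0 v U := by
  unfold RG
  exact Finset.sum_nonneg fun x _ => mul_nonneg (mul_nonneg (gam_pos hv x).le
    (ff_nonneg ξ x _)) (sq_nonneg _)

theorem RG_le (hS : WO.Good S A) (ha : 0 < a) (ξ : κ' → ι → ℝ) {v : ι → ℂ} (hv : Loss v)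
    (h : S.comp b0 U) : S.gg A b0 U * RG S A a ξ b0 v U ≤ ∑ x, ff ξ x (S.w b0) := by
  have hg := hS.g_pos b0 U h
  have het := S.et_pos (S.cls b0)
  unfold RG
  rw [Finset.mul_sum]
  refine (Finset.sum_le_sum (g := fun x => ff ξ x (S.w b0)) fun x hx => ?_).trans
    (Finset.sum_le_sum_of_subset_of_nonneg (Finset.subset_univ _) fun x _ _ => ff_nonneg ξ x _)
  have hxB := (Finset.mem_sdiff.mp hx).2
  have hL := pG_loss (A := A) (a := a) (b0 := b0) hS ha hv U
  have h1 := entry_le hS.symm hL (S.w b0) x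
  rw [gam_pG_w v h, gam_pG_off hxB] at h1
  have hgx := (gam_pos hv x).le
  have h2 : 0 ≤ gam v x * ‖GM A (pG S A a b0 v U) (S.w b0) x‖ ^ 2 := by positivity
  have h3 : S.gg A b0 U * (gam v x * ‖GM A (pG S A a b0 v U) (S.w b0) x‖ ^ 2) ≤ 1 := by
    nlinarith
  calc S.gg A b0 U * (gam v x * ff ξ x (S.w b0) * ‖GM A (pG S A a b0 v U) (S.w b0) x‖ ^ 2)
      = (S.gg A b0 U * (gam v x * ‖GM A (pG S A a b0 v U) (S.w b0) x‖ ^ 2)) *
        ff ξ x (S.w b0) := by ring
    _ ≤ 1 * ff ξ x (S.w b0) := mul_le_mul_of_nonneg_right h3 (ff_nonneg ξ x _)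
    _ = ff ξ x (S.w b0) := one_mul _

theorem pG_meas {Ω : Type*} [MeasurableSpace Ω] (S : Sys ι 𝔅) (A : Matrix ι ι ℝ) (a : ℝ) (b0 : 𝔅)
    {v : Ω → ι → ℂ} (hv : ∀ y, Measurable fun ω => v ω y) {W : Ω → ι → ℝ} (hW : Measurable W)
    (y : ι) : Measurable fun ω => pG S A a b0 (v ω) (W ω) y := by
  unfold pG
  by_cases hy : y = S.w b0
  · subst hy
    simp only [Function.update_self]
    exact (usG_meas S A b0).comp hW
  · simp only [Function.update_of_ne hy]
    exact meas_pot _ _ hv hW y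

theorem RG_meas {Ω : Type*} [MeasurableSpace Ω] (S : Sys ι 𝔅) (A : Matrix ι ι ℝ) (a : ℝ)
    (ξ : κ' → ι → ℝ) (b0 : 𝔅) {v : Ω → ι → ℂ} (hv : ∀ y, Measurable fun ω => v ω y)
    {W : Ω → ι → ℝ} (hW : Measurable W) :
    Measurable fun ω => RG S A a ξ b0 (v ω) (W ω) := by
  unfold RG
  refine Finset.measurable_fun_sum _ fun x _ => ?_
  exact ((measurable_gam hv x).mul measurable_const).mul
    ((measurable_GM' A (fun z => pG_meas S A a b0 hv hW z) _ x).norm.pow_const 2)

theorem HG_nonneg (hS : WO.Good S A) (ha : 0 < a) (ξ : κ' → ι → ℝ)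
    (hA : Ac ⊆ CX S m (S.Q b0) V) : 0 ≤ HG S A m a ξ b0 Ac V := by
  unfold HG
  split_ifs with h
  · exact mul_nonneg (S.hh_nonneg hS ((S.mem_Comp).mpr h)) (mul_nonneg (hS.g_pos b0 V h).le
      (RG_nonneg ξ (uC_loss hS ha FX.CX_sub hA) V))
  · exact le_refl _

theorem HG_le (hS : WO.Good S A) (ha : 0 < a) (ξ : κ' → ι → ℝ)
    (hA : Ac ⊆ CX S m (S.Q b0) V) : HG S A m a ξ b0 Ac V ≤ ∑ x, ff ξ x (S.w b0) := by
  unfold HG
  split_ifs with h
  · have h1 := RG_le (b0 := b0) hS ha ξ (uC_loss hS ha FX.CX_sub hA) h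
    have h2 := S.hh_nonneg hS ((S.mem_Comp).mpr h)
    have h3 := S.hh_le hS ((S.mem_Comp).mpr h)
    have h4 := mul_nonneg (hS.g_pos b0 V h).le
      (RG_nonneg (S := S) (A := A) (a := a) (b0 := b0) ξ (uC_loss hS ha FX.CX_sub hA) V)
    exact (mul_le_of_le_one_left h4 (by linarith)).trans h1
  · exact Finset.sum_nonneg fun x _ => ff_nonneg ξ x _

theorem HG_meas (ξ : κ' → ι → ℝ) (b0 : 𝔅) (Ac : Finset 𝔅) : Measurable (HG S A m a ξ b0 Ac) := by
  unfold HG
  refine Measurable.ite (S.measurableSet_comp b0) ?_ measurable_const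
  exact (S.measurable_hh A b0).mul ((S.measurable_gg A b0).mul
    (RG_meas S A a ξ b0 (v := fun V => uC S A a (CX S m (S.Q b0) V) Ac V)
      (fun y => uCX_meas Ac y) measurable_id))

theorem HG_BX (hS : WO.Good S A) (ha : 0 < a) (ξ : κ' → ι → ℝ) (b0 : 𝔅) :
    BX S m (S.Q b0) (HG S A m a ξ b0) := by
  refine ⟨fun Ac => HG_meas ξ b0 Ac, ∑ x, ff ξ x (S.w b0), fun V Ac hA => ?_⟩
  rw [abs_of_nonneg (HG_nonneg hS ha ξ hA)]
  exact HG_le hS ha ξ hA

theorem FGG_nonneg (hS : WO.Good S A) (ha : 0 < a) (ξ : κ' → ι → ℝ) (b0 : 𝔅)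
    (hA : Ac ⊆ CC S m V) : 0 ≤ FGG S A m a ξ b0 Ac V := by
  unfold FGG
  split_ifs with h
  · have h1 : S.comp b0 V := (S.mem_Comp).mp (NR.near_mem_CC.mp (hA h)).1
    exact mul_nonneg (hS.g_pos b0 V h1).le (Finset.sum_nonneg fun x _ => mul_nonneg
      (mul_nonneg (gam_pos (NR.uA_loss' hA ha) x).le (ff_nonneg ξ x _)) (sq_nonneg _))
  · exact le_refl _

theorem FGG_le (hS : WO.Good S A) (ha : 0 < a) (ξ : κ' → ι → ℝ) (b0 : 𝔅)
    (hA : Ac ⊆ CC S m V) : FGG S A m a ξ b0 Ac V ≤ ∑ x, ff ξ x (S.w b0) := by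
  unfold FGG
  split_ifs with h
  · have h1 : S.comp b0 V := (S.mem_Comp).mp (NR.near_mem_CC.mp (hA h)).1
    have hg := hS.g_pos b0 V h1
    have het := S.et_pos (S.cls b0)
    have hL : Loss (S.uA A m a Ac V) := NR.uA_loss' hA ha
    rw [Finset.mul_sum]
    refine Finset.sum_le_sum fun x _ => ?_
    have h2 := entry_le hS.symm hL (S.w b0) x
    rw [NR.gam_gad hA h] at h2
    have hgx := (gam_pos hL x).le
    have h3 : 0 ≤ gam (S.uA A m a Ac V) x * ‖GM A (S.uA A m a Ac V) (S.w b0) x‖ ^ 2 := by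
      positivity
    have h4 : S.gg A b0 V *
        (gam (S.uA A m a Ac V) x * ‖GM A (S.uA A m a Ac V) (S.w b0) x‖ ^ 2) ≤ 1 := by
      nlinarith
    calc S.gg A b0 V * (gam (S.uA A m a Ac V) x * ff ξ x (S.w b0) *
          ‖GM A (S.uA A m a Ac V) (S.w b0) x‖ ^ 2)
        = (S.gg A b0 V *
          (gam (S.uA A m a Ac V) x * ‖GM A (S.uA A m a Ac V) (S.w b0) x‖ ^ 2)) *
          ff ξ x (S.w b0) := by ring
      _ ≤ 1 * ff ξ x (S.w b0) := mul_le_mul_of_nonneg_right h4 (ff_nonneg ξ x _)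
      _ = ff ξ x (S.w b0) := one_mul _
  · exact Finset.sum_nonneg fun x _ => ff_nonneg ξ x _

theorem FGG_BX (hS : WO.Good S A) (ha : 0 < a) (ξ : κ' → ι → ℝ) (b0 : 𝔅) :
    BX S m ∅ (FGG S A m a ξ b0) := by
  refine ⟨fun Ac => ?_, ∑ x, ff ξ x (S.w b0), fun V Ac hA => ?_⟩
  · unfold FGG
    by_cases h : b0 ∈ Ac
    · simp only [if_pos h]
      refine (S.measurable_gg A b0).mul (Finset.measurable_fun_sum _ fun x _ => ?_)
      exact ((measurable_gam (fun x => S.measurable_uA A m a Ac x) x).mul measurable_const).mul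
        ((measurable_GM' A (fun x => S.measurable_uA A m a Ac x) _ x).norm.pow_const 2)
    · simp only [if_neg h]
      exact measurable_const
  · rw [CX_empty] at hA
    rw [abs_of_nonneg (FGG_nonneg hS ha ξ b0 hA)]
    exact FGG_le hS ha ξ b0 hA

/-- pointwise comparison of the integrands -/
theorem EI_HG_le (hS : WO.Good S A) (ha : 0 < a) (ξ : κ' → ι → ℝ) (hm : m < S.cls b0)
    (V : ι → ℝ) : EI S A m (S.Q b0) (HG S A m a ξ b0) V ≤ EI S A m ∅ (FGG S A m a ξ b0) V := by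
  have hsub : CC S m V ⊆ S.Comp V := fun b hb => (NR.near_mem_CC.mp hb).1
  by_cases h : S.comp b0 V
  · unfold EI
    rw [CX_empty]
    have hCC := CC_insert (S := S) hm h
    have hn := not_mem_CX (S := S) (m := m) b0 V
    have hnn : ∀ Ac ∈ (CC S m V).powerset,
        0 ≤ wC S A (CC S m V) Ac V * FGG S A m a ξ b0 Ac V := fun Ac hA =>
      mul_nonneg (wC_nonneg hS hsub (Finset.mem_powerset.mp hA))
        (FGG_nonneg hS ha ξ b0 (Finset.mem_powerset.mp hA))
    have e1 : ∑ Ac ∈ (CC S m V).powerset, wC S A (CC S m V) Ac V * FGG S A m a ξ b0 Ac V =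
        ∑ Ac ∈ (CX S m (S.Q b0) V).powerset, wC S A (CC S m V) Ac V * FGG S A m a ξ b0 Ac V +
        ∑ Ac ∈ (CX S m (S.Q b0) V).powerset, wC S A (CC S m V) (insert b0 Ac) V *
          FGG S A m a ξ b0 (insert b0 Ac) V := by
      have := Finset.sum_powerset_insert hn
        (fun Ac => wC S A (CC S m V) Ac V * FGG S A m a ξ b0 Ac V)
      rw [← hCC] at this
      exact this
    rw [e1]
    have h0 : 0 ≤ ∑ Ac ∈ (CX S m (S.Q b0) V).powerset,
        wC S A (CC S m V) Ac V * FGG S A m a ξ b0 Ac V := by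
      refine Finset.sum_nonneg fun Ac hA => hnn Ac (Finset.mem_powerset.mpr ?_)
      rw [hCC]
      exact (Finset.mem_powerset.mp hA).trans (Finset.subset_insert _ _)
    refine le_trans ?_ (le_add_of_nonneg_left h0)
    refine Finset.sum_le_sum fun Ac hA => ?_
    have hA' := Finset.mem_powerset.mp hA
    have hA2 : insert b0 Ac ⊆ CC S m V := by
      rw [hCC]; exact Finset.insert_subset_insert _ hA'
    have hL := uC_loss (A := A) hS ha FX.CX_sub hA'
    have hw0 : 0 ≤ wC S A (CX S m (S.Q b0) V) Ac V := wC_nonneg hS FX.CX_sub hA'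
    have e2 : wC S A (CC S m V) (insert b0 Ac) V =
        S.hh A b0 V * wC S A (CX S m (S.Q b0) V) Ac V := by
      rw [hCC, wC_insert hn hA']
    have e3 : S.uA A m a (insert b0 Ac) V =
        pG S A a b0 (uC S A a (CX S m (S.Q b0) V) Ac V) V := by
      rw [NR.near_uA hA2, hCC]
      exact uC_b0 h hA'
    have hh0 := S.hh_nonneg hS ((S.mem_Comp).mpr h)
    have hg0 := (hS.g_pos b0 V h).le
    unfold HG FGG
    rw [if_pos h, if_pos (Finset.mem_insert_self _ _), e2, e3]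
    have h5 : RG S A a ξ b0 (uC S A a (CX S m (S.Q b0) V) Ac V) V ≤
        ∑ x, gam (pG S A a b0 (uC S A a (CX S m (S.Q b0) V) Ac V) V) x * ff ξ x (S.w b0) *
          ‖GM A (pG S A a b0 (uC S A a (CX S m (S.Q b0) V) Ac V) V) (S.w b0) x‖ ^ 2 := by
      unfold RG
      rw [Finset.sum_congr rfl fun x hx => by
        rw [← gam_pG_off (A := A) (a := a) (U := V)
          (v := uC S A a (CX S m (S.Q b0) V) Ac V) (Finset.mem_sdiff.mp hx).2]]
      exact Finset.sum_le_sum_of_subset_of_nonneg (Finset.subset_univ _) fun x _ _ =>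
        mul_nonneg (mul_nonneg (gam_pos (pG_loss hS ha hL V) x).le (ff_nonneg ξ x _)) (sq_nonneg _)
    calc wC S A (CX S m (S.Q b0) V) Ac V * (S.hh A b0 V * (S.gg A b0 V *
          RG S A a ξ b0 (uC S A a (CX S m (S.Q b0) V) Ac V) V))
        = (S.hh A b0 V * wC S A (CX S m (S.Q b0) V) Ac V) * (S.gg A b0 V *
          RG S A a ξ b0 (uC S A a (CX S m (S.Q b0) V) Ac V) V) := by ring
      _ ≤ _ := mul_le_mul_of_nonneg_left (mul_le_mul_of_nonneg_left h5 hg0)
          (mul_nonneg hh0 hw0)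
  · have e1 : EI S A m (S.Q b0) (HG S A m a ξ b0) V = 0 := by
      unfold EI HG
      simp only [if_neg h, mul_zero, Finset.sum_const_zero]
    rw [e1]
    unfold EI
    rw [CX_empty]
    exact Finset.sum_nonneg fun Ac hA => mul_nonneg
      (wC_nonneg hS hsub (Finset.mem_powerset.mp hA))
        (FGG_nonneg hS ha ξ b0 (Finset.mem_powerset.mp hA))

theorem EX_HG_le (hS : WO.Good S A) (ha : 0 < a) (ξ : κ' → ι → ℝ) (hm : m < S.cls b0) :
    EX S A m (S.Q b0) (HG S A m a ξ b0) ≤ EG S A m a ξ b0 := by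
  rw [EG_eqX, EX_eq, EX_eq]
  exact integral_mono (int_EI hS (HG_BX hS ha ξ b0)) (int_EI hS (FGG_BX hS ha ξ b0))
    fun V => EI_HG_le hS ha ξ hm V

/-! ### the integral over the region -/

theorem usG_congr (hc : S.comp b0 U ↔ S.comp b0 V) (h : ∀ x ∈ S.inn b0, U x = V x) :
    usG S A b0 U = usG S A b0 V := by
  unfold usG
  rw [S.ze_congr A h, S.gg_congr A h]
  by_cases h1 : S.comp b0 V
  · rw [if_pos h1, if_pos (hc.mpr h1)]
  · rw [if_neg h1, if_neg (fun h2 => h1 (hc.mp h2))]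

theorem RG_congr (ξ : κ' → ι → ℝ) {v v' : ι → ℂ} (hv : ∀ y, y ∉ S.Q b0 → v y = v' y)
    (hc : S.comp b0 U ↔ S.comp b0 V) (h : ∀ x ∈ S.Q b0, x ≠ S.w b0 → U x = V x) :
    RG S A a ξ b0 v U = RG S A a ξ b0 v' V := by
  have e : pG S A a b0 v U = pG S A a b0 v' V := by
    unfold pG
    rw [usG_congr hc fun x hx => h x (S.inn_sub hx) ((S.mem_inn).mp hx).1]
    funext y
    by_cases hy : y = S.w b0
    · rw [hy, Function.update_self, Function.update_self]
    · rw [Function.update_of_ne hy, Function.update_of_ne hy]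
      unfold pot
      by_cases hyB : y ∈ S.Q b0
      · rw [if_pos (Finset.mem_erase.mpr ⟨hy, hyB⟩), if_pos (Finset.mem_erase.mpr ⟨hy, hyB⟩),
          h y hyB hy]
      · rw [if_neg (fun hh => hyB (Finset.mem_of_mem_erase hh)),
          if_neg (fun hh => hyB (Finset.mem_of_mem_erase hh)), hv y hyB]
  unfold RG
  rw [e]
  refine Finset.sum_congr rfl fun x hx => ?_
  unfold gam
  rw [hv x (Finset.mem_sdiff.mp hx).2]

open Classical in
/-- the functional after resampling of the region -/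
theorem HG_mix (ξ : κ' → ι → ℝ) (hA : Ac ⊆ CX S m (S.Q b0) V) (U : ι → ℝ) :
    HG S A m a ξ b0 Ac (mix (S.Q b0) U V) = if S.comp b0 U then S.hh A b0 U * (S.gg A b0 U *
      RG S A a ξ b0 (uC S A a (CX S m (S.Q b0) V) Ac V) U) else 0 := by
  have hc : S.comp b0 (mix (S.Q b0) U V) ↔ S.comp b0 U :=
    S.comp_congr fun x hx _ => mix_mem hx U V
  have hin : ∀ x ∈ S.inn b0, mix (S.Q b0) U V x = U x := fun x hx => mix_mem (S.inn_sub hx) U V
  unfold HG
  rw [FX.CX_mix (Finset.Subset.refl _),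
    FX.uC_mix (Finset.Subset.refl _) CX_disj' (CXAc_disj hA)]
  rw [RG_congr (U := mix (S.Q b0) U V) (V := U) (v' := uC S A a (CX S m (S.Q b0) V) Ac V) ξ
    (fun y hy => by unfold pot; rw [if_neg hy]) hc (fun x hx _ => mix_mem hx U V),
    S.hh_congr A hin (mix_mem (S.w_mem b0) U V), S.gg_congr A hin]
  by_cases h : S.comp b0 U
  · rw [if_pos h, if_pos (hc.mpr h)]
  · rw [if_neg h, if_neg (fun h2 => h (hc.mp h2))]

open Classical in
/-- the potential at the centre integrated -/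
theorem HG_int (hS : WO.Good S A) (ha : 0 < a) (ξ : κ' → ι → ℝ) {v : ι → ℂ} (hv : Loss v) :
    ∫ U, (if S.comp b0 U then S.hh A b0 U * (S.gg A b0 U * RG S A a ξ b0 v U) else 0)
        ∂(muc ι S.c) =
      ∫ U, (if S.comp b0 U then S.κ * S.gg A b0 U * (S.gg A b0 U * RG S A a ξ b0 v U) else 0)
        ∂(muc ι S.c) := by
  have hp := muc_prob (ι := ι) S.c_pos
  have hm : Measurable fun U : ι → ℝ =>
      if S.comp b0 U then S.hh A b0 U * (S.gg A b0 U * RG S A a ξ b0 v U) else 0 := by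
    refine Measurable.ite (S.measurableSet_comp b0) ?_ measurable_const
    exact (S.measurable_hh A b0).mul ((S.measurable_gg A b0).mul
      (RG_meas S A a ξ b0 (v := fun _ => v) (fun y => measurable_const) measurable_id))
  have hi : Integrable (fun U : ι → ℝ =>
      if S.comp b0 U then S.hh A b0 U * (S.gg A b0 U * RG S A a ξ b0 v U) else 0)
      (muc ι S.c) := by
    refine Integrable.of_bound hm.aestronglyMeasurable (∑ x, ff ξ x (S.w b0))
      (Filter.Eventually.of_forall fun U => ?_)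
    have h0 : 0 ≤ ∑ x, ff ξ x (S.w b0) := Finset.sum_nonneg fun x _ => ff_nonneg ξ x _
    by_cases h : S.comp b0 U
    · have h1 := S.hh_nonneg hS ((S.mem_Comp).mpr h)
      have h2 := S.hh_le hS ((S.mem_Comp).mpr h)
      have h3 := mul_nonneg (hS.g_pos b0 U h).le
        (RG_nonneg (S := S) (A := A) (a := a) (b0 := b0) ξ hv U)
      rw [if_pos h, Real.norm_eq_abs, abs_of_nonneg (mul_nonneg h1 h3)]
      exact (mul_le_of_le_one_left h3 (by linarith)).trans (RG_le hS ha ξ hv h)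
    · rw [if_neg h, norm_zero]
      exact h0
  rw [integral_upd S.c_pos (S.w b0) hi]
  refine integral_congr_ae (Filter.Eventually.of_forall fun U => ?_)
  simp only
  have hin : ∀ (t : ℝ), ∀ x ∈ S.inn b0, Function.update U (S.w b0) t x = U x := fun t x hx =>
    Function.update_of_ne ((S.mem_inn).mp hx).1 _ _
  by_cases h : S.comp b0 U
  · have e1 : ∀ t : ℝ, (if S.comp b0 (Function.update U (S.w b0) t) then
        S.hh A b0 (Function.update U (S.w b0) t) * (S.gg A b0 (Function.update U (S.w b0) t) *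
          RG S A a ξ b0 v (Function.update U (S.w b0) t)) else 0) =
        2 * S.c * (S.κ * S.gg A b0 U) * SL.ff (S.gg A b0 U) S.r (t - S.ze A b0 U) *
          (S.gg A b0 U * RG S A a ξ b0 v U) := by
      intro t
      have hc : S.comp b0 (Function.update U (S.w b0) t) ↔ S.comp b0 U := S.comp_update_w t
      rw [if_pos (hc.mpr h), RG_congr (v' := v) ξ (fun y _ => rfl) hc
        (fun x _ hx => Function.update_of_ne hx _ _)]
      unfold Sys.hh
      rw [S.gg_congr A (hin t), S.ze_congr A (hin t), Function.update_self]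
    simp_rw [e1]
    have hg := hS.g_pos b0 U h
    have hpn := SL.isProbabilityMeasure_nuM hg S.r_pos (hS.g_le b0 U h)
    rw [integral_unif_ff S.c_pos hg S.r_pos (hS.g_le b0 U h) (hS.ze_mem b0 U h)
      (S.κ * S.gg A b0 U) (fun _ => S.gg A b0 U * RG S A a ξ b0 v U)]
    rw [integral_const, probReal_univ, one_smul, if_pos h]
  · have e1 : ∀ t : ℝ, (if S.comp b0 (Function.update U (S.w b0) t) then
        S.hh A b0 (Function.update U (S.w b0) t) * (S.gg A b0 (Function.update U (S.w b0) t) *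
          RG S A a ξ b0 v (Function.update U (S.w b0) t)) else 0) = 0 := by
      intro t
      rw [if_neg]
      rw [S.comp_update_w]
      exact h
    simp_rw [e1]
    rw [integral_zero, if_neg h]

open Classical in
/-- the windows are the event that `b0` is complete -/
theorem win_comp (U : ι → ℝ) :
    win ((S.Q b0).erase (S.w b0)) (S.lo b0) (S.hi b0) U = if S.comp b0 U then 1 else 0 := by
  unfold win
  have e : (∀ y ∈ (S.Q b0).erase (S.w b0), U y ∈ Set.Icc (S.lo b0 y) (S.hi b0 y)) ↔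
      S.comp b0 U := by
    constructor
    · intro h x hx hxw
      exact h x (Finset.mem_erase.mpr ⟨hxw, hx⟩)
    · intro h y hy
      obtain ⟨h1, h2⟩ := Finset.mem_erase.mp hy
      exact h y h2 h1
  by_cases h : S.comp b0 U
  · rw [if_pos h, if_pos (e.mpr h)]
  · rw [if_neg h, if_neg (fun h2 => h (e.mp h2))]

open Classical in
/-- for fixed exterior -/
theorem A2_point (hS : WO.Good S A) (ha : 0 < a) (ξ : κ' → ι → ℝ) {Lam Fz : Finset ι}
    (hB : BB Lam Fz (S.w b0) = S.Q b0) {gm : ℝ} (hgm : 0 < gm)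
    (hg : ∀ V, S.comp b0 V → gm ≤ S.gg A b0 V) {v : ι → ℂ} (hv : Loss v) :
    S.κ * gm ^ 2 * ∑ x ∈ univ \ S.Q b0, gam v x * ff ξ x (S.w b0) *
        A2 S.c A v Lam Fz (S.w b0) x (S.lo b0) (S.hi b0) (gaG S a b0) (usG S A b0) ≤
      ∫ U, (if S.comp b0 U then S.κ * S.gg A b0 U * (S.gg A b0 U * RG S A a ξ b0 v U) else 0)
        ∂(muc ι S.c) := by
  have hp := muc_prob (ι := ι) S.c_pos
  have het := S.et_pos (S.cls b0)
  have hmw : Measurable fun U : ι → ℝ =>
      win ((S.Q b0).erase (S.w b0)) (S.lo b0) (S.hi b0) U := win_meas _ _ _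
  have hGm : ∀ x, Measurable fun U : ι → ℝ => ‖GM A (pG S A a b0 v U) (S.w b0) x‖ ^ 2 := fun x =>
    (measurable_GM' A (fun z => pG_meas S A a b0 (v := fun _ => v) (fun y => measurable_const)
      measurable_id z) _ x).norm.pow_const 2
  have hterm : ∀ x, x ∉ S.Q b0 → ∀ U, gam v x * ‖GM A (pG S A a b0 v U) (S.w b0) x‖ ^ 2 ≤
      (S.et (S.cls b0))⁻¹ := by
    intro x hx U
    have hL := pG_loss (A := A) (a := a) (b0 := b0) hS ha hv U
    have h1 := entry_le hS.symm hL (S.w b0) x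
    rw [gam_pG_off hx] at h1
    have h2 : S.et (S.cls b0) ≤ gam (pG S A a b0 v U) (S.w b0) := by
      unfold gam pG
      rw [Function.update_self]
      linarith [usG_im hS b0 U]
    have hgx := (gam_pos hv x).le
    have h3 : 0 ≤ gam v x * ‖GM A (pG S A a b0 v U) (S.w b0) x‖ ^ 2 := by positivity
    rw [← mul_le_mul_iff_of_pos_left het, mul_inv_cancel₀ het.ne']
    nlinarith
  have hint : ∀ x, x ∉ S.Q b0 → Integrable (fun U : ι → ℝ =>
      win ((S.Q b0).erase (S.w b0)) (S.lo b0) (S.hi b0) U *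
        ‖GM A (pG S A a b0 v U) (S.w b0) x‖ ^ 2) (muc ι S.c) := by
    intro x hx
    have hgx := gam_pos hv x
    refine Integrable.of_bound (hmw.mul (hGm x)).aestronglyMeasurable
      ((gam v x)⁻¹ * (S.et (S.cls b0))⁻¹) (Filter.Eventually.of_forall fun U => ?_)
    have hw0 := win_nonneg ((S.Q b0).erase (S.w b0)) (S.lo b0) (S.hi b0) U
    have hw1 := win_le_one ((S.Q b0).erase (S.w b0)) (S.lo b0) (S.hi b0) U
    rw [Real.norm_eq_abs, abs_of_nonneg (mul_nonneg hw0 (sq_nonneg _))]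
    refine (mul_le_of_le_one_left (sq_nonneg _) hw1).trans ?_
    calc ‖GM A (pG S A a b0 v U) (S.w b0) x‖ ^ 2
        = (gam v x)⁻¹ * (gam v x * ‖GM A (pG S A a b0 v U) (S.w b0) x‖ ^ 2) := by
          rw [← mul_assoc, inv_mul_cancel₀ hgx.ne', one_mul]
      _ ≤ _ := mul_le_mul_of_nonneg_left (hterm x hx U) (inv_pos.mpr hgx).le
  have e1 : ∑ x ∈ univ \ S.Q b0, gam v x * ff ξ x (S.w b0) *
        A2 S.c A v Lam Fz (S.w b0) x (S.lo b0) (S.hi b0) (gaG S a b0) (usG S A b0) =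
      ∫ U, win ((S.Q b0).erase (S.w b0)) (S.lo b0) (S.hi b0) U * RG S A a ξ b0 v U
        ∂(muc ι S.c) := by
    have e2 : ∀ U : ι → ℝ, win ((S.Q b0).erase (S.w b0)) (S.lo b0) (S.hi b0) U *
        RG S A a ξ b0 v U = ∑ x ∈ univ \ S.Q b0, gam v x * ff ξ x (S.w b0) *
          (win ((S.Q b0).erase (S.w b0)) (S.lo b0) (S.hi b0) U *
            ‖GM A (pG S A a b0 v U) (S.w b0) x‖ ^ 2) := by
      intro U
      unfold RG
      rw [Finset.mul_sum]
      exact Finset.sum_congr rfl fun x _ => by ring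
    simp_rw [e2]
    rw [integral_finsetSum]
    · refine Finset.sum_congr rfl fun x _ => ?_
      rw [integral_const_mul]
      unfold A2
      rw [hB]
      rfl
    · intro x hx
      exact (hint x (Finset.mem_sdiff.mp hx).2).const_mul _
  rw [e1, ← integral_const_mul]
  have hR : Measurable fun U : ι → ℝ => RG S A a ξ b0 v U :=
    RG_meas S A a ξ b0 (v := fun _ => v) (fun y => measurable_const) measurable_id
  have hb0 : 0 ≤ ∑ x, ff ξ x (S.w b0) := Finset.sum_nonneg fun x _ => ff_nonneg ξ x _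
  refine integral_mono ?_ ?_ fun U => ?_
  · refine Integrable.const_mul ?_ _
    refine Integrable.of_bound (hmw.mul hR).aestronglyMeasurable
      (gm⁻¹ * ∑ x, ff ξ x (S.w b0)) (Filter.Eventually.of_forall fun U => ?_)
    rw [win_comp]
    by_cases h : S.comp b0 U
    · have h1 := RG_le hS ha ξ hv h
      have h2 := RG_nonneg (S := S) (A := A) (a := a) (b0 := b0) ξ hv U
      have h3 := hg U h
      rw [if_pos h, one_mul, Real.norm_eq_abs, abs_of_nonneg h2]
      calc RG S A a ξ b0 v U = gm⁻¹ * (gm * RG S A a ξ b0 v U) := by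
            rw [← mul_assoc, inv_mul_cancel₀ hgm.ne', one_mul]
        _ ≤ gm⁻¹ * ∑ x, ff ξ x (S.w b0) := by
            refine mul_le_mul_of_nonneg_left ?_ (inv_pos.mpr hgm).le
            exact (mul_le_mul_of_nonneg_right h3 h2).trans h1
    · rw [if_neg h, zero_mul, norm_zero]
      exact mul_nonneg (inv_pos.mpr hgm).le hb0
  · refine Integrable.of_bound ?_ (S.κ * S.r * ∑ x, ff ξ x (S.w b0))
      (Filter.Eventually.of_forall fun U => ?_)
    · refine (Measurable.ite (S.measurableSet_comp b0) ?_ measurable_const).aestronglyMeasurable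
      exact (measurable_const.mul (S.measurable_gg A b0)).mul ((S.measurable_gg A b0).mul hR)
    · have hk := S.κ_pos
      have hr := S.r_pos
      by_cases h : S.comp b0 U
      · have h1 := RG_le hS ha ξ hv h
        have h2 := RG_nonneg (S := S) (A := A) (a := a) (b0 := b0) ξ hv U
        have h3 := (hS.g_pos b0 U h).le
        have h4 := hS.g_le b0 U h
        rw [if_pos h, Real.norm_eq_abs, abs_of_nonneg (by positivity)]
        exact mul_le_mul (mul_le_mul_of_nonneg_left h4 hk.le) h1 (by positivity) (by positivity)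
      · rw [if_neg h, norm_zero]
        positivity
  · simp only
    rw [win_comp]
    by_cases h : S.comp b0 U
    · have h2 := RG_nonneg (S := S) (A := A) (a := a) (b0 := b0) ξ hv U
      have h3 := hg U h
      have hk := S.κ_pos
      rw [if_pos h, if_pos h, one_mul]
      have h4 : gm ^ 2 ≤ S.gg A b0 U ^ 2 := pow_le_pow_left₀ hgm.le h3 2
      calc S.κ * gm ^ 2 * RG S A a ξ b0 v U ≤ S.κ * S.gg A b0 U ^ 2 * RG S A a ξ b0 v U :=
            mul_le_mul_of_nonneg_right (mul_le_mul_of_nonneg_left h4 hk.le) h2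
        _ = _ := by ring
    · rw [if_neg h, if_neg h, zero_mul, mul_zero]

/-- comparison after resampling a part of the region, third form -/
theorem EX_le_of_mix3 (hS : WO.Good S A) (hT : T ⊆ B) {F F' : Finset 𝔅 → (ι → ℝ) → ℝ}
    (hF : BX S m B F) (hF' : BX S m B F')
    (h : ∀ V, ∀ Ac ⊆ CX S m B V, F Ac V ≤ ∫ U, F' Ac (mix T U V) ∂(muc ι S.c)) :
    EX S A m B F ≤ EX S A m B F' := by
  have hp := muc_prob (ι := ι) S.c_pos
  rw [EX_eq, EX_eq]
  have h1 : ∫ V, EI S A m B F' V ∂(S.mu) =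
      ∫ V, ∫ U, EI S A m B F' (mix T U V) ∂(muc ι S.c) ∂(muc ι S.c) :=
    integral_mix S.c_pos T (int_EI hS hF')
  rw [h1]
  have h2 : Integrable (fun V => ∫ U, EI S A m B F' (mix T U V) ∂(muc ι S.c)) (muc ι S.c) :=
    (integrable_mix S.c_pos T (int_EI hS hF')).integral_prod_left
  refine integral_mono (int_EI hS hF) h2 fun V => ?_
  simp only
  rw [int_EI_mix hS hT hF']
  exact Finset.sum_le_sum fun Ac hA => mul_le_mul_of_nonneg_left
    (h V Ac (Finset.mem_powerset.mp hA)) (wC_nonneg hS FX.CX_sub (Finset.mem_powerset.mp hA))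

/-- (A2) the local quantity `A2`, integrated over the exterior -/
theorem A2_int (hS : WO.Good S A) (ha : 0 < a) (ha1 : a ≤ 1) (ξ : κ' → ι → ℝ)
    (hm : m < S.cls b0) {Lam Fz : Finset ι} (hB : BB Lam Fz (S.w b0) = S.Q b0) {gm : ℝ}
    (hgm : 0 < gm) (hg : ∀ V, S.comp b0 V → gm ≤ S.gg A b0 V) :
    EX S A m (S.Q b0) (F2 S A m a ξ (S.Q b0) Lam Fz (S.w b0) (S.lo b0) (S.hi b0) (gaG S a b0)
      (usG S A b0)) ≤ (S.κ * gm ^ 2)⁻¹ * EG S A m a ξ b0 := by
  have hk := S.κ_pos
  have hkg : 0 < S.κ * gm ^ 2 := by positivity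
  have hBX2 : BX S m (S.Q b0) (F2 S A m a ξ (S.Q b0) Lam Fz (S.w b0) (S.lo b0) (S.hi b0)
      (gaG S a b0) (usG S A b0)) :=
    F2_BX hS ha ξ hB (S.lo b0) (S.hi b0) (gaG_pos ha b0) (S.et_pos (S.cls b0))
      (usG_meas S A b0) (usG_im hS b0)
  have h1 : EX S A m (S.Q b0) (fun Ac V => S.κ * gm ^ 2 * F2 S A m a ξ (S.Q b0) Lam Fz (S.w b0)
      (S.lo b0) (S.hi b0) (gaG S a b0) (usG S A b0) Ac V) ≤
      EX S A m (S.Q b0) (HG S A m a ξ b0) := by
    refine EX_le_of_mix3 hS (Finset.Subset.refl _) (hBX2.const_mul _) (HG_BX hS ha ξ b0)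
      fun V Ac hA => ?_
    have hL := uC_loss (A := A) hS ha FX.CX_sub hA
    have h2 := A2_point hS ha ξ hB hgm hg hL
    rw [← HG_int hS ha ξ hL] at h2
    simp_rw [HG_mix ξ hA]
    exact h2
  rw [EX_mul] at h1
  rw [← mul_le_mul_iff_of_pos_left hkg, ← mul_assoc, mul_inv_cancel₀ hkg.ne', one_mul]
  exact h1.trans (EX_HG_le hS ha ξ hm)

end Pool.Agent.Lib.MP_562b47_mp.LH.FX
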