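import Pool.Agent.Lib.MP_562b47_mp.LH.OV1

/-!
MP_562b47, Lemma H': the derivative integral against the hidden law.
-/

open MeasureTheory Set

namespace Pool.Agent.Lib.MP_562b47_mp.LH.Pc

open Pool.Agent.Lib.MP_562b47_mp.AL Pool.Agent.Lib.MP_562b47_mp

theorem lip_cd {g : ℝ} (hg : 0 < g) (v w : ℝ) :
    |SL.cd g v - SL.cd g w| ≤ 1 / g ^ 2 * |v - w| := by
  have hpi := Real.pi_gt_three
  have e1 : SL.cd g v - SL.cd g w = g / Real.pi * ((w + v) / ((v ^ 2 + g ^ 2) * (w ^ 2 + g ^ 2))) *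
      (w - v) := by
    unfold SL.cd
    field_simp
    ring
  have h1 : |w + v| / ((v ^ 2 + g ^ 2) * (w ^ 2 + g ^ 2)) ≤ 1 / g ^ 3 := by
    rw [div_le_div_iff₀ (by positivity) (by positivity)]
    have k1 : |v| * g ≤ (v ^ 2 + g ^ 2) / 2 := by
      rw [← sq_abs v]
      nlinarith [sq_nonneg (|v| - g)]
    have k2 : |w| * g ≤ (w ^ 2 + g ^ 2) / 2 := by
      rw [← sq_abs w]
      nlinarith [sq_nonneg (|w| - g)]
    have k3 : g ^ 2 ≤ v ^ 2 + g ^ 2 := by nlinarith [sq_nonneg v]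
    have k4 : g ^ 2 ≤ w ^ 2 + g ^ 2 := by nlinarith [sq_nonneg w]
    have k5 : |w + v| ≤ |w| + |v| := abs_add_le w v
    have hv0 : 0 ≤ v ^ 2 + g ^ 2 := by positivity
    have hw0 : 0 ≤ w ^ 2 + g ^ 2 := by positivity
    calc |w + v| * g ^ 3 ≤ (|w| + |v|) * g ^ 3 := by gcongr
      _ = (|w| * g) * g ^ 2 + (|v| * g) * g ^ 2 := by ring
      _ ≤ ((w ^ 2 + g ^ 2) / 2) * (v ^ 2 + g ^ 2) + ((v ^ 2 + g ^ 2) / 2) * (w ^ 2 + g ^ 2) := by
          gcongr
      _ = 1 * ((v ^ 2 + g ^ 2) * (w ^ 2 + g ^ 2)) := by ring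
  rw [e1, abs_mul, abs_mul, abs_div, abs_of_pos hg, abs_of_pos Real.pi_pos, abs_div,
    abs_of_pos (show 0 < (v ^ 2 + g ^ 2) * (w ^ 2 + g ^ 2) by positivity), abs_sub_comm w v]
  refine mul_le_mul_of_nonneg_right ?_ (abs_nonneg _)
  calc g / Real.pi * (|w + v| / ((v ^ 2 + g ^ 2) * (w ^ 2 + g ^ 2))) ≤ g / 1 * (1 / g ^ 3) := by
        gcongr
        linarith
    _ = 1 / g ^ 2 := by field_simp

theorem lip_ff {g r : ℝ} (hg : 0 < g) (hr : 0 < r) (hgr : g ≤ r) (v w : ℝ) :
    |SL.ff g r v - SL.ff g r w| ≤ 2 / g ^ 2 * |v - w| := by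
  have h1 := lip_cd hg v w
  have h2 := SL.lip_rr hg hr v w
  have h3 : g / r ^ 3 ≤ 1 / g ^ 2 := by
    rw [div_le_div_iff₀ (by positivity) (by positivity)]
    calc g * g ^ 2 = g ^ 3 := by ring
      _ ≤ r ^ 3 := by gcongr
      _ = 1 * r ^ 3 := by ring
  have e : SL.ff g r v - SL.ff g r w = (SL.cd g v - SL.cd g w) + (SL.rr g r v - SL.rr g r w) := by
    unfold SL.ff; ring
  rw [e]
  refine (abs_add_le _ _).trans ?_
  calc |SL.cd g v - SL.cd g w| + |SL.rr g r v - SL.rr g r w|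
      ≤ 1 / g ^ 2 * |v - w| + g / r ^ 3 * |v - w| := add_le_add h1 h2
    _ ≤ 1 / g ^ 2 * |v - w| + 1 / g ^ 2 * |v - w| := by gcongr
    _ = 2 / g ^ 2 * |v - w| := by ring

theorem norm_sub_sq (y : ℂ) (v : ℝ) : ‖(v : ℂ) - y‖ ^ 2 = (v - y.re) ^ 2 + y.im ^ 2 := by
  rw [← Complex.normSq_eq_norm_sq, Complex.normSq_apply]
  simp
  ring

/-- `∫ |w| / (w² + η²)` -/
theorem integral_abs_div {η R : ℝ} (hη : 0 < η) (hR : 0 ≤ R) :
    ∫ w in (-R)..R, |w| / (w ^ 2 + η ^ 2) = Real.log (1 + R ^ 2 / η ^ 2) := by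
  have hc : Continuous fun w : ℝ => |w| / (w ^ 2 + η ^ 2) := by
    refine continuous_abs.div (by fun_prop) fun w => ?_
    positivity
  have h1 : ∫ w in (0 : ℝ)..R, |w| / (w ^ 2 + η ^ 2) = Real.log (1 + R ^ 2 / η ^ 2) / 2 := by
    have hd : ∀ w ∈ uIcc (0 : ℝ) R, HasDerivAt (fun w : ℝ => Real.log (w ^ 2 + η ^ 2) / 2)
        (w / (w ^ 2 + η ^ 2)) w := by
      intro w _
      have h2 : w ^ 2 + η ^ 2 ≠ 0 := by positivity
      have h3 : HasDerivAt (fun w : ℝ => w ^ 2 + η ^ 2) (2 * w) w := by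
        have := (hasDerivAt_pow 2 w).add_const (η ^ 2)
        refine this.congr_deriv ?_
        norm_num
      refine ((h3.log h2).div_const 2).congr_deriv ?_
      field_simp
    have h4 : ∫ w in (0 : ℝ)..R, |w| / (w ^ 2 + η ^ 2) = ∫ w in (0 : ℝ)..R, w / (w ^ 2 + η ^ 2) := by
      refine intervalIntegral.integral_congr fun w hw => ?_
      rw [uIcc_of_le hR] at hw
      simp only [abs_of_nonneg hw.1]
    have hc' : Continuous fun w : ℝ => w / (w ^ 2 + η ^ 2) := by
      refine continuous_id.div (by fun_prop) fun w => ?_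
      positivity
    rw [h4, intervalIntegral.integral_eq_sub_of_hasDerivAt hd (hc'.intervalIntegrable _ _)]
    have h5 : 1 + R ^ 2 / η ^ 2 = (R ^ 2 + η ^ 2) / η ^ 2 := by field_simp; ring
    rw [h5, Real.log_div (by positivity) (by positivity)]
    norm_num
    ring
  have h2 : ∫ w in (-R)..(0 : ℝ), |w| / (w ^ 2 + η ^ 2) = Real.log (1 + R ^ 2 / η ^ 2) / 2 := by
    rw [← h1]
    have := intervalIntegral.integral_comp_neg (a := -R) (b := 0)
      (fun w : ℝ => |w| / (w ^ 2 + η ^ 2))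
    simp only [abs_neg, neg_sq, neg_zero, neg_neg] at this
    exact this
  rw [← intervalIntegral.integral_add_adjacent_intervals (hc.intervalIntegrable (-R) 0)
    (hc.intervalIntegrable 0 R), h1, h2]
  ring

/-- Lipschitz densities with compact support -/
theorem lip_int {f : ℝ → ℝ} {c M L : ℝ} (hc : 0 < c) (hM : 0 ≤ M) (hL : 0 ≤ L)
    (hf0 : ∀ v, 0 ≤ f v) (hfM : ∀ v, f v ≤ M) (hfL : ∀ v w, |f v - f w| ≤ L * |v - w|)
    (hsupp : ∀ v, c < |v| → f v = 0) (hfc : Continuous f) {y : ℂ} {a : ℝ} (ha : 0 < a) (ha1 : a ≤ 1)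
    (hy : a ≤ y.im) :
    ‖∫ v : ℝ, (f v : ℂ) / ((v : ℂ) - y) ^ 2‖ ≤
      200 * (c + 1) ^ 4 * (M + L) * Real.log (2 / a) * (1 / (1 + ‖y‖ ^ 2)) := by
  have hy0 : 0 < y.im := lt_of_lt_of_le ha hy
  set x := y.re with hx
  set η := y.im with hη
  have hne : ∀ v : ℝ, (v : ℂ) - y ≠ 0 := fun v => sub_ne hy0 v
  have hnorm : ‖y‖ ^ 2 = x ^ 2 + η ^ 2 := by
    rw [← Complex.normSq_eq_norm_sq, Complex.normSq_apply, hx, hη]; ring
  have hlog : (1 : ℝ) / 2 ≤ Real.log (2 / a) := by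
    have h1 : Real.log 2 ≤ Real.log (2 / a) := by
      refine Real.log_le_log (by norm_num) ?_
      rw [le_div_iff₀ ha]; linarith
    have h2 := Real.log_two_gt_d9
    linarith
  have hcont : Continuous fun v : ℝ => (f v : ℂ) / ((v : ℂ) - y) ^ 2 := by
    refine (Complex.continuous_ofReal.comp hfc).div ?_ fun v => pow_ne_zero 2 (hne v)
    fun_prop
  rcases le_or_gt |x| (2 * c + 1) with hxc | hxc
  · -- near
    set R := 3 * c + 2 with hR
    have hR0 : 0 < R := by positivity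
    have e0 : ∫ v : ℝ, (f v : ℂ) / ((v : ℂ) - y) ^ 2 =
        ∫ v in (x - R)..(x + R), (f v : ℂ) / ((v : ℂ) - y) ^ 2 := by
      symm
      refine intervalIntegral.integral_eq_integral_of_support_subset ?_
      intro v hv
      rw [Function.mem_support] at hv
      have hv' : |v| ≤ c := by
        by_contra hcon
        push Not at hcon
        apply hv
        rw [hsupp v hcon]
        simp
      rw [abs_le] at hv' hxc
      constructor
      · linarith [hv'.1, hv'.2, hxc.1, hxc.2]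
      · linarith [hv'.1, hv'.2, hxc.1, hxc.2]
    have hc1 : Continuous fun v : ℝ => (1 : ℂ) / ((v : ℂ) - y) ^ 2 := by
      refine continuous_const.div ?_ fun v => pow_ne_zero 2 (hne v)
      fun_prop
    have e1 : ∫ v in (x - R)..(x + R), (f v : ℂ) / ((v : ℂ) - y) ^ 2 =
        (f x : ℂ) * (∫ v in (x - R)..(x + R), 1 / ((v : ℂ) - y) ^ 2) +
        ∫ v in (x - R)..(x + R), ((f v - f x : ℝ) : ℂ) / ((v : ℂ) - y) ^ 2 := by
      have hc2 : Continuous fun v : ℝ => ((f v - f x : ℝ) : ℂ) / ((v : ℂ) - y) ^ 2 := by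
        refine (Complex.continuous_ofReal.comp (hfc.sub continuous_const)).div ?_
          fun v => pow_ne_zero 2 (hne v)
        fun_prop
      have hc3 : Continuous fun v : ℝ => (f x : ℂ) * (1 / ((v : ℂ) - y) ^ 2) := continuous_const.mul hc1
      rw [← intervalIntegral.integral_const_mul,
        ← intervalIntegral.integral_add (hc3.intervalIntegrable _ _)
          (hc2.intervalIntegrable _ _)]
      refine intervalIntegral.integral_congr fun v _ => ?_
      push_cast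
      ring
    have b1 : ‖∫ v in (x - R)..(x + R), 1 / ((v : ℂ) - y) ^ 2‖ ≤ 2 * R / (R ^ 2 + η ^ 2) := by
      rw [integral_inv_sq hy0, norm_sub_inv hy0 (by linarith)]
      have n1 : ‖((x - R : ℝ) : ℂ) - y‖ ^ 2 = R ^ 2 + η ^ 2 := by
        rw [norm_sub_sq, ← hx, ← hη]; ring
      have n2 : ‖((x + R : ℝ) : ℂ) - y‖ ^ 2 = R ^ 2 + η ^ 2 := by
        rw [norm_sub_sq, ← hx, ← hη]; ring
      have n3 : ‖((x - R : ℝ) : ℂ) - y‖ = ‖((x + R : ℝ) : ℂ) - y‖ := by
        have := n1.trans n2.symm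
        exact (sq_eq_sq₀ (norm_nonneg _) (norm_nonneg _)).mp this
      rw [n3, ← sq, n2]
      have : x + R - (x - R) = 2 * R := by ring
      rw [this]
    have b2 : ‖∫ v in (x - R)..(x + R), ((f v - f x : ℝ) : ℂ) / ((v : ℂ) - y) ^ 2‖ ≤
        L * Real.log (1 + R ^ 2 / η ^ 2) := by
      refine (intervalIntegral.norm_integral_le_integral_norm (by linarith)).trans ?_
      rw [← integral_abs_div hy0 hR0.le]
      have e3 : ∫ w in (-R)..R, |w| / (w ^ 2 + η ^ 2) =
          ∫ v in (x - R)..(x + R), |v - x| / ((v - x) ^ 2 + η ^ 2) := by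
        have := intervalIntegral.integral_comp_sub_right (a := x - R) (b := x + R)
          (fun w : ℝ => |w| / (w ^ 2 + η ^ 2)) x
        rw [this]
        congr 1 <;> ring
      rw [e3, ← intervalIntegral.integral_const_mul]
      refine intervalIntegral.integral_mono_on (by linarith) ?_ ?_ fun v _ => ?_
      · refine Continuous.intervalIntegrable ?_ _ _
        refine ((Complex.continuous_ofReal.comp (hfc.sub continuous_const)).div ?_
          fun v => pow_ne_zero 2 (hne v)).norm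
        fun_prop
      · refine Continuous.intervalIntegrable ?_ _ _
        refine continuous_const.mul (Continuous.div (by fun_prop) (by fun_prop) fun v => ?_)
        positivity
      · rw [norm_div, norm_pow, Complex.norm_real, Real.norm_eq_abs, norm_sub_sq, ← hx, ← hη,
          mul_div_assoc']
        gcongr
        exact hfL v x
    rw [e0, e1]
    have hfx : ‖(f x : ℂ)‖ ≤ M := by
      rw [Complex.norm_real, Real.norm_of_nonneg (hf0 x)]; exact hfM x
    have hbd : ‖(f x : ℂ) * (∫ v in (x - R)..(x + R), 1 / ((v : ℂ) - y) ^ 2) +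
        ∫ v in (x - R)..(x + R), ((f v - f x : ℝ) : ℂ) / ((v : ℂ) - y) ^ 2‖ ≤
        M * (2 * R / (R ^ 2 + η ^ 2)) + L * Real.log (1 + R ^ 2 / η ^ 2) := by
      refine (norm_add_le _ _).trans (add_le_add ?_ b2)
      rw [norm_mul]
      exact mul_le_mul hfx b1 (norm_nonneg _) hM
    refine hbd.trans ?_
    -- compare with the logarithm
    have hx2 : x ^ 2 ≤ (2 * c + 1) ^ 2 := by
      rw [← sq_abs x]; gcongr
    have hR1 : 1 ≤ R := by linarith
    have k1 : (1 + ‖y‖ ^ 2) ≤ 4 * (c + 1) ^ 2 * (1 + η ^ 2) + (1 + η ^ 2) := by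
      rw [hnorm]
      nlinarith [sq_nonneg η, sq_nonneg c]
    have k2 : (1 + η ^ 2) * (2 * R / (R ^ 2 + η ^ 2)) ≤ 2 * R := by
      rw [mul_div_assoc', div_le_iff₀ (by positivity)]
      nlinarith [sq_nonneg η, mul_pos hR0 hR0]
    have hcl : Real.log (1 + R ^ 2) ≤ R ^ 2 := by
      have := Real.log_le_sub_one_of_pos (show 0 < 1 + R ^ 2 by positivity)
      linarith
    have k3 : (1 + η ^ 2) * Real.log (1 + R ^ 2 / η ^ 2) ≤ 4 * (R ^ 2 + 1) * Real.log (2 / a) := by
      rcases le_total η 1 with h1 | h1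
      · have l1 : Real.log (1 + R ^ 2 / η ^ 2) ≤ Real.log (1 + R ^ 2) + 2 * Real.log (1 / η) := by
          have e4 : 2 * Real.log (1 / η) = Real.log (1 / η ^ 2) := by
            rw [one_div, one_div, Real.log_inv, Real.log_inv, Real.log_pow]
            push_cast; ring
          rw [e4, ← Real.log_mul (by positivity) (by positivity)]
          refine Real.log_le_log (by positivity) ?_
          rw [mul_one_div, add_div]
          have : (1 : ℝ) ≤ 1 / η ^ 2 := by
            rw [le_div_iff₀ (by positivity)]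
            nlinarith
          linarith
        have l2 : Real.log (1 / η) ≤ Real.log (2 / a) := by
          refine Real.log_le_log (by positivity) ?_
          rw [div_le_div_iff₀ hy0 ha]
          linarith
        have l3 : 0 ≤ Real.log (1 + R ^ 2 / η ^ 2) := Real.log_nonneg (by
          have : 0 ≤ R ^ 2 / η ^ 2 := by positivity
          linarith)
        have l4 : 1 + η ^ 2 ≤ 2 := by nlinarith
        calc (1 + η ^ 2) * Real.log (1 + R ^ 2 / η ^ 2) ≤ 2 * Real.log (1 + R ^ 2 / η ^ 2) := by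
              gcongr
          _ ≤ 2 * (R ^ 2 + 2 * Real.log (2 / a)) := by linarith
          _ ≤ 4 * (R ^ 2 + 1) * Real.log (2 / a) := by nlinarith [sq_nonneg R]
      · have l1 : Real.log (1 + R ^ 2 / η ^ 2) ≤ R ^ 2 / η ^ 2 := by
          have := Real.log_le_sub_one_of_pos (show 0 < 1 + R ^ 2 / η ^ 2 by positivity)
          linarith
        have l2 : (1 + η ^ 2) * (R ^ 2 / η ^ 2) ≤ 2 * R ^ 2 := by
          rw [mul_div_assoc', div_le_iff₀ (by positivity)]
          nlinarith [mul_pos hR0 hR0, sq_nonneg R, mul_nonneg (sq_nonneg R) (show 0 ≤ η ^ 2 - 1 by nlinarith)]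
        calc (1 + η ^ 2) * Real.log (1 + R ^ 2 / η ^ 2) ≤ (1 + η ^ 2) * (R ^ 2 / η ^ 2) := by
              gcongr
          _ ≤ 2 * R ^ 2 := l2
          _ ≤ 4 * (R ^ 2 + 1) * Real.log (2 / a) := by nlinarith [sq_nonneg R]
    rw [mul_one_div, le_div_iff₀ (by positivity)]
    have hT0 : 0 ≤ M * (2 * R / (R ^ 2 + η ^ 2)) + L * Real.log (1 + R ^ 2 / η ^ 2) :=
      (norm_nonneg _).trans hbd
    have k4 : (M * (2 * R / (R ^ 2 + η ^ 2)) + L * Real.log (1 + R ^ 2 / η ^ 2)) * (1 + η ^ 2) ≤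
        (M + L) * (4 * (R ^ 2 + 1)) * Real.log (2 / a) := by
      have t1 : M * ((1 + η ^ 2) * (2 * R / (R ^ 2 + η ^ 2))) ≤ M * (4 * (R ^ 2 + 1) * Real.log (2 / a)) := by
        refine mul_le_mul_of_nonneg_left (k2.trans ?_) hM
        nlinarith [sq_nonneg (R - 1)]
      have t2 := mul_le_mul_of_nonneg_left k3 hL
      nlinarith
    have k5 : 4 * (R ^ 2 + 1) ≤ 40 * (c + 1) ^ 2 := by
      rw [hR]; nlinarith
    calc (M * (2 * R / (R ^ 2 + η ^ 2)) + L * Real.log (1 + R ^ 2 / η ^ 2)) * (1 + ‖y‖ ^ 2)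
        ≤ (M * (2 * R / (R ^ 2 + η ^ 2)) + L * Real.log (1 + R ^ 2 / η ^ 2)) *
          (4 * (c + 1) ^ 2 * (1 + η ^ 2) + (1 + η ^ 2)) := by gcongr
      _ = (4 * (c + 1) ^ 2 + 1) * ((M * (2 * R / (R ^ 2 + η ^ 2)) +
          L * Real.log (1 + R ^ 2 / η ^ 2)) * (1 + η ^ 2)) := by ring
      _ ≤ (4 * (c + 1) ^ 2 + 1) * ((M + L) * (4 * (R ^ 2 + 1)) * Real.log (2 / a)) := by gcongr
      _ ≤ (4 * (c + 1) ^ 2 + 1) * ((M + L) * (40 * (c + 1) ^ 2) * Real.log (2 / a)) := by
          have : 0 ≤ Real.log (2 / a) := by linarith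
          gcongr
      _ ≤ 200 * (c + 1) ^ 4 * (M + L) * Real.log (2 / a) := by
          have h0 : 0 ≤ (M + L) * Real.log (2 / a) := by
            have : 0 ≤ Real.log (2 / a) := by linarith
            positivity
          have h1 : (4 * (c + 1) ^ 2 + 1) * (40 * (c + 1) ^ 2) ≤ 200 * (c + 1) ^ 4 := by
            have hz : 1 ≤ (c + 1) ^ 2 := by nlinarith
            have e4 : (c + 1) ^ 4 = (c + 1) ^ 2 * (c + 1) ^ 2 := by ring
            rw [e4]
            nlinarith [mul_nonneg (show 0 ≤ (c + 1) ^ 2 by positivity) (show 0 ≤ (c + 1) ^ 2 - 1 by linarith)]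
          calc (4 * (c + 1) ^ 2 + 1) * ((M + L) * (40 * (c + 1) ^ 2) * Real.log (2 / a)) =
              ((4 * (c + 1) ^ 2 + 1) * (40 * (c + 1) ^ 2)) * ((M + L) * Real.log (2 / a)) := by ring
            _ ≤ (200 * (c + 1) ^ 4) * ((M + L) * Real.log (2 / a)) := by gcongr
            _ = _ := by ring
  · -- far
    have hpt : ∀ v : ℝ, v ∈ Icc (-c) c → 1 / ‖(v : ℂ) - y‖ ^ 2 ≤ 4 * (1 / (1 + ‖y‖ ^ 2)) := by
      intro v hv
      rw [norm_sub_sq, ← hx, ← hη, hnorm, mul_one_div, div_le_div_iff₀ (by positivity)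
        (by positivity)]
      have h1 : (|x| + 1) / 2 ≤ |v - x| := by
        have h2 : |v| ≤ c := abs_le.mpr hv
        have h3 : |x| - |v| ≤ |v - x| := by
          rw [abs_sub_comm]; exact abs_sub_abs_le_abs_sub x v
        linarith
      have h2 : ((|x| + 1) / 2) ^ 2 ≤ (v - x) ^ 2 := by
        rw [← sq_abs (v - x)]
        have : 0 ≤ (|x| + 1) / 2 := by positivity
        gcongr
      have h3 : x ^ 2 = |x| ^ 2 := (sq_abs x).symm
      nlinarith [abs_nonneg x, sq_nonneg η]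
    have e0 : ∫ v : ℝ, (f v : ℂ) / ((v : ℂ) - y) ^ 2 =
        ∫ v in (-(c + 1))..(c + 1), (f v : ℂ) / ((v : ℂ) - y) ^ 2 := by
      symm
      refine intervalIntegral.integral_eq_integral_of_support_subset ?_
      intro v hv
      rw [Function.mem_support] at hv
      have hv' : |v| ≤ c := by
        by_contra hcon
        push Not at hcon
        apply hv
        rw [hsupp v hcon]
        simp
      rw [abs_le] at hv'
      constructor <;> linarith [hv'.1, hv'.2]
    rw [e0]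
    have hb : ∀ v ∈ Set.uIoc (-(c + 1)) (c + 1), ‖(f v : ℂ) / ((v : ℂ) - y) ^ 2‖ ≤
        M * (4 * (1 / (1 + ‖y‖ ^ 2))) := by
      intro v _
      by_cases hv : |v| ≤ c
      · rw [norm_div, norm_pow, Complex.norm_real, Real.norm_of_nonneg (hf0 v)]
        calc f v / ‖(v : ℂ) - y‖ ^ 2 = f v * (1 / ‖(v : ℂ) - y‖ ^ 2) := by ring
          _ ≤ M * (4 * (1 / (1 + ‖y‖ ^ 2))) :=
              mul_le_mul (hfM v) (hpt v (abs_le.mp hv)) (by positivity) hM
      · rw [hsupp v (not_le.mp hv)]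
        simp only [Complex.ofReal_zero, zero_div, norm_zero]
        positivity
    refine (intervalIntegral.norm_integral_le_of_norm_le_const hb).trans ?_
    have h5 : |c + 1 - -(c + 1)| = 2 * (c + 1) := by
      rw [abs_of_pos (by linarith)]; ring
    rw [h5]
    have h6 : (0 : ℝ) ≤ 1 / (1 + ‖y‖ ^ 2) := by positivity
    have h7 : M * 4 * (2 * (c + 1)) ≤ 200 * (c + 1) ^ 4 * (M + L) * Real.log (2 / a) := by
      have h8 : (1 : ℝ) ≤ c + 1 := by linarith
      have h9 : (c + 1) ≤ (c + 1) ^ 4 := by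
        calc c + 1 = (c + 1) ^ 1 := (pow_one _).symm
          _ ≤ (c + 1) ^ 4 := pow_le_pow_right₀ h8 (by norm_num)
      calc M * 4 * (2 * (c + 1)) = 8 * ((c + 1) * M) := by ring
        _ ≤ 8 * ((c + 1) ^ 4 * (M + L)) := by
            have : M ≤ M + L := by linarith
            gcongr
        _ ≤ 200 * ((c + 1) ^ 4 * (M + L)) * (1 / 2) := by
            have : 0 ≤ (c + 1) ^ 4 * (M + L) := by positivity
            linarith
        _ ≤ 200 * ((c + 1) ^ 4 * (M + L)) * Real.log (2 / a) := by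
            have : 0 ≤ (c + 1) ^ 4 * (M + L) := by positivity
            gcongr
        _ = _ := by ring
    calc M * (4 * (1 / (1 + ‖y‖ ^ 2))) * (2 * (c + 1)) =
        (M * 4 * (2 * (c + 1))) * (1 / (1 + ‖y‖ ^ 2)) := by ring
      _ ≤ _ := mul_le_mul_of_nonneg_right h7 h6

end Pool.Agent.Lib.MP_562b47_mp.LH.Pc
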