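import Pool.Agent.Lib.MP_562b47_mp.LH.Geo

/-!
MP_562b47, Lemma H': numerical hypotheses of the rate inequality.
-/

open MeasureTheory Matrix Finset

namespace Pool.Agent.Lib.MP_562b47_mp.LH

open Pool.Agent.Lib.MP_562b47_mp.AL Pool.Agent.Lib.MP_562b47_mp.WO Pool.Agent.Lib.MP_562b47_mp.LW
  Pool.Agent.Lib.MP_562b47_mp

/-- numerical and geometric hypotheses of the rate inequality (`C` = the constant of `far_crude` and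
`far_fine`) -/
structure Num {ι 𝔅 κ' : Type} [Fintype ι] [DecidableEq ι] [Fintype 𝔅] [DecidableEq 𝔅] [Fintype κ']
    (S : Sys ι 𝔅) (A : Matrix ι ι ℝ) (m : ℕ) (a : ℝ) (ξ : κ' → ι → ℝ) (good : Finset ι)
    (bs : ι → 𝔅) (l0 C : ℝ) (Z0 W0 D0 K2 Nn qb qc : ℝ) (q : 𝔅 → ℝ) : Prop where
  D0_nonneg : 0 ≤ D0
  Z0_nonneg : 0 ≤ Z0
  W0_nonneg : 0 ≤ W0
  K2_nonneg : 0 ≤ K2
  Nn_nonneg : 0 ≤ Nn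
  qb_nonneg : 0 ≤ qb
  qc_nonneg : 0 ≤ qc
  q_nonneg : ∀ b, 0 ≤ q b
  /-- no block near `s` -/
  fine : ∀ s ∈ good, ∃ Γ gm : ℝ, 1 ≤ Γ ∧ 0 < gm ∧
    (∀ e : ℝ, (e = S.c ∨ e = -S.c) → HypGF S A m a ξ (bs s) ∅ ∅ ∅ s e l0 Γ) ∧
    (∀ V, S.comp (bs s) V → gm ≤ S.gg A (bs s) V) ∧
    (∀ y ∈ S.Q (bs s), ff ξ s y ≤ D0) ∧
    ZZ a (Lm S (bs s) ∅ ∅ s) ∅ s C Γ ≤ Z0 ∧
    WG S (bs s) * (S.κ * gm ^ 2)⁻¹ ≤ W0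
  /-- blocks near `s` -/
  crude : ∀ s ∈ good, ∀ σ ∈ Adm S m (bs s), σ.Nonempty → ∃ Γ G D : ℝ, 1 ≤ Γ ∧ 1 ≤ G ∧ 0 ≤ D ∧
    (∀ b ∈ σ, ∀ V, S.comp b V → (S.gg A b V)⁻¹ ≤ G) ∧
    (∀ x ∈ Reg S (bs s) σ, ff ξ x s ≤ D) ∧
    (∀ σA ⊆ σ, (∀ b ∈ σA, s ≠ S.w b) → (∀ b ∈ σ, s ∈ S.Q b → s = S.w b) →
      ∀ e : ℝ, (e = S.c ∨ e = -S.c) → HypGF S A m a ξ (bs s) σ σ σA s e l0 Γ) ∧
    (∀ b ∈ σ, s ∈ S.Q b → s ≠ S.w b → ∀ σA ⊆ σ.erase b, ∀ e : ℝ,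
      (e = S.lo b s ∨ e = S.hi b s) →
      HypGF S A m a ξ (bs s) σ (σ.erase b) σA s e (S.hi b s - S.lo b s) Γ) ∧
    (∀ b ∈ σ, s ∈ S.L b → ∀ σA ⊆ σ, ∀ e : ℝ, (e = S.lo b s ∨ e = S.hi b s) →
      HypGF S A m a ξ (bs s) σ σ σA s e (S.hi b s - S.lo b s) Γ) ∧
    (∀ σA ⊆ σ, 2 ^ σ.card * (2 + 2 * Real.log (2 / a) * G + 4 * σ.card) *
      (PF S σ s * ZZ a (Lm S (bs s) σ σA s) (Fz S σ σA s) s C Γ * (2 + 2 * D)) ≤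
        K2 * ∏ b ∈ σ, q b) ∧
    2 ^ σ.card * (2 + 2 * Real.log (2 / a) * G + 4 * σ.card) * (PF S σ s * D) ≤ ∏ b ∈ σ, q b
  S1 : ∀ s ∈ good, ∑ b ∈ univ.filter (fun b => m < S.cls b ∧ ¬ Disjoint (S.Q b) (S.Q (bs s))),
    q b ≤ qb
  qb_le : qb ≤ 1 / 2
  S2 : ∀ y, ((good.filter fun s => y ∈ S.Q (bs s)).card : ℝ) ≤ Nn
  S3 : ∀ y, ∑ b ∈ univ.filter (fun b => m < S.cls b ∧ y ∈ S.Q b),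
    q b * ((good.filter fun s => ¬ Disjoint (S.Q b) (S.Q (bs s))).card : ℝ) ≤ qc

end Pool.Agent.Lib.MP_562b47_mp.LH
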