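import Pool.Agent.Lib.MP_562b47_mp.LH.SplitE

/-!
Splitting the right side of the pieces theorem over the set `σ` of the blocks near `s`.
-/

open MeasureTheory Matrix Finset

set_option linter.unusedSectionVars false

namespace Pool.Agent.Lib.MP_562b47_mp.LH

open Pool.Agent.Lib.MP_562b47_mp.AL Pool.Agent.Lib.MP_562b47_mp.WO Pool.Agent.Lib.MP_562b47_mp.LW
  Pool.Agent.Lib.MP_562b47_mp

variable {ι 𝔅 κ' : Type*} [Fintype ι] [DecidableEq ι] [Fintype 𝔅] [DecidableEq 𝔅] [Fintype κ']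

namespace SP

section int

variable {S : Sys ι 𝔅} {A : Matrix ι ι ℝ} {m : ℕ} {a : ℝ} {s : ι} {b b0 : 𝔅}
  {σ σC σA : Finset 𝔅} {ξ : κ' → ι → ℝ} {l0 e l D M : ℝ} {Gi Dn : Finset 𝔅 → ℝ}

open Classical in
theorem integrable_ite_evw (σ : Finset 𝔅) (s : ι) (D : ℝ) :
    Integrable (fun V => if evw S σ s V then D else 0) S.mu := by
  refine Integrable.of_bound (Measurable.ite (measurableSet_evw σ s) measurable_const
    measurable_const).aestronglyMeasurable |D| (Filter.Eventually.of_forall fun V => ?_)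
  split_ifs
  · exact le_refl _
  · rw [norm_zero]; exact abs_nonneg D

open Classical in
theorem integral_ite_evw (hσ : PD S σ) (hD : 0 ≤ D) :
    ∫ V, (if evw S σ s V then D else 0) ∂(S.mu) ≤ PF S σ s * D := by
  have e1 : (fun V : ι → ℝ => if evw S σ s V then D else 0) =
      Set.indicator {V | evw S σ s V} (fun _ => D) := by
    funext V
    by_cases h : evw S σ s V
    · rw [if_pos h, Set.indicator_of_mem]; exact h
    · rw [if_neg h, Set.indicator_of_notMem]; exact h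
  rw [e1, integral_indicator_const _ (measurableSet_evw σ s), smul_eq_mul]
  exact mul_le_mul_of_nonneg_right (prob_evw hσ s) hD

theorem integrable_Ht (hS : WO.Good S A) (ha : 0 < a) (h : Cnd S s σ σC) (hσA : σA ⊆ σC)
    (hl : 0 ≤ l) : Integrable (fun V => Ht S A m a ξ b0 σ σC σA s D e l V) S.mu := by
  unfold Ht
  exact (integrable_Gt hS ha ξ b0 h hσA e hl).add (integrable_ite_evw σ s D)

theorem integral_Ht (hS : WO.Good S A) (ha : 0 < a) (h : Cnd S s σ σC) (hσA : σA ⊆ σC)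
    (hl : 0 ≤ l) (hD : 0 ≤ D) (hF : FT S A m a ξ b0 σ σC σA s e l ≤ M) :
    ∫ V, Ht S A m a ξ b0 σ σC σA s D e l V ∂(S.mu) ≤ M + PF S σ s * D := by
  unfold Ht
  rw [integral_add (integrable_Gt hS ha ξ b0 h hσA e hl) (integrable_ite_evw σ s D), ← FT_eq]
  exact add_le_add hF (integral_ite_evw h.pd hD)

theorem integrable_pair (hS : WO.Good S A) (ha : 0 < a) (h : Cnd S s σ σC)
    {T : Finset (Finset 𝔅)} (hT : ∀ σA ∈ T, σA ⊆ σC) {e1 e2 : ℝ} (hl : 0 ≤ l) :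
    Integrable (fun V => ∑ σA ∈ T, (Ht S A m a ξ b0 σ σC σA s D e1 l V +
      Ht S A m a ξ b0 σ σC σA s D e2 l V)) S.mu :=
  integrable_finsetSum _ fun σA hσA => (integrable_Ht hS ha h (hT σA hσA) hl).add
    (integrable_Ht hS ha h (hT σA hσA) hl)

theorem integral_pair (hS : WO.Good S A) (ha : 0 < a) (h : Cnd S s σ σC)
    {T : Finset (Finset 𝔅)} (hT : ∀ σA ∈ T, σA ⊆ σC) {e1 e2 : ℝ} (hl : 0 ≤ l) (hD : 0 ≤ D)
    (hF1 : ∀ σA ∈ T, FT S A m a ξ b0 σ σC σA s e1 l ≤ M)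
    (hF2 : ∀ σA ∈ T, FT S A m a ξ b0 σ σC σA s e2 l ≤ M)
    (hTc : T.card ≤ 2 ^ σ.card) (hM : 0 ≤ M + PF S σ s * D) :
    ∫ V, ∑ σA ∈ T, (Ht S A m a ξ b0 σ σC σA s D e1 l V +
      Ht S A m a ξ b0 σ σC σA s D e2 l V) ∂(S.mu) ≤
      2 ^ σ.card * (2 * (M + PF S σ s * D)) := by
  have hi : ∀ σA ∈ T, Integrable (fun V => Ht S A m a ξ b0 σ σC σA s D e1 l V +
      Ht S A m a ξ b0 σ σC σA s D e2 l V) S.mu := fun σA hσA =>
    (integrable_Ht hS ha h (hT σA hσA) hl).add (integrable_Ht hS ha h (hT σA hσA) hl)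
  rw [integral_finsetSum _ hi]
  calc ∑ σA ∈ T, ∫ V, (Ht S A m a ξ b0 σ σC σA s D e1 l V +
      Ht S A m a ξ b0 σ σC σA s D e2 l V) ∂(S.mu)
      ≤ ∑ σA ∈ T, 2 * (M + PF S σ s * D) := by
        refine Finset.sum_le_sum fun σA hσA => ?_
        rw [integral_add (integrable_Ht hS ha h (hT σA hσA) hl)
          (integrable_Ht hS ha h (hT σA hσA) hl), two_mul]
        exact add_le_add (integral_Ht hS ha h (hT σA hσA) hl hD (hF1 σA hσA))
          (integral_Ht hS ha h (hT σA hσA) hl hD (hF2 σA hσA))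
    _ = (T.card : ℝ) * (2 * (M + PF S σ s * D)) := by
        rw [Finset.sum_const, nsmul_eq_mul]
    _ ≤ 2 ^ σ.card * (2 * (M + PF S σ s * D)) := by
        refine mul_le_mul_of_nonneg_right ?_ (by linarith)
        exact_mod_cast hTc

theorem FT_nonneg (hS : WO.Good S A) (ha : 0 < a) (h : Cnd S s σ σC) (hσA : σA ⊆ σC)
    (hl : 0 ≤ l) : 0 ≤ FT S A m a ξ b0 σ σC σA s e l := by
  rw [FT_eq]
  exact integral_nonneg fun V => Gt_nonneg hS ha h hσA hl V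

theorem card_pow (h : σC ⊆ σ) : σC.powerset.card ≤ 2 ^ σ.card := by
  rw [Finset.card_powerset]
  exact Nat.pow_le_pow_right (by norm_num) (Finset.card_le_card h)

open Classical in
/-- the integral of the terms of `σ` -/
theorem integral_RA (hS : WO.Good S A) (ha : 0 < a) (ha1 : a ≤ 1 / 2) (hl0 : 0 ≤ l0)
    (hσ : PD S σ)
    (h1 : ∀ σA ⊆ σ, (∀ b ∈ σA, s ≠ S.w b) →
      (∀ b ∈ σ, s ∈ S.Q b → s = S.w b) → ∀ e : ℝ, (e = S.c ∨ e = -S.c) →
      FT S A m a ξ b0 σ σ σA s e l0 ≤ M)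
    (h2 : ∀ b ∈ σ, s ∈ S.Q b → s ≠ S.w b → ∀ σA ⊆ σ.erase b, ∀ e : ℝ,
      (e = S.lo b s ∨ e = S.hi b s) →
      FT S A m a ξ b0 σ (σ.erase b) σA s e (S.hi b s - S.lo b s) ≤ M)
    (h3 : ∀ b ∈ σ, s ∈ S.L b → ∀ σA ⊆ σ, ∀ e : ℝ,
      (e = S.lo b s ∨ e = S.hi b s) →
      FT S A m a ξ b0 σ σ σA s e (S.hi b s - S.lo b s) ≤ M)
    (hGi : 1 ≤ Gi σ) (hDn0 : 0 ≤ Dn σ) :
    Integrable (fun V => RA S A m a ξ b0 s l0 Gi Dn σ V) S.mu ∧
    ∫ V, RA S A m a ξ b0 s l0 Gi Dn σ V ∂(S.mu) ≤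
      2 ^ σ.card * (2 + 2 * Real.log (2 / a) * Gi σ + 4 * σ.card) *
          (M + PF S σ s * Dn σ) := by
  have hlog := log_nonneg' ha ha1
  have hP : 0 ≤ PF S σ s * Dn σ := mul_nonneg (PF_nonneg σ s) hDn0
  have hM : 0 ≤ M := by
    by_cases hc : ∀ b ∈ σ, s ∈ S.Q b → s = S.w b
    · exact (FT_nonneg hS ha (cnd1 hσ hc) (Finset.empty_subset σ) hl0).trans
        (h1 ∅ (Finset.empty_subset σ) (fun b hb => absurd hb (Finset.notMem_empty b)) hc S.c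
          (Or.inl rfl))
    · push Not at hc
      obtain ⟨b, hb, hs, hw⟩ := hc
      have hl : 0 ≤ S.hi b s - S.lo b s := sub_nonneg.mpr (S.lo_lt b s).le
      exact (FT_nonneg hS ha (cnd2 hσ hb hs) (Finset.empty_subset _) hl).trans
        (h2 b hb hs hw ∅ (Finset.empty_subset _) _ (Or.inl rfl))
  have hM' : 0 ≤ M + PF S σ s * Dn σ := add_nonneg hM hP
  -- (T1)
  have i1 : Integrable (fun V => R1 S A m a ξ b0 s l0 Gi Dn σ V) S.mu ∧
      ∫ V, R1 S A m a ξ b0 s l0 Gi Dn σ V ∂(S.mu) ≤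
        (1 + Real.log (2 / a) * Gi σ) * (2 ^ σ.card * (2 * (M + PF S σ s * Dn σ))) := by
    by_cases hc : ∀ b ∈ σ, s ∈ S.Q b → s = S.w b
    · unfold R1
      simp only [if_pos hc]
      have hT : ∀ σA ∈ σ.powerset.filter (fun σA => ∀ b ∈ σA, s ≠ S.w b), σA ⊆ σ :=
        fun σA hσA => Finset.mem_powerset.mp (Finset.mem_filter.mp hσA).1
      refine ⟨(integrable_pair hS ha (cnd1 hσ hc) hT hl0).const_mul _, ?_⟩
      rw [integral_const_mul]
      refine mul_le_mul_of_nonneg_left ?_ (by positivity)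
      refine integral_pair hS ha (cnd1 hσ hc) hT hl0 hDn0
        (fun σA hσA => h1 σA (hT σA hσA) (Finset.mem_filter.mp hσA).2 hc _ (Or.inl rfl))
        (fun σA hσA => h1 σA (hT σA hσA) (Finset.mem_filter.mp hσA).2 hc _ (Or.inr rfl)) ?_ hM'
      exact (Finset.card_filter_le _ _).trans (card_pow (Finset.Subset.refl σ))
    · unfold R1
      simp only [if_neg hc]
      refine ⟨integrable_zero _ _ _, ?_⟩
      rw [integral_zero]
      positivity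
  -- (T2)
  have i2 : ∀ b ∈ σ.filter (fun b => s ∈ S.Q b ∧ s ≠ S.w b),
      Integrable (fun V => R2 S A m a ξ b0 s Dn σ b V) S.mu ∧
      ∫ V, R2 S A m a ξ b0 s Dn σ b V ∂(S.mu) ≤
        2 ^ σ.card * (2 * (M + PF S σ s * Dn σ)) := by
    intro b hb'
    obtain ⟨hb, hs, hw⟩ := Finset.mem_filter.mp hb'
    have hl : 0 ≤ S.hi b s - S.lo b s := sub_nonneg.mpr (S.lo_lt b s).le
    have hT : ∀ σA ∈ (σ.erase b).powerset, σA ⊆ σ.erase b :=
      fun σA hσA => Finset.mem_powerset.mp hσA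
    unfold R2
    refine ⟨integrable_pair hS ha (cnd2 hσ hb hs) hT hl, ?_⟩
    exact integral_pair hS ha (cnd2 hσ hb hs) hT hl hDn0
      (fun σA hσA => h2 b hb hs hw σA (hT σA hσA) _ (Or.inl rfl))
      (fun σA hσA => h2 b hb hs hw σA (hT σA hσA) _ (Or.inr rfl))
      (card_pow (Finset.erase_subset _ _)) hM'
  -- (T3)
  have i3 : ∀ b ∈ σ.filter (fun b => s ∈ S.L b),
      Integrable (fun V => R3 S A m a ξ b0 s Dn σ b V) S.mu ∧
      ∫ V, R3 S A m a ξ b0 s Dn σ b V ∂(S.mu) ≤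
        2 ^ σ.card * (2 * (M + PF S σ s * Dn σ)) := by
    intro b hb'
    obtain ⟨hb, hL⟩ := Finset.mem_filter.mp hb'
    have hl : 0 ≤ S.hi b s - S.lo b s := sub_nonneg.mpr (S.lo_lt b s).le
    have hT : ∀ σA ∈ σ.powerset, σA ⊆ σ := fun σA hσA => Finset.mem_powerset.mp hσA
    unfold R3
    refine ⟨integrable_pair hS ha (cnd3 hσ hb hL) hT hl, ?_⟩
    exact integral_pair hS ha (cnd3 hσ hb hL) hT hl hDn0
      (fun σA hσA => h3 b hb hL σA (hT σA hσA) _ (Or.inl rfl))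
      (fun σA hσA => h3 b hb hL σA (hT σA hσA) _ (Or.inr rfl))
      (card_pow (Finset.Subset.refl _)) hM'
  have j2 : Integrable (fun V => ∑ b ∈ σ.filter (fun b => s ∈ S.Q b ∧ s ≠ S.w b),
      R2 S A m a ξ b0 s Dn σ b V) S.mu := integrable_finsetSum _ fun b hb => (i2 b hb).1
  have j3 : Integrable (fun V => ∑ b ∈ σ.filter (fun b => s ∈ S.L b),
      R3 S A m a ξ b0 s Dn σ b V) S.mu := integrable_finsetSum _ fun b hb => (i3 b hb).1
  have j12 : Integrable (fun V => R1 S A m a ξ b0 s l0 Gi Dn σ V +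
      ∑ b ∈ σ.filter (fun b => s ∈ S.Q b ∧ s ≠ S.w b), R2 S A m a ξ b0 s Dn σ b V) S.mu :=
    i1.1.add j2
  refine ⟨?_, ?_⟩
  · unfold RA
    exact j12.add j3
  · unfold RA
    rw [integral_add j12 j3, integral_add i1.1 j2,
      integral_finsetSum _ fun b hb => (i2 b hb).1, integral_finsetSum _ fun b hb => (i3 b hb).1]
    have k2 : ∑ b ∈ σ.filter (fun b => s ∈ S.Q b ∧ s ≠ S.w b),
        ∫ V, R2 S A m a ξ b0 s Dn σ b V ∂(S.mu) ≤
        σ.card * (2 ^ σ.card * (2 * (M + PF S σ s * Dn σ))) := by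
      refine (Finset.sum_le_sum fun b hb => (i2 b hb).2).trans ?_
      rw [Finset.sum_const, nsmul_eq_mul]
      refine mul_le_mul_of_nonneg_right ?_ (by positivity)
      exact_mod_cast Finset.card_filter_le _ _
    have k3 : ∑ b ∈ σ.filter (fun b => s ∈ S.L b),
        ∫ V, R3 S A m a ξ b0 s Dn σ b V ∂(S.mu) ≤
        σ.card * (2 ^ σ.card * (2 * (M + PF S σ s * Dn σ))) := by
      refine (Finset.sum_le_sum fun b hb => (i3 b hb).2).trans ?_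
      rw [Finset.sum_const, nsmul_eq_mul]
      refine mul_le_mul_of_nonneg_right ?_ (by positivity)
      exact_mod_cast Finset.card_filter_le _ _
    calc _ ≤ (1 + Real.log (2 / a) * Gi σ) * (2 ^ σ.card * (2 * (M + PF S σ s * Dn σ))) +
          σ.card * (2 ^ σ.card * (2 * (M + PF S σ s * Dn σ))) +
          σ.card * (2 ^ σ.card * (2 * (M + PF S σ s * Dn σ))) :=
          add_le_add (add_le_add i1.2 k2) k3
      _ = _ := by ring

end int

end SP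

theorem split (S : Sys ι 𝔅) (A : Matrix ι ι ℝ) (m : ℕ) (a : ℝ) (ξ : κ' → ι → ℝ)
    (good : Finset ι) (bs : ι → 𝔅) (j0 j1 l0 : ℝ) (hG : WO.Good S A)
    (hgeo : Geo S m ξ good bs j0 j1 l0) (ha : 0 < a) (ha1 : a ≤ 1 / 2) (s : ι) (hs : s ∈ good)
    (MF Gi Dn : Finset 𝔅 → ℝ)
    (h1 : ∀ σ ∈ Adm S m (bs s), σ.Nonempty → ∀ σA ⊆ σ, (∀ b ∈ σA, s ≠ S.w b) →
      (∀ b ∈ σ, s ∈ S.Q b → s = S.w b) → ∀ e : ℝ, (e = S.c ∨ e = -S.c) →
      FT S A m a ξ (bs s) σ σ σA s e l0 ≤ MF σ)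
    (h2 : ∀ σ ∈ Adm S m (bs s), ∀ b ∈ σ, s ∈ S.Q b → s ≠ S.w b → ∀ σA ⊆ σ.erase b, ∀ e : ℝ,
      (e = S.lo b s ∨ e = S.hi b s) →
      FT S A m a ξ (bs s) σ (σ.erase b) σA s e (S.hi b s - S.lo b s) ≤ MF σ)
    (h3 : ∀ σ ∈ Adm S m (bs s), ∀ b ∈ σ, s ∈ S.L b → ∀ σA ⊆ σ, ∀ e : ℝ,
      (e = S.lo b s ∨ e = S.hi b s) →
      FT S A m a ξ (bs s) σ σ σA s e (S.hi b s - S.lo b s) ≤ MF σ)
    (hGi : ∀ σ ∈ Adm S m (bs s), 1 ≤ Gi σ ∧ ∀ b ∈ σ, ∀ V, S.comp b V → (S.gg A b V)⁻¹ ≤ Gi σ)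
    (hDn : ∀ σ ∈ Adm S m (bs s), ∀ x ∈ Reg S (bs s) σ, ff ξ x s ≤ Dn σ)
    (hDn0 : ∀ σ, 0 ≤ Dn σ) :
    ∫ V, RHS S A m a ξ l0 s V ∂(S.mu) ≤
      F0 S A m a ξ (bs s) s S.c l0 + F0 S A m a ξ (bs s) s (-S.c) l0 + 2 * Dn ∅ +
      ∑ σ ∈ (Adm S m (bs s)).filter (·.Nonempty),
        2 ^ σ.card * (2 + 2 * Real.log (2 / a) * Gi σ + 4 * σ.card) *
          (MF σ + PF S σ s * Dn σ) := by
  classical
  have hw : S.w (bs s) = s := hgeo.bs_w s hs
  have hl0 : 0 ≤ l0 := hgeo.l0_pos.le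
  have hR : ∀ σ ∈ (Adm S m (bs s)).filter (·.Nonempty),
      Integrable (fun V => SP.RA S A m a ξ (bs s) s l0 Gi Dn σ V) S.mu ∧
      ∫ V, SP.RA S A m a ξ (bs s) s l0 Gi Dn σ V ∂(S.mu) ≤
        2 ^ σ.card * (2 + 2 * Real.log (2 / a) * Gi σ + 4 * σ.card) *
          (MF σ + PF S σ s * Dn σ) := by
    intro σ hσ
    obtain ⟨hσ1, hσ2⟩ := Finset.mem_filter.mp hσ
    exact SP.integral_RA hG ha ha1 hl0 (SP.mem_Adm.mp hσ1).2.2 (h1 σ hσ1 hσ2) (h2 σ hσ1)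
      (h3 σ hσ1) (hGi σ hσ1).1 (hDn0 σ)
  have i0 := SP.integrable_F0i (m := m) hG ha ξ (bs s) s S.c hl0
  have i1 := SP.integrable_F0i (m := m) hG ha ξ (bs s) s (-S.c) hl0
  have i2 : Integrable (fun V => ∑ σ ∈ (Adm S m (bs s)).filter (·.Nonempty),
      SP.RA S A m a ξ (bs s) s l0 Gi Dn σ V) S.mu := integrable_finsetSum _ fun σ hσ => (hR σ hσ).1
  have i3 : Integrable (fun _ : ι → ℝ => 2 * Dn ∅) S.mu := integrable_const _
  have i01 : Integrable (fun V => SP.F0i S A m a ξ (bs s) s S.c l0 V +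
      SP.F0i S A m a ξ (bs s) s (-S.c) l0 V) S.mu := i0.add i1
  have i013 : Integrable (fun V => SP.F0i S A m a ξ (bs s) s S.c l0 V +
      SP.F0i S A m a ξ (bs s) s (-S.c) l0 V + 2 * Dn ∅) S.mu := i01.add i3
  have hle : ∫ V, RHS S A m a ξ l0 s V ∂(S.mu) ≤
      ∫ V, (SP.F0i S A m a ξ (bs s) s S.c l0 V + SP.F0i S A m a ξ (bs s) s (-S.c) l0 V +
        2 * Dn ∅ + ∑ σ ∈ (Adm S m (bs s)).filter (·.Nonempty),
          SP.RA S A m a ξ (bs s) s l0 Gi Dn σ V) ∂(S.mu) := by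
    refine integral_mono_of_nonneg (Filter.Eventually.of_forall fun V => ?_)
      (i013.add i2) (Filter.Eventually.of_forall fun V => ?_)
    · exact SP.RHS_nonneg hG ha ha1 hl0 V
    · exact SP.RHS_le hG ha ha1 hw hl0 hGi hDn hDn0 V
  refine hle.trans ?_
  rw [integral_add i013 i2, integral_add i01 i3, integral_add i0 i1,
    integral_finsetSum _ fun σ hσ => (hR σ hσ).1, integral_const, probReal_univ, one_smul,
    ← SP.F0_eq, ← SP.F0_eq]
  exact add_le_add_right (Finset.sum_le_sum fun σ hσ => (hR σ hσ).2) _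

end Pool.Agent.Lib.MP_562b47_mp.LH
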