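import Pool.Agent.Lib.MP_562b47_mp.LH.Far
import Pool.Agent.Lib.MP_562b47_mp.LH.Split
import Pool.Agent.Lib.MP_562b47_mp.LH.Num
import Pool.Agent.Lib.MP_562b47_mp.WO.Lower

/-!
MP_562b47, Lemma H': the rate inequality (combination of all parts).
-/

open MeasureTheory Matrix Finset

namespace Pool.Agent.Lib.MP_562b47_mp.LH

open Pool.Agent.Lib.MP_562b47_mp.AL Pool.Agent.Lib.MP_562b47_mp.WO Pool.Agent.Lib.MP_562b47_mp.LW
  Pool.Agent.Lib.MP_562b47_mp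

section abs

variable {ι 𝔅 : Type} [Fintype ι] [DecidableEq ι] [Fintype 𝔅] [DecidableEq 𝔅]

/-- the abstract summation -/
theorem rate_abs (good : Finset ι) (d EY' EG' : ι → ℝ) (D N B C Z0 W0 D0 K2 Nn qb qc a : ℝ)
    (P : ι → ℝ) (hN : (Fintype.card ι : ℝ) = N) (ha : 0 < a) (ha1 : a ≤ 1)
    (hC : 0 ≤ C) (hZ0 : 0 ≤ Z0) (hW0 : 0 ≤ W0) (hD0 : 0 ≤ D0) (hK2 : 0 ≤ K2) (hNn : 0 ≤ Nn)
    (hD : 0 ≤ D) (hB : 0 ≤ B)
    (X Y : ι → ℝ) (hX0 : ∀ s ∈ good, 0 ≤ X s) (hE0 : ∀ s ∈ good, 0 ≤ EG' s)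
    (hgood : ∀ s ∈ good, d s ≤ C * (2 * (Z0 * (a ^ (-(1 / 2) : ℝ) * (W0 * EG' s) +
        a ^ (-(7 / 8) : ℝ) * ((2 + 2 * D0) * X s)) +
          C * a ^ (-(3 / 4) : ℝ) * ((2 + 2 * D0) * X s)) + 2 * D0 +
        (K2 * a⁻¹ * Y s + P s)))
    (hbad : ∀ s, s ∉ good → d s ≤ B)
    (hP : ∀ s ∈ good, P s ≤ 1) (hq : 0 ≤ 2 * Nn * qb + 2 * qc)
    (hX : ∑ s ∈ good, X s ≤ Nn * D) (hY : ∑ s ∈ good, Y s ≤ (2 * Nn * qb + 2 * qc) * D)
    (hE : ∑ s ∈ good, EG' s ≤ D) :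
    ∑ s, d s ≤ (2 * C * (Z0 * (W0 + (2 + 2 * D0) * Nn) + C * (2 + 2 * D0) * Nn) *
        a ^ (-(7 / 8) : ℝ) + C * K2 * (2 * Nn * qb + 2 * qc) * a⁻¹ + C * (2 * D0 + 1)) * (D + N) +
      B * ((univ \ good).card : ℝ) := by
  have hr2 : a ^ (-(1 / 2) : ℝ) ≤ a ^ (-(7 / 8) : ℝ) :=
    Real.rpow_le_rpow_of_exponent_ge ha ha1 (by norm_num)
  have hr4 : a ^ (-(3 / 4) : ℝ) ≤ a ^ (-(7 / 8) : ℝ) :=
    Real.rpow_le_rpow_of_exponent_ge ha ha1 (by norm_num)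
  have hr8 : 0 < a ^ (-(7 / 8) : ℝ) := Real.rpow_pos_of_pos ha _
  set r : ℝ := a ^ (-(7 / 8) : ℝ) with hr
  have hai : 0 < a⁻¹ := inv_pos.mpr ha
  have hN0 : 0 ≤ N := by rw [← hN]; positivity
  have hcard : ((good.card : ℕ) : ℝ) ≤ N := by
    rw [← hN]
    exact_mod_cast Finset.card_le_univ good
  -- the bad sites
  have h1 : ∑ s ∈ univ \ good, d s ≤ B * ((univ \ good).card : ℝ) := by
    have := Finset.sum_le_card_nsmul (univ \ good) d B fun s hs => hbad s (by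
      simpa using hs)
    rw [nsmul_eq_mul] at this
    linarith [mul_comm B ((univ \ good).card : ℝ)]
  -- the good sites
  have h2 : ∀ s ∈ good, d s ≤ C * (2 * Z0 * r * W0) * EG' s +
      C * (2 * (Z0 * r * (2 + 2 * D0) + C * r * (2 + 2 * D0))) * X s +
      C * (2 * D0 + 1) + C * K2 * a⁻¹ * Y s := by
    intro s hs
    refine (hgood s hs).trans ?_
    have e1 : Z0 * (a ^ (-(1 / 2) : ℝ) * (W0 * EG' s)) ≤ Z0 * (r * (W0 * EG' s)) :=
      mul_le_mul_of_nonneg_left (mul_le_mul_of_nonneg_right hr2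
        (mul_nonneg hW0 (hE0 s hs))) hZ0
    have e2 : C * a ^ (-(3 / 4) : ℝ) * ((2 + 2 * D0) * X s) ≤ C * r * ((2 + 2 * D0) * X s) :=
      mul_le_mul_of_nonneg_right (mul_le_mul_of_nonneg_left hr4 hC)
        (mul_nonneg (by linarith) (hX0 s hs))
    have e3 := hP s hs
    have e4 : 2 * (Z0 * (a ^ (-(1 / 2) : ℝ) * (W0 * EG' s) + r * ((2 + 2 * D0) * X s)) +
          C * a ^ (-(3 / 4) : ℝ) * ((2 + 2 * D0) * X s)) + 2 * D0 + (K2 * a⁻¹ * Y s + P s) ≤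
        2 * Z0 * r * W0 * EG' s + 2 * (Z0 * r * (2 + 2 * D0) + C * r * (2 + 2 * D0)) * X s +
          (2 * D0 + 1) + K2 * a⁻¹ * Y s := by
      nlinarith [e1, e2, e3]
    calc C * (2 * (Z0 * (a ^ (-(1 / 2) : ℝ) * (W0 * EG' s) + r * ((2 + 2 * D0) * X s)) +
          C * a ^ (-(3 / 4) : ℝ) * ((2 + 2 * D0) * X s)) + 2 * D0 + (K2 * a⁻¹ * Y s + P s))
        ≤ C * (2 * Z0 * r * W0 * EG' s + 2 * (Z0 * r * (2 + 2 * D0) + C * r * (2 + 2 * D0)) * X s +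
          (2 * D0 + 1) + K2 * a⁻¹ * Y s) := mul_le_mul_of_nonneg_left e4 hC
      _ = _ := by ring
  have h3 : ∑ s ∈ good, d s ≤ C * (2 * Z0 * r * W0) * ∑ s ∈ good, EG' s +
      C * (2 * (Z0 * r * (2 + 2 * D0) + C * r * (2 + 2 * D0))) * ∑ s ∈ good, X s +
      C * (2 * D0 + 1) * good.card + C * K2 * a⁻¹ * ∑ s ∈ good, Y s := by
    refine (Finset.sum_le_sum h2).trans (le_of_eq ?_)
    simp only [Finset.mul_sum, Finset.sum_add_distrib, Finset.sum_const, nsmul_eq_mul]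
    ring
  have h4 : C * (2 * Z0 * r * W0) * ∑ s ∈ good, EG' s ≤ C * (2 * Z0 * r * W0) * D :=
    mul_le_mul_of_nonneg_left hE (by positivity)
  have h5 : C * (2 * (Z0 * r * (2 + 2 * D0) + C * r * (2 + 2 * D0))) * ∑ s ∈ good, X s ≤
      C * (2 * (Z0 * r * (2 + 2 * D0) + C * r * (2 + 2 * D0))) * (Nn * D) :=
    mul_le_mul_of_nonneg_left hX (by positivity)
  have h6 : C * (2 * D0 + 1) * good.card ≤ C * (2 * D0 + 1) * N :=
    mul_le_mul_of_nonneg_left hcard (by positivity)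
  have h7 : C * K2 * a⁻¹ * ∑ s ∈ good, Y s ≤ C * K2 * a⁻¹ * ((2 * Nn * qb + 2 * qc) * D) :=
    mul_le_mul_of_nonneg_left hY (by positivity)
  have h8 : ∑ s, d s = ∑ s ∈ univ \ good, d s + ∑ s ∈ good, d s := by
    rw [Finset.sum_sdiff (Finset.subset_univ good)]
  rw [h8]
  have hn1 : 0 ≤ (2 * C * (Z0 * (W0 + (2 + 2 * D0) * Nn) + C * (2 + 2 * D0) * Nn) * r) * N := by
    positivity
  have hn3 : 0 ≤ C * (2 * D0 + 1) * D := by positivity
  have hn2 : 0 ≤ C * K2 * (2 * Nn * qb + 2 * qc) * a⁻¹ * N := by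
    -- needs `0 ≤ 2 Nn qb + 2 qc`
    exact mul_nonneg (mul_nonneg (mul_nonneg (mul_nonneg hC hK2) hq) hai.le) hN0
  nlinarith [h1, h3, h4, h5, h6, h7, hn1, hn2, hn3]

end abs

section parts

variable {ι 𝔅 κ' : Type} [Fintype ι] [DecidableEq ι] [Fintype 𝔅] [DecidableEq 𝔅] [Fintype κ']

/-- the constant in `ZZ` may be increased -/
theorem ZZ_mono {a C C' Γ : ℝ} {Lam Fz : Finset ι} {s : ι} (h0 : 0 ≤ C) (h : C ≤ C') (hΓ : 0 ≤ Γ)
    (ha : 0 < a) (ha1 : a ≤ 1 / 2) : ZZ a Lam Fz s C Γ ≤ ZZ a Lam Fz s C' Γ := by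
  unfold ZZ
  have hl : 0 ≤ Real.log (2 / a) := by
    apply Real.log_nonneg
    rw [le_div_iff₀ ha]; linarith
  have h1 : C ^ (3 * (BB Lam Fz s).card + 3) ≤ C' ^ (3 * (BB Lam Fz s).card + 3) :=
    pow_le_pow_left₀ h0 h _
  refine mul_le_mul_of_nonneg_right (mul_le_mul_of_nonneg_right (mul_le_mul_of_nonneg_right h1 ?_)
    ?_) ?_ <;> positivity

/-- the parts of the rate inequality that do not involve `C` -/
structure Parts (S : Sys ι 𝔅) (A : Matrix ι ι ℝ) (m : ℕ) (a : ℝ) (ξ : κ' → ι → ℝ)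
    (good : Finset ι) (bs : ι → 𝔅) (j0 j1 l0 Cp : ℝ) : Prop where
  pieces : ∀ s, S.Ex A (S.pim m 0) (fun Ac V => -S.dDs A ξ m a s Ac V) ≤
    Cp * ∫ V, RHS S A m a ξ l0 s V ∂(S.mu)
  EA_le : ∀ s ∈ good, ∀ σ ∈ Adm S m (bs s),
    EA S A m a ξ (Reg S (bs s) σ) j0 j1 ≤ ∑ y ∈ Reg S (bs s) σ, EY S A m a ξ y
  EY_nonneg : ∀ y, 0 ≤ EY S A m a ξ y
  EG_nonneg : ∀ b, 0 ≤ EG S A m a ξ b
  sum_EY : ∑ y, EY S A m a ξ y ≤ S.Dw A ξ m 0 a
  sum_EG : ∑ s ∈ good, EG S A m a ξ (bs s) ≤ S.Dw A ξ m 0 a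

/-- the summation lemma of helper60 -/
def SumHyp (S : Sys ι 𝔅) (m : ℕ) (good : Finset ι) (bs : ι → 𝔅) (Nn qb qc : ℝ) (q : 𝔅 → ℝ) :
    Prop :=
  ∀ E : ι → ℝ, (∀ y, 0 ≤ E y) →
    ∑ s ∈ good, ∑ y ∈ S.Q (bs s), E y ≤ Nn * ∑ y, E y ∧
    ∑ s ∈ good, ∑ σ ∈ (Adm S m (bs s)).filter (·.Nonempty), (∏ b ∈ σ, q b) *
      ∑ y ∈ Reg S (bs s) σ, E y ≤ (2 * Nn * qb + 2 * qc) * ∑ y, E y

/-- RATE INEQUALITY -/
theorem rate (c l1 : ℝ) (hc : 0 < c) (hl1 : 0 < l1) : ∃ C : ℝ, 1 ≤ C ∧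
    ∀ (ι 𝔅 κ' : Type) [Fintype ι] [DecidableEq ι] [Fintype 𝔅] [DecidableEq 𝔅] [Fintype κ']
      (S : Sys ι 𝔅) (A : Matrix ι ι ℝ) (m : ℕ) (a : ℝ) (ξ : κ' → ι → ℝ) (good : Finset ι)
      (bs : ι → 𝔅) (j0 j1 l0 : ℝ), S.c = c → WO.Good S A → Geo S m ξ good bs j0 j1 l0 →
      l1 ≤ j1 - j0 → 0 < a → a ≤ 1 / 2 →
    ∀ (Z0 W0 D0 K2 Nn qb qc : ℝ) (q : 𝔅 → ℝ),
      Num S A m a ξ good bs l0 C Z0 W0 D0 K2 Nn qb qc q →
      SumHyp S m good bs Nn qb qc q →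
      (∀ s ∈ good, ∑ σ ∈ (Adm S m (bs s)).filter (·.Nonempty), ∏ b ∈ σ, q b ≤ 1) →
    ∀ (Cp B : ℝ), 0 ≤ Cp → Parts S A m a ξ good bs j0 j1 l0 Cp → 0 ≤ B →
      (∀ s ∉ good, S.Ex A (S.pim m 0) (fun Ac V => -S.dDs A ξ m a s Ac V) ≤ B) →
      S.Ex A (S.pim m 0) (fun Ac V => -S.dDw A ξ m a Ac V) ≤
        (2 * (C * (Cp + 1)) * (Z0 * (W0 + (2 + 2 * D0) * Nn) + C * (Cp + 1) * (2 + 2 * D0) * Nn) *
          a ^ (-(7 / 8) : ℝ) + C * (Cp + 1) * K2 * (2 * Nn * qb + 2 * qc) * a⁻¹ +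
            C * (Cp + 1) * (2 * D0 + 1)) * (S.Dw A ξ m 0 a + (Fintype.card ι : ℝ)) +
          B * ((univ \ good).card : ℝ) := by
  obtain ⟨C1, hC1, H1⟩ := far_crude c l1 hc hl1
  obtain ⟨C2, hC2, H2⟩ := far_fine c l1 hc hl1
  refine ⟨max C1 C2, le_max_of_le_left hC1, ?_⟩
  intro ι 𝔅 κ' _ _ _ _ _ S A m a ξ good bs j0 j1 l0 hSc hG hgeo hlj ha ha1 Z0 W0 D0 K2 Nn qb qc q
    hN hSum hq1 Cp B hCp hP hB hbad
  classical
  set C := max C1 C2 with hCdef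
  have hC0 : 0 ≤ C := by linarith [le_max_left C1 C2]
  have hC1' : C1 ≤ C := le_max_left _ _
  have hC2' : C2 ≤ C := le_max_right _ _
  have hl : 0 ≤ Real.log (2 / a) := by
    apply Real.log_nonneg
    rw [le_div_iff₀ ha]; linarith
  have hEY := hP.EY_nonneg
  have hEG := hP.EG_nonneg
  set EY' : ι → ℝ := EY S A m a ξ with hEY'
  -- the good sites
  have key : ∀ s ∈ good, S.Ex A (S.pim m 0) (fun Ac V => -S.dDs A ξ m a s Ac V) ≤
      C * (Cp + 1) * (2 * (Z0 * (a ^ (-(1 / 2) : ℝ) * (W0 * EG S A m a ξ (bs s)) +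
        a ^ (-(7 / 8) : ℝ) * ((2 + 2 * D0) * ∑ y ∈ S.Q (bs s), EY' y)) +
          C * (Cp + 1) * a ^ (-(3 / 4) : ℝ) * ((2 + 2 * D0) * ∑ y ∈ S.Q (bs s), EY' y)) + 2 * D0 +
        (K2 * a⁻¹ * (∑ σ ∈ (Adm S m (bs s)).filter (·.Nonempty), (∏ b ∈ σ, q b) *
      ∑ y ∈ Reg S (bs s) σ, EY' y) + ∑ σ ∈ (Adm S m (bs s)).filter (·.Nonempty), ∏ b ∈ σ, q b)) := by
    intro s hs
    obtain ⟨Γ0, gm, hΓ0, hgm, hGF0, hgm', hD0', hZ0', hW0'⟩ := hN.fine s hs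
    have hcr := hN.crude s hs
    -- choice of the constants of the sets of blocks
    choose! Γf Gf Df hf using hcr
    set Dn : Finset 𝔅 → ℝ := fun σ => if σ ∈ Adm S m (bs s) ∧ σ.Nonempty then Df σ else D0
      with hDn
    set Gi : Finset 𝔅 → ℝ := fun σ => if σ ∈ Adm S m (bs s) ∧ σ.Nonempty then Gf σ else 1
      with hGi
    set Nσ : Finset 𝔅 → ℝ := fun σ =>
      2 ^ σ.card * (2 + 2 * Real.log (2 / a) * Gi σ + 4 * σ.card) with hNσ
    have hGi1 : ∀ σ, 1 ≤ Gi σ := by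
      intro σ
      simp only [hGi]
      split_ifs with h
      · exact (hf σ h.1 h.2).2.1
      · exact le_refl _
    have hNpos : ∀ σ, 0 < Nσ σ := by
      intro σ
      simp only [hNσ]
      have := hGi1 σ
      have h2 : 0 ≤ 2 * Real.log (2 / a) * Gi σ := by positivity
      positivity
    set MF : Finset 𝔅 → ℝ := fun σ => K2 * (∏ b ∈ σ, q b) / Nσ σ * a⁻¹ *
      ∑ y ∈ Reg S (bs s) σ, EY' y with hMF
    have hX : ∀ σ, 0 ≤ ∑ y ∈ Reg S (bs s) σ, EY' y := fun σ => Finset.sum_nonneg fun y _ => hEY y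
    -- the crude bound
    have hcrude : ∀ σ ∈ Adm S m (bs s), σ.Nonempty → ∀ σC ⊆ σ, ∀ σA ⊆ σC, ∀ e l : ℝ, |e| ≤ c →
        0 < l → l ≤ 2 * c → (∀ b ∈ σA, s ≠ S.w b) → (∀ b ∈ σC, s ∉ S.inn b) →
        HypGF S A m a ξ (bs s) σ σC σA s e l (Γf σ) →
        FT S A m a ξ (bs s) σ σC σA s e l ≤ MF σ := by
      intro σ hσ hne σC hσC σA hσA e l he hl0 hl2 hA hI hGF
      obtain ⟨hΓ, hG1, hD, -, hDx, -, -, -, hnum, -⟩ := hf σ hσ hne
      have hadm := (Finset.mem_filter.mp hσ).2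
      have h1 := H1 ι 𝔅 κ' S A m a ξ good bs j0 j1 l0 hSc hG hgeo hlj ha ha1 s σ σC σA e l (Γf σ)
        (Df σ) hs hadm.1 hadm.2.1 hadm.2.2 hσC hσA he hl0 hl2 hΓ hA hI
        (fun y hy => by rw [ff_comm]; exact hDx y hy) hGF
      refine h1.trans ?_
      have h2 := hP.EA_le s hs σ hσ
      have hZ : ZZ a (Lm S (bs s) σ σA s) (Fz S σ σA s) s C1 (Γf σ) ≤
          ZZ a (Lm S (bs s) σ σA s) (Fz S σ σA s) s C (Γf σ) :=
        ZZ_mono (by linarith) hC1' (by linarith) ha ha1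
      have hZ1 : 0 ≤ ZZ a (Lm S (bs s) σ σA s) (Fz S σ σA s) s C1 (Γf σ) := by
        unfold ZZ
        positivity
      have hPF : 0 ≤ PF S σ s := by
        unfold PF
        refine Finset.prod_nonneg fun b _ => Finset.prod_nonneg fun x _ => ?_
        exact div_nonneg (sub_nonneg.mpr (S.lo_lt b x).le) (by linarith [S.c_pos])
      have h3 := hnum σA (hσA.trans hσC)
      have hGiσ : Gi σ = Gf σ := by simp only [hGi]; rw [if_pos ⟨hσ, hne⟩]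
      have h4 : PF S σ s * ZZ a (Lm S (bs s) σ σA s) (Fz S σ σA s) s C (Γf σ) * (2 + 2 * Df σ) ≤
          K2 * (∏ b ∈ σ, q b) / Nσ σ := by
        rw [le_div_iff₀ (hNpos σ)]
        simp only [hNσ, hGiσ]
        linarith
      calc PF S σ s * ZZ a (Lm S (bs s) σ σA s) (Fz S σ σA s) s C1 (Γf σ) * a⁻¹ *
            (2 + 2 * Df σ) * EA S A m a ξ (Reg S (bs s) σ) j0 j1
          ≤ PF S σ s * ZZ a (Lm S (bs s) σ σA s) (Fz S σ σA s) s C1 (Γf σ) * a⁻¹ *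
            (2 + 2 * Df σ) * ∑ y ∈ Reg S (bs s) σ, EY' y := by
            refine mul_le_mul_of_nonneg_left h2 ?_
            have : 0 ≤ a⁻¹ := (inv_pos.mpr ha).le
            positivity
        _ ≤ PF S σ s * ZZ a (Lm S (bs s) σ σA s) (Fz S σ σA s) s C (Γf σ) * a⁻¹ *
            (2 + 2 * Df σ) * ∑ y ∈ Reg S (bs s) σ, EY' y := by
            have : 0 ≤ a⁻¹ := (inv_pos.mpr ha).le
            gcongr
            exact hX σ
        _ = PF S σ s * ZZ a (Lm S (bs s) σ σA s) (Fz S σ σA s) s C (Γf σ) *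
            (2 + 2 * Df σ) * (a⁻¹ * ∑ y ∈ Reg S (bs s) σ, EY' y) := by ring
        _ ≤ K2 * (∏ b ∈ σ, q b) / Nσ σ * (a⁻¹ * ∑ y ∈ Reg S (bs s) σ, EY' y) := by
            refine mul_le_mul_of_nonneg_right h4 ?_
            exact mul_nonneg (inv_pos.mpr ha).le (hX σ)
        _ = MF σ := by simp only [hMF]; ring
    -- the splitting
    have hsplit := split S A m a ξ good bs j0 j1 l0 hG hgeo ha ha1 s hs MF Gi Dn
      (by
        intro σ hσ hne σA hσA hA hQ e he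
        refine hcrude σ hσ hne σ (Finset.Subset.refl _) σA hσA e l0 ?_ hgeo.l0_pos ?_ hA ?_ ?_
        · rcases he with rfl | rfl
          · rw [hSc, abs_of_pos hc]
          · rw [abs_neg, hSc, abs_of_pos hc]
        · have := hgeo.l0_le; rw [hSc] at this; linarith
        · intro b hb hin
          have hm : s ∈ S.Q b := by
            unfold Sys.inn at hin
            exact (Finset.mem_sdiff.mp (Finset.mem_of_mem_erase hin)).1
          have := hQ b hb hm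
          unfold Sys.inn at hin
          exact (Finset.ne_of_mem_erase hin) this
        · exact (hf σ hσ hne).2.2.2.2.2.1 σA hσA hA hQ e he)
      (by
        intro σ hσ b hb hQ hw σA hσA e he
        have hadm := (Finset.mem_filter.mp hσ).2
        have hoff : ∀ b' ∈ σ.erase b, s ∉ S.Q b' := by
          intro b' hb' hs'
          have hne := Finset.ne_of_mem_erase hb'
          exact (Finset.disjoint_left.mp (hadm.2.2 b' (Finset.mem_of_mem_erase hb') b hb hne))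
            hs' hQ
        refine hcrude σ hσ ⟨b, hb⟩ (σ.erase b) (Finset.erase_subset _ _) σA hσA e _ ?_ ?_ ?_ ?_ ?_ ?_
        · have h1 := S.lo_ge b s
          have h2 := S.hi_le b s
          have h3 := S.lo_lt b s
          rw [hSc] at h1 h2
          rcases he with rfl | rfl <;> rw [abs_le] <;> constructor <;> linarith
        · linarith [S.lo_lt b s]
        · have h1 := S.lo_ge b s
          have h2 := S.hi_le b s
          rw [hSc] at h1 h2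
          linarith
        · intro b' hb' h
          exact hoff b' (hσA hb') (h ▸ S.w_mem b')
        · intro b' hb' hin
          refine hoff b' hb' ?_
          unfold Sys.inn at hin
          exact (Finset.mem_sdiff.mp (Finset.mem_of_mem_erase hin)).1
        · exact (hf σ hσ ⟨b, hb⟩).2.2.2.2.2.2.1 b hb hQ hw σA hσA e he)
      (by
        intro σ hσ b hb hL σA hσA e he
        have hadm := (Finset.mem_filter.mp hσ).2
        have hQ : s ∈ S.Q b := S.L_sub b hL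
        have hoff : ∀ b' ∈ σ, b' ≠ b → s ∉ S.Q b' := by
          intro b' hb' hne hs'
          exact (Finset.disjoint_left.mp (hadm.2.2 b' hb' b hb hne)) hs' hQ
        refine hcrude σ hσ ⟨b, hb⟩ σ (Finset.Subset.refl _) σA hσA e _ ?_ ?_ ?_ ?_ ?_ ?_
        · have h1 := S.lo_ge b s
          have h2 := S.hi_le b s
          have h3 := S.lo_lt b s
          rw [hSc] at h1 h2
          rcases he with rfl | rfl <;> rw [abs_le] <;> constructor <;> linarith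
        · linarith [S.lo_lt b s]
        · have h1 := S.lo_ge b s
          have h2 := S.hi_le b s
          rw [hSc] at h1 h2
          linarith
        · intro b' hb' h
          by_cases hbb : b' = b
          · subst hbb
            exact S.w_not b' (h ▸ hL)
          · exact hoff b' (hσA hb') hbb (h ▸ S.w_mem b')
        · intro b' hb' hin
          unfold Sys.inn at hin
          have h1 := Finset.mem_sdiff.mp (Finset.mem_of_mem_erase hin)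
          by_cases hbb : b' = b
          · subst hbb
            exact h1.2 hL
          · exact hoff b' hb' hbb h1.1
        · exact (hf σ hσ ⟨b, hb⟩).2.2.2.2.2.2.2.1 b hb hL σA hσA e he)
      (by
        intro σ hσ
        refine ⟨hGi1 σ, ?_⟩
        intro b hb V hV
        have hne : σ.Nonempty := ⟨b, hb⟩
        simp only [hGi]
        rw [if_pos ⟨hσ, hne⟩]
        exact (hf σ hσ hne).2.2.2.1 b hb V hV)
      (by
        intro σ hσ x hx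
        simp only [hDn]
        split_ifs with h
        · exact (hf σ hσ h.2).2.2.2.2.1 x hx
        · have he : σ = ∅ := by
            by_contra hne
            exact h ⟨hσ, Finset.nonempty_iff_ne_empty.mpr hne⟩
          subst he
          rw [ff_comm]
          apply hD0' x
          unfold Reg at hx
          simpa using hx)
      (by
        intro σ
        simp only [hDn]
        split_ifs with h
        · exact (hf σ h.1 h.2).2.2.1
        · exact hN.D0_nonneg)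
    -- the fine bound
    have hEA0 : EA S A m a ξ (S.Q (bs s)) j0 j1 ≤ ∑ y ∈ S.Q (bs s), EY' y := by
      have h := hP.EA_le s hs ∅ (by
        unfold Adm
        simp)
      have he : Reg S (bs s) ∅ = S.Q (bs s) := by
        unfold Reg
        simp
      rw [he] at h
      exact h
    have hfine : ∀ e : ℝ, (e = S.c ∨ e = -S.c) → F0 S A m a ξ (bs s) s e l0 ≤
        Z0 * (a ^ (-(1 / 2) : ℝ) * (W0 * EG S A m a ξ (bs s)) +
          a ^ (-(7 / 8) : ℝ) * ((2 + 2 * D0) * ∑ y ∈ S.Q (bs s), EY' y)) +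
          C * a ^ (-(3 / 4) : ℝ) * ((2 + 2 * D0) * ∑ y ∈ S.Q (bs s), EY' y) := by
      intro e he
      have h1 := H2 ι 𝔅 κ' S A m a ξ good bs j0 j1 l0 hSc hG hgeo hlj ha ha1 s e Γ0 D0 gm hs
        (by rwa [hSc] at he) hΓ0 hgm hgm' hD0' (hGF0 e he)
      refine h1.trans ?_
      have hZ : ZZ a (Lm S (bs s) ∅ ∅ s) ∅ s C2 Γ0 ≤ Z0 :=
        (ZZ_mono (by linarith) hC2' (by linarith) ha ha1).trans hZ0'
      have hZ1 : 0 ≤ ZZ a (Lm S (bs s) ∅ ∅ s) ∅ s C2 Γ0 := by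
        unfold ZZ
        positivity
      have hr2 : 0 ≤ a ^ (-(1 / 2) : ℝ) := (Real.rpow_pos_of_pos ha _).le
      have hr4 : 0 ≤ a ^ (-(3 / 4) : ℝ) := (Real.rpow_pos_of_pos ha _).le
      have hr8 : 0 ≤ a ^ (-(7 / 8) : ℝ) := (Real.rpow_pos_of_pos ha _).le
      have hD2 : 0 ≤ 2 + 2 * D0 := by linarith [hN.D0_nonneg]
      have hX0 : 0 ≤ ∑ y ∈ S.Q (bs s), EY' y := Finset.sum_nonneg fun y _ => hEY y
      have e1 : WG S (bs s) * (S.κ * gm ^ 2)⁻¹ * EG S A m a ξ (bs s) ≤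
          W0 * EG S A m a ξ (bs s) := mul_le_mul_of_nonneg_right hW0' (hEG _)
      have e2 : a ^ (-(7 / 8) : ℝ) * (2 + 2 * D0) * EA S A m a ξ (S.Q (bs s)) j0 j1 ≤
          a ^ (-(7 / 8) : ℝ) * ((2 + 2 * D0) * ∑ y ∈ S.Q (bs s), EY' y) := by
        rw [mul_assoc]
        exact mul_le_mul_of_nonneg_left (mul_le_mul_of_nonneg_left hEA0 hD2) hr8
      have e3 : a ^ (-(1 / 2) : ℝ) * (WG S (bs s) * (S.κ * gm ^ 2)⁻¹ * EG S A m a ξ (bs s)) +
          a ^ (-(7 / 8) : ℝ) * (2 + 2 * D0) * EA S A m a ξ (S.Q (bs s)) j0 j1 ≤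
          a ^ (-(1 / 2) : ℝ) * (W0 * EG S A m a ξ (bs s)) +
          a ^ (-(7 / 8) : ℝ) * ((2 + 2 * D0) * ∑ y ∈ S.Q (bs s), EY' y) :=
        add_le_add (mul_le_mul_of_nonneg_left e1 hr2) e2
      have e4 : 0 ≤ a ^ (-(1 / 2) : ℝ) * (W0 * EG S A m a ξ (bs s)) +
          a ^ (-(7 / 8) : ℝ) * ((2 + 2 * D0) * ∑ y ∈ S.Q (bs s), EY' y) := by
        have := hN.W0_nonneg
        have := hEG (bs s)
        positivity
      have e5 : ZZ a (Lm S (bs s) ∅ ∅ s) ∅ s C2 Γ0 *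
          (a ^ (-(1 / 2) : ℝ) * (WG S (bs s) * (S.κ * gm ^ 2)⁻¹ * EG S A m a ξ (bs s)) +
          a ^ (-(7 / 8) : ℝ) * (2 + 2 * D0) * EA S A m a ξ (S.Q (bs s)) j0 j1) ≤
          Z0 * (a ^ (-(1 / 2) : ℝ) * (W0 * EG S A m a ξ (bs s)) +
          a ^ (-(7 / 8) : ℝ) * ((2 + 2 * D0) * ∑ y ∈ S.Q (bs s), EY' y)) :=
        (mul_le_mul_of_nonneg_left e3 hZ1).trans (mul_le_mul_of_nonneg_right hZ e4)
      have e6 : C2 * a ^ (-(3 / 4) : ℝ) * (2 + 2 * D0) * ∑ y ∈ S.Q (bs s), EY' y ≤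
          C * a ^ (-(3 / 4) : ℝ) * ((2 + 2 * D0) * ∑ y ∈ S.Q (bs s), EY' y) := by
        rw [mul_assoc (C2 * a ^ (-(3 / 4) : ℝ))]
        exact mul_le_mul_of_nonneg_right (mul_le_mul_of_nonneg_right hC2' hr4)
          (mul_nonneg hD2 hX0)
      exact add_le_add e5 e6
    -- the sum over `σ`
    have hsum : ∑ σ ∈ (Adm S m (bs s)).filter (·.Nonempty),
        2 ^ σ.card * (2 + 2 * Real.log (2 / a) * Gi σ + 4 * σ.card) *
          (MF σ + PF S σ s * Dn σ) ≤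
        K2 * a⁻¹ * (∑ σ ∈ (Adm S m (bs s)).filter (·.Nonempty), (∏ b ∈ σ, q b) *
          ∑ y ∈ Reg S (bs s) σ, EY' y) +
        ∑ σ ∈ (Adm S m (bs s)).filter (·.Nonempty), ∏ b ∈ σ, q b := by
      rw [Finset.mul_sum, ← Finset.sum_add_distrib]
      refine Finset.sum_le_sum fun σ hσ => ?_
      obtain ⟨hσ1, hσ2⟩ := Finset.mem_filter.mp hσ
      have h1 : 2 ^ σ.card * (2 + 2 * Real.log (2 / a) * Gi σ + 4 * σ.card) = Nσ σ := rfl
      rw [mul_add, h1]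
      refine add_le_add ?_ ?_
      · simp only [hMF]
        have := (hNpos σ).ne'
        refine le_of_eq ?_
        field_simp
      · have h2 := (hf σ hσ1 hσ2).2.2.2.2.2.2.2.2.2
        have hGiσ : Gi σ = Gf σ := by simp only [hGi]; rw [if_pos ⟨hσ1, hσ2⟩]
        have hDnσ : Dn σ = Df σ := by simp only [hDn]; rw [if_pos ⟨hσ1, hσ2⟩]
        rw [← h1, hGiσ, hDnσ]
        exact h2
    have hDn0 : Dn ∅ = D0 := by
      simp only [hDn]
      rw [if_neg]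
      rintro ⟨-, h⟩
      exact Finset.not_nonempty_empty h
    have hf1 := hfine S.c (Or.inl rfl)
    have hf2 := hfine (-S.c) (Or.inr rfl)
    rw [hDn0] at hsplit
    set T1 := Z0 * (a ^ (-(1 / 2) : ℝ) * (W0 * EG S A m a ξ (bs s)) +
        a ^ (-(7 / 8) : ℝ) * ((2 + 2 * D0) * ∑ y ∈ S.Q (bs s), EY' y)) with hT1
    set T2 := (2 + 2 * D0) * ∑ y ∈ S.Q (bs s), EY' y with hT2
    set T3 := K2 * a⁻¹ * (∑ σ ∈ (Adm S m (bs s)).filter (·.Nonempty), (∏ b ∈ σ, q b) *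
          ∑ y ∈ Reg S (bs s) σ, EY' y) +
        ∑ σ ∈ (Adm S m (bs s)).filter (·.Nonempty), ∏ b ∈ σ, q b with hT3
    have hr4 : 0 ≤ a ^ (-(3 / 4) : ℝ) := (Real.rpow_pos_of_pos ha _).le
    have hr8 : 0 ≤ a ^ (-(7 / 8) : ℝ) := (Real.rpow_pos_of_pos ha _).le
    have hr2 : 0 ≤ a ^ (-(1 / 2) : ℝ) := (Real.rpow_pos_of_pos ha _).le
    have hX0 : 0 ≤ ∑ y ∈ S.Q (bs s), EY' y := Finset.sum_nonneg fun y _ => hEY y
    have hT2n : 0 ≤ T2 := mul_nonneg (by linarith [hN.D0_nonneg]) hX0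
    have hT1n : 0 ≤ T1 := by
      have := hN.Z0_nonneg
      have := hN.W0_nonneg
      have := hEG (bs s)
      rw [hT1]
      positivity
    have hT3n : 0 ≤ T3 := by
      rw [hT3]
      have h1 : ∀ σ : Finset 𝔅, 0 ≤ ∏ b ∈ σ, q b := fun σ =>
        Finset.prod_nonneg fun b _ => hN.q_nonneg b
      have h2 := hN.K2_nonneg
      have h3 : 0 ≤ a⁻¹ := (inv_pos.mpr ha).le
      have h4 : 0 ≤ ∑ σ ∈ (Adm S m (bs s)).filter (·.Nonempty), (∏ b ∈ σ, q b) *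
          ∑ y ∈ Reg S (bs s) σ, EY' y :=
        Finset.sum_nonneg fun σ _ => mul_nonneg (h1 σ) (hX σ)
      have h5 : 0 ≤ ∑ σ ∈ (Adm S m (bs s)).filter (·.Nonempty), ∏ b ∈ σ, q b :=
        Finset.sum_nonneg fun σ _ => h1 σ
      positivity
    have htot : ∫ V, RHS S A m a ξ l0 s V ∂(S.mu) ≤
        2 * (T1 + C * a ^ (-(3 / 4) : ℝ) * T2) + 2 * D0 + T3 := by linarith
    have hD0n := hN.D0_nonneg
    have hCC : Cp ≤ C * (Cp + 1) := by nlinarith [le_max_left C1 C2]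
    have hC1C : C ≤ C * (Cp + 1) := by nlinarith
    calc S.Ex A (S.pim m 0) (fun Ac V => -S.dDs A ξ m a s Ac V)
        ≤ Cp * ∫ V, RHS S A m a ξ l0 s V ∂(S.mu) := hP.pieces s
      _ ≤ Cp * (2 * (T1 + C * a ^ (-(3 / 4) : ℝ) * T2) + 2 * D0 + T3) :=
          mul_le_mul_of_nonneg_left htot hCp
      _ ≤ C * (Cp + 1) * (2 * (T1 + C * (Cp + 1) * a ^ (-(3 / 4) : ℝ) * T2) + 2 * D0 + T3) := by
          refine mul_le_mul hCC ?_ (by positivity) (by positivity)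
          gcongr
  rw [S.Ex_neg_dDw hG ξ m ha (S.adm_pim m (le_refl 0) zero_le_one)]
  have hDw : 0 ≤ S.Dw A ξ m 0 a := le_trans (Finset.sum_nonneg fun y _ => hEY y) hP.sum_EY
  have hS1 := hSum EY' hEY
  refine rate_abs good _ EY' (fun s => EG S A m a ξ (bs s)) (S.Dw A ξ m 0 a) (Fintype.card ι) B
    (C * (Cp + 1)) Z0 W0 D0 K2 Nn qb qc a
    (fun s => ∑ σ ∈ (Adm S m (bs s)).filter (·.Nonempty), ∏ b ∈ σ, q b) rfl ha (by linarith)
    (by positivity) hN.Z0_nonneg hN.W0_nonneg hN.D0_nonneg hN.K2_nonneg hN.Nn_nonneg hDw hB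
    (fun s => ∑ y ∈ S.Q (bs s), EY' y)
    (fun s => ∑ σ ∈ (Adm S m (bs s)).filter (·.Nonempty), (∏ b ∈ σ, q b) *
      ∑ y ∈ Reg S (bs s) σ, EY' y)
    (fun s _ => Finset.sum_nonneg fun y _ => hEY y) (fun s _ => hEG _) key hbad
    (fun s hs => hq1 s hs) ?_ ?_ ?_ hP.sum_EG
  · have := hN.Nn_nonneg
    have := hN.qb_nonneg
    have := hN.qc_nonneg
    positivity
  · exact hS1.1.trans (mul_le_mul_of_nonneg_left hP.sum_EY hN.Nn_nonneg)
  · refine hS1.2.trans (mul_le_mul_of_nonneg_left hP.sum_EY ?_)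
    have := hN.Nn_nonneg
    have := hN.qb_nonneg
    have := hN.qc_nonneg
    positivity

end parts

end Pool.Agent.Lib.MP_562b47_mp.LH
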