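import Pool.Agent.Lib.MP_562b47_mp.AL.Deriv
import Pool.Agent.Lib.MP_562b47_mp.SL.Shape

/-!
MP_562b47, Lemma H' (lowering the background), one variable: the derivative integral over an interval
is controlled by the end points.
-/

open MeasureTheory Set

namespace Pool.Agent.Lib.MP_562b47_mp.LH.Pc

open Pool.Agent.Lib.MP_562b47_mp.AL Pool.Agent.Lib.MP_562b47_mp

/-- `∫₀ˡ dt / |e - i t - y|²` -/
noncomputable def JJe (e l : ℝ) (y : ℂ) : ℝ :=
  ∫ t in (0 : ℝ)..l, 1 / ‖(e : ℂ) - (t : ℂ) * Complex.I - y‖ ^ 2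

theorem den_pos {y : ℂ} (hy : 0 < y.im) (e : ℝ) {t : ℝ} (ht : 0 ≤ t) :
    0 < ‖(e : ℂ) - (t : ℂ) * Complex.I - y‖ := by
  rw [norm_pos_iff]
  intro h
  have := congrArg Complex.im h
  simp at this
  linarith

theorem continuous_den (e : ℝ) (y : ℂ) :
    Continuous fun t : ℝ => ‖(e : ℂ) - (t : ℂ) * Complex.I - y‖ ^ 2 := by
  fun_prop

theorem intervalIntegrable_J {y : ℂ} (hy : 0 < y.im) (e : ℝ) {l : ℝ} (hl : 0 ≤ l) :
    IntervalIntegrable (fun t : ℝ => 1 / ‖(e : ℂ) - (t : ℂ) * Complex.I - y‖ ^ 2) volume 0 l := by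
  refine ContinuousOn.intervalIntegrable ?_
  rw [uIcc_of_le hl]
  refine continuousOn_const.div (continuous_den e y).continuousOn fun t ht => ?_
  have := den_pos hy e ht.1
  positivity

theorem JJe_nonneg (e : ℝ) {l : ℝ} (hl : 0 ≤ l) (y : ℂ) : 0 ≤ JJe e l y :=
  intervalIntegral.integral_nonneg hl fun t _ => by positivity

/-- lower bound -/
theorem le_JJe {y : ℂ} (hy : 0 < y.im) (e : ℝ) {l : ℝ} (hl : 0 ≤ l) :
    l / (‖(e : ℂ) - y‖ * (‖(e : ℂ) - y‖ + l)) ≤ JJe e l y := by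
  set w := ‖(e : ℂ) - y‖ with hw
  have hw0 : 0 < w := by
    have := den_pos hy e (le_refl (0 : ℝ))
    simpa [hw] using this
  have h1 : ∀ t ∈ Icc (0 : ℝ) l, 1 / (w + t) ^ 2 ≤ 1 / ‖(e : ℂ) - (t : ℂ) * Complex.I - y‖ ^ 2 := by
    intro t ht
    have h2 := den_pos hy e ht.1
    have h3 : ‖(e : ℂ) - (t : ℂ) * Complex.I - y‖ ≤ w + t := by
      have : (e : ℂ) - (t : ℂ) * Complex.I - y = ((e : ℂ) - y) - (t : ℂ) * Complex.I := by ring
      rw [this]
      refine (norm_sub_le _ _).trans (le_of_eq ?_)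
      rw [norm_mul, Complex.norm_I, mul_one, Complex.norm_real, Real.norm_of_nonneg ht.1]
    exact one_div_le_one_div_of_le (by positivity) (by gcongr)
  have h4 : ∫ t in (0 : ℝ)..l, 1 / (w + t) ^ 2 = 1 / w - 1 / (w + l) := by
    have hd : ∀ t ∈ uIcc (0 : ℝ) l, HasDerivAt (fun t : ℝ => -(w + t)⁻¹) (1 / (w + t) ^ 2) t := by
      intro t ht
      rw [uIcc_of_le hl] at ht
      have h5 : w + t ≠ 0 := by have := ht.1; positivity
      have h6 := ((hasDerivAt_id t).const_add w).inv h5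
      have h7 := h6.neg
      refine h7.congr_deriv ?_
      simp only [id]
      field_simp
    have hc : ContinuousOn (fun t : ℝ => 1 / (w + t) ^ 2) (uIcc 0 l) := by
      rw [uIcc_of_le hl]
      refine continuousOn_const.div (by fun_prop) fun t ht => ?_
      have := ht.1
      positivity
    rw [intervalIntegral.integral_eq_sub_of_hasDerivAt hd hc.intervalIntegrable]
    simp only [add_zero, one_div]
    ring
  have h5 : l / (w * (w + l)) = 1 / w - 1 / (w + l) := by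
    have : 0 < w + l := by positivity
    field_simp
    ring
  rw [h5, ← h4]
  refine intervalIntegral.integral_mono_on hl ?_ (intervalIntegrable_J hy e hl) h1
  refine ContinuousOn.intervalIntegrable ?_
  rw [uIcc_of_le hl]
  refine continuousOn_const.div (by fun_prop) fun t ht => ?_
  have := ht.1
  positivity

/-- the explicit integral -/
theorem integral_inv_sq {y : ℂ} (hy : 0 < y.im) (e1 e2 : ℝ) :
    ∫ v in e1..e2, 1 / ((v : ℂ) - y) ^ 2 = 1 / ((e1 : ℂ) - y) - 1 / ((e2 : ℂ) - y) := by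
  have hne : ∀ v : ℝ, (v : ℂ) - y ≠ 0 := fun v => sub_ne hy v
  have hd : ∀ v ∈ uIcc e1 e2, HasDerivAt (fun v : ℝ => -((v : ℂ) - y)⁻¹) (1 / ((v : ℂ) - y) ^ 2) v := by
    intro v _
    have h1 : HasDerivAt (fun v : ℝ => (v : ℂ) - y) 1 v :=
      (Complex.ofRealCLM.hasDerivAt (x := v)).sub_const y
    have h2 := (h1.inv (hne v)).neg
    refine h2.congr_deriv ?_
    have := hne v
    field_simp
  have hc : Continuous fun v : ℝ => 1 / ((v : ℂ) - y) ^ 2 := by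
    refine continuous_const.div ?_ fun v => pow_ne_zero 2 (hne v)
    fun_prop
  rw [intervalIntegral.integral_eq_sub_of_hasDerivAt hd (hc.intervalIntegrable _ _)]
  simp only [one_div]
  ring

theorem norm_sub_inv {y : ℂ} (hy : 0 < y.im) {e1 e2 : ℝ} (h : e1 ≤ e2) :
    ‖1 / ((e1 : ℂ) - y) - 1 / ((e2 : ℂ) - y)‖ = (e2 - e1) / (‖(e1 : ℂ) - y‖ * ‖(e2 : ℂ) - y‖) := by
  have h1 := sub_ne hy e1
  have h2 := sub_ne hy e2
  have h3 : 1 / ((e1 : ℂ) - y) - 1 / ((e2 : ℂ) - y) =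
      (((e2 - e1 : ℝ)) : ℂ) / (((e1 : ℂ) - y) * ((e2 : ℂ) - y)) := by
    field_simp
    push_cast
    ring
  rw [h3, norm_div, norm_mul, Complex.norm_real, Real.norm_of_nonneg (by linarith)]

/-- OV1, with `l0 ≤ e2 - e1` -/
theorem ov1 {y : ℂ} (hy : 0 < y.im) {e1 e2 l0 : ℝ} (h0 : 0 < l0) (h : l0 ≤ e2 - e1) :
    ‖∫ v in e1..e2, 1 / ((v : ℂ) - y) ^ 2‖ ≤
      3 * (e2 - e1) / l0 * (JJe e1 l0 y + JJe e2 l0 y) := by
  rw [integral_inv_sq hy, norm_sub_inv hy (by linarith)]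
  set p := ‖(e1 : ℂ) - y‖ with hp
  set q := ‖(e2 : ℂ) - y‖ with hq
  set l := e2 - e1 with hl
  have hl0 : 0 < l := by linarith
  have hp0 : 0 < p := norm_pos_iff.mpr (sub_ne hy e1)
  have hq0 : 0 < q := norm_pos_iff.mpr (sub_ne hy e2)
  have hpq : l ≤ p + q := by
    have h1 : (l : ℝ) = ‖((e2 : ℂ) - y) - ((e1 : ℂ) - y)‖ := by
      have : ((e2 : ℂ) - y) - ((e1 : ℂ) - y) = ((l : ℝ) : ℂ) := by rw [hl]; push_cast; ring
      rw [this, Complex.norm_real, Real.norm_of_nonneg hl0.le]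
    rw [h1]
    refine (norm_sub_le _ _).trans ?_
    rw [add_comm]
  have hJ1 := le_JJe hy e1 h0.le
  have hJ2 := le_JJe hy e2 h0.le
  rw [← hp] at hJ1
  rw [← hq] at hJ2
  have hn1 := JJe_nonneg e1 h0.le y
  have hn2 := JJe_nonneg e2 h0.le y
  -- the main comparison
  have key : ∀ {x z : ℝ}, 0 < x → 0 < z → x ≤ z → l ≤ x + z →
      l / (x * z) ≤ 3 * l / l0 * (l0 / (x * (x + l0))) := by
    intro x z hx hz hxz hxl
    have e1 : 3 * l / l0 * (l0 / (x * (x + l0))) = 3 * l / (x * (x + l0)) := by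
      field_simp
    rw [e1, div_le_div_iff₀ (by positivity) (by positivity)]
    have e2 : x + l0 ≤ 3 * z := by linarith
    calc l * (x * (x + l0)) ≤ l * (x * (3 * z)) := by gcongr
      _ = 3 * l * (x * z) := by ring
  have hpos : 0 ≤ 3 * l / l0 := by positivity
  rcases le_total p q with hle | hle
  · refine (key hp0 hq0 hle hpq).trans ?_
    exact mul_le_mul_of_nonneg_left (by linarith) hpos
  · rw [mul_comm p q]
    refine (key hq0 hp0 hle (by linarith)).trans ?_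
    exact mul_le_mul_of_nonneg_left (by linarith) hpos

/-- the value `1/(1+|y|²)` is controlled by the end point `c` -/
theorem inv_le_JJe {y : ℂ} (hy : 0 < y.im) {c l0 : ℝ} (hc : 0 ≤ c) (h0 : 0 < l0) :
    1 / (1 + ‖y‖ ^ 2) ≤ 2 * (c + l0 + 1) ^ 2 / l0 * JJe c l0 y := by
  have hJ := le_JJe hy c h0.le
  set p := ‖(c : ℂ) - y‖ with hp
  have hp0 : 0 < p := norm_pos_iff.mpr (sub_ne hy c)
  have h1 : p ≤ c + ‖y‖ := by
    refine (norm_sub_le _ _).trans (le_of_eq ?_)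
    rw [Complex.norm_real, Real.norm_of_nonneg hc]
  have hy0 : 0 ≤ ‖y‖ := norm_nonneg _
  have h2 : p * (p + l0) ≤ 2 * (c + l0 + 1) ^ 2 * (1 + ‖y‖ ^ 2) := by
    have h3 : p ≤ (c + l0 + 1) * (1 + ‖y‖) := by nlinarith
    have h4 : p + l0 ≤ (c + l0 + 1) * (1 + ‖y‖) := by nlinarith
    have h5 : (1 + ‖y‖) ^ 2 ≤ 2 * (1 + ‖y‖ ^ 2) := by nlinarith [sq_nonneg (1 - ‖y‖)]
    calc p * (p + l0) ≤ ((c + l0 + 1) * (1 + ‖y‖)) * ((c + l0 + 1) * (1 + ‖y‖)) := by
          gcongr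
      _ = (c + l0 + 1) ^ 2 * (1 + ‖y‖) ^ 2 := by ring
      _ ≤ (c + l0 + 1) ^ 2 * (2 * (1 + ‖y‖ ^ 2)) := by gcongr
      _ = _ := by ring
  have h6 : 1 / (1 + ‖y‖ ^ 2) ≤ 2 * (c + l0 + 1) ^ 2 / l0 * (l0 / (p * (p + l0))) := by
    have e1 : 2 * (c + l0 + 1) ^ 2 / l0 * (l0 / (p * (p + l0))) =
        2 * (c + l0 + 1) ^ 2 / (p * (p + l0)) := by
      field_simp
    rw [e1, div_le_div_iff₀ (by positivity) (by positivity)]
    linarith
  refine h6.trans ?_
  exact mul_le_mul_of_nonneg_left hJ (by positivity)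

end Pool.Agent.Lib.MP_562b47_mp.LH.Pc
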