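import Pool.Agent.Lib.MP_562b47_mp.LH.Point

/-!
MP_562b47, Lemma H', PIECES: for every site `s`,
`E[- msk_s dD_s] ≤ Cst * ∫ RHS_s`.
-/

open MeasureTheory Matrix Finset

set_option linter.unusedSectionVars false

namespace Pool.Agent.Lib.MP_562b47_mp.LH.Pc

open Pool.Agent.Lib.MP_562b47_mp.AL Pool.Agent.Lib.MP_562b47_mp.WO Pool.Agent.Lib.MP_562b47_mp

variable {ι 𝔅 κ' : Type*} [Fintype ι] [DecidableEq ι] [Fintype 𝔅] [DecidableEq 𝔅] [Fintype κ']
  {S : Sys ι 𝔅} {A : Matrix ι ι ℝ} {m : ℕ} {a : ℝ} {s : ι} {V : ι → ℝ} {Ac : Finset 𝔅}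

/-- the constant of the pieces theorem -/
noncomputable def Cst (c r κ l0 : ℝ) : ℝ := 18 / l0 + 9 / c + 6 * Khh c r κ l0

theorem Khh_nonneg {c r κ l0 : ℝ} (hc : 0 < c) (hr : 0 < r) (hκ : 0 < κ) (h0 : 0 < l0) :
    0 ≤ Khh c r κ l0 := by
  unfold Khh
  positivity

theorem Cst_pos {c r κ l0 : ℝ} (hc : 0 < c) (hr : 0 < r) (hκ : 0 < κ) (h0 : 0 < l0) :
    0 < Cst c r κ l0 := by
  have := Khh_nonneg hc hr hκ h0
  unfold Cst
  positivity

theorem wC_nn (hS : Good S A) {C : Finset 𝔅} (hC : C ⊆ S.Comp V) (hA : Ac ⊆ C) :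
    0 ≤ wC S A C Ac V := by
  unfold wC
  refine mul_nonneg (prod_nonneg fun b hb => S.hh_nonneg hS (hC (hA hb))) (prod_nonneg fun b hb => ?_)
  have := S.hh_le hS (hC (mem_sdiff.mp hb).1)
  linarith

theorem wC_le (hS : Good S A) {C : Finset 𝔅} (hC : C ⊆ S.Comp V) (hA : Ac ⊆ C) :
    wC S A C Ac V ≤ 1 := by
  unfold wC
  refine mul_le_one₀ (prod_le_one (fun b hb => S.hh_nonneg hS (hC (hA hb))) fun b hb => ?_)
    (prod_nonneg fun b hb => ?_) (prod_le_one (fun b hb => ?_) fun b hb => ?_)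
  · have := S.hh_le hS (hC (hA hb))
    linarith
  · have := S.hh_le hS (hC (mem_sdiff.mp hb).1)
    linarith
  · have := S.hh_le hS (hC (mem_sdiff.mp hb).1)
    linarith
  · have := S.hh_nonneg hS (hC (mem_sdiff.mp hb).1)
    linarith

theorem CN_Comp : CN S m s V ⊆ S.Comp V := fun _ hb => (S.mem_Comp).mpr (mem_CN.mp hb).1

theorem ins_good {b : 𝔅} (hb : b ∈ AS S m s V) (hL : s ∈ S.L b) :
    ∀ b' ∈ insert b (CN S m s V), s ∉ S.inn b' ∧ s ≠ S.w b' := by
  intro b' hb'
  rcases mem_insert.mp hb' with rfl | h'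
  · exact ⟨fun h2 => ((S.mem_inn).mp h2).2.2 hL, (mem_AS.mp hb).2.2.1⟩
  · exact CN_good h'

theorem wC_ins_nn (hS : Good S A) {b : 𝔅} (hb : b ∈ AS S m s V) (hL : s ∈ S.L b)
    (hA : Ac ⊆ insert b (CN S m s V)) : 0 ≤ wC S A (insert b (CN S m s V)) Ac V := by
  rw [← wC_update hA (ins_good hb hL) (S.lo b s)]
  have h := CC_lo (S := S) hb
  exact wC_nn hS (by rw [← h]; exact CC_sub) hA

theorem wC_ins_le (hS : Good S A) {b : 𝔅} (hb : b ∈ AS S m s V) (hL : s ∈ S.L b)
    (hA : Ac ⊆ insert b (CN S m s V)) : wC S A (insert b (CN S m s V)) Ac V ≤ 1 := by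
  rw [← wC_update hA (ins_good hb hL) (S.lo b s)]
  have h := CC_lo (S := S) hb
  exact wC_le hS (by rw [← h]; exact CC_sub) hA

/-- loss off `s`, three cases -/
theorem loss_out (hS : Good S A) (ha : 0 < a) (hA : Ac ⊆ CN S m s V) :
    LossOff (uC S A a (CN S m s V ∪ CW S m s V) Ac V) s :=
  uC_lossOff hS ha CC_out (hA.trans subset_union_left) fun _ hb => (CN_good (hA hb)).1

theorem loss_N (hS : Good S A) (ha : 0 < a) (hW : CW S m s V = ∅) (hA : Ac ⊆ CN S m s V) :
    LossOff (uC S A a (CN S m s V) Ac V) s := by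
  have h := loss_out hS ha hA (m := m)
  rwa [hW, union_empty] at h

theorem loss_ins (hS : Good S A) (ha : 0 < a) {b : 𝔅} (hb : b ∈ AS S m s V) (hL : s ∈ S.L b)
    (hA : Ac ⊆ insert b (CN S m s V)) :
    LossOff (uC S A a (insert b (CN S m s V)) Ac V) s :=
  uC_lossOff hS ha (CC_lo hb) hA fun _ hb' => (ins_good hb hL _ (hA hb')).1

theorem sum_chi_le (v : ℝ) : ∑ b ∈ AS S m s V, chi (S.lo b s) (S.hi b s) v ≤ 1 := by
  by_cases h : ∃ b ∈ AS S m s V, v ∈ Set.Icc (S.lo b s) (S.hi b s)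
  · obtain ⟨b, hb, hv⟩ := h
    rw [sum_eq_single b, chi_mem hv]
    · intro b' hb' hne
      exact chi_not fun h' => hne (AS_win hb' hb h' hv)
    · intro h'; exact absurd hb h'
  · push Not at h
    rw [sum_eq_zero fun b hb => chi_not (h b hb)]
    exact zero_le_one

theorem integral_wsum {α : Type*} (T : Finset α) (k : α → ℝ) (f : α → ℝ → ℝ) {c : ℝ}
    (hf : ∀ x ∈ T, Integrable (f x) (unif c)) :
    ∫ v, ∑ x ∈ T, k x * f x v ∂(unif c) = ∑ x ∈ T, k x * ∫ v, f x v ∂(unif c) := by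
  rw [integral_finsetSum T fun x hx => (hf x hx).const_mul (k x)]
  exact sum_congr rfl fun x _ => integral_const_mul _ _

/-- everything but `V s` frozen -/
theorem point (hS : Good S A) (ξ : κ' → ι → ℝ) {l0 : ℝ} (ha : 0 < a) (ha1 : a ≤ 1) (h0 : 0 < l0)
    (hl : l0 ≤ S.c) (V : ι → ℝ) :
    ∫ v, Gs S A ξ m a s V v ∂(unif S.c) ≤ Cst S.c S.r S.κ l0 * RHS S A m a ξ l0 s V := by
  have hc := S.c_pos
  have hK := Khh_nonneg hc S.r_pos S.κ_pos h0
  have hlog : 0 ≤ Real.log (2 / a) := Real.log_nonneg (by rw [le_div_iff₀ ha]; linarith)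
  have hc1 : 18 / l0 ≤ Cst S.c S.r S.κ l0 := by
    unfold Cst
    have : 0 ≤ 9 / S.c := by positivity
    linarith
  have hc2 : 9 / S.c ≤ Cst S.c S.r S.κ l0 := by
    unfold Cst
    have : 0 ≤ 18 / l0 := by positivity
    linarith
  have hc3 : 6 * Khh S.c S.r S.κ l0 ≤ Cst S.c S.r S.κ l0 := by
    unfold Cst
    have h1 : 0 ≤ 18 / l0 := by positivity
    have h2 : 0 ≤ 9 / S.c := by positivity
    linarith
  rcases Finset.eq_empty_or_nonempty (CW S m s V) with hW | ⟨b0, hb0⟩
  · -- case A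
    have e1 : (fun v => Gs S A ξ m a s V v) = fun v => _ := funext fun v => Gs_A ξ hW v
    rw [e1]
    have i1 : ∀ Ac ∈ (CN S m s V).powerset, Integrable (fun v : ℝ =>
        (1 - ∑ b ∈ AS S m s V, chi (S.lo b s) (S.hi b s) v) *
          Df A ξ (uC S A a (CN S m s V) Ac V) s a v) (unif S.c) := by
      intro Ac hAc
      refine integrable_w_dD hS.symm (loss_N hS ha hW (mem_powerset.mp hAc)) ξ ha hc
        (w := fun v => 1 - ∑ b ∈ AS S m s V, chi (S.lo b s) (S.hi b s) v)
        (measurable_const.sub (Finset.measurable_fun_sum _ fun b _ => measurable_chi _ _))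
        (fun v => ?_) (fun v => ?_)
      · have := sum_chi_le (S := S) (m := m) (s := s) (V := V) v
        linarith
      · have : 0 ≤ ∑ b ∈ AS S m s V, chi (S.lo b s) (S.hi b s) v :=
          sum_nonneg fun b _ => chi_nonneg _ _ _
        linarith
    have i2 : ∀ b ∈ (AS S m s V).filter (fun b => s ∈ S.L b),
        ∀ Ac ∈ (insert b (CN S m s V)).powerset, Integrable (fun v : ℝ =>
        chi (S.lo b s) (S.hi b s) v *
            Df A ξ (uC S A a (insert b (CN S m s V)) Ac V) s a v) (unif S.c) := by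
      intro b hb Ac hAc
      have hb' := mem_filter.mp hb
      exact integrable_w_dD hS.symm (loss_ins hS ha hb'.1 hb'.2 (mem_powerset.mp hAc)) ξ ha hc
        (measurable_chi _ _) (chi_nonneg _ _) (chi_le_one _ _)
    rw [integral_add (integrable_finsetSum _ fun Ac hAc => (i1 Ac hAc).const_mul _)
      (integrable_finsetSum _ fun b hb => integrable_finsetSum _ fun Ac hAc =>
        (i2 b hb Ac hAc).const_mul _),
      integral_wsum _ _ _ i1,
      integral_finsetSum _ fun b hb => integrable_finsetSum _ fun Ac hAc =>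
        (i2 b hb Ac hAc).const_mul _]
    unfold RHS
    rw [mul_add]
    refine add_le_add ?_ ?_
    · rw [mul_sum]
      refine sum_le_sum fun Ac hAc => ?_
      have hA := mem_powerset.mp hAc
      have hL := loss_N (a := a) hS ha hW hA
      have hw := wC_nn hS CN_Comp hA
      rw [hW, union_empty, sum_empty, add_zero, one_mul]
      have h1 := site_rest hS.symm hL ξ ha hc h0 hl (AS S m s V) (fun b => S.lo b s)
        (fun b => S.hi b s) (fun b => S.lo_ge b s) (fun b => S.lo_lt b s) (fun b => S.hi_le b s)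
        (fun v => sum_chi_le v)
      have h2 : ∀ (e : ℝ) {l : ℝ}, 0 ≤ l → TJ A ξ (uC S A a (CN S m s V) Ac V) s a e l =
          TI S A a ξ univ s (CN S m s V) Ac V e l := fun e l hl' =>
        (TI_eq hS.symm ha ξ hL e hl').symm
      have hTI : ∀ (e : ℝ) {l : ℝ}, 0 ≤ l → 0 ≤ TI S A a ξ univ s (CN S m s V) Ac V e l :=
        fun e l hl' => TI_nonneg hS.symm ha ξ hL e hl'
      have hlen : ∀ b, 0 ≤ S.hi b s - S.lo b s := fun b => by linarith [S.lo_lt b s]
      rw [h2 _ h0.le, h2 _ h0.le] at h1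
      have h3 : ∑ b ∈ AS S m s V, (TJ A ξ (uC S A a (CN S m s V) Ac V) s a (S.lo b s)
          (S.hi b s - S.lo b s) + TJ A ξ (uC S A a (CN S m s V) Ac V) s a (S.hi b s)
          (S.hi b s - S.lo b s)) = ∑ b ∈ AS S m s V,
          (TI S A a ξ univ s (CN S m s V) Ac V (S.lo b s) (S.hi b s - S.lo b s) +
          TI S A a ξ univ s (CN S m s V) Ac V (S.hi b s) (S.hi b s - S.lo b s)) :=
        sum_congr rfl fun b _ => by rw [h2 _ (hlen b), h2 _ (hlen b)]
      rw [h3] at h1
      have h4 : 0 ≤ ∑ b ∈ AS S m s V,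
          (TI S A a ξ univ s (CN S m s V) Ac V (S.lo b s) (S.hi b s - S.lo b s) +
          TI S A a ξ univ s (CN S m s V) Ac V (S.hi b s) (S.hi b s - S.lo b s)) :=
        sum_nonneg fun b _ => add_nonneg (hTI _ (hlen b)) (hTI _ (hlen b))
      have h5 := add_nonneg (hTI S.c h0.le) (hTI (-S.c) h0.le)
      calc wC S A (CN S m s V) Ac V * _ ≤ wC S A (CN S m s V) Ac V * _ :=
            mul_le_mul_of_nonneg_left h1 hw
        _ ≤ wC S A (CN S m s V) Ac V * (Cst S.c S.r S.κ l0 *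
            (TI S A a ξ univ s (CN S m s V) Ac V S.c l0 +
              TI S A a ξ univ s (CN S m s V) Ac V (-S.c) l0) +
            Cst S.c S.r S.κ l0 * ∑ b ∈ AS S m s V,
          (TI S A a ξ univ s (CN S m s V) Ac V (S.lo b s) (S.hi b s - S.lo b s) +
          TI S A a ξ univ s (CN S m s V) Ac V (S.hi b s) (S.hi b s - S.lo b s))) := by
            refine mul_le_mul_of_nonneg_left ?_ hw
            exact add_le_add (mul_le_mul_of_nonneg_right hc1 h5) (mul_le_mul_of_nonneg_right hc2 h4)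
        _ = _ := by ring
    · rw [mul_sum]
      refine sum_le_sum fun b hb => ?_
      have hb' := mem_filter.mp hb
      rw [integral_wsum _ _ _ (i2 b hb), mul_sum]
      refine sum_le_sum fun Ac hAc => ?_
      have hA := mem_powerset.mp hAc
      have hL := loss_ins (a := a) hS ha hb'.1 hb'.2 hA
      have hw := wC_ins_nn hS hb'.1 hb'.2 hA
      have h1 := site_win hS.symm hL ξ ha hc (S.lo_ge b s) (S.lo_lt b s) (S.hi_le b s)
      have hlen : 0 ≤ S.hi b s - S.lo b s := by linarith [S.lo_lt b s]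
      have h2 : ∀ (e : ℝ), TJ A ξ (uC S A a (insert b (CN S m s V)) Ac V) s a e
          (S.hi b s - S.lo b s) =
          TI S A a ξ univ s (insert b (CN S m s V)) Ac V e (S.hi b s - S.lo b s) := fun e =>
        (TI_eq hS.symm ha ξ hL e hlen).symm
      have hTI : ∀ (e : ℝ), 0 ≤ TI S A a ξ univ s (insert b (CN S m s V)) Ac V e
          (S.hi b s - S.lo b s) := fun e => TI_nonneg hS.symm ha ξ hL e hlen
      rw [h2, h2] at h1
      calc wC S A (insert b (CN S m s V)) Ac V * _ ≤ wC S A (insert b (CN S m s V)) Ac V * _ :=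
            mul_le_mul_of_nonneg_left h1 hw
        _ ≤ wC S A (insert b (CN S m s V)) Ac V * (Cst S.c S.r S.κ l0 *
            (TI S A a ξ univ s (insert b (CN S m s V)) Ac V (S.lo b s) (S.hi b s - S.lo b s) +
          TI S A a ξ univ s (insert b (CN S m s V)) Ac V (S.hi b s) (S.hi b s - S.lo b s))) := by
            refine mul_le_mul_of_nonneg_left ?_ hw
            exact mul_le_mul_of_nonneg_right hc2 (add_nonneg (hTI _) (hTI _))
        _ = _ := by ring
  · -- case B
    have e1 : (fun v => Gs S A ξ m a s V v) = fun v => _ := funext fun v => Gs_B ξ hb0 v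
    have hcomp := (mem_CW.mp hb0).1
    have hg := hS.g_pos b0 V hcomp
    have hgr := hS.g_le b0 V hcomp
    have hze := hS.ze_mem b0 V hcomp
    have hh1 : ∀ v, 2 * S.c * (S.κ * S.gg A b0 V) * SL.ff (S.gg A b0 V) S.r (v - S.ze A b0 V) ≤ 1 := by
      intro v
      have h1 := S.hh_le hS (V := Function.update V (S.w b0) v) (b := b0)
        (by rw [S.Comp_update_w ((S.mem_Comp).mpr hcomp)]; exact (S.mem_Comp).mpr hcomp)
      rw [S.hh_update_w] at h1
      linarith
    have hh0 : ∀ v, 0 ≤ 2 * S.c * (S.κ * S.gg A b0 V) * SL.ff (S.gg A b0 V) S.r (v - S.ze A b0 V) := by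
      intro v
      have h1 := S.hh_nonneg hS (V := Function.update V (S.w b0) v) (b := b0)
        (by rw [S.Comp_update_w ((S.mem_Comp).mpr hcomp)]; exact (S.mem_Comp).mpr hcomp)
      rwa [S.hh_update_w] at h1
    have hhm : Measurable fun v : ℝ =>
        1 - 2 * S.c * (S.κ * S.gg A b0 V) * SL.ff (S.gg A b0 V) S.r (v - S.ze A b0 V) := by
      have : Continuous fun v : ℝ =>
          2 * S.c * (S.κ * S.gg A b0 V) * SL.ff (S.gg A b0 V) S.r (v - S.ze A b0 V) :=
        continuous_const.mul ((SL.continuous_ff hg S.r_pos).comp (by fun_prop))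
      exact measurable_const.sub this.measurable
    rw [e1]
    have i1 : ∀ Ac ∈ (CN S m s V).powerset, Integrable (fun v : ℝ =>
        (1 - 2 * S.c * (S.κ * S.gg A b0 V) * SL.ff (S.gg A b0 V) S.r (v - S.ze A b0 V)) *
          Df A ξ (uC S A a (CN S m s V ∪ CW S m s V) Ac V) s a v) (unif S.c) := by
      intro Ac hAc
      refine integrable_w_dD hS.symm (loss_out hS ha (mem_powerset.mp hAc)) ξ ha hc
        (w := fun v => 1 - 2 * S.c * (S.κ * S.gg A b0 V) *
          SL.ff (S.gg A b0 V) S.r (v - S.ze A b0 V)) hhm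
        (fun v => by linarith [hh1 v]) (fun v => by linarith [hh0 v])
    rw [integral_wsum _ _ _ i1]
    unfold RHS
    rw [AS_of_CW hb0]
    simp only [sum_empty, add_zero, filter_empty]
    rw [mul_sum]
    refine sum_le_sum fun Ac hAc => ?_
    have hA := mem_powerset.mp hAc
    have hL := loss_out (a := a) (m := m) hS ha hA
    have hw := wC_nn hS CN_Comp hA
    have hsum : ∑ b ∈ CW S m s V, Real.log (2 / a) * (S.gg A b V)⁻¹ =
        Real.log (2 / a) * (S.gg A b0 V)⁻¹ := by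
      rw [CW_single hb0, sum_singleton]
    rw [hsum]
    have h1 := site_w hS.symm hL ξ ha ha1 hc h0 hl S.r_pos S.κ_pos hg hgr hze hh1
    have h2 : ∀ (e : ℝ), TJ A ξ (uC S A a (CN S m s V ∪ CW S m s V) Ac V) s a e l0 =
        TI S A a ξ univ s (CN S m s V ∪ CW S m s V) Ac V e l0 := fun e =>
      (TI_eq hS.symm ha ξ hL e h0.le).symm
    have hTI : ∀ (e : ℝ), 0 ≤ TI S A a ξ univ s (CN S m s V ∪ CW S m s V) Ac V e l0 :=
      fun e => TI_nonneg hS.symm ha ξ hL e h0.le
    rw [h2, h2] at h1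
    set T1 := TI S A a ξ univ s (CN S m s V ∪ CW S m s V) Ac V S.c l0 with hT1
    set T2 := TI S A a ξ univ s (CN S m s V ∪ CW S m s V) Ac V (-S.c) l0 with hT2
    have hlg : 0 ≤ Real.log (2 / a) * (S.gg A b0 V)⁻¹ := mul_nonneg hlog (inv_nonneg.mpr hg.le)
    have hT1' : 0 ≤ T1 := hTI _
    have hT2' : 0 ≤ T2 := hTI _
    calc wC S A (CN S m s V) Ac V * _ ≤ wC S A (CN S m s V) Ac V * _ :=
          mul_le_mul_of_nonneg_left h1 hw
      _ ≤ wC S A (CN S m s V) Ac V * (Cst S.c S.r S.κ l0 * (T1 + T2) +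
          Cst S.c S.r S.κ l0 * (Real.log (2 / a) * (S.gg A b0 V)⁻¹) * (T1 + T2)) := by
          refine mul_le_mul_of_nonneg_left (add_le_add ?_ ?_) hw
          · exact mul_le_mul_of_nonneg_right hc1 (add_nonneg hT1' hT2')
          · refine mul_le_mul (mul_le_mul_of_nonneg_right hc3 hlg) (by linarith) hT1' ?_
            exact mul_nonneg (Cst_pos hc S.r_pos S.κ_pos h0).le hlg
      _ = _ := by ring

end Pool.Agent.Lib.MP_562b47_mp.LH.Pc
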