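import Pool.Agent.Lib.MP_562b47_mp.LH.Site
import Pool.Agent.Lib.MP_562b47_mp.LH.Geo
import Pool.Agent.Lib.MP_562b47_mp.WO.Lower

/-!
MP_562b47, Lemma H', pieces: the inequality with everything but the potential at `s` frozen.
-/

open MeasureTheory Matrix Finset

set_option linter.unusedSectionVars false

namespace Pool.Agent.Lib.MP_562b47_mp.LH.Pc

open Pool.Agent.Lib.MP_562b47_mp.AL Pool.Agent.Lib.MP_562b47_mp.WO Pool.Agent.Lib.MP_562b47_mp

section site

variable {ι 𝔅 κ' : Type*} [Fintype ι] [DecidableEq ι] [Fintype κ'] [DecidableEq 𝔅]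
  {A : Matrix ι ι ℝ} {u : ι → ℂ} {s : ι}

/-- the integrand `-dD` at `V_s = v` -/
noncomputable def Df (A : Matrix ι ι ℝ) (ξ : κ' → ι → ℝ) (u : ι → ℂ) (s : ι) (a : ℝ) (v : ℝ) : ℝ :=
  -dD A ξ u s ((v : ℂ) - a * Complex.I)

/-- `XX * JJe` -/
noncomputable def TJ (A : Matrix ι ι ℝ) (ξ : κ' → ι → ℝ) (u : ι → ℂ) (s : ι) (a e l : ℝ) : ℝ :=
  XX A ξ u s * JJe e l (yy A u s 0 a)

theorem TJ_nonneg (hu : LossOff u s) (ξ : κ' → ι → ℝ) (a e : ℝ) {l : ℝ} (hl : 0 ≤ l) :
    0 ≤ TJ A ξ u s a e l := mul_nonneg (XX_nonneg hu ξ) (JJe_nonneg e hl _)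

theorem yy_pos (hA : A.IsSymm) (hu : LossOff u s) {a : ℝ} (ha : 0 < a) :
    a ≤ (yy A u s 0 a).im := by
  rw [yy_im]
  linarith [zz_im_nonneg hA hu]

theorem site_win (hA : A.IsSymm) (hu : LossOff u s) (ξ : κ' → ι → ℝ) {a c lo hi : ℝ} (ha : 0 < a)
    (hc : 0 < c) (h1 : -c ≤ lo) (h2 : lo < hi) (h3 : hi ≤ c) :
    ∫ v : ℝ, chi lo hi v * Df A ξ u s a v ∂(unif c) ≤
      9 / c * (TJ A ξ u s a lo (hi - lo) + TJ A ξ u s a hi (hi - lo)) := by
  have hy := lt_of_lt_of_le ha (yy_pos hA hu ha)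
  refine (neg_integral_w hA hu ξ ha hc (measurable_chi lo hi) (chi_nonneg lo hi)
    (chi_le_one lo hi)).trans ?_
  have hX := XX_nonneg (A := A) hu ξ
  calc 6 * XX A ξ u s * ‖∫ v : ℝ, (chi lo hi v : ℂ) * (1 / ((v : ℂ) - yy A u s 0 a) ^ 2) ∂(unif c)‖
      ≤ 6 * XX A ξ u s * (3 / (2 * c) * (JJe lo (hi - lo) (yy A u s 0 a) +
        JJe hi (hi - lo) (yy A u s 0 a))) := by
        gcongr
        exact b_win hc h1 h2 h3 hy
    _ = _ := by
        unfold TJ
        ring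

theorem site_rest (hA : A.IsSymm) (hu : LossOff u s) (ξ : κ' → ι → ℝ) {a c l0 : ℝ} (ha : 0 < a)
    (hc : 0 < c) (h0 : 0 < l0) (hl : l0 ≤ c) (T : Finset 𝔅) (lo hi : 𝔅 → ℝ)
    (h1 : ∀ b, -c ≤ lo b) (h2 : ∀ b, lo b < hi b) (h3 : ∀ b, hi b ≤ c)
    (hT : ∀ v, ∑ b ∈ T, chi (lo b) (hi b) v ≤ 1) :
    ∫ v : ℝ, (1 - ∑ b ∈ T, chi (lo b) (hi b) v) * Df A ξ u s a v ∂(unif c) ≤
      18 / l0 * (TJ A ξ u s a c l0 + TJ A ξ u s a (-c) l0) +
      9 / c * ∑ b ∈ T, (TJ A ξ u s a (lo b) (hi b - lo b) + TJ A ξ u s a (hi b) (hi b - lo b)) := by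
  have hprob := unif_prob hc
  have hy := lt_of_lt_of_le ha (yy_pos hA hu ha)
  set y := yy A u s 0 a with hyd
  have hm : Measurable fun v => 1 - ∑ b ∈ T, chi (lo b) (hi b) v :=
    measurable_const.sub (Finset.measurable_fun_sum _ fun b _ => measurable_chi _ _)
  have hs0 : ∀ v, 0 ≤ ∑ b ∈ T, chi (lo b) (hi b) v := fun v =>
    sum_nonneg fun b _ => chi_nonneg _ _ _
  refine (neg_integral_w hA hu ξ ha hc hm (fun v => by linarith [hT v])
    (fun v => by linarith [hs0 v])).trans ?_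
  have hX := XX_nonneg (A := A) hu ξ
  have hi1 : Integrable (fun v : ℝ => 1 / ((v : ℂ) - y) ^ 2) (unif c) := by
    have := integrable_w (w := fun _ => 1) hc measurable_const (fun _ => zero_le_one)
      (fun _ => le_refl _) hy
    simpa using this
  have hib : ∀ b ∈ T, Integrable (fun v : ℝ => (chi (lo b) (hi b) v : ℂ) *
      (1 / ((v : ℂ) - y) ^ 2)) (unif c) := fun b _ =>
    integrable_w hc (measurable_chi _ _) (chi_nonneg _ _) (chi_le_one _ _) hy
  have e : ∫ v : ℝ, ((1 - ∑ b ∈ T, chi (lo b) (hi b) v : ℝ) : ℂ) * (1 / ((v : ℂ) - y) ^ 2) ∂(unif c) =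
      (∫ v : ℝ, 1 / ((v : ℂ) - y) ^ 2 ∂(unif c)) -
      ∑ b ∈ T, ∫ v : ℝ, (chi (lo b) (hi b) v : ℂ) * (1 / ((v : ℂ) - y) ^ 2) ∂(unif c) := by
    rw [← integral_finsetSum T hib, ← integral_sub hi1 (integrable_finsetSum T hib)]
    refine integral_congr_ae (Filter.Eventually.of_forall fun v => ?_)
    simp only [Complex.ofReal_sub, Complex.ofReal_one, Complex.ofReal_sum]
    rw [sub_mul, one_mul, sum_mul]
  have hb : ‖∫ v : ℝ, ((1 - ∑ b ∈ T, chi (lo b) (hi b) v : ℝ) : ℂ) * (1 / ((v : ℂ) - y) ^ 2)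
      ∂(unif c)‖ ≤ 3 / l0 * (JJe (-c) l0 y + JJe c l0 y) +
      ∑ b ∈ T, 3 / (2 * c) * (JJe (lo b) (hi b - lo b) y + JJe (hi b) (hi b - lo b) y) := by
    rw [e]
    refine (norm_sub_le _ _).trans (add_le_add (b_full hc h0 hl hy) ?_)
    refine (norm_sum_le _ _).trans (sum_le_sum fun b _ => ?_)
    exact b_win hc (h1 b) (h2 b) (h3 b) hy
  refine (mul_le_mul_of_nonneg_left hb (by positivity)).trans (le_of_eq ?_)
  unfold TJ
  rw [← hyd, mul_add, mul_sum, mul_sum]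
  congr 1
  · ring
  · refine sum_congr rfl fun b _ => ?_
    ring

theorem site_w (hA : A.IsSymm) (hu : LossOff u s) (ξ : κ' → ι → ℝ) {a c l0 r κ g ζ : ℝ}
    (ha : 0 < a) (ha1 : a ≤ 1) (hc : 0 < c) (h0 : 0 < l0) (hl : l0 ≤ c) (hr : 0 < r) (hκ : 0 < κ)
    (hg : 0 < g) (hgr : g ≤ r) (hζ : |ζ| + 5 * r ≤ c)
    (hh1 : ∀ v, 2 * c * (κ * g) * SL.ff g r (v - ζ) ≤ 1) :
    ∫ v : ℝ, (1 - 2 * c * (κ * g) * SL.ff g r (v - ζ)) * Df A ξ u s a v ∂(unif c) ≤
      18 / l0 * (TJ A ξ u s a c l0 + TJ A ξ u s a (-c) l0) +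
      6 * Khh c r κ l0 * (Real.log (2 / a) * g⁻¹) * TJ A ξ u s a c l0 := by
  have hprob := unif_prob hc
  have hya := yy_pos hA hu ha
  have hy := lt_of_lt_of_le ha hya
  set y := yy A u s 0 a with hyd
  set h : ℝ → ℝ := fun v => 2 * c * (κ * g) * SL.ff g r (v - ζ) with hh
  have hhm : Measurable h := by
    have : Continuous h := by
      rw [hh]
      exact continuous_const.mul ((SL.continuous_ff hg hr).comp (by fun_prop))
    exact this.measurable
  have hh0 : ∀ v, 0 ≤ h v := fun v => by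
    rw [hh]
    exact mul_nonneg (by positivity) (SL.ff_nonneg hg hr _)
  have hm1 : Measurable fun v => 1 - h v := measurable_const.sub hhm
  refine (neg_integral_w hA hu ξ ha hc (w := fun v => 1 - h v) hm1
    (fun v => by have := hh1 v; simp only [hh]; linarith)
    (fun v => by have := hh0 v; linarith)).trans ?_
  have hX := XX_nonneg (A := A) hu ξ
  have hi1 : Integrable (fun v : ℝ => 1 / ((v : ℂ) - y) ^ 2) (unif c) := by
    have := integrable_w (w := fun _ => 1) hc measurable_const (fun _ => zero_le_one)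
      (fun _ => le_refl _) hy
    simpa using this
  have hi2 : Integrable (fun v : ℝ => (h v : ℂ) * (1 / ((v : ℂ) - y) ^ 2)) (unif c) :=
    integrable_w hc hhm hh0 hh1 hy
  have e : ∫ v : ℝ, ((1 - h v : ℝ) : ℂ) * (1 / ((v : ℂ) - y) ^ 2) ∂(unif c) =
      (∫ v : ℝ, 1 / ((v : ℂ) - y) ^ 2 ∂(unif c)) -
      ∫ v : ℝ, (h v : ℂ) * (1 / ((v : ℂ) - y) ^ 2) ∂(unif c) := by
    rw [← integral_sub hi1 hi2]
    refine integral_congr_ae (Filter.Eventually.of_forall fun v => ?_)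
    simp only [Complex.ofReal_sub, Complex.ofReal_one]
    ring
  have hb : ‖∫ v : ℝ, ((1 - h v : ℝ) : ℂ) * (1 / ((v : ℂ) - y) ^ 2) ∂(unif c)‖ ≤
      3 / l0 * (JJe (-c) l0 y + JJe c l0 y) +
      Khh c r κ l0 * (Real.log (2 / a) * g⁻¹) * JJe c l0 y := by
    rw [e]
    exact (norm_sub_le _ _).trans (add_le_add (b_full hc h0 hl hy)
      (b_hh hc hr hκ h0 hg hgr hζ ha ha1 hya))
  refine (mul_le_mul_of_nonneg_left hb (by positivity)).trans (le_of_eq ?_)
  unfold TJ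
  rw [← hyd]
  ring

end site

section world

variable {ι 𝔅 κ' : Type*} [Fintype ι] [DecidableEq ι] [Fintype 𝔅] [DecidableEq 𝔅] [Fintype κ']
  {S : Sys ι 𝔅} {A : Matrix ι ι ℝ} {m : ℕ} {a : ℝ} {s : ι} {V : ι → ℝ} {Ac : Finset 𝔅}

theorem msk_inn {b : 𝔅} (hb : b ∈ CC S m V) (hs : s ∈ S.inn b) (hA : Ac ⊆ CC S m V) :
    S.msk m Ac V s = 0 := by
  have hAC : Ac ⊆ S.Comp V := hA.trans CC_sub
  have e1 : (∑ b' ∈ (S.Comp V).filter (fun b => m < S.cls b),
      if s ∈ S.inn b' then (1 : ℝ) else 0) = 1 := by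
    rw [Finset.sum_eq_single b]
    · rw [if_pos hs]
    · intro b' hb' hne
      rw [if_neg]
      intro h
      exact S.not_mem_of_ne (mem_filter.mp hb').1 (CC_sub hb) (Ne.symm hne) (S.inn_sub hs)
        (S.inn_sub h)
    · intro h; exact absurd hb h
  have e2 : (∑ b' ∈ Ac, if s = S.w b' ∧ m < S.cls b' then (1 : ℝ) else 0) = 0 := by
    refine Finset.sum_eq_zero fun b' hb' => ?_
    rw [if_neg]
    rintro ⟨h, _⟩
    by_cases hbb : b' = b
    · rw [hbb] at h
      exact ((S.mem_inn).mp hs).1 h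
    · exact S.not_mem_of_ne (CC_sub hb) (hAC hb') hbb (S.w_mem b') (by rw [← h]; exact S.inn_sub hs)
  unfold Sys.msk
  rw [e1, e2]; ring

theorem msk_w {b : 𝔅} (hb : b ∈ Ac) (hs : S.w b = s) (hA : Ac ⊆ CC S m V) :
    S.msk m Ac V s = 0 := by
  have hAC : Ac ⊆ S.Comp V := hA.trans CC_sub
  have hb1 := mem_CC.mp (hA hb)
  have e1 : (∑ b' ∈ (S.Comp V).filter (fun b => m < S.cls b),
      if s ∈ S.inn b' then (1 : ℝ) else 0) = 0 := by
    refine Finset.sum_eq_zero fun b' hb' => ?_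
    rw [if_neg]
    intro h
    by_cases hbb : b' = b
    · rw [hbb] at h
      exact ((S.mem_inn).mp h).1 hs.symm
    · exact S.not_mem_of_ne (mem_filter.mp hb').1 (hAC hb) (Ne.symm hbb) (S.w_mem b)
        (by rw [hs]; exact S.inn_sub h)
  have e2 : (∑ b' ∈ Ac, if s = S.w b' ∧ m < S.cls b' then (1 : ℝ) else 0) = 1 := by
    rw [Finset.sum_eq_single b]
    · rw [if_pos ⟨hs.symm, hb1.2⟩]
    · intro b' hb' hne
      rw [if_neg]
      rintro ⟨h, _⟩
      exact S.ne_w hAC hb hb' hne (by rw [← hs]; exact S.w_mem b) h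
    · intro h; exact absurd hb h
  unfold Sys.msk
  rw [e1, e2]; ring

theorem msk_one (h1 : ∀ b ∈ CC S m V, s ∉ S.inn b) (h2 : ∀ b ∈ Ac, s ≠ S.w b) :
    S.msk m Ac V s = 1 := by
  have e1 : (∑ b' ∈ (S.Comp V).filter (fun b => m < S.cls b),
      if s ∈ S.inn b' then (1 : ℝ) else 0) = 0 :=
    Finset.sum_eq_zero fun b' hb' => by rw [if_neg (h1 b' hb')]
  have e2 : (∑ b' ∈ Ac, if s = S.w b' ∧ m < S.cls b' then (1 : ℝ) else 0) = 0 :=
    Finset.sum_eq_zero fun b' hb' => by rw [if_neg fun h => h2 b' hb' h.1]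
  unfold Sys.msk
  rw [e1, e2]; ring

theorem dDs_val (ξ : κ' → ι → ℝ) (h1 : ∀ b ∈ CC S m V, s ∉ S.inn b) (h2 : ∀ b ∈ Ac, s ≠ S.w b)
    (hA : Ac ⊆ CC S m V) :
    -S.dDs A ξ m a s Ac V = Df A ξ (uC S A a (CC S m V) Ac V) s a (V s) := by
  unfold Sys.dDs Df
  have e : S.uA A m a Ac V s = (V s : ℂ) - a * Complex.I := by
    rw [S.uA_off h2, S.bk_off fun b hb hm => h1 b (mem_CC.mpr ⟨(S.mem_Comp).mp hb, hm⟩)]
  rw [msk_one h1 h2, one_mul, e, uA_eq_uC hA]

/-- the inner sum, everything but `V s` frozen -/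
noncomputable def Gs (S : Sys ι 𝔅) (A : Matrix ι ι ℝ) (ξ : κ' → ι → ℝ) (m : ℕ) (a : ℝ) (s : ι)
    (V : ι → ℝ) (v : ℝ) : ℝ :=
  ∑ Ac ∈ (CC S m (Function.update V s v)).powerset,
    wC S A (CC S m (Function.update V s v)) Ac (Function.update V s v) *
      -S.dDs A ξ m a s Ac (Function.update V s v)

theorem Df_update {C Ac : Finset 𝔅} (h : ∀ b ∈ Ac, s ∉ S.inn b) (ξ : κ' → ι → ℝ) (v w : ℝ) :
    Df A ξ (uC S A a C Ac (Function.update V s v)) s a w = Df A ξ (uC S A a C Ac V) s a w := by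
  unfold Df
  rw [dD_uC_update h]

/-- the value of the inner sum if no block of `C` sees `s` inside -/
theorem Gs_val (ξ : κ' → ι → ℝ) {C : Finset 𝔅} {v : ℝ}
    (hC : CC S m (Function.update V s v) = C) (h : ∀ b ∈ C, s ∉ S.inn b ∧ s ≠ S.w b) :
    Gs S A ξ m a s V v = ∑ Ac ∈ C.powerset, wC S A C Ac V * Df A ξ (uC S A a C Ac V) s a v := by
  unfold Gs
  rw [hC]
  refine sum_congr rfl fun Ac hAc => ?_
  have hA := mem_powerset.mp hAc
  rw [wC_update hA h, dDs_val ξ (by rw [hC]; exact fun b hb => (h b hb).1)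
    (fun b hb => (h b (hA hb)).2) (by rw [hC]; exact hA), hC, Function.update_self,
    Df_update fun b hb => (h b (hA hb)).1]

theorem Gs_inn (ξ : κ' → ι → ℝ) {b : 𝔅} {v : ℝ} (hb : b ∈ CC S m (Function.update V s v))
    (hs : s ∈ S.inn b) : Gs S A ξ m a s V v = 0 := by
  unfold Gs
  refine sum_eq_zero fun Ac hAc => ?_
  have hA := mem_powerset.mp hAc
  unfold Sys.dDs
  rw [msk_inn hb hs hA]
  simp

theorem CN_good {b : 𝔅} (hb : b ∈ CN S m s V) : s ∉ S.inn b ∧ s ≠ S.w b := by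
  have h := (mem_CN.mp hb).2.2
  exact ⟨fun h' => h (S.inn_sub h'), fun h' => h (by rw [h']; exact S.w_mem b)⟩

/-- case A: no complete block has centre `s` -/
theorem Gs_A (ξ : κ' → ι → ℝ) (hW : CW S m s V = ∅) (v : ℝ) :
    Gs S A ξ m a s V v =
      ∑ Ac ∈ (CN S m s V).powerset, wC S A (CN S m s V) Ac V *
        ((1 - ∑ b ∈ AS S m s V, chi (S.lo b s) (S.hi b s) v) *
          Df A ξ (uC S A a (CN S m s V) Ac V) s a v) +
      ∑ b ∈ (AS S m s V).filter (fun b => s ∈ S.L b),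
        ∑ Ac ∈ (insert b (CN S m s V)).powerset, wC S A (insert b (CN S m s V)) Ac V *
          (chi (S.lo b s) (S.hi b s) v *
            Df A ξ (uC S A a (insert b (CN S m s V)) Ac V) s a v) := by
  by_cases h : ∃ b ∈ AS S m s V, v ∈ Set.Icc (S.lo b s) (S.hi b s)
  · obtain ⟨b, hb, hv⟩ := h
    have hC := CC_win hb hv
    have hsum : ∑ b' ∈ AS S m s V, chi (S.lo b' s) (S.hi b' s) v = 1 := by
      rw [sum_eq_single b, chi_mem hv]
      · intro b' hb' hne
        exact chi_not fun h' => hne (AS_win hb' hb h' hv)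
      · intro h'; exact absurd hb h'
    have h1 : (∑ Ac ∈ (CN S m s V).powerset, wC S A (CN S m s V) Ac V *
        ((1 - ∑ b ∈ AS S m s V, chi (S.lo b s) (S.hi b s) v) *
          Df A ξ (uC S A a (CN S m s V) Ac V) s a v)) = 0 := by
      refine sum_eq_zero fun Ac _ => ?_
      rw [hsum]
      ring
    rw [h1, zero_add]
    by_cases hL : s ∈ S.L b
    · rw [sum_eq_single b]
      · rw [Gs_val ξ hC]
        · refine sum_congr rfl fun Ac _ => ?_
          rw [chi_mem hv, one_mul]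
        · intro b' hb'
          rcases mem_insert.mp hb' with rfl | h'
          · exact ⟨fun h2 => ((S.mem_inn).mp h2).2.2 hL, (mem_AS.mp hb).2.2.1⟩
          · exact CN_good h'
      · intro b' hb' hne
        refine sum_eq_zero fun Ac _ => ?_
        rw [chi_not fun h' => hne (AS_win (mem_filter.mp hb').1 hb h' hv)]
        ring
      · intro h'
        exact absurd (mem_filter.mpr ⟨hb, hL⟩) h'
    · have hin : s ∈ S.inn b := (S.mem_inn).mpr ⟨(mem_AS.mp hb).2.2.1, (mem_AS.mp hb).2.1, hL⟩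
      rw [Gs_inn ξ (b := b) (by rw [hC]; exact mem_insert_self _ _) hin]
      symm
      refine sum_eq_zero fun b' hb' => sum_eq_zero fun Ac _ => ?_
      have hne : b' ≠ b := by
        rintro rfl
        exact hL (mem_filter.mp hb').2
      rw [chi_not fun h' => hne (AS_win (mem_filter.mp hb').1 hb h' hv)]
      ring
  · push Not at h
    have hC : CC S m (Function.update V s v) = CN S m s V := by
      rw [CC_rest h, hW, union_empty]
    rw [Gs_val ξ hC fun b hb => CN_good hb]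
    have h2 : ∑ b ∈ (AS S m s V).filter (fun b => s ∈ S.L b),
        ∑ Ac ∈ (insert b (CN S m s V)).powerset, wC S A (insert b (CN S m s V)) Ac V *
          (chi (S.lo b s) (S.hi b s) v *
            Df A ξ (uC S A a (insert b (CN S m s V)) Ac V) s a v) = 0 := by
      refine sum_eq_zero fun b hb => sum_eq_zero fun Ac _ => ?_
      rw [chi_not (h b (mem_filter.mp hb).1)]
      ring
    rw [h2, add_zero]
    refine sum_congr rfl fun Ac _ => ?_
    rw [sum_eq_zero fun b hb => chi_not (h b hb)]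
    ring

/-- case B: the complete block `b0` has centre `s` -/
theorem Gs_B (ξ : κ' → ι → ℝ) {b0 : 𝔅} (hb0 : b0 ∈ CW S m s V) (v : ℝ) :
    Gs S A ξ m a s V v =
      ∑ Ac ∈ (CN S m s V).powerset, wC S A (CN S m s V) Ac V *
        ((1 - 2 * S.c * (S.κ * S.gg A b0 V) * SL.ff (S.gg A b0 V) S.r (v - S.ze A b0 V)) *
          Df A ξ (uC S A a (CN S m s V ∪ CW S m s V) Ac V) s a v) := by
  have hw : S.w b0 = s := (mem_CW.mp hb0).2.2
  have hAS := AS_of_CW hb0
  have hC : CC S m (Function.update V s v) = CN S m s V ∪ CW S m s V :=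
    CC_rest fun b hb => by rw [hAS] at hb; exact absurd hb (notMem_empty b)
  have hCW := CW_single hb0
  have hbN : b0 ∉ CN S m s V := fun h => (mem_CN.mp h).2.2 (by rw [← hw]; exact S.w_mem b0)
  have hI : CN S m s V ∪ CW S m s V = insert b0 (CN S m s V) := by
    rw [hCW, union_comm]; rfl
  unfold Gs
  rw [hC, hI, sum_powerset_insert hbN]
  have h2 : ∑ Ac ∈ (CN S m s V).powerset,
      wC S A (insert b0 (CN S m s V)) (insert b0 Ac) (Function.update V s v) *
        -S.dDs A ξ m a s (insert b0 Ac) (Function.update V s v) = 0 := by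
    refine sum_eq_zero fun Ac hAc => ?_
    have hA := mem_powerset.mp hAc
    unfold Sys.dDs
    rw [msk_w (mem_insert_self b0 Ac) hw (by rw [hC, hI]; exact insert_subset_insert _ hA)]
    simp
  rw [h2, add_zero]
  refine sum_congr rfl fun Ac hAc => ?_
  have hA := mem_powerset.mp hAc
  have hbA : b0 ∉ Ac := fun h => hbN (hA h)
  have hin : ∀ b ∈ insert b0 (CN S m s V), s ∉ S.inn b := by
    intro b hb
    rcases mem_insert.mp hb with rfl | h'
    · intro h
      exact ((S.mem_inn).mp h).1 hw.symm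
    · exact (CN_good h').1
  have hval := dDs_val (A := A) (a := a) ξ (V := Function.update V s v) (s := s) (m := m) (Ac := Ac)
    (by rw [hC, hI]; exact hin) (fun b hb => (CN_good (hA hb)).2)
    (by rw [hC, hI]; exact hA.trans (subset_insert _ _))
  rw [hval, hC, hI, Function.update_self, Df_update fun b hb => (CN_good (hA hb)).1]
  have hwt : wC S A (insert b0 (CN S m s V)) Ac (Function.update V s v) =
      wC S A (CN S m s V) Ac V *
        (1 - 2 * S.c * (S.κ * S.gg A b0 V) * SL.ff (S.gg A b0 V) S.r (v - S.ze A b0 V)) := by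
    unfold wC
    rw [insert_sdiff_of_notMem _ hbA, prod_insert (fun h => hbN (mem_sdiff.mp h).1)]
    have e1 : ∏ b ∈ Ac, S.hh A b (Function.update V s v) = ∏ b ∈ Ac, S.hh A b V :=
      prod_congr rfl fun b hb => hh_update (CN_good (hA hb)).1 (CN_good (hA hb)).2 v
    have e2 : ∏ b ∈ CN S m s V \ Ac, (1 - S.hh A b (Function.update V s v)) =
        ∏ b ∈ CN S m s V \ Ac, (1 - S.hh A b V) := by
      refine prod_congr rfl fun b hb => ?_
      have hb' := (mem_sdiff.mp hb).1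
      rw [hh_update (CN_good hb').1 (CN_good hb').2 v]
    have e3 : S.hh A b0 (Function.update V s v) =
        2 * S.c * (S.κ * S.gg A b0 V) * SL.ff (S.gg A b0 V) S.r (v - S.ze A b0 V) := by
      rw [← hw]
      exact S.hh_update_w A b0 V v
    rw [e1, e2, e3]
    ring
  rw [hwt]
  ring

end world

end Pool.Agent.Lib.MP_562b47_mp.LH.Pc
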