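import Pool.Agent.Lib.MP_562b47_mp.LH.HH
import Pool.Agent.Lib.MP_562b47_mp.LH.Cond

/-!
MP_562b47, Lemma H', pieces: the estimates for one site, everything else frozen.
-/

open MeasureTheory Matrix Finset

set_option linter.unusedSectionVars false

namespace Pool.Agent.Lib.MP_562b47_mp.LH.Pc

open Pool.Agent.Lib.MP_562b47_mp.AL Pool.Agent.Lib.MP_562b47_mp.WO Pool.Agent.Lib.MP_562b47_mp

section site

variable {ι κ' : Type*} [Fintype ι] [DecidableEq ι] [Fintype κ']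
  {A : Matrix ι ι ℝ} {u : ι → ℂ} {s : ι}

theorem bound_one {y : ℂ} (hy : 0 < y.im) (v : ℝ) : ‖1 / ((v : ℂ) - y) ^ 2‖ ≤ (1 / y.im) ^ 2 := by
  have h := norm_one_div_sub_le hy v
  calc ‖1 / ((v : ℂ) - y) ^ 2‖ = ‖1 / ((v : ℂ) - y)‖ ^ 2 := by
        rw [norm_div, norm_div, norm_pow, norm_one, div_pow, one_pow]
    _ ≤ _ := by gcongr

theorem continuous_one {y : ℂ} (hy : 0 < y.im) : Continuous fun v : ℝ => 1 / ((v : ℂ) - y) ^ 2 := by
  refine continuous_const.div ?_ fun v => pow_ne_zero 2 (sub_ne hy v)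
  fun_prop

/-- weights -/
theorem integrable_w {c : ℝ} (hc : 0 < c) {w : ℝ → ℝ} (hw : Measurable w) (hw0 : ∀ v, 0 ≤ w v)
    (hw1 : ∀ v, w v ≤ 1) {y : ℂ} (hy : 0 < y.im) :
    Integrable (fun v : ℝ => (w v : ℂ) * (1 / ((v : ℂ) - y) ^ 2)) (unif c) := by
  have := unif_prob hc
  refine Integrable.of_bound ?_ (1 * (1 / y.im) ^ 2) (Filter.Eventually.of_forall fun v => ?_)
  · exact (Complex.measurable_ofReal.comp hw).aestronglyMeasurable.mul
      (continuous_one hy).aestronglyMeasurable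
  · rw [norm_mul, Complex.norm_real, Real.norm_of_nonneg (hw0 v)]
    exact mul_le_mul (hw1 v) (bound_one hy v) (norm_nonneg _) zero_le_one

/-- the weighted form of `neg_integral_dD_le` -/
theorem neg_integral_w (hA : A.IsSymm) (hu : LossOff u s) (ξ : κ' → ι → ℝ) {a c : ℝ} (ha : 0 < a)
    (hc : 0 < c) {w : ℝ → ℝ} (hw : Measurable w) (hw0 : ∀ v, 0 ≤ w v) (hw1 : ∀ v, w v ≤ 1) :
    ∫ v : ℝ, w v * -dD A ξ u s ((v : ℂ) - a * Complex.I) ∂(unif c) ≤
      6 * XX A ξ u s * ‖∫ v : ℝ, (w v : ℂ) * (1 / ((v : ℂ) - yy A u s 0 a) ^ 2) ∂(unif c)‖ := by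
  have := unif_prob hc
  set μ : Measure ℝ := (unif c).withDensity fun v => ((Real.toNNReal (w v) : NNReal) : ENNReal) with hμ
  have hwn : Measurable fun v => Real.toNNReal (w v) := hw.real_toNNReal
  have hfin : IsFiniteMeasure μ := by
    refine isFiniteMeasure_withDensity ?_
    refine ne_of_lt (lt_of_le_of_lt (b := ∫⁻ _ : ℝ, 1 ∂(unif c)) ?_ ?_)
    · refine lintegral_mono fun v => ?_
      have : Real.toNNReal (w v) ≤ 1 := by
        rw [← Real.toNNReal_one]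
        exact Real.toNNReal_le_toNNReal (hw1 v)
      have h2 : ((Real.toNNReal (w v) : NNReal) : ENNReal) ≤ ((1 : NNReal) : ENNReal) :=
        ENNReal.coe_le_coe.mpr this
      simpa using h2
    · simp
  have h := neg_integral_dD_le hA hu ξ 0 ha μ
  rw [hμ, integral_withDensity_eq_integral_smul hwn, integral_withDensity_eq_integral_smul hwn] at h
  have e1 : ∫ v : ℝ, w v * -dD A ξ u s ((v : ℂ) - a * Complex.I) ∂(unif c) =
      -∫ v : ℝ, Real.toNNReal (w v) • dD A ξ u s ((0 : ℝ) + v - a * Complex.I) ∂(unif c) := by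
    rw [← integral_neg]
    refine integral_congr_ae (Filter.Eventually.of_forall fun v => ?_)
    simp only [NNReal.smul_def, Real.coe_toNNReal _ (hw0 v), smul_eq_mul, Complex.ofReal_zero,
      zero_add]
    ring
  have e2 : ∫ v : ℝ, (w v : ℂ) * (1 / ((v : ℂ) - yy A u s 0 a) ^ 2) ∂(unif c) =
      ∫ v : ℝ, Real.toNNReal (w v) • (1 / ((v : ℂ) - yy A u s 0 a) ^ 2) ∂(unif c) := by
    refine integral_congr_ae (Filter.Eventually.of_forall fun v => ?_)
    simp only [NNReal.smul_def, Real.coe_toNNReal _ (hw0 v), Complex.real_smul]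
  rw [e1, e2]
  exact h

theorem integrable_w_dD (hA : A.IsSymm) (hu : LossOff u s) (ξ : κ' → ι → ℝ) {a c : ℝ} (ha : 0 < a)
    (hc : 0 < c) {w : ℝ → ℝ} (hw : Measurable w) (hw0 : ∀ v, 0 ≤ w v) (hw1 : ∀ v, w v ≤ 1) :
    Integrable (fun v : ℝ => w v * -dD A ξ u s ((v : ℂ) - a * Complex.I)) (unif c) := by
  have := unif_prob hc
  have h := integrable_dD hA hu ξ 0 ha (unif c)
  simp only [Complex.ofReal_zero, zero_add] at h
  refine h.neg.bdd_mul (c := 1) hw.aestronglyMeasurable (Filter.Eventually.of_forall fun v => ?_)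
  rw [Real.norm_of_nonneg (hw0 v)]
  exact hw1 v

theorem integral_unif_C {c : ℝ} (hc : 0 < c) (f : ℝ → ℂ) :
    ∫ v, f v ∂(unif c) = ((2 * c)⁻¹ : ℝ) • ∫ v in (-c)..c, f v := by
  unfold unif
  rw [integral_smul_measure, intervalIntegral.integral_of_le (by linarith),
    integral_Icc_eq_integral_Ioc, ENNReal.toReal_inv, ENNReal.toReal_ofReal (by linarith)]

theorem b_full {c l0 : ℝ} (hc : 0 < c) (h0 : 0 < l0) (hl : l0 ≤ c) {y : ℂ} (hy : 0 < y.im) :
    ‖∫ v : ℝ, 1 / ((v : ℂ) - y) ^ 2 ∂(unif c)‖ ≤ 3 / l0 * (JJe (-c) l0 y + JJe c l0 y) := by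
  rw [integral_unif_C hc, norm_smul, Real.norm_of_nonneg (by positivity)]
  have h := ov1 hy (e1 := -c) (e2 := c) h0 (by linarith)
  calc (2 * c)⁻¹ * ‖∫ v in (-c)..c, 1 / ((v : ℂ) - y) ^ 2‖
      ≤ (2 * c)⁻¹ * (3 * (c - -c) / l0 * (JJe (-c) l0 y + JJe c l0 y)) := by gcongr
    _ = 3 / l0 * (JJe (-c) l0 y + JJe c l0 y) := by
        field_simp
        ring

/-- the indicator of a window -/
noncomputable def chi (lo hi : ℝ) : ℝ → ℝ := Set.indicator (Set.Icc lo hi) fun _ => 1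

theorem measurable_chi (lo hi : ℝ) : Measurable (chi lo hi) :=
  measurable_const.indicator measurableSet_Icc

theorem chi_nonneg (lo hi v : ℝ) : 0 ≤ chi lo hi v := by
  unfold chi
  exact Set.indicator_nonneg (fun _ _ => zero_le_one) v

theorem chi_mem {lo hi v : ℝ} (h : v ∈ Set.Icc lo hi) : chi lo hi v = 1 := by
  unfold chi
  rw [Set.indicator_of_mem h]

theorem chi_not {lo hi v : ℝ} (h : v ∉ Set.Icc lo hi) : chi lo hi v = 0 := by
  unfold chi
  rw [Set.indicator_of_notMem h]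

theorem chi_le_one (lo hi v : ℝ) : chi lo hi v ≤ 1 := by
  by_cases h : v ∈ Set.Icc lo hi
  · rw [chi_mem h]
  · rw [chi_not h]; exact zero_le_one

theorem b_win {c lo hi : ℝ} (hc : 0 < c) (h1 : -c ≤ lo) (h2 : lo < hi) (h3 : hi ≤ c) {y : ℂ}
    (hy : 0 < y.im) :
    ‖∫ v : ℝ, (chi lo hi v : ℂ) * (1 / ((v : ℂ) - y) ^ 2) ∂(unif c)‖ ≤
      3 / (2 * c) * (JJe lo (hi - lo) y + JJe hi (hi - lo) y) := by
  rw [integral_unif_C hc, norm_smul, Real.norm_of_nonneg (by positivity)]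
  have e : ∫ v in (-c)..c, (chi lo hi v : ℂ) * (1 / ((v : ℂ) - y) ^ 2) =
      ∫ v in lo..hi, 1 / ((v : ℂ) - y) ^ 2 := by
    rw [intervalIntegral.integral_of_le (by linarith), intervalIntegral.integral_of_le h2.le,
      ← integral_Icc_eq_integral_Ioc, ← integral_Icc_eq_integral_Ioc]
    have e2 : (fun v : ℝ => (chi lo hi v : ℂ) * (1 / ((v : ℂ) - y) ^ 2)) =
        Set.indicator (Set.Icc lo hi) fun v : ℝ => 1 / ((v : ℂ) - y) ^ 2 := by
      funext v
      by_cases h : v ∈ Set.Icc lo hi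
      · rw [chi_mem h, Set.indicator_of_mem h]; simp
      · rw [chi_not h, Set.indicator_of_notMem h]; simp
    rw [e2, setIntegral_indicator measurableSet_Icc]
    congr 2
    exact Set.inter_eq_self_of_subset_right (Set.Icc_subset_Icc h1 h3)
  rw [e]
  have h := ov1 hy (e1 := lo) (e2 := hi) (l0 := hi - lo) (by linarith) (le_refl _)
  have h4 : 0 < hi - lo := by linarith
  calc (2 * c)⁻¹ * ‖∫ v in lo..hi, 1 / ((v : ℂ) - y) ^ 2‖
      ≤ (2 * c)⁻¹ * (3 * (hi - lo) / (hi - lo) * (JJe lo (hi - lo) y + JJe hi (hi - lo) y)) := by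
        gcongr
    _ = 3 / (2 * c) * (JJe lo (hi - lo) y + JJe hi (hi - lo) y) := by
        field_simp

/-- the constant for the hidden law -/
noncomputable def Khh (c r κ l0 : ℝ) : ℝ :=
  κ * (r + 2) * (200 * (c + 1) ^ 4) * (2 * (c + l0 + 1) ^ 2 / l0)

theorem b_hh {c r κ l0 g ζ a : ℝ} (hc : 0 < c) (hr : 0 < r) (hκ : 0 < κ) (h0 : 0 < l0)
    (hg : 0 < g) (hgr : g ≤ r) (hζ : |ζ| + 5 * r ≤ c) (ha : 0 < a) (ha1 : a ≤ 1) {y : ℂ}
    (hy : a ≤ y.im) :
    ‖∫ v : ℝ, ((2 * c * (κ * g) * SL.ff g r (v - ζ) : ℝ) : ℂ) * (1 / ((v : ℂ) - y) ^ 2) ∂(unif c)‖ ≤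
      Khh c r κ l0 * (Real.log (2 / a) * g⁻¹) * JJe c l0 y := by
  have hy0 : 0 < y.im := lt_of_lt_of_le ha hy
  rw [integral_unif_C hc, norm_smul, Real.norm_of_nonneg (by positivity)]
  set f : ℝ → ℝ := fun v => SL.ff g r (v - ζ) with hf
  have hsupp : ∀ v, c < |v| → f v = 0 := by
    intro v hv
    rw [hf]
    simp only
    apply SL.ff_eq_zero hg hr hgr
    have h3 : |v| ≤ |v - ζ| + |ζ| := by
      have := abs_add_le (v - ζ) ζ
      simpa using this
    linarith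
  have hsupp' : ∀ v, v ∉ Set.Ioc (-c) c → f v = 0 := by
    intro v hv
    rw [hf]
    simp only
    apply SL.ff_eq_zero hg hr hgr
    have h2 : c ≤ |v| := by
      by_contra h
      push Not at h
      rw [abs_lt] at h
      exact hv ⟨h.1, h.2.le⟩
    have h3 : |v| ≤ |v - ζ| + |ζ| := by
      have := abs_add_le (v - ζ) ζ
      simpa using this
    linarith
  have e : ∫ v in (-c)..c, ((2 * c * (κ * g) * SL.ff g r (v - ζ) : ℝ) : ℂ) *
      (1 / ((v : ℂ) - y) ^ 2) =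
      ((2 * c * (κ * g) : ℝ) : ℂ) * ∫ v : ℝ, (f v : ℂ) / ((v : ℂ) - y) ^ 2 := by
    rw [intervalIntegral.integral_of_le (by linarith)]
    rw [setIntegral_eq_integral_of_forall_compl_eq_zero, ← integral_const_mul]
    · refine integral_congr_ae (Filter.Eventually.of_forall fun v => ?_)
      simp only [hf]
      push_cast
      ring
    · intro v hv
      have := hsupp' v hv
      simp only [hf] at this
      rw [this]
      simp
  rw [e, norm_mul, Complex.norm_real, Real.norm_of_nonneg (by positivity)]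
  have hM : (0 : ℝ) ≤ 1 / g := by positivity
  have hL : (0 : ℝ) ≤ 2 / g ^ 2 := by positivity
  have hmain := lip_int (f := f) hc hM hL (fun v => SL.ff_nonneg hg hr _) (fun v => by
      refine (SL.ff_le_max hg hr _).trans ?_
      have := Real.pi_gt_three
      refine one_div_le_one_div_of_le hg ?_
      nlinarith) (fun v w => by
      have := lip_ff hg hr hgr (v - ζ) (w - ζ)
      rw [show v - ζ - (w - ζ) = v - w by ring] at this
      exact this) hsupp (by
      exact (SL.continuous_ff hg hr).comp (by fun_prop)) ha ha1 hy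
  have hJ := inv_le_JJe hy0 hc.le h0
  have hlog : 0 ≤ Real.log (2 / a) := Real.log_nonneg (by
    rw [le_div_iff₀ ha]; linarith)
  have hJ0 := JJe_nonneg c h0.le y
  calc (2 * c)⁻¹ * (2 * c * (κ * g) * ‖∫ v : ℝ, (f v : ℂ) / ((v : ℂ) - y) ^ 2‖)
      = κ * g * ‖∫ v : ℝ, (f v : ℂ) / ((v : ℂ) - y) ^ 2‖ := by field_simp
    _ ≤ κ * g * (200 * (c + 1) ^ 4 * (1 / g + 2 / g ^ 2) * Real.log (2 / a) *
        (2 * (c + l0 + 1) ^ 2 / l0 * JJe c l0 y)) := by
        refine mul_le_mul_of_nonneg_left (hmain.trans ?_) (by positivity)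
        exact mul_le_mul_of_nonneg_left hJ (by positivity)
    _ = κ * (g + 2) * (200 * (c + 1) ^ 4) * (2 * (c + l0 + 1) ^ 2 / l0) *
        (Real.log (2 / a) * g⁻¹) * JJe c l0 y := by
        field_simp
    _ ≤ _ := by
        unfold Khh
        gcongr

/-- `TT` as a function of `u_s` -/
theorem sum_TT (hA : A.IsSymm) (hu : LossOff u s) (ξ : κ' → ι → ℝ) {us : ℂ} (hus : us.im < 0) :
    ∑ x, gam u x * ff ξ x s * ‖GM A (Function.update u s us) s x‖ ^ 2 =
      XX A ξ u s * (1 / ‖us - zz A u s‖ ^ 2) := by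
  have hne := ne_zz hA hu hus
  rw [XX, sum_mul]
  refine sum_congr rfl fun x _ => ?_
  rw [GM_symm hA, G_xs hA hu hne, norm_div, norm_neg, div_pow]
  by_cases hx : x = s
  · subst hx
    simp [ff_self]
  · have : gam (ref u s) x = gam u x := by simp [gam, ref, Function.update_of_ne hx]
    rw [this]
    ring

theorem integral_TT (hA : A.IsSymm) (hu : LossOff u s) (ξ : κ' → ι → ℝ) {a : ℝ} (ha : 0 < a)
    (e : ℝ) {l : ℝ} (hl : 0 ≤ l) :
    ∫ t in (0 : ℝ)..l, ∑ x, gam u x * ff ξ x s *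
      ‖GM A (Function.update u s ((e : ℂ) - ((t + a : ℝ) : ℂ) * Complex.I)) s x‖ ^ 2 =
      XX A ξ u s * JJe e l (yy A u s 0 a) := by
  unfold JJe
  rw [← intervalIntegral.integral_const_mul]
  refine intervalIntegral.integral_congr fun t ht => ?_
  rw [Set.uIcc_of_le hl] at ht
  rw [sum_TT hA hu ξ]
  · congr 4
    rw [yy]
    push_cast
    ring
  · have : ((e : ℂ) - ((t + a : ℝ) : ℂ) * Complex.I).im = -(t + a) := by simp
    rw [this]
    linarith [ht.1]

end site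

section world

variable {ι 𝔅 κ' : Type*} [Fintype ι] [DecidableEq ι] [Fintype 𝔅] [DecidableEq 𝔅] [Fintype κ']
  {S : Sys ι 𝔅} {A : Matrix ι ι ℝ} {a : ℝ} {s : ι} {V : ι → ℝ}

theorem TI_eq (hA : A.IsSymm) (ha : 0 < a) (ξ : κ' → ι → ℝ) {C Ac : Finset 𝔅}
    (hu : LossOff (uC S A a C Ac V) s) (e : ℝ) {l : ℝ} (hl : 0 ≤ l) :
    TI S A a ξ univ s C Ac V e l =
      XX A ξ (uC S A a C Ac V) s * JJe e l (yy A (uC S A a C Ac V) s 0 a) :=
  integral_TT hA hu ξ ha e hl

theorem TI_nonneg (hA : A.IsSymm) (ha : 0 < a) (ξ : κ' → ι → ℝ) {C Ac : Finset 𝔅}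
    (hu : LossOff (uC S A a C Ac V) s) (e : ℝ) {l : ℝ} (hl : 0 ≤ l) :
    0 ≤ TI S A a ξ univ s C Ac V e l := by
  rw [TI_eq hA ha ξ hu e hl]
  exact mul_nonneg (XX_nonneg hu ξ) (JJe_nonneg e hl _)

end world

end Pool.Agent.Lib.MP_562b47_mp.LH.Pc
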