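import Pool.Agent.Lib.MP_562b47_mp.LH.Geo
import Pool.Agent.Lib.MP_562b47_mp.WO.Weights

/-!
MP_562b47, Lemma H', global part: sets of blocks, losses, weights.
-/

open MeasureTheory Matrix Finset

set_option linter.unusedSectionVars false

namespace Pool.Agent.Lib.MP_562b47_mp.LH

open Pool.Agent.Lib.MP_562b47_mp.AL Pool.Agent.Lib.MP_562b47_mp.WO Pool.Agent.Lib.MP_562b47_mp.LW
  Pool.Agent.Lib.MP_562b47_mp

namespace SP

variable {ι 𝔅 κ' : Type*} [Fintype ι] [DecidableEq ι] [Fintype 𝔅] [DecidableEq 𝔅] [Fintype κ']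
  {S : Sys ι 𝔅} {A : Matrix ι ι ℝ} {m : ℕ} {a : ℝ} {s : ι} {V : ι → ℝ} {b b' b0 : 𝔅}

theorem mem_CC : b ∈ CC S m V ↔ S.comp b V ∧ m < S.cls b := by
  unfold CC
  rw [Finset.mem_filter, S.mem_Comp]

theorem mem_CN : b ∈ CN S m s V ↔ S.comp b V ∧ m < S.cls b ∧ s ∉ S.Q b := by
  unfold CN
  rw [Finset.mem_filter, mem_CC, and_assoc]

theorem mem_CW : b ∈ CW S m s V ↔ S.comp b V ∧ m < S.cls b ∧ S.w b = s := by
  unfold CW
  rw [Finset.mem_filter, mem_CC, and_assoc]

theorem mem_AS : b ∈ AS S m s V ↔ m < S.cls b ∧ s ∈ S.Q b ∧ s ≠ S.w b ∧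
    ∀ x ∈ S.Q b, x ≠ S.w b → x ≠ s → V x ∈ Set.Icc (S.lo b x) (S.hi b x) := by
  unfold AS
  rw [Finset.mem_filter]
  simp only [Finset.mem_univ, true_and]

theorem mem_CX {B : Finset ι} : b ∈ CX S m B V ↔ S.comp b V ∧ m < S.cls b ∧ Disjoint (S.Q b) B := by
  unfold CX
  rw [Finset.mem_filter, mem_CC, and_assoc]

theorem mem_meet {C : Finset 𝔅} : b ∈ meet S b0 C ↔ b ∈ C ∧ ¬ Disjoint (S.Q b) (S.Q b0) := by
  unfold meet
  rw [Finset.mem_filter]

theorem mem_Reg {σ : Finset 𝔅} {x : ι} :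
    x ∈ Reg S b0 σ ↔ x ∈ S.Q b0 ∨ ∃ b ∈ σ, x ∈ S.Q b := by
  unfold Reg
  rw [Finset.mem_union, Finset.mem_biUnion]

theorem Reg_empty : Reg S b0 (∅ : Finset 𝔅) = S.Q b0 := by
  ext x
  rw [mem_Reg]
  simp

/-- pairwise disjoint blocks -/
def PD (S : Sys ι 𝔅) (C : Finset 𝔅) : Prop :=
  ∀ b ∈ C, ∀ b' ∈ C, b ≠ b' → Disjoint (S.Q b) (S.Q b')

/-- the values of the potential on `inn b` and at `w b` are those of a complete configuration -/
def Q1 (S : Sys ι 𝔅) (V : ι → ℝ) (b : 𝔅) : Prop :=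
  ∃ V', S.comp b V' ∧ V' (S.w b) = V (S.w b) ∧ ∀ x ∈ S.inn b, V' x = V x

theorem Q1_of_comp (h : S.comp b V) : Q1 S V b := ⟨V, h, rfl, fun _ _ => rfl⟩

theorem comp_update (hs : s ∈ S.Q b)
    (h : ∀ x ∈ S.Q b, x ≠ S.w b → x ≠ s → V x ∈ Set.Icc (S.lo b x) (S.hi b x)) :
    S.comp b (Function.update V s (S.lo b s)) := by
  intro x hx hxw
  by_cases hxs : x = s
  · subst hxs
    rw [Function.update_self]
    exact ⟨le_refl _, (S.lo_lt b x).le⟩
  · rw [Function.update_of_ne hxs]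
    exact h x hx hxw hxs

theorem comp_update_off (hs : s ∉ S.Q b) (v : ℝ) (h : S.comp b V) :
    S.comp b (Function.update V s v) := by
  intro x hx hxw
  have : x ≠ s := fun e => hs (e ▸ hx)
  rw [Function.update_of_ne this]
  exact h x hx hxw

theorem comp_of_evw_off {σ : Finset 𝔅} (h : evw S σ s V) (hb : b ∈ σ) (hs : s ∉ S.Q b) :
    S.comp b V := fun x hx hxw => h b hb x hx hxw fun e => hs (e ▸ hx)

theorem comp_of_evw_w {σ : Finset 𝔅} (h : evw S σ s V) (hb : b ∈ σ) (hs : s = S.w b) :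
    S.comp b V := fun x hx hxw => h b hb x hx hxw fun e => hxw (e.trans hs)

theorem Q1_of_L (hs : s ∈ S.L b)
    (h : ∀ x ∈ S.Q b, x ≠ S.w b → x ≠ s → V x ∈ Set.Icc (S.lo b x) (S.hi b x)) : Q1 S V b := by
  have hw : S.w b ≠ s := fun e => S.w_not b (e ▸ hs)
  refine ⟨_, comp_update (S.L_sub b hs) h, ?_, fun x hx => ?_⟩
  · rw [Function.update_of_ne hw]
  · have : x ≠ s := by
      rintro rfl
      exact (S.mem_inn.mp hx).2.2 hs
    rw [Function.update_of_ne this]

/-! ### the weights -/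

theorem hh_nonneg (hS : WO.Good S A) (h : Q1 S V b) : 0 ≤ S.hh A b V := by
  obtain ⟨V', h1, h2, h3⟩ := h
  have e : S.hh A b V = S.hh A b V' := S.hh_congr A (fun x hx => (h3 x hx).symm) h2.symm
  rw [e]
  exact S.hh_nonneg hS (S.mem_Comp.mpr h1)

theorem hh_le (hS : WO.Good S A) (h : Q1 S V b) : S.hh A b V ≤ 1 / 2 := by
  obtain ⟨V', h1, h2, h3⟩ := h
  have e : S.hh A b V = S.hh A b V' := S.hh_congr A (fun x hx => (h3 x hx).symm) h2.symm
  rw [e]
  exact S.hh_le hS (S.mem_Comp.mpr h1)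

theorem gg_pos (hS : WO.Good S A) (h : Q1 S V b) : 0 < S.gg A b V := by
  obtain ⟨V', h1, h2, h3⟩ := h
  have e : S.gg A b V = S.gg A b V' := S.gg_congr A (fun x hx => (h3 x hx).symm)
  rw [e]
  exact hS.g_pos b V' h1

theorem wC_nonneg (hS : WO.Good S A) {C Ac : Finset 𝔅} (hA : Ac ⊆ C)
    (h : ∀ b ∈ C, Q1 S V b) : 0 ≤ wC S A C Ac V := by
  unfold wC
  refine mul_nonneg (Finset.prod_nonneg fun b hb => hh_nonneg hS (h b (hA hb)))
    (Finset.prod_nonneg fun b hb => ?_)
  have := hh_le hS (h b (Finset.mem_sdiff.mp hb).1)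
  linarith

theorem wC_sum (S : Sys ι 𝔅) (A : Matrix ι ι ℝ) (C : Finset 𝔅) (V : ι → ℝ) :
    ∑ Ac ∈ C.powerset, wC S A C Ac V = 1 := by
  unfold wC
  rw [← Finset.prod_add]
  exact Finset.prod_eq_one fun b _ => by ring

theorem wC_le_one (hS : WO.Good S A) {C Ac : Finset 𝔅} (hA : Ac ⊆ C)
    (h : ∀ b ∈ C, Q1 S V b) : wC S A C Ac V ≤ 1 := by
  rw [← wC_sum S A C V]
  exact Finset.single_le_sum (f := fun Ac => wC S A C Ac V)
    (fun B hB => wC_nonneg hS (Finset.mem_powerset.mp hB) h) (Finset.mem_powerset.mpr hA)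

theorem wC_union {P N PA NA : Finset 𝔅} (hd : Disjoint P N) (hP : PA ⊆ P) (hN : NA ⊆ N) :
    wC S A (P ∪ N) (NA ∪ PA) V = wC S A P PA V * wC S A N NA V := by
  unfold wC
  have h1 : Disjoint NA PA := Finset.disjoint_of_subset_left hN
    (Finset.disjoint_of_subset_right hP hd.symm)
  have h2 : (P ∪ N) \ (NA ∪ PA) = (P \ PA) ∪ (N \ NA) := by
    ext b
    simp only [Finset.mem_sdiff, Finset.mem_union]
    constructor
    · rintro ⟨h | h, h'⟩
      · exact Or.inl ⟨h, fun e => h' (Or.inr e)⟩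
      · exact Or.inr ⟨h, fun e => h' (Or.inl e)⟩
    · rintro (⟨h, h'⟩ | ⟨h, h'⟩)
      · refine ⟨Or.inl h, ?_⟩
        rintro (e | e)
        · exact Finset.disjoint_left.mp hd h (hN e)
        · exact h' e
      · refine ⟨Or.inr h, ?_⟩
        rintro (e | e)
        · exact h' e
        · exact Finset.disjoint_left.mp hd (hP e) h
  have h3 : Disjoint (P \ PA) (N \ NA) := Finset.disjoint_of_subset_left Finset.sdiff_subset
    (Finset.disjoint_of_subset_right Finset.sdiff_subset hd)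
  rw [h2, Finset.prod_union h1, Finset.prod_union h3]
  ring

/-- splitting of the sum over the active sets -/
theorem sum_powerset_union {P N : Finset 𝔅} (hd : Disjoint P N) (F : Finset 𝔅 → ℝ) :
    ∑ Ac ∈ (P ∪ N).powerset, F Ac = ∑ PA ∈ P.powerset, ∑ NA ∈ N.powerset, F (NA ∪ PA) := by
  rw [← Finset.sum_product']
  symm
  refine Finset.sum_nbij' (fun p => p.2 ∪ p.1) (fun Ac => (Ac ∩ P, Ac ∩ N)) ?_ ?_ ?_ ?_ ?_
  · rintro ⟨PA, NA⟩ h
    simp only [Finset.mem_product, Finset.mem_powerset] at h ⊢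
    exact Finset.union_subset (h.2.trans Finset.subset_union_right)
      (h.1.trans Finset.subset_union_left)
  · intro Ac _
    simp only [Finset.mem_product, Finset.mem_powerset]
    exact ⟨Finset.inter_subset_right, Finset.inter_subset_right⟩
  · rintro ⟨PA, NA⟩ h
    simp only [Finset.mem_product, Finset.mem_powerset] at h
    have e1 : (NA ∪ PA) ∩ P = PA := by
      ext b
      simp only [Finset.mem_inter, Finset.mem_union]
      constructor
      · rintro ⟨h1 | h1, h2⟩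
        · exact absurd (h.2 h1) (Finset.disjoint_left.mp hd h2)
        · exact h1
      · exact fun h1 => ⟨Or.inr h1, h.1 h1⟩
    have e2 : (NA ∪ PA) ∩ N = NA := by
      ext b
      simp only [Finset.mem_inter, Finset.mem_union]
      constructor
      · rintro ⟨h1 | h1, h2⟩
        · exact h1
        · exact absurd h2 (Finset.disjoint_left.mp hd (h.1 h1))
      · exact fun h1 => ⟨Or.inl h1, h.2 h1⟩
    simp only [e1, e2]
  · intro Ac h
    rw [Finset.mem_powerset] at h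
    ext b
    simp only [Finset.mem_inter, Finset.mem_union]
    constructor
    · rintro (h1 | h1) <;> exact h1.1
    · intro h1
      rcases Finset.mem_union.mp (h h1) with h2 | h2
      · exact Or.inr ⟨h1, h2⟩
      · exact Or.inl ⟨h1, h2⟩
  · intro _ _
    rfl

/-- dropping the weights of the blocks near the site -/
theorem sum_wC_le (hS : WO.Good S A) {P N : Finset 𝔅} (hd : Disjoint P N)
    (hq : ∀ b ∈ P ∪ N, Q1 S V b) {F : Finset 𝔅 → ℝ} (hF : ∀ Ac ⊆ P ∪ N, 0 ≤ F Ac) :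
    ∑ Ac ∈ (P ∪ N).powerset, wC S A (P ∪ N) Ac V * F Ac ≤
      ∑ PA ∈ P.powerset, ∑ NA ∈ N.powerset, wC S A N NA V * F (NA ∪ PA) := by
  rw [sum_powerset_union hd]
  refine Finset.sum_le_sum fun PA hPA => Finset.sum_le_sum fun NA hNA => ?_
  rw [Finset.mem_powerset] at hPA hNA
  rw [wC_union hd hPA hNA]
  have h1 : wC S A P PA V ≤ 1 :=
    wC_le_one hS hPA fun b hb => hq b (Finset.mem_union_left _ hb)
  have h2 : 0 ≤ wC S A N NA V := wC_nonneg hS hNA fun b hb => hq b (Finset.mem_union_right _ hb)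
  have h3 : 0 ≤ F (NA ∪ PA) := hF _ (Finset.union_subset (hNA.trans Finset.subset_union_right)
      (hPA.trans Finset.subset_union_left))
  calc wC S A P PA V * wC S A N NA V * F (NA ∪ PA)
      = wC S A P PA V * (wC S A N NA V * F (NA ∪ PA)) := by ring
    _ ≤ 1 * (wC S A N NA V * F (NA ∪ PA)) :=
        mul_le_mul_of_nonneg_right h1 (mul_nonneg h2 h3)
    _ = _ := one_mul _

/-! ### the losses -/

theorem uC_loss (hS : WO.Good S A) (ha : 0 < a) {C Ac : Finset 𝔅} (hA : Ac ⊆ C) (hPD : PD S C)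
    (hq : ∀ b ∈ C, Q1 S V b) : Loss (uC S A a C Ac V) := by
  intro x
  have him : (uC S A a C Ac V x).im =
      -(a + ∑ b ∈ C, (if x ∈ S.inn b then S.et (S.cls b) - a else 0)) +
        ∑ b ∈ Ac, (if x = S.w b then -(S.gg A b V + (S.et (S.cls b) - a)) else 0) := by
    unfold uC
    rw [Complex.add_im, Complex.im_sum]
    congr 1
    · simp
    · refine Finset.sum_congr rfl fun b _ => ?_
      split_ifs <;> simp
  rw [him]
  by_cases h1 : ∃ b ∈ C, x ∈ S.inn b
  · obtain ⟨b, hb, hx⟩ := h1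
    have e1 : ∑ b ∈ C, (if x ∈ S.inn b then S.et (S.cls b) - a else 0) = S.et (S.cls b) - a := by
      rw [Finset.sum_eq_single b]
      · rw [if_pos hx]
      · intro b' hb' hne
        rw [if_neg]
        intro hx'
        exact Finset.disjoint_left.mp (hPD b' hb' b hb hne) (S.inn_sub hx') (S.inn_sub hx)
      · intro h; exact absurd hb h
    have e2 : ∑ b ∈ Ac, (if x = S.w b then -(S.gg A b V + (S.et (S.cls b) - a)) else 0) = 0 := by
      refine Finset.sum_eq_zero fun b' hb' => ?_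
      rw [if_neg]
      rintro rfl
      by_cases hne : b' = b
      · subst hne
        exact (S.mem_inn.mp hx).1 rfl
      · exact Finset.disjoint_left.mp (hPD b' (hA hb') b hb hne) (S.w_mem b') (S.inn_sub hx)
    rw [e1, e2]
    have := S.et_pos (S.cls b)
    linarith
  · have e1 : ∑ b ∈ C, (if x ∈ S.inn b then S.et (S.cls b) - a else 0) = 0 := by
      refine Finset.sum_eq_zero fun b hb => ?_
      rw [if_neg]
      exact fun hx => h1 ⟨b, hb, hx⟩
    rw [e1]
    by_cases h2 : ∃ b ∈ Ac, x = S.w b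
    · obtain ⟨b, hb, hx⟩ := h2
      have e2 : ∑ b ∈ Ac, (if x = S.w b then -(S.gg A b V + (S.et (S.cls b) - a)) else 0) =
          -(S.gg A b V + (S.et (S.cls b) - a)) := by
        rw [Finset.sum_eq_single b]
        · rw [if_pos hx]
        · intro b' hb' hne
          rw [if_neg]
          intro hx'
          exact Finset.disjoint_left.mp (hPD b' (hA hb') b (hA hb) hne) (S.w_mem b')
            (hx' ▸ hx ▸ S.w_mem b)
        · intro h; exact absurd hb h
      rw [e2]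
      have h3 := gg_pos hS (hq b (hA hb))
      have h4 := S.et_pos (S.cls b)
      linarith
    · have e2 : ∑ b ∈ Ac, (if x = S.w b then -(S.gg A b V + (S.et (S.cls b) - a)) else 0) = 0 := by
        refine Finset.sum_eq_zero fun b hb => ?_
        rw [if_neg]
        exact fun hx => h2 ⟨b, hb, hx⟩
      rw [e2]
      linarith

end SP

end Pool.Agent.Lib.MP_562b47_mp.LH
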