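import Pool.Agent.Lib.MP_562b47_mp.LH.SplitA
import Pool.Agent.Lib.MP_562b47_mp.WO.Meas

/-!
MP_562b47, Lemma H', global part: the functions `TT`, `TI`: closed form, bounds, measurability.
-/

open MeasureTheory Matrix Finset

set_option linter.unusedSectionVars false

namespace Pool.Agent.Lib.MP_562b47_mp.LH

open Pool.Agent.Lib.MP_562b47_mp.AL Pool.Agent.Lib.MP_562b47_mp.WO Pool.Agent.Lib.MP_562b47_mp.LW
  Pool.Agent.Lib.MP_562b47_mp

namespace SP

variable {ι 𝔅 κ' : Type*} [Fintype ι] [DecidableEq ι] [Fintype 𝔅] [DecidableEq 𝔅] [Fintype κ']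
  {S : Sys ι 𝔅} {A : Matrix ι ι ℝ} {m : ℕ} {a : ℝ} {s : ι} {V : ι → ℝ} {b b' b0 : 𝔅}

/-! ### closed form -/

/-- the coefficient -/
noncomputable def KX (A : Matrix ι ι ℝ) (ξ : κ' → ι → ℝ) (u : ι → ℂ) (s : ι) (X : Finset ι) : ℝ :=
  ∑ x ∈ X, gam (ref u s) x * ff ξ x s * ‖aa A u s x‖ ^ 2

theorem KX_nonneg {u : ι → ℂ} (hu : LossOff u s) (ξ : κ' → ι → ℝ) (X : Finset ι) :
    0 ≤ KX A ξ u s X := by
  unfold KX
  exact Finset.sum_nonneg fun x _ => mul_nonneg (mul_nonneg (gam_ref_nonneg hu x) (ff_nonneg ξ x s))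
    (by positivity)

/-- `KX ≤ D Im z` if `f ≤ D` on `X` -/
theorem KX_le (hA : A.IsSymm) {u : ι → ℂ} (hu : LossOff u s) (ξ : κ' → ι → ℝ) {X : Finset ι}
    {D : ℝ} (hD0 : 0 ≤ D) (hD : ∀ x ∈ X, ff ξ x s ≤ D) :
    KX A ξ u s X ≤ D * (zz A u s).im := by
  rw [zz_im hA hu, Finset.mul_sum]
  have h1 : KX A ξ u s X = KX A ξ u s (X.erase s) := by
    unfold KX
    by_cases hs : s ∈ X
    · rw [← Finset.add_sum_erase X _ hs, ff_self]
      simp
    · rw [Finset.erase_eq_of_notMem hs]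
  rw [h1]
  unfold KX
  calc ∑ x ∈ X.erase s, gam (ref u s) x * ff ξ x s * ‖aa A u s x‖ ^ 2
      ≤ ∑ x ∈ X.erase s, D * (gam u x * ‖aa A u s x‖ ^ 2) := by
        refine Finset.sum_le_sum fun x hx => ?_
        have hxs : x ≠ s := (Finset.mem_erase.mp hx).1
        have e : gam (ref u s) x = gam u x := by
          simp [gam, ref, Function.update_of_ne hxs]
        rw [e]
        have h2 : 0 ≤ gam u x := by
          have := hu x hxs
          unfold gam
          linarith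
        calc gam u x * ff ξ x s * ‖aa A u s x‖ ^ 2
            = ff ξ x s * (gam u x * ‖aa A u s x‖ ^ 2) := by ring
          _ ≤ D * (gam u x * ‖aa A u s x‖ ^ 2) :=
              mul_le_mul_of_nonneg_right (hD x (Finset.mem_erase.mp hx).2) (by positivity)
    _ ≤ ∑ x ∈ univ.erase s, D * (gam u x * ‖aa A u s x‖ ^ 2) := by
        refine Finset.sum_le_sum_of_subset_of_nonneg
          (Finset.erase_subset_erase s (Finset.subset_univ X)) fun x hx _ => ?_
        have hxs : x ≠ s := (Finset.mem_erase.mp hx).1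
        have h2 : 0 ≤ gam u x := by
          have := hu x hxs
          unfold gam
          linarith
        positivity

theorem TT_eq (hA : A.IsSymm) (ξ : κ' → ι → ℝ) {X : Finset ι} {C Ac : Finset 𝔅}
    (hu : LossOff (uC S A a C Ac V) s) {us : ℂ} (hus : us.im < 0) :
    TT S A a ξ X s C Ac V us =
      KX A ξ (uC S A a C Ac V) s X / ‖us - zz A (uC S A a C Ac V) s‖ ^ 2 := by
  unfold TT KX
  rw [Finset.sum_div]
  refine Finset.sum_congr rfl fun x _ => ?_
  by_cases hxs : x = s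
  · rw [hxs, ff_self]
    simp
  · have e1 : gam (ref (uC S A a C Ac V) s) x = gam (uC S A a C Ac V) x := by
      simp [gam, ref, Function.update_of_ne hxs]
    have e2 : GM A (Function.update (uC S A a C Ac V) s us) s x =
        GM A (Function.update (uC S A a C Ac V) s us) x s := GM_symm hA _ _ _
    rw [e1, e2, G_xs hA hu (ne_zz hA hu hus), norm_div, norm_neg, div_pow]
    ring

/-- the kernel `∫ dt / |e - i (t + a) - z|²` -/
noncomputable def KI (a e l : ℝ) (z : ℂ) : ℝ :=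
  ∫ t in (0 : ℝ)..l, (‖((e : ℂ) - ((t + a : ℝ) : ℂ) * Complex.I) - z‖ ^ 2)⁻¹

theorem us_im (e t a : ℝ) : ((e : ℂ) - ((t + a : ℝ) : ℂ) * Complex.I).im = -(t + a) := by
  simp

theorem TI_eq (hA : A.IsSymm) (ha : 0 < a) (ξ : κ' → ι → ℝ) {X : Finset ι} {C Ac : Finset 𝔅}
    (hu : LossOff (uC S A a C Ac V) s) {e l : ℝ} (hl : 0 ≤ l) :
    TI S A a ξ X s C Ac V e l =
      KX A ξ (uC S A a C Ac V) s X * KI a e l (zz A (uC S A a C Ac V) s) := by
  unfold TI KI
  rw [← intervalIntegral.integral_const_mul]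
  refine intervalIntegral.integral_congr fun t ht => ?_
  rw [Set.uIcc_of_le hl] at ht
  have h1 : ((e : ℂ) - ((t + a : ℝ) : ℂ) * Complex.I).im < 0 := by
    rw [us_im]
    linarith [ht.1]
  rw [TT_eq hA ξ hu h1, div_eq_mul_inv]

theorem KI_nonneg {e l : ℝ} (hl : 0 ≤ l) (z : ℂ) : 0 ≤ KI a e l z := by
  unfold KI
  exact intervalIntegral.integral_nonneg hl fun t _ => by positivity

theorem norm_ge {e t : ℝ} (ht : 0 ≤ t) (ha : 0 < a) {z : ℂ} (hz : 0 ≤ z.im) :
    t + a + z.im ≤ ‖((e : ℂ) - ((t + a : ℝ) : ℂ) * Complex.I) - z‖ := by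
  have h1 := Complex.abs_im_le_norm (((e : ℂ) - ((t + a : ℝ) : ℂ) * Complex.I) - z)
  have h2 : (((e : ℂ) - ((t + a : ℝ) : ℂ) * Complex.I) - z).im = -(t + a + z.im) := by
    rw [Complex.sub_im, us_im]
    ring
  rw [h2, abs_neg, abs_of_pos (by linarith)] at h1
  exact h1

theorem KI_le {e l : ℝ} (hl : 0 ≤ l) (ha : 0 < a) {z : ℂ} (hz : 0 ≤ z.im) :
    KI a e l z ≤ (a + z.im)⁻¹ := by
  have hb : 0 < a + z.im := by linarith
  have hder : ∀ t ∈ Set.uIcc 0 l, HasDerivAt (fun t : ℝ => -(t + (a + z.im))⁻¹)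
      (((t + (a + z.im)) ^ 2)⁻¹) t := by
    intro t ht
    rw [Set.uIcc_of_le hl] at ht
    have h1 : t + (a + z.im) ≠ 0 := by
      have := ht.1
      positivity
    have h2 : HasDerivAt (fun t : ℝ => -(t + (a + z.im))⁻¹)
        (-(-1 / (t + (a + z.im)) ^ 2)) t := (((hasDerivAt_id t).add_const (a + z.im)).inv h1).neg
    rw [neg_div, neg_neg, one_div] at h2
    exact h2
  have hcont : ContinuousOn (fun t : ℝ => ((t + (a + z.im)) ^ 2)⁻¹) (Set.uIcc 0 l) := by
    refine ContinuousOn.inv₀ (by fun_prop) fun t ht => ?_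
    rw [Set.uIcc_of_le hl] at ht
    have := ht.1
    positivity
  have hint : IntervalIntegrable (fun t : ℝ => ((t + (a + z.im)) ^ 2)⁻¹) volume 0 l :=
    hcont.intervalIntegrable
  have hI := intervalIntegral.integral_eq_sub_of_hasDerivAt hder hint
  have hcont2 : ContinuousOn
      (fun t : ℝ => (‖((e : ℂ) - ((t + a : ℝ) : ℂ) * Complex.I) - z‖ ^ 2)⁻¹)
      (Set.uIcc 0 l) := by
    refine ContinuousOn.inv₀ (by fun_prop) fun t ht => ?_
    rw [Set.uIcc_of_le hl] at ht
    have h1 := norm_ge (e := e) ht.1 ha hz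
    have h2 : 0 < t + a + z.im := by
      have := ht.1
      positivity
    have h3 := lt_of_lt_of_le h2 h1
    positivity
  unfold KI
  calc ∫ t in (0 : ℝ)..l, (‖((e : ℂ) - ((t + a : ℝ) : ℂ) * Complex.I) - z‖ ^ 2)⁻¹
      ≤ ∫ t in (0 : ℝ)..l, ((t + (a + z.im)) ^ 2)⁻¹ := by
        refine intervalIntegral.integral_mono_on hl hcont2.intervalIntegrable hint fun t ht => ?_
        have h1 := norm_ge (e := e) ht.1 ha hz
        have h2 : 0 < t + a + z.im := by
          have := ht.1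
          positivity
        refine inv_anti₀ (by rw [← add_assoc]; positivity) ?_
        rw [← add_assoc]
        exact pow_le_pow_left₀ h2.le h1 2
    _ = -(l + (a + z.im))⁻¹ - -(0 + (a + z.im))⁻¹ := hI
    _ ≤ (a + z.im)⁻¹ := by
        rw [zero_add]
        have : 0 ≤ (l + (a + z.im))⁻¹ := by positivity
        linarith

section bounds

variable {ξ : κ' → ι → ℝ} {X : Finset ι} {C Ac : Finset 𝔅} {e l : ℝ}

theorem TI_nonneg (hA : A.IsSymm) (ha : 0 < a) (hu : LossOff (uC S A a C Ac V) s) (hl : 0 ≤ l) :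
    0 ≤ TI S A a ξ X s C Ac V e l := by
  rw [TI_eq hA ha ξ hu hl]
  exact mul_nonneg (KX_nonneg hu ξ X) (KI_nonneg hl _)

theorem TI_le (hA : A.IsSymm) (ha : 0 < a) (hu : LossOff (uC S A a C Ac V) s) (hl : 0 ≤ l)
    {D : ℝ} (hD0 : 0 ≤ D) (hD : ∀ x ∈ X, ff ξ x s ≤ D) :
    TI S A a ξ X s C Ac V e l ≤ D := by
  rw [TI_eq hA ha ξ hu hl]
  have hz := zz_im_nonneg hA hu
  have h1 := KX_le hA hu ξ hD0 hD
  have h2 := KI_le (e := e) hl ha hz
  have h3 : 0 < a + (zz A (uC S A a C Ac V) s).im := by linarith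
  calc KX A ξ (uC S A a C Ac V) s X * KI a e l (zz A (uC S A a C Ac V) s)
      ≤ (D * (zz A (uC S A a C Ac V) s).im) * (a + (zz A (uC S A a C Ac V) s).im)⁻¹ :=
        mul_le_mul h1 h2 (KI_nonneg hl _) (mul_nonneg hD0 hz)
    _ ≤ (D * (a + (zz A (uC S A a C Ac V) s).im)) * (a + (zz A (uC S A a C Ac V) s).im)⁻¹ := by
        refine mul_le_mul_of_nonneg_right (mul_le_mul_of_nonneg_left (by linarith) hD0)
          (by positivity)
    _ = D := by
        field_simp

/-- the bound with the sum of all distances -/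
theorem TI_le' (hA : A.IsSymm) (ha : 0 < a) (hu : LossOff (uC S A a C Ac V) s) (hl : 0 ≤ l) :
    TI S A a ξ X s C Ac V e l ≤ ∑ x, ff ξ x s :=
  TI_le hA ha hu hl (Finset.sum_nonneg fun x _ => ff_nonneg ξ x s) fun x _ =>
    Finset.single_le_sum (f := fun x => ff ξ x s) (fun x _ => ff_nonneg ξ x s) (Finset.mem_univ x)

theorem TI_split (hA : A.IsSymm) (ha : 0 < a) (hu : LossOff (uC S A a C Ac V) s) (hl : 0 ≤ l)
    (X : Finset ι) : TI S A a ξ univ s C Ac V e l =
      TI S A a ξ (univ \ X) s C Ac V e l + TI S A a ξ X s C Ac V e l := by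
  rw [TI_eq hA ha ξ hu hl, TI_eq hA ha ξ hu hl, TI_eq hA ha ξ hu hl, ← add_mul]
  congr 1
  unfold KX
  rw [Finset.sum_sdiff (Finset.subset_univ X)]

/-- near sources -/
theorem TI_near (hA : A.IsSymm) (ha : 0 < a) (hu : LossOff (uC S A a C Ac V) s) (hl : 0 ≤ l)
    {D : ℝ} (hD0 : 0 ≤ D) (hD : ∀ x ∈ X, ff ξ x s ≤ D) :
    TI S A a ξ univ s C Ac V e l ≤ TI S A a ξ (univ \ X) s C Ac V e l + D := by
  rw [TI_split hA ha hu hl X]
  exact add_le_add_right (TI_le hA ha hu hl hD0 hD) _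

end bounds

/-! ### measurability -/

theorem measurable_uC (C Ac : Finset 𝔅) (x : ι) :
    Measurable fun V : ι → ℝ => uC S A a C Ac V x := by
  unfold uC
  apply Measurable.add
  · exact (Complex.measurable_ofReal.comp (measurable_pi_apply x)).sub measurable_const
  · refine Finset.measurable_fun_sum _ fun b _ => ?_
    by_cases h : x = S.w b
    · simp only [if_pos h]
      exact (Complex.measurable_ofReal.comp
        ((S.measurable_ze A b).sub (measurable_pi_apply x))).sub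
        ((Complex.measurable_ofReal.comp ((S.measurable_gg A b).add_const _)).mul_const _)
    · simp only [if_neg h]; exact measurable_const

theorem measurable_TT (ξ : κ' → ι → ℝ) (X : Finset ι) (s : ι) (C Ac : Finset 𝔅) (e : ℝ) :
    Measurable fun p : (ι → ℝ) × ℝ =>
      TT S A a ξ X s C Ac p.1 ((e : ℂ) - ((p.2 + a : ℝ) : ℂ) * Complex.I) := by
  unfold TT
  refine Finset.measurable_fun_sum _ fun x _ => ?_
  have hu : ∀ y, Measurable fun p : (ι → ℝ) × ℝ => uC S A a C Ac p.1 y := fun y =>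
    (measurable_uC C Ac y).comp measurable_fst
  refine ((measurable_gam hu x).mul measurable_const).mul ?_
  refine (measurable_GM' A (fun y => ?_) s x).norm.pow_const 2
  by_cases hy : y = s
  · subst hy
    simp only [Function.update_self]
    exact measurable_const.sub
      ((Complex.measurable_ofReal.comp (measurable_snd.add_const a)).mul_const _)
  · simp only [Function.update_of_ne hy]
    exact hu y

theorem measurable_TI (ξ : κ' → ι → ℝ) (X : Finset ι) (s : ι) (C Ac : Finset 𝔅) (e : ℝ) {l : ℝ}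
    (hl : 0 ≤ l) : Measurable fun V : ι → ℝ => TI S A a ξ X s C Ac V e l := by
  unfold TI
  simp_rw [intervalIntegral.integral_of_le hl]
  exact (measurable_TT (S := S) (A := A) (a := a) ξ X s C Ac e).stronglyMeasurable.integral_prod_right.measurable

theorem measurable_wC (C Ac : Finset 𝔅) : Measurable fun V : ι → ℝ => wC S A C Ac V := by
  unfold wC
  exact (Finset.measurable_fun_prod _ fun b _ => S.measurable_hh A b).mul
    (Finset.measurable_fun_prod _ fun b _ => measurable_const.sub (S.measurable_hh A b))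

theorem measurableSet_evw (σ : Finset 𝔅) (s : ι) : MeasurableSet {V : ι → ℝ | evw S σ s V} := by
  have : {V : ι → ℝ | evw S σ s V} =
      ⋂ b : 𝔅, ⋂ x : ι, {V : ι → ℝ | b ∈ σ → x ∈ S.Q b → x ≠ S.w b → x ≠ s →
        V x ∈ Set.Icc (S.lo b x) (S.hi b x)} := by
    ext V
    simp only [Set.mem_iInter, Set.mem_ofPred_eq]
    constructor
    · intro h b x hb h1 h2 h3
      exact h b hb x h1 h2 h3
    · intro h b hb x h1 h2 h3
      exact h b x hb h1 h2 h3
  rw [this]
  refine MeasurableSet.iInter fun b => MeasurableSet.iInter fun x => ?_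
  by_cases h : b ∈ σ ∧ x ∈ S.Q b ∧ x ≠ S.w b ∧ x ≠ s
  · have : {V : ι → ℝ | b ∈ σ → x ∈ S.Q b → x ≠ S.w b → x ≠ s →
        V x ∈ Set.Icc (S.lo b x) (S.hi b x)} =
          (fun V : ι → ℝ => V x) ⁻¹' Set.Icc (S.lo b x) (S.hi b x) := by
      ext V; simp [h.1, h.2.1, h.2.2.1, h.2.2.2]
    rw [this]
    exact (measurable_pi_apply x) measurableSet_Icc
  · have : {V : ι → ℝ | b ∈ σ → x ∈ S.Q b → x ≠ S.w b → x ≠ s →
        V x ∈ Set.Icc (S.lo b x) (S.hi b x)} = Set.univ := by
      ext V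
      simp only [Set.mem_ofPred_eq, Set.mem_univ, iff_true]
      intro h1 h2 h3 h4
      exact absurd ⟨h1, h2, h3, h4⟩ h
    rw [this]
    exact MeasurableSet.univ

end SP

end Pool.Agent.Lib.MP_562b47_mp.LH
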