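import Pool.Agent.Lib.MP_562b47_mp.LH.SplitB

/-!
MP_562b47, Lemma H', global part: decomposition of the sets of complete blocks, the integrands of
`FT`, `F0`, the probability of the windows.
-/

open MeasureTheory Matrix Finset

set_option linter.unusedSectionVars false

namespace Pool.Agent.Lib.MP_562b47_mp.LH

open Pool.Agent.Lib.MP_562b47_mp.AL Pool.Agent.Lib.MP_562b47_mp.WO Pool.Agent.Lib.MP_562b47_mp.LW
  Pool.Agent.Lib.MP_562b47_mp

namespace SP

variable {ι 𝔅 κ' : Type*} [Fintype ι] [DecidableEq ι] [Fintype 𝔅] [DecidableEq 𝔅] [Fintype κ']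
  {S : Sys ι 𝔅} {A : Matrix ι ι ℝ} {m : ℕ} {a : ℝ} {s : ι} {V : ι → ℝ} {b b' b0 : 𝔅}
  {σ σC σA : Finset 𝔅}

/-! ### decomposition -/

theorem disj_Reg : Disjoint (S.Q b) (Reg S b0 σ) ↔
    Disjoint (S.Q b) (S.Q b0) ∧ ∀ b' ∈ σ, Disjoint (S.Q b) (S.Q b') := by
  unfold Reg
  rw [Finset.disjoint_union_right, Finset.disjoint_biUnion_right]

theorem dec_gen (hw : S.w b0 = s) {C D : Finset 𝔅}
    (h1 : ∀ b ∈ C, b ∉ meet S b0 C → S.comp b V ∧ m < S.cls b)
    (h2 : ∀ b ∈ C, b ∉ meet S b0 C → ∀ b' ∈ D, Disjoint (S.Q b) (S.Q b'))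
    (h3 : ∀ b, S.comp b V → m < S.cls b → s ∉ S.Q b → b ∈ C) :
    C = meet S b0 C ∪ CX S m (Reg S b0 D) V := by
  ext b
  rw [Finset.mem_union]
  constructor
  · intro hb
    by_cases hm : b ∈ meet S b0 C
    · exact Or.inl hm
    · right
      rw [mem_CX, disj_Reg]
      refine ⟨(h1 b hb hm).1, (h1 b hb hm).2, ?_, fun b' hb' => h2 b hb hm b' hb'⟩
      by_contra hd
      exact hm (mem_meet.mpr ⟨hb, hd⟩)
  · rintro (hb | hb)
    · exact (mem_meet.mp hb).1
    · obtain ⟨h4, h5, h6⟩ := mem_CX.mp hb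
      refine h3 b h4 h5 fun hs => ?_
      have h7 := (disj_Reg.mp h6).1
      refine Finset.disjoint_left.mp h7 hs ?_
      rw [← hw]
      exact S.w_mem b0

theorem meet_disj_CX {C D : Finset 𝔅} :
    Disjoint (meet S b0 C) (CX S m (Reg S b0 D) V) := by
  rw [Finset.disjoint_left]
  intro b hb hX
  exact (mem_meet.mp hb).2 (disj_Reg.mp (mem_CX.mp hX).2.2).1

theorem CX_disj_Reg : Disjoint σ (CX S m (Reg S b0 σ) V) := by
  rw [Finset.disjoint_left]
  intro b hb hX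
  have := (disj_Reg.mp (mem_CX.mp hX).2.2).2 b hb
  exact Finset.disjoint_left.mp this (S.w_mem b) (S.w_mem b)

theorem mem_union_comp (hb : b ∈ CN S m s V ∪ CW S m s V) : S.comp b V ∧ m < S.cls b := by
  rcases Finset.mem_union.mp hb with h | h
  · exact ⟨(mem_CN.mp h).1, (mem_CN.mp h).2.1⟩
  · exact ⟨(mem_CW.mp h).1, (mem_CW.mp h).2.1⟩

theorem PD_union : PD S (CN S m s V ∪ CW S m s V) := fun b hb b' hb' hne =>
  S.disj b b' V hne (mem_union_comp hb).1 (mem_union_comp hb').1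

theorem AS_CN_disj (hb : b ∈ AS S m s V) (hb' : b' ∈ CN S m s V) :
    Disjoint (S.Q b') (S.Q b) := by
  obtain ⟨h1, h2, h3, h4⟩ := mem_AS.mp hb
  obtain ⟨k1, k2, k3⟩ := mem_CN.mp hb'
  refine S.disj b' b (Function.update V s (S.lo b s)) ?_ (comp_update_off k3 _ k1)
    (comp_update h2 h4)
  rintro rfl
  exact k3 h2

theorem PD_insert (hb : b ∈ AS S m s V) : PD S (insert b (CN S m s V)) := by
  intro b1 h1 b2 h2 hne
  rcases Finset.mem_insert.mp h1 with h | h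
  · rcases Finset.mem_insert.mp h2 with h' | h'
    · exact absurd (h.trans h'.symm) hne
    · rw [h]
      exact (AS_CN_disj hb h').symm
  · rcases Finset.mem_insert.mp h2 with h' | h'
    · rw [h']
      exact AS_CN_disj hb h
    · exact S.disj b1 b2 V hne (mem_CN.mp h).1 (mem_CN.mp h').1

theorem PD_mono {C D : Finset 𝔅} (h : PD S D) (hCD : C ⊆ D) : PD S C :=
  fun b hb b' hb' hne => h b (hCD hb) b' (hCD hb') hne

theorem meet_sub {C : Finset 𝔅} : meet S b0 C ⊆ C := fun _ hb => (mem_meet.mp hb).1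

theorem meet_mono {C D : Finset 𝔅} (h : C ⊆ D) : meet S b0 C ⊆ meet S b0 D := fun _ hb =>
  mem_meet.mpr ⟨h (mem_meet.mp hb).1, (mem_meet.mp hb).2⟩

/-- (T1) the complete set -/
theorem dec1 (hw : S.w b0 = s) : CN S m s V ∪ CW S m s V =
    meet S b0 (CN S m s V ∪ CW S m s V) ∪
      CX S m (Reg S b0 (meet S b0 (CN S m s V ∪ CW S m s V))) V := by
  refine dec_gen hw (fun b hb _ => mem_union_comp hb) (fun b hb hm b' hb' => ?_)
    fun b h1 h2 h3 => Finset.mem_union_left _ (mem_CN.mpr ⟨h1, h2, h3⟩)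
  refine PD_union b hb b' (meet_sub hb') ?_
  rintro rfl
  exact hm hb'

/-- (T1) the set of the possible active blocks -/
theorem dec1' (hw : S.w b0 = s) : CN S m s V = meet S b0 (CN S m s V) ∪
      CX S m (Reg S b0 (meet S b0 (CN S m s V ∪ CW S m s V))) V := by
  refine dec_gen hw (fun b hb _ => ⟨(mem_CN.mp hb).1, (mem_CN.mp hb).2.1⟩)
    (fun b hb hm b' hb' => ?_) fun b h1 h2 h3 => mem_CN.mpr ⟨h1, h2, h3⟩
  refine PD_union b (Finset.mem_union_left _ hb) b' (meet_sub hb') ?_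
  rintro rfl
  exact hm (mem_meet.mpr ⟨hb, (mem_meet.mp hb').2⟩)

/-- (T2) -/
theorem dec2 (hw : S.w b0 = s) (hb : b ∈ AS S m s V) : CN S m s V =
    meet S b0 (CN S m s V) ∪ CX S m (Reg S b0 (insert b (meet S b0 (CN S m s V)))) V := by
  refine dec_gen hw (fun b hb _ => ⟨(mem_CN.mp hb).1, (mem_CN.mp hb).2.1⟩)
    (fun b1 hb1 hm b' hb' => ?_) fun b h1 h2 h3 => mem_CN.mpr ⟨h1, h2, h3⟩
  rcases Finset.mem_insert.mp hb' with h | h
  · rw [h]
    exact AS_CN_disj hb hb1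
  · refine PD_union (V := V) (m := m) (s := s) b1 (Finset.mem_union_left _ hb1) b'
      (Finset.mem_union_left _ (meet_sub h)) ?_
    rintro rfl
    exact hm h

theorem not_disj_of_mem (hw : S.w b0 = s) (hs : s ∈ S.Q b) : ¬ Disjoint (S.Q b) (S.Q b0) := by
  rw [Finset.not_disjoint_iff]
  exact ⟨s, hs, by rw [← hw]; exact S.w_mem b0⟩

/-- (T3) -/
theorem dec3 (hw : S.w b0 = s) (hb : b ∈ AS S m s V) : insert b (CN S m s V) =
    insert b (meet S b0 (CN S m s V)) ∪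
      CX S m (Reg S b0 (insert b (meet S b0 (CN S m s V)))) V := by
  conv_lhs => rw [dec2 hw hb]
  rw [Finset.insert_union]

/-! ### the conditions on `σ` -/

/-- the conditions under which the integrand of `FT` makes sense -/
structure Cnd (S : Sys ι 𝔅) (s : ι) (σ σC : Finset 𝔅) : Prop where
  pd : PD S σ
  sub : σC ⊆ σ
  cl : ∀ b ∈ σC, s ∈ S.Q b → s = S.w b ∨ s ∈ S.L b

theorem Q1_of_Cnd (h : Cnd S s σ σC) (hV : evw S σ s V) (hb : b ∈ σC) : Q1 S V b := by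
  by_cases hs : s ∈ S.Q b
  · rcases h.cl b hb hs with h1 | h1
    · exact Q1_of_comp (comp_of_evw_w hV (h.sub hb) h1)
    · exact Q1_of_L h1 (hV b (h.sub hb))
  · exact Q1_of_comp (comp_of_evw_off hV (h.sub hb) hs)

theorem Q1_of_CX {B : Finset ι} (hb : b ∈ CX S m B V) : Q1 S V b := Q1_of_comp (mem_CX.mp hb).1

theorem PD_CX {B : Finset ι} : PD S (CX S m B V) := fun b hb b' hb' hne =>
  S.disj b b' V hne (mem_CX.mp hb).1 (mem_CX.mp hb').1

theorem PD_CX_union (h : Cnd S s σ σC) : PD S (CX S m (Reg S b0 σ) V ∪ σC) := by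
  intro b1 h1 b2 h2 hne
  rcases Finset.mem_union.mp h1 with h3 | h3 <;> rcases Finset.mem_union.mp h2 with h4 | h4
  · exact PD_CX b1 h3 b2 h4 hne
  · exact (disj_Reg.mp (mem_CX.mp h3).2.2).2 b2 (h.sub h4)
  · exact ((disj_Reg.mp (mem_CX.mp h4).2.2).2 b1 (h.sub h3)).symm
  · exact h.pd b1 (h.sub h3) b2 (h.sub h4) hne

theorem loss_Cnd (hS : WO.Good S A) (ha : 0 < a) (h : Cnd S s σ σC) (hV : evw S σ s V)
    {Ac : Finset 𝔅} (hA : Ac ⊆ CX S m (Reg S b0 σ) V ∪ σC) :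
    Loss (uC S A a (CX S m (Reg S b0 σ) V ∪ σC) Ac V) := by
  refine uC_loss hS ha hA (PD_CX_union h) fun b hb => ?_
  rcases Finset.mem_union.mp hb with h1 | h1
  · exact Q1_of_CX h1
  · exact Q1_of_Cnd h hV h1

/-! ### the integrands -/

open Classical in
/-- the integrand of `FT` -/
noncomputable def Gt (S : Sys ι 𝔅) (A : Matrix ι ι ℝ) (m : ℕ) (a : ℝ) (ξ : κ' → ι → ℝ) (b0 : 𝔅)
    (σ σC σA : Finset 𝔅) (s : ι) (e l : ℝ) (V : ι → ℝ) : ℝ :=
  ∑ Ac ∈ (CX S m (Reg S b0 σ) V).powerset, wC S A (CX S m (Reg S b0 σ) V) Ac V *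
    (if evw S σ s V then
      TI S A a ξ (univ \ Reg S b0 σ) s (CX S m (Reg S b0 σ) V ∪ σC) (Ac ∪ σA) V e l else 0)

theorem FT_eq (ξ : κ' → ι → ℝ) (e l : ℝ) :
    FT S A m a ξ b0 σ σC σA s e l = ∫ V, Gt S A m a ξ b0 σ σC σA s e l V ∂(S.mu) := rfl

open Classical in
/-- the integrand of `F0` -/
noncomputable def F0i (S : Sys ι 𝔅) (A : Matrix ι ι ℝ) (m : ℕ) (a : ℝ) (ξ : κ' → ι → ℝ) (b0 : 𝔅)
    (s : ι) (e l : ℝ) (V : ι → ℝ) : ℝ :=
  ∑ Ac ∈ (CX S m (S.Q b0) V).powerset, wC S A (CX S m (S.Q b0) V) Ac V *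
    (if meet S b0 (CN S m s V ∪ CW S m s V) = ∅ then
      TI S A a ξ (univ \ S.Q b0) s (CX S m (S.Q b0) V) Ac V e l else 0)

theorem F0_eq (ξ : κ' → ι → ℝ) (e l : ℝ) :
    F0 S A m a ξ b0 s e l = ∫ V, F0i S A m a ξ b0 s e l V ∂(S.mu) := rfl

theorem wsum_le (hS : WO.Good S A) {B : Finset ι} {F : Finset 𝔅 → ℝ} {D : ℝ}
    (hF : ∀ Ac ⊆ CX S m B V, F Ac ≤ D) :
    ∑ Ac ∈ (CX S m B V).powerset, wC S A (CX S m B V) Ac V * F Ac ≤ D := by
  calc ∑ Ac ∈ (CX S m B V).powerset, wC S A (CX S m B V) Ac V * F Ac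
      ≤ ∑ Ac ∈ (CX S m B V).powerset, wC S A (CX S m B V) Ac V * D := by
        refine Finset.sum_le_sum fun Ac hAc => ?_
        rw [Finset.mem_powerset] at hAc
        exact mul_le_mul_of_nonneg_left (hF Ac hAc) (wC_nonneg hS hAc fun b hb => Q1_of_CX hb)
    _ = D := by rw [← Finset.sum_mul, wC_sum, one_mul]

theorem wsum_nonneg (hS : WO.Good S A) {B : Finset ι} {F : Finset 𝔅 → ℝ}
    (hF : ∀ Ac ⊆ CX S m B V, 0 ≤ F Ac) :
    0 ≤ ∑ Ac ∈ (CX S m B V).powerset, wC S A (CX S m B V) Ac V * F Ac := by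
  refine Finset.sum_nonneg fun Ac hAc => ?_
  rw [Finset.mem_powerset] at hAc
  exact mul_nonneg (wC_nonneg hS hAc fun b hb => Q1_of_CX hb) (hF Ac hAc)

section bounds

variable {ξ : κ' → ι → ℝ} {e l : ℝ}

theorem Gt_nonneg (hS : WO.Good S A) (ha : 0 < a) (h : Cnd S s σ σC) (hσA : σA ⊆ σC) (hl : 0 ≤ l)
    (V : ι → ℝ) : 0 ≤ Gt S A m a ξ b0 σ σC σA s e l V := by
  unfold Gt
  refine wsum_nonneg hS fun Ac hAc => ?_
  split_ifs with hV
  · exact TI_nonneg hS.symm ha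
      ((loss_Cnd hS ha h hV (Finset.union_subset_union hAc hσA)).off s) hl
  · exact le_refl _

theorem Gt_le (hS : WO.Good S A) (ha : 0 < a) (h : Cnd S s σ σC) (hσA : σA ⊆ σC) (hl : 0 ≤ l)
    (V : ι → ℝ) : Gt S A m a ξ b0 σ σC σA s e l V ≤ ∑ x, ff ξ x s := by
  unfold Gt
  refine wsum_le hS fun Ac hAc => ?_
  split_ifs with hV
  · exact TI_le' hS.symm ha
      ((loss_Cnd hS ha h hV (Finset.union_subset_union hAc hσA)).off s) hl
  · exact Finset.sum_nonneg fun x _ => ff_nonneg ξ x s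

/-- no block near `s`: the complete set is `CX` -/
theorem F0i_cnd (hw : S.w b0 = s) (hV : meet S b0 (CN S m s V ∪ CW S m s V) = ∅) :
    CN S m s V ∪ CW S m s V = CX S m (S.Q b0) V := by
  have h := dec1 (m := m) (V := V) hw
  rw [hV, Finset.empty_union, Reg_empty] at h
  exact h

theorem loss_CX (hS : WO.Good S A) (ha : 0 < a) {B : Finset ι} {Ac : Finset 𝔅}
    (hA : Ac ⊆ CX S m B V) : Loss (uC S A a (CX S m B V) Ac V) :=
  uC_loss hS ha hA PD_CX fun _ hb => Q1_of_CX hb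

theorem F0i_nonneg (hS : WO.Good S A) (ha : 0 < a) (hl : 0 ≤ l)
    (V : ι → ℝ) : 0 ≤ F0i S A m a ξ b0 s e l V := by
  unfold F0i
  refine wsum_nonneg hS fun Ac hAc => ?_
  split_ifs with hV
  · exact TI_nonneg hS.symm ha ((loss_CX hS ha hAc).off s) hl
  · exact le_refl _

theorem F0i_le (hS : WO.Good S A) (ha : 0 < a) (hl : 0 ≤ l)
    (V : ι → ℝ) : F0i S A m a ξ b0 s e l V ≤ ∑ x, ff ξ x s := by
  unfold F0i
  refine wsum_le hS fun Ac hAc => ?_
  split_ifs with hV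
  · exact TI_le' hS.symm ha ((loss_CX hS ha hAc).off s) hl
  · exact Finset.sum_nonneg fun x _ => ff_nonneg ξ x s

end bounds

/-! ### measurability -/

open Classical in
/-- `CX` as a function of the set of complete blocks -/
noncomputable def cxD (S : Sys ι 𝔅) (m : ℕ) (B : Finset ι) (D : Finset 𝔅) : Finset 𝔅 :=
  D.filter fun b => m < S.cls b ∧ Disjoint (S.Q b) B

theorem CX_eq (B : Finset ι) (V : ι → ℝ) : CX S m B V = cxD S m B (S.Comp V) := by
  ext b
  unfold cxD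
  rw [mem_CX, Finset.mem_filter, S.mem_Comp]

open Classical in
theorem measurable_Gt (ξ : κ' → ι → ℝ) (b0 : 𝔅) (σ σC σA : Finset 𝔅) (s : ι) (e : ℝ) {l : ℝ}
    (hl : 0 ≤ l) : Measurable fun V : ι → ℝ => Gt S A m a ξ b0 σ σC σA s e l V := by
  unfold Gt
  simp_rw [CX_eq]
  refine S.measurable_of_Comp (F := fun D V => ∑ Ac ∈ (cxD S m (Reg S b0 σ) D).powerset,
    wC S A (cxD S m (Reg S b0 σ) D) Ac V * (if evw S σ s V then
      TI S A a ξ (univ \ Reg S b0 σ) s (cxD S m (Reg S b0 σ) D ∪ σC) (Ac ∪ σA) V e l else 0))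
    fun D => Finset.measurable_fun_sum _ fun Ac _ => ?_
  exact (measurable_wC _ _).mul
    (Measurable.ite (measurableSet_evw σ s) (measurable_TI ξ _ s _ _ e hl) measurable_const)

/-- the event of `F0` as a function of the set of complete blocks -/
def pD (S : Sys ι 𝔅) (m : ℕ) (b0 : 𝔅) (s : ι) (D : Finset 𝔅) : Prop :=
  ∀ b ∈ D, m < S.cls b → (s ∉ S.Q b ∨ S.w b = s) → Disjoint (S.Q b) (S.Q b0)

theorem pD_iff (V : ι → ℝ) :
    meet S b0 (CN S m s V ∪ CW S m s V) = ∅ ↔ pD S m b0 s (S.Comp V) := by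
  rw [Finset.eq_empty_iff_forall_notMem]
  unfold pD
  constructor
  · intro h b hb hm hs
    by_contra hd
    refine h b (mem_meet.mpr ⟨?_, hd⟩)
    rcases hs with hs | hs
    · exact Finset.mem_union_left _ (mem_CN.mpr ⟨S.mem_Comp.mp hb, hm, hs⟩)
    · exact Finset.mem_union_right _ (mem_CW.mpr ⟨S.mem_Comp.mp hb, hm, hs⟩)
  · intro h b hb
    obtain ⟨h1, h2⟩ := mem_meet.mp hb
    refine h2 ?_
    rcases Finset.mem_union.mp h1 with h3 | h3
    · obtain ⟨k1, k2, k3⟩ := mem_CN.mp h3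
      exact h b (S.mem_Comp.mpr k1) k2 (Or.inl k3)
    · obtain ⟨k1, k2, k3⟩ := mem_CW.mp h3
      exact h b (S.mem_Comp.mpr k1) k2 (Or.inr k3)

open Classical in
theorem measurable_F0i (ξ : κ' → ι → ℝ) (b0 : 𝔅) (s : ι) (e : ℝ) {l : ℝ}
    (hl : 0 ≤ l) : Measurable fun V : ι → ℝ => F0i S A m a ξ b0 s e l V := by
  unfold F0i
  simp_rw [CX_eq, pD_iff]
  refine S.measurable_of_Comp (F := fun D V => ∑ Ac ∈ (cxD S m (S.Q b0) D).powerset,
    wC S A (cxD S m (S.Q b0) D) Ac V * (if pD S m b0 s D then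
      TI S A a ξ (univ \ S.Q b0) s (cxD S m (S.Q b0) D) Ac V e l else 0))
    fun D => Finset.measurable_fun_sum _ fun Ac _ => ?_
  refine (measurable_wC _ _).mul ?_
  by_cases h : pD S m b0 s D
  · simp only [if_pos h]
    exact measurable_TI ξ _ s _ _ e hl
  · simp only [if_neg h]
    exact measurable_const

theorem integrable_Gt (hS : WO.Good S A) (ha : 0 < a) (ξ : κ' → ι → ℝ) (b0 : 𝔅)
    (h : Cnd S s σ σC) (hσA : σA ⊆ σC) (e : ℝ) {l : ℝ} (hl : 0 ≤ l) :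
    Integrable (fun V => Gt S A m a ξ b0 σ σC σA s e l V) S.mu := by
  refine Integrable.of_bound (measurable_Gt ξ b0 σ σC σA s e hl).aestronglyMeasurable
    (∑ x, ff ξ x s) (Filter.Eventually.of_forall fun V => ?_)
  rw [Real.norm_of_nonneg (Gt_nonneg hS ha h hσA hl V)]
  exact Gt_le hS ha h hσA hl V

theorem integrable_F0i (hS : WO.Good S A) (ha : 0 < a) (ξ : κ' → ι → ℝ) (b0 : 𝔅) (s : ι)
    (e : ℝ) {l : ℝ} (hl : 0 ≤ l) :
    Integrable (fun V => F0i S A m a ξ b0 s e l V) S.mu := by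
  refine Integrable.of_bound (measurable_F0i ξ b0 s e hl).aestronglyMeasurable
    (∑ x, ff ξ x s) (Filter.Eventually.of_forall fun V => ?_)
  rw [Real.norm_of_nonneg (F0i_nonneg hS ha hl V)]
  exact F0i_le hS ha hl V

/-! ### the probability of the windows -/

theorem unif_Icc_le {c lo hi : ℝ} (hc : 0 < c) (h : lo ≤ hi) {t : Set ℝ}
    (ht : t ⊆ Set.Icc lo hi) : (unif c t).toReal ≤ (hi - lo) / (2 * c) := by
  have h1 : unif c t ≤ (ENNReal.ofReal (2 * c))⁻¹ * ENNReal.ofReal (hi - lo) := by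
    unfold unif
    rw [Measure.smul_apply, smul_eq_mul]
    refine mul_le_mul_right ?_ _
    calc (volume.restrict (Set.Icc (-c) c)) t ≤ volume t := Measure.restrict_apply_le _ _
      _ ≤ volume (Set.Icc lo hi) := measure_mono ht
      _ = ENNReal.ofReal (hi - lo) := Real.volume_Icc
  have h2 : (ENNReal.ofReal (2 * c))⁻¹ * ENNReal.ofReal (hi - lo) =
      ENNReal.ofReal ((hi - lo) / (2 * c)) := by
    rw [ENNReal.ofReal_div_of_pos (by linarith), div_eq_mul_inv, mul_comm]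
  rw [h2] at h1
  have h3 := ENNReal.toReal_mono ENNReal.ofReal_ne_top h1
  rwa [ENNReal.toReal_ofReal (div_nonneg (by linarith) (by linarith))] at h3

theorem PF_nonneg (σ : Finset 𝔅) (s : ι) : 0 ≤ PF S σ s := by
  unfold PF
  refine Finset.prod_nonneg fun b _ => Finset.prod_nonneg fun x _ => ?_
  have := S.lo_lt b x
  have := S.c_pos
  exact div_nonneg (by linarith) (by linarith)

theorem prob_evw (hσ : PD S σ) (s : ι) : (S.mu {V | evw S σ s V}).toReal ≤ PF S σ s := by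
  haveI : IsProbabilityMeasure (unif S.c) := unif_prob S.c_pos
  set t : ι → Set ℝ := fun x => {v | ∀ b ∈ σ, x ∈ (S.inn b).erase s →
    v ∈ Set.Icc (S.lo b x) (S.hi b x)} with ht
  have hsub : {V : ι → ℝ | evw S σ s V} ⊆ Set.pi Set.univ t := by
    intro V hV x _ b hb hx
    rw [Finset.mem_erase] at hx
    exact hV b hb x (S.inn_sub hx.2) (S.mem_inn.mp hx.2).1 hx.1
  have h1 : (S.mu {V | evw S σ s V}).toReal ≤ (S.mu (Set.pi Set.univ t)).toReal :=
    ENNReal.toReal_mono (measure_ne_top _ _) (measure_mono hsub)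
  refine h1.trans ?_
  unfold Sys.mu
  rw [Measure.pi_pi, ENNReal.toReal_prod]
  have hle1 : ∀ x, (unif S.c (t x)).toReal ≤ 1 := fun x => by
    have := ENNReal.toReal_mono ENNReal.one_ne_top (prob_le_one (μ := unif S.c) (s := t x))
    simpa using this
  set T : Finset ι := σ.biUnion fun b => (S.inn b).erase s with hT
  rw [← Finset.prod_sdiff (Finset.subset_univ T)]
  have h2 : ∏ x ∈ univ \ T, (unif S.c (t x)).toReal ≤ 1 :=
    Finset.prod_le_one (fun x _ => ENNReal.toReal_nonneg) fun x _ => hle1 x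
  have h3 : 0 ≤ ∏ x ∈ T, (unif S.c (t x)).toReal :=
    Finset.prod_nonneg fun x _ => ENNReal.toReal_nonneg
  calc (∏ x ∈ univ \ T, (unif S.c (t x)).toReal) * ∏ x ∈ T, (unif S.c (t x)).toReal
      ≤ 1 * ∏ x ∈ T, (unif S.c (t x)).toReal := mul_le_mul_of_nonneg_right h2 h3
    _ = ∏ b ∈ σ, ∏ x ∈ (S.inn b).erase s, (unif S.c (t x)).toReal := by
        rw [one_mul, hT, Finset.prod_biUnion]
        intro b hb b' hb' hne
        refine Finset.disjoint_left.mpr fun x hx hx' => ?_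
        exact Finset.disjoint_left.mp (hσ b hb b' hb' hne)
          (S.inn_sub (Finset.mem_erase.mp hx).2) (S.inn_sub (Finset.mem_erase.mp hx').2)
    _ ≤ PF S σ s := by
        unfold PF
        refine Finset.prod_le_prod (fun b _ => Finset.prod_nonneg fun x _ =>
          ENNReal.toReal_nonneg) fun b hb => ?_
        refine Finset.prod_le_prod (fun x _ => ENNReal.toReal_nonneg) fun x hx => ?_
        exact unif_Icc_le S.c_pos (S.lo_lt b x).le fun v hv => hv b hb hx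

end SP

end Pool.Agent.Lib.MP_562b47_mp.LH
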