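import Pool.Agent.Lib.MP_562b47_mp.LH.SplitC

/-!
MP_562b47, Lemma H', global part: the pointwise bound of the right side of the pieces theorem.
-/

open MeasureTheory Matrix Finset

set_option linter.unusedSectionVars false

namespace Pool.Agent.Lib.MP_562b47_mp.LH

open Pool.Agent.Lib.MP_562b47_mp.AL Pool.Agent.Lib.MP_562b47_mp.WO Pool.Agent.Lib.MP_562b47_mp.LW
  Pool.Agent.Lib.MP_562b47_mp

namespace SP

variable {ι 𝔅 κ' : Type*} [Fintype ι] [DecidableEq ι] [Fintype 𝔅] [DecidableEq 𝔅] [Fintype κ']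
  {S : Sys ι 𝔅} {A : Matrix ι ι ℝ} {m : ℕ} {a : ℝ} {s : ι} {V : ι → ℝ} {b b' b0 : 𝔅}
  {σ σC σA : Finset 𝔅}

open Classical in
/-- far part and near part -/
noncomputable def Ht (S : Sys ι 𝔅) (A : Matrix ι ι ℝ) (m : ℕ) (a : ℝ) (ξ : κ' → ι → ℝ) (b0 : 𝔅)
    (σ σC σA : Finset 𝔅) (s : ι) (D : ℝ) (e l : ℝ) (V : ι → ℝ) : ℝ :=
  Gt S A m a ξ b0 σ σC σA s e l V + if evw S σ s V then D else 0

section

variable {ξ : κ' → ι → ℝ} {e l D : ℝ}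

theorem Ht_nonneg (hS : WO.Good S A) (ha : 0 < a) (h : Cnd S s σ σC) (hσA : σA ⊆ σC) (hl : 0 ≤ l)
    (hD : 0 ≤ D) (V : ι → ℝ) : 0 ≤ Ht S A m a ξ b0 σ σC σA s D e l V := by
  unfold Ht
  refine add_nonneg (Gt_nonneg hS ha h hσA hl V) ?_
  split_ifs
  · exact hD
  · exact le_refl _

/-- the sum over the active sets: `P` = near part, `CX` = far part -/
theorem sum_le_Ht (hS : WO.Good S A) (ha : 0 < a) (h : Cnd S s σ σC) (hl : 0 ≤ l) (hD : 0 ≤ D)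
    (hDn : ∀ x ∈ Reg S b0 σ, ff ξ x s ≤ D) (hV : evw S σ s V) {P : Finset 𝔅} (hP : P ⊆ σC)
    {C1 C2 : Finset 𝔅} (hC1 : C1 = P ∪ CX S m (Reg S b0 σ) V)
    (hC2 : C2 = CX S m (Reg S b0 σ) V ∪ σC) :
    ∑ Ac ∈ C1.powerset, wC S A C1 Ac V * TI S A a ξ univ s C2 Ac V e l ≤
      ∑ σA ∈ P.powerset, Ht S A m a ξ b0 σ σC σA s D e l V := by
  subst hC1
  subst hC2
  set N := CX S m (Reg S b0 σ) V with hN
  have hd : Disjoint P N := Finset.disjoint_of_subset_left (hP.trans h.sub) CX_disj_Reg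
  have hq : ∀ b ∈ P ∪ N, Q1 S V b := fun b hb => by
    rcases Finset.mem_union.mp hb with h1 | h1
    · exact Q1_of_Cnd h hV (hP h1)
    · exact Q1_of_CX h1
  have hL : ∀ Ac, Ac ⊆ P ∪ N → LossOff (uC S A a (N ∪ σC) Ac V) s := fun Ac hAc =>
    (loss_Cnd hS ha h hV (hAc.trans (by
      rw [Finset.union_comm]
      exact Finset.union_subset_union (Finset.Subset.refl _) hP))).off s
  refine (sum_wC_le hS hd hq (F := fun Ac => TI S A a ξ univ s (N ∪ σC) Ac V e l) fun Ac hAc =>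
    TI_nonneg hS.symm ha (hL Ac hAc) hl).trans ?_
  refine Finset.sum_le_sum fun PA hPA => ?_
  rw [Finset.mem_powerset] at hPA
  unfold Ht Gt
  rw [if_pos hV]
  simp only [if_pos hV]
  rw [← hN]
  have e1 : D = ∑ NA ∈ N.powerset, wC S A N NA V * D := by
    rw [← Finset.sum_mul, wC_sum, one_mul]
  rw [e1, ← Finset.sum_add_distrib]
  refine Finset.sum_le_sum fun NA hNA => ?_
  rw [Finset.mem_powerset] at hNA
  rw [← mul_add]
  refine mul_le_mul_of_nonneg_left ?_ (wC_nonneg hS hNA fun b hb => hq b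
    (Finset.mem_union_right _ hb))
  exact TI_near hS.symm ha (hL _ (Finset.union_subset (hNA.trans Finset.subset_union_right)
    (hPA.trans Finset.subset_union_left))) hl hD hDn

end

/-! ### the three cases -/

section cases

theorem cnd1 (hσ : PD S σ) (h1 : ∀ b ∈ σ, s ∈ S.Q b → s = S.w b) : Cnd S s σ σ :=
  ⟨hσ, Finset.Subset.refl _, fun b hb hs => Or.inl (h1 b hb hs)⟩

theorem cnd2 (hσ : PD S σ) (hb : b ∈ σ) (hs : s ∈ S.Q b) : Cnd S s σ (σ.erase b) := by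
  refine ⟨hσ, Finset.erase_subset _ _, fun b' hb' hs' => ?_⟩
  rw [Finset.mem_erase] at hb'
  exact absurd hs (Finset.disjoint_left.mp (hσ b' hb'.2 b hb hb'.1) hs')

theorem cnd3 (hσ : PD S σ) (hb : b ∈ σ) (hs : s ∈ S.L b) : Cnd S s σ σ := by
  refine ⟨hσ, Finset.Subset.refl _, fun b' hb' hs' => ?_⟩
  by_cases hne : b' = b
  · rw [hne]; exact Or.inr hs
  · exact absurd (S.L_sub b hs) (Finset.disjoint_left.mp (hσ b' hb' b hb hne) hs')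

theorem evw1 : evw S (meet S b0 (CN S m s V ∪ CW S m s V)) s V := by
  intro b hb x hx hxw _
  exact (mem_union_comp (meet_sub hb)).1 x hx hxw

theorem evw2 (hb : b ∈ AS S m s V) : evw S (insert b (meet S b0 (CN S m s V))) s V := by
  intro b1 hb1 x hx hxw hxs
  rcases Finset.mem_insert.mp hb1 with h | h
  · subst h
    exact (mem_AS.mp hb).2.2.2 x hx hxw hxs
  · exact (mem_CN.mp (meet_sub h)).1 x hx hxw

theorem sig1_cond {b : 𝔅} (hb : b ∈ meet S b0 (CN S m s V ∪ CW S m s V)) (hs : s ∈ S.Q b) :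
    s = S.w b := by
  rcases Finset.mem_union.mp (meet_sub hb) with h | h
  · exact absurd hs (mem_CN.mp h).2.2
  · exact (mem_CW.mp h).2.2.symm

theorem sig1_adm : meet S b0 (CN S m s V ∪ CW S m s V) ∈ Adm S m b0 := by
  unfold Adm
  rw [Finset.mem_filter]
  refine ⟨by simp, fun b hb => (mem_union_comp (meet_sub hb)).2, fun b hb => (mem_meet.mp hb).2,
    PD_mono PD_union meet_sub⟩

theorem sig2_adm (hw : S.w b0 = s) (hb : b ∈ AS S m s V) :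
    insert b (meet S b0 (CN S m s V)) ∈ Adm S m b0 := by
  unfold Adm
  rw [Finset.mem_filter]
  refine ⟨by simp, fun b1 hb1 => ?_, fun b1 hb1 => ?_, PD_mono (PD_insert hb)
    (Finset.insert_subset_insert b meet_sub)⟩
  · rcases Finset.mem_insert.mp hb1 with h | h
    · rw [h]; exact (mem_AS.mp hb).1
    · exact (mem_CN.mp (meet_sub h)).2.1
  · rcases Finset.mem_insert.mp hb1 with h | h
    · rw [h]; exact not_disj_of_mem hw (mem_AS.mp hb).2.1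
    · exact (mem_meet.mp h).2

theorem mem_Adm : σ ∈ Adm S m b0 ↔ (∀ b ∈ σ, m < S.cls b) ∧
    (∀ b ∈ σ, ¬ Disjoint (S.Q b) (S.Q b0)) ∧ PD S σ := by
  unfold Adm PD
  rw [Finset.mem_filter]
  simp

/-- an almost complete block is not a complete block away from `s` -/
theorem AS_not_meet (hb : b ∈ AS S m s V) : b ∉ meet S b0 (CN S m s V) := fun h =>
  (mem_CN.mp (meet_sub h)).2.2 (mem_AS.mp hb).2.1

theorem sig2_erase (hb : b ∈ AS S m s V) :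
    (insert b (meet S b0 (CN S m s V))).erase b = meet S b0 (CN S m s V) :=
  Finset.erase_insert (AS_not_meet hb)

end cases

/-! ### the terms -/

section terms

open Classical in
/-- (T1) -/
noncomputable def R1 (S : Sys ι 𝔅) (A : Matrix ι ι ℝ) (m : ℕ) (a : ℝ) (ξ : κ' → ι → ℝ) (b0 : 𝔅)
    (s : ι) (l0 : ℝ) (Gi Dn : Finset 𝔅 → ℝ) (σ : Finset 𝔅) (V : ι → ℝ) : ℝ :=
  if ∀ b ∈ σ, s ∈ S.Q b → s = S.w b then
    (1 + Real.log (2 / a) * Gi σ) * ∑ σA ∈ σ.powerset.filter (fun σA => ∀ b ∈ σA, s ≠ S.w b),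
      (Ht S A m a ξ b0 σ σ σA s (Dn σ) S.c l0 V + Ht S A m a ξ b0 σ σ σA s (Dn σ) (-S.c) l0 V)
  else 0

/-- (T2) -/
noncomputable def R2 (S : Sys ι 𝔅) (A : Matrix ι ι ℝ) (m : ℕ) (a : ℝ) (ξ : κ' → ι → ℝ) (b0 : 𝔅)
    (s : ι) (Dn : Finset 𝔅 → ℝ) (σ : Finset 𝔅) (b : 𝔅) (V : ι → ℝ) : ℝ :=
  ∑ σA ∈ (σ.erase b).powerset,
    (Ht S A m a ξ b0 σ (σ.erase b) σA s (Dn σ) (S.lo b s) (S.hi b s - S.lo b s) V +
      Ht S A m a ξ b0 σ (σ.erase b) σA s (Dn σ) (S.hi b s) (S.hi b s - S.lo b s) V)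

/-- (T3) -/
noncomputable def R3 (S : Sys ι 𝔅) (A : Matrix ι ι ℝ) (m : ℕ) (a : ℝ) (ξ : κ' → ι → ℝ) (b0 : 𝔅)
    (s : ι) (Dn : Finset 𝔅 → ℝ) (σ : Finset 𝔅) (b : 𝔅) (V : ι → ℝ) : ℝ :=
  ∑ σA ∈ σ.powerset,
    (Ht S A m a ξ b0 σ σ σA s (Dn σ) (S.lo b s) (S.hi b s - S.lo b s) V +
      Ht S A m a ξ b0 σ σ σA s (Dn σ) (S.hi b s) (S.hi b s - S.lo b s) V)

open Classical in
/-- all terms of `σ` -/
noncomputable def RA (S : Sys ι 𝔅) (A : Matrix ι ι ℝ) (m : ℕ) (a : ℝ) (ξ : κ' → ι → ℝ) (b0 : 𝔅)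
    (s : ι) (l0 : ℝ) (Gi Dn : Finset 𝔅 → ℝ) (σ : Finset 𝔅) (V : ι → ℝ) : ℝ :=
  R1 S A m a ξ b0 s l0 Gi Dn σ V +
    (∑ b ∈ σ.filter (fun b => s ∈ S.Q b ∧ s ≠ S.w b), R2 S A m a ξ b0 s Dn σ b V) +
    ∑ b ∈ σ.filter (fun b => s ∈ S.L b), R3 S A m a ξ b0 s Dn σ b V

variable {ξ : κ' → ι → ℝ} {l0 : ℝ} {Gi Dn : Finset 𝔅 → ℝ}

theorem R1_nonneg (hS : WO.Good S A) (ha : 0 < a) (ha1 : a ≤ 1 / 2) (hl0 : 0 ≤ l0)
    (hσ : PD S σ) (hDn0 : 0 ≤ Dn σ) (hGi : 1 ≤ Gi σ) (V : ι → ℝ) :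
    0 ≤ R1 S A m a ξ b0 s l0 Gi Dn σ V := by
  have hlog : 0 ≤ Real.log (2 / a) := Real.log_nonneg (by
    rw [le_div_iff₀ ha]
    linarith)
  unfold R1
  split_ifs with h1
  · refine mul_nonneg (by positivity) (Finset.sum_nonneg fun σA hσA => ?_)
    have h2 := Finset.mem_powerset.mp (Finset.mem_filter.mp hσA).1
    exact add_nonneg (Ht_nonneg hS ha (cnd1 hσ h1) h2 hl0 hDn0 V)
      (Ht_nonneg hS ha (cnd1 hσ h1) h2 hl0 hDn0 V)
  · exact le_refl _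

theorem R2_nonneg (hS : WO.Good S A) (ha : 0 < a) (hσ : PD S σ) (hDn0 : 0 ≤ Dn σ) (hb : b ∈ σ)
    (hs : s ∈ S.Q b) (V : ι → ℝ) : 0 ≤ R2 S A m a ξ b0 s Dn σ b V := by
  have hl : 0 ≤ S.hi b s - S.lo b s := sub_nonneg.mpr (S.lo_lt b s).le
  unfold R2
  refine Finset.sum_nonneg fun σA hσA => ?_
  rw [Finset.mem_powerset] at hσA
  exact add_nonneg (Ht_nonneg hS ha (cnd2 hσ hb hs) hσA hl hDn0 V)
    (Ht_nonneg hS ha (cnd2 hσ hb hs) hσA hl hDn0 V)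

theorem R3_nonneg (hS : WO.Good S A) (ha : 0 < a) (hσ : PD S σ) (hDn0 : 0 ≤ Dn σ) (hb : b ∈ σ)
    (hs : s ∈ S.L b) (V : ι → ℝ) : 0 ≤ R3 S A m a ξ b0 s Dn σ b V := by
  have hl : 0 ≤ S.hi b s - S.lo b s := sub_nonneg.mpr (S.lo_lt b s).le
  unfold R3
  refine Finset.sum_nonneg fun σA hσA => ?_
  rw [Finset.mem_powerset] at hσA
  exact add_nonneg (Ht_nonneg hS ha (cnd3 hσ hb hs) hσA hl hDn0 V)
    (Ht_nonneg hS ha (cnd3 hσ hb hs) hσA hl hDn0 V)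

end terms

end SP

end Pool.Agent.Lib.MP_562b47_mp.LH
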