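import Pool.Agent.Lib.MP_562b47_mp.LH.SplitD

/-!
MP_562b47, Lemma H', global part: the pointwise bound of the right side of the pieces theorem.
-/

open MeasureTheory Matrix Finset

set_option linter.unusedSectionVars false

namespace Pool.Agent.Lib.MP_562b47_mp.LH

open Pool.Agent.Lib.MP_562b47_mp.AL Pool.Agent.Lib.MP_562b47_mp.WO Pool.Agent.Lib.MP_562b47_mp.LW
  Pool.Agent.Lib.MP_562b47_mp

namespace SP

variable {ι 𝔅 κ' : Type*} [Fintype ι] [DecidableEq ι] [Fintype 𝔅] [DecidableEq 𝔅] [Fintype κ']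
  {S : Sys ι 𝔅} {A : Matrix ι ι ℝ} {m : ℕ} {a : ℝ} {s : ι} {V : ι → ℝ} {b b' b0 : 𝔅}
  {σ σC σA : Finset 𝔅}

/-- (T1) -/
noncomputable def W1 (S : Sys ι 𝔅) (A : Matrix ι ι ℝ) (m : ℕ) (a : ℝ) (ξ : κ' → ι → ℝ)
    (s : ι) (l0 e : ℝ) (V : ι → ℝ) : ℝ :=
  ∑ Ac ∈ (CN S m s V).powerset, wC S A (CN S m s V) Ac V *
    TI S A a ξ univ s (CN S m s V ∪ CW S m s V) Ac V e l0

/-- (T2) -/
noncomputable def W2 (S : Sys ι 𝔅) (A : Matrix ι ι ℝ) (m : ℕ) (a : ℝ) (ξ : κ' → ι → ℝ)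
    (s : ι) (l e : ℝ) (V : ι → ℝ) : ℝ :=
  ∑ Ac ∈ (CN S m s V).powerset, wC S A (CN S m s V) Ac V *
    TI S A a ξ univ s (CN S m s V) Ac V e l

/-- (T3) -/
noncomputable def W3 (S : Sys ι 𝔅) (A : Matrix ι ι ℝ) (m : ℕ) (a : ℝ) (ξ : κ' → ι → ℝ)
    (s : ι) (l e : ℝ) (b : 𝔅) (V : ι → ℝ) : ℝ :=
  ∑ Ac ∈ (insert b (CN S m s V)).powerset, wC S A (insert b (CN S m s V)) Ac V *
    TI S A a ξ univ s (insert b (CN S m s V)) Ac V e l

theorem sum_aux {α β : Type*} (I : Finset α) (J : Finset β) (w x y : α → ℝ) (p q : β → α → ℝ)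
    (K : ℝ) : ∑ i ∈ I, w i * (K * (x i + y i) + ∑ b ∈ J, (p b i + q b i)) =
      K * (∑ i ∈ I, w i * x i + ∑ i ∈ I, w i * y i) +
        ∑ b ∈ J, (∑ i ∈ I, w i * p b i + ∑ i ∈ I, w i * q b i) := by
  have h1 : ∑ b ∈ J, (∑ i ∈ I, w i * p b i + ∑ i ∈ I, w i * q b i) =
      ∑ i ∈ I, ∑ b ∈ J, (w i * p b i + w i * q b i) := by
    rw [Finset.sum_comm]
    exact Finset.sum_congr rfl fun b _ => by rw [← Finset.sum_add_distrib]
  rw [h1, ← Finset.sum_add_distrib, Finset.mul_sum, ← Finset.sum_add_distrib]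
  refine Finset.sum_congr rfl fun i _ => ?_
  rw [mul_add, Finset.mul_sum]
  congr 1
  · ring
  · exact Finset.sum_congr rfl fun b _ => by ring

open Classical in
theorem RHS_eq (ξ : κ' → ι → ℝ) (l0 : ℝ) (V : ι → ℝ) : RHS S A m a ξ l0 s V =
    (1 + ∑ b ∈ CW S m s V, Real.log (2 / a) * (S.gg A b V)⁻¹) *
        (W1 S A m a ξ s l0 S.c V + W1 S A m a ξ s l0 (-S.c) V) +
      (∑ b ∈ AS S m s V, (W2 S A m a ξ s (S.hi b s - S.lo b s) (S.lo b s) V +
        W2 S A m a ξ s (S.hi b s - S.lo b s) (S.hi b s) V)) +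
      ∑ b ∈ (AS S m s V).filter fun b => s ∈ S.L b,
        (W3 S A m a ξ s (S.hi b s - S.lo b s) (S.lo b s) b V +
          W3 S A m a ξ s (S.hi b s - S.lo b s) (S.hi b s) b V) := by
  unfold RHS W1 W2 W3
  rw [sum_aux]
  congr 1
  refine Finset.sum_congr rfl fun b _ => ?_
  rw [← Finset.sum_add_distrib]
  exact Finset.sum_congr rfl fun Ac _ => by ring

section pw

variable {ξ : κ' → ι → ℝ} {l0 : ℝ} {Gi Dn : Finset 𝔅 → ℝ}

theorem W1_le (hS : WO.Good S A) (ha : 0 < a) (hw : S.w b0 = s) (hl0 : 0 ≤ l0)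
    (hD : 0 ≤ Dn (meet S b0 (CN S m s V ∪ CW S m s V)))
    (hDn : ∀ x ∈ Reg S b0 (meet S b0 (CN S m s V ∪ CW S m s V)),
      ff ξ x s ≤ Dn (meet S b0 (CN S m s V ∪ CW S m s V))) (e : ℝ) :
    W1 S A m a ξ s l0 e V ≤ ∑ σA ∈ (meet S b0 (CN S m s V)).powerset,
      Ht S A m a ξ b0 (meet S b0 (CN S m s V ∪ CW S m s V))
        (meet S b0 (CN S m s V ∪ CW S m s V)) σA s
        (Dn (meet S b0 (CN S m s V ∪ CW S m s V))) e l0 V := by
  unfold W1
  refine sum_le_Ht hS ha (cnd1 (PD_mono PD_union meet_sub) fun b hb hs => sig1_cond hb hs) hl0 hD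
    hDn evw1 (meet_mono Finset.subset_union_left) (dec1' hw) ?_
  rw [Finset.union_comm (CX S m _ V)]
  exact dec1 hw

theorem CW_sub_meet (hw : S.w b0 = s) :
    CW S m s V ⊆ meet S b0 (CN S m s V ∪ CW S m s V) := fun b hb =>
  mem_meet.mpr ⟨Finset.mem_union_right _ hb,
    not_disj_of_mem hw (by rw [← (mem_CW.mp hb).2.2]; exact S.w_mem b)⟩

theorem CW_card : (CW S m s V).card ≤ 1 := by
  rw [Finset.card_le_one]
  intro b1 h1 b2 h2
  by_contra hne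
  have h3 := S.disj b1 b2 V hne (mem_CW.mp h1).1 (mem_CW.mp h2).1
  refine Finset.disjoint_left.mp h3 (S.w_mem b1) ?_
  rw [(mem_CW.mp h1).2.2, ← (mem_CW.mp h2).2.2]
  exact S.w_mem b2

theorem log_nonneg' (ha : 0 < a) (ha1 : a ≤ 1 / 2) : 0 ≤ Real.log (2 / a) :=
  Real.log_nonneg (by
    rw [le_div_iff₀ ha]
    linarith)

/-- the factor of the pieces theorem -/
theorem factor_le (hw : S.w b0 = s) (ha : 0 < a) (ha1 : a ≤ 1 / 2)
    (hGi : 0 ≤ Gi (meet S b0 (CN S m s V ∪ CW S m s V)))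
    (hGi' : ∀ b ∈ meet S b0 (CN S m s V ∪ CW S m s V), S.comp b V →
      (S.gg A b V)⁻¹ ≤ Gi (meet S b0 (CN S m s V ∪ CW S m s V))) :
    1 + ∑ b ∈ CW S m s V, Real.log (2 / a) * (S.gg A b V)⁻¹ ≤
      1 + Real.log (2 / a) * Gi (meet S b0 (CN S m s V ∪ CW S m s V)) := by
  have hlog := log_nonneg' ha ha1
  have h1 : ∑ b ∈ CW S m s V, Real.log (2 / a) * (S.gg A b V)⁻¹ ≤
      ∑ b ∈ CW S m s V, Real.log (2 / a) * Gi (meet S b0 (CN S m s V ∪ CW S m s V)) :=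
    Finset.sum_le_sum fun b hb => mul_le_mul_of_nonneg_left
      (hGi' b (CW_sub_meet hw hb) (mem_CW.mp hb).1) hlog
  rw [Finset.sum_const, nsmul_eq_mul] at h1
  have h2 : ((CW S m s V).card : ℝ) ≤ 1 := by exact_mod_cast CW_card
  have h3 : 0 ≤ Real.log (2 / a) * Gi (meet S b0 (CN S m s V ∪ CW S m s V)) :=
    mul_nonneg hlog hGi
  have h4 := mul_le_mul_of_nonneg_right h2 h3
  rw [one_mul] at h4
  linarith

theorem factor_nonneg (hS : WO.Good S A) (ha : 0 < a) (ha1 : a ≤ 1 / 2) :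
    0 ≤ 1 + ∑ b ∈ CW S m s V, Real.log (2 / a) * (S.gg A b V)⁻¹ := by
  have hlog := log_nonneg' ha ha1
  refine add_nonneg zero_le_one (Finset.sum_nonneg fun b hb => mul_nonneg hlog ?_)
  exact inv_nonneg.mpr (gg_pos hS (Q1_of_comp (mem_CW.mp hb).1)).le

theorem Gt_empty (hV : meet S b0 (CN S m s V ∪ CW S m s V) = ∅) (e l : ℝ) :
    Gt S A m a ξ b0 ∅ ∅ ∅ s e l V = F0i S A m a ξ b0 s e l V := by
  unfold Gt F0i
  have h : evw S (∅ : Finset 𝔅) s V := fun b hb => absurd hb (Finset.notMem_empty b)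
  simp only [if_pos hV, if_pos h, Reg_empty, Finset.union_empty]

theorem Ht_empty (hV : meet S b0 (CN S m s V ∪ CW S m s V) = ∅) (e l D : ℝ) :
    Ht S A m a ξ b0 ∅ ∅ ∅ s D e l V = F0i S A m a ξ b0 s e l V + D := by
  unfold Ht
  have h : evw S (∅ : Finset 𝔅) s V := fun b hb => absurd hb (Finset.notMem_empty b)
  rw [Gt_empty hV, if_pos h]

open Classical in
/-- (T1) -/
theorem case1 (hS : WO.Good S A) (ha : 0 < a) (ha1 : a ≤ 1 / 2) (hw : S.w b0 = s) (hl0 : 0 ≤ l0)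
    (hGi : ∀ σ ∈ Adm S m b0, 1 ≤ Gi σ ∧ ∀ b ∈ σ, ∀ V, S.comp b V → (S.gg A b V)⁻¹ ≤ Gi σ)
    (hDn : ∀ σ ∈ Adm S m b0, ∀ x ∈ Reg S b0 σ, ff ξ x s ≤ Dn σ) (hDn0 : ∀ σ, 0 ≤ Dn σ) :
    (1 + ∑ b ∈ CW S m s V, Real.log (2 / a) * (S.gg A b V)⁻¹) *
        (W1 S A m a ξ s l0 S.c V + W1 S A m a ξ s l0 (-S.c) V) ≤
      F0i S A m a ξ b0 s S.c l0 V + F0i S A m a ξ b0 s (-S.c) l0 V + 2 * Dn ∅ +
        ∑ σ ∈ (Adm S m b0).filter (·.Nonempty), R1 S A m a ξ b0 s l0 Gi Dn σ V := by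
  set σ := meet S b0 (CN S m s V ∪ CW S m s V) with hσ
  have hadm : σ ∈ Adm S m b0 := sig1_adm
  have hR : ∀ τ ∈ (Adm S m b0).filter (·.Nonempty), 0 ≤ R1 S A m a ξ b0 s l0 Gi Dn τ V :=
    fun τ hτ => R1_nonneg hS ha ha1 hl0 (mem_Adm.mp (Finset.mem_filter.mp hτ).1).2.2 (hDn0 τ)
      (hGi τ (Finset.mem_filter.mp hτ).1).1 V
  have hW : ∀ e, W1 S A m a ξ s l0 e V ≤ ∑ σA ∈ (meet S b0 (CN S m s V)).powerset,
      Ht S A m a ξ b0 σ σ σA s (Dn σ) e l0 V := fun e =>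
    W1_le hS ha hw hl0 (hDn0 _) (hDn σ hadm) e
  rcases σ.eq_empty_or_nonempty with hE | hE
  · have hCW : CW S m s V = ∅ := by
      have := CW_sub_meet (m := m) (V := V) hw
      rw [← hσ, hE] at this
      exact Finset.subset_empty.mp this
    have hM : meet S b0 (CN S m s V) = ∅ := by
      have := meet_mono (S := S) (b0 := b0) (Finset.subset_union_left (s₁ := CN S m s V)
        (s₂ := CW S m s V))
      rw [← hσ, hE] at this
      exact Finset.subset_empty.mp this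
    have hV : meet S b0 (CN S m s V ∪ CW S m s V) = ∅ := hE
    have h1 : ∀ e, W1 S A m a ξ s l0 e V ≤ F0i S A m a ξ b0 s e l0 V + Dn ∅ := by
      intro e
      have := hW e
      rw [hM, Finset.powerset_empty, Finset.sum_singleton, hE, Ht_empty hV] at this
      exact this
    rw [hCW, Finset.sum_empty, add_zero, one_mul]
    have h2 := h1 S.c
    have h3 := h1 (-S.c)
    have h4 := Finset.sum_nonneg hR
    linarith
  · have hPD : PD S σ := (mem_Adm.mp hadm).2.2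
    have hc : ∀ b ∈ σ, s ∈ S.Q b → s = S.w b := fun b hb hs => sig1_cond hb hs
    have hsub : (meet S b0 (CN S m s V)).powerset ⊆
        σ.powerset.filter (fun σA => ∀ b ∈ σA, s ≠ S.w b) := by
      intro σA hσA
      rw [Finset.mem_powerset] at hσA
      rw [Finset.mem_filter, Finset.mem_powerset]
      refine ⟨hσA.trans (meet_mono Finset.subset_union_left), fun b hb hs => ?_⟩
      exact (mem_CN.mp (meet_sub (hσA hb))).2.2 (hs ▸ S.w_mem b)
    have h1 : ∀ e, W1 S A m a ξ s l0 e V ≤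
        ∑ σA ∈ σ.powerset.filter (fun σA => ∀ b ∈ σA, s ≠ S.w b),
          Ht S A m a ξ b0 σ σ σA s (Dn σ) e l0 V := fun e =>
      (hW e).trans (Finset.sum_le_sum_of_subset_of_nonneg hsub fun σA hσA _ =>
        Ht_nonneg hS ha (cnd1 hPD hc) (Finset.mem_powerset.mp (Finset.mem_filter.mp hσA).1) hl0
          (hDn0 _) V)
    have h2 : W1 S A m a ξ s l0 S.c V + W1 S A m a ξ s l0 (-S.c) V ≤
        ∑ σA ∈ σ.powerset.filter (fun σA => ∀ b ∈ σA, s ≠ S.w b),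
          (Ht S A m a ξ b0 σ σ σA s (Dn σ) S.c l0 V +
            Ht S A m a ξ b0 σ σ σA s (Dn σ) (-S.c) l0 V) := by
      rw [Finset.sum_add_distrib]
      exact add_le_add (h1 S.c) (h1 (-S.c))
    have h3 : 0 ≤ ∑ σA ∈ σ.powerset.filter (fun σA => ∀ b ∈ σA, s ≠ S.w b),
          (Ht S A m a ξ b0 σ σ σA s (Dn σ) S.c l0 V +
            Ht S A m a ξ b0 σ σ σA s (Dn σ) (-S.c) l0 V) :=
      Finset.sum_nonneg fun σA hσA => by
        have h4 := Finset.mem_powerset.mp (Finset.mem_filter.mp hσA).1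
        exact add_nonneg (Ht_nonneg hS ha (cnd1 hPD hc) h4 hl0 (hDn0 _) V)
          (Ht_nonneg hS ha (cnd1 hPD hc) h4 hl0 (hDn0 _) V)
    have h5 : (1 + ∑ b ∈ CW S m s V, Real.log (2 / a) * (S.gg A b V)⁻¹) *
        (W1 S A m a ξ s l0 S.c V + W1 S A m a ξ s l0 (-S.c) V) ≤
        R1 S A m a ξ b0 s l0 Gi Dn σ V := by
      unfold R1
      rw [if_pos hc]
      refine (mul_le_mul_of_nonneg_left h2 (factor_nonneg hS ha ha1)).trans ?_
      refine mul_le_mul_of_nonneg_right (factor_le hw ha ha1 ?_ ?_) h3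
      · have := (hGi σ hadm).1
        linarith
      · exact fun b hb hV => (hGi σ hadm).2 b hb V hV
    have h6 : R1 S A m a ξ b0 s l0 Gi Dn σ V ≤
        ∑ σ ∈ (Adm S m b0).filter (·.Nonempty), R1 S A m a ξ b0 s l0 Gi Dn σ V :=
      Finset.single_le_sum (f := fun σ => R1 S A m a ξ b0 s l0 Gi Dn σ V) hR
        (Finset.mem_filter.mpr ⟨hadm, hE⟩)
    have h7 := F0i_nonneg (m := m) (b0 := b0) (s := s) (ξ := ξ) (e := S.c) hS ha hl0 V
    have h8 := F0i_nonneg (m := m) (b0 := b0) (s := s) (ξ := ξ) (e := -S.c) hS ha hl0 V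
    have h9 := hDn0 ∅
    linarith

/-- summation over pairs -/
theorem sum_pair_le {f : Finset 𝔅 → 𝔅 → ℝ} (I : Finset (Finset 𝔅)) (q : 𝔅 → Prop)
    [DecidablePred q] (J : Finset 𝔅) (g : 𝔅 → Finset 𝔅)
    (hg : ∀ b ∈ J, g b ∈ I ∧ b ∈ g b ∧ q b) (hf : ∀ σ ∈ I, ∀ b ∈ σ, q b → 0 ≤ f σ b) :
    ∑ b ∈ J, f (g b) b ≤ ∑ σ ∈ I, ∑ b ∈ σ.filter q, f σ b := by
  have hn : ∀ b, ∀ σ ∈ I.filter (fun σ => b ∈ σ ∧ q b), 0 ≤ f σ b := fun b σ hσ => by
    rw [Finset.mem_filter] at hσ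
    exact hf σ hσ.1 b hσ.2.1 hσ.2.2
  calc ∑ b ∈ J, f (g b) b ≤ ∑ b ∈ J, ∑ σ ∈ I.filter (fun σ => b ∈ σ ∧ q b), f σ b := by
        refine Finset.sum_le_sum fun b hb => ?_
        exact Finset.single_le_sum (f := fun σ => f σ b) (hn b)
          (Finset.mem_filter.mpr ⟨(hg b hb).1, (hg b hb).2⟩)
    _ ≤ ∑ b, ∑ σ ∈ I.filter (fun σ => b ∈ σ ∧ q b), f σ b :=
        Finset.sum_le_sum_of_subset_of_nonneg (Finset.subset_univ J) fun b _ _ =>
          Finset.sum_nonneg (hn b)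
    _ = ∑ σ ∈ I, ∑ b ∈ σ.filter q, f σ b := by
        symm
        refine Finset.sum_comm' fun σ b => ?_
        simp only [Finset.mem_filter, Finset.mem_univ]
        tauto

open Classical in
/-- (T2) -/
theorem case2 (hS : WO.Good S A) (ha : 0 < a) (hw : S.w b0 = s)
    (hDn : ∀ σ ∈ Adm S m b0, ∀ x ∈ Reg S b0 σ, ff ξ x s ≤ Dn σ) (hDn0 : ∀ σ, 0 ≤ Dn σ) :
    ∑ b ∈ AS S m s V, (W2 S A m a ξ s (S.hi b s - S.lo b s) (S.lo b s) V +
        W2 S A m a ξ s (S.hi b s - S.lo b s) (S.hi b s) V) ≤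
      ∑ σ ∈ (Adm S m b0).filter (·.Nonempty),
        ∑ b ∈ σ.filter (fun b => s ∈ S.Q b ∧ s ≠ S.w b), R2 S A m a ξ b0 s Dn σ b V := by
  have h1 : ∀ b ∈ AS S m s V, W2 S A m a ξ s (S.hi b s - S.lo b s) (S.lo b s) V +
        W2 S A m a ξ s (S.hi b s - S.lo b s) (S.hi b s) V ≤
      R2 S A m a ξ b0 s Dn (insert b (meet S b0 (CN S m s V))) b V := by
    intro b hb
    have hl : 0 ≤ S.hi b s - S.lo b s := sub_nonneg.mpr (S.lo_lt b s).le
    have hadm := sig2_adm (m := m) hw hb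
    have hPD : PD S (insert b (meet S b0 (CN S m s V))) := (mem_Adm.mp hadm).2.2
    have h2 : ∀ e, W2 S A m a ξ s (S.hi b s - S.lo b s) e V ≤
        ∑ σA ∈ (meet S b0 (CN S m s V)).powerset,
          Ht S A m a ξ b0 (insert b (meet S b0 (CN S m s V)))
            ((insert b (meet S b0 (CN S m s V))).erase b) σA s
            (Dn (insert b (meet S b0 (CN S m s V)))) e (S.hi b s - S.lo b s) V := by
      intro e
      unfold W2
      refine sum_le_Ht hS ha (cnd2 hPD (Finset.mem_insert_self _ _) (mem_AS.mp hb).2.1) hl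
        (hDn0 _) (hDn _ hadm) (evw2 hb) (by rw [sig2_erase hb]) (dec2 hw hb) ?_
      rw [sig2_erase hb, Finset.union_comm (CX S m _ V)]
      exact dec2 hw hb
    unfold R2
    rw [Finset.sum_add_distrib]
    have e1 : ((insert b (meet S b0 (CN S m s V))).erase b).powerset =
        (meet S b0 (CN S m s V)).powerset := by rw [sig2_erase hb]
    rw [e1]
    exact add_le_add (h2 _) (h2 _)
  refine (Finset.sum_le_sum h1).trans ?_
  refine sum_pair_le (f := fun σ b => R2 S A m a ξ b0 s Dn σ b V) _ _ _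
    (fun b => insert b (meet S b0 (CN S m s V))) (fun b hb => ?_) fun σ hσ b hb hq => ?_
  · exact ⟨Finset.mem_filter.mpr ⟨sig2_adm hw hb, Finset.insert_nonempty _ _⟩,
      Finset.mem_insert_self _ _, (mem_AS.mp hb).2.1, (mem_AS.mp hb).2.2.1⟩
  · exact R2_nonneg hS ha (mem_Adm.mp (Finset.mem_filter.mp hσ).1).2.2 (hDn0 σ) hb hq.1 V

open Classical in
/-- (T3) -/
theorem case3 (hS : WO.Good S A) (ha : 0 < a) (hw : S.w b0 = s)
    (hDn : ∀ σ ∈ Adm S m b0, ∀ x ∈ Reg S b0 σ, ff ξ x s ≤ Dn σ) (hDn0 : ∀ σ, 0 ≤ Dn σ) :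
    ∑ b ∈ (AS S m s V).filter (fun b => s ∈ S.L b),
        (W3 S A m a ξ s (S.hi b s - S.lo b s) (S.lo b s) b V +
          W3 S A m a ξ s (S.hi b s - S.lo b s) (S.hi b s) b V) ≤
      ∑ σ ∈ (Adm S m b0).filter (·.Nonempty),
        ∑ b ∈ σ.filter (fun b => s ∈ S.L b), R3 S A m a ξ b0 s Dn σ b V := by
  have h1 : ∀ b ∈ (AS S m s V).filter (fun b => s ∈ S.L b),
      W3 S A m a ξ s (S.hi b s - S.lo b s) (S.lo b s) b V +
        W3 S A m a ξ s (S.hi b s - S.lo b s) (S.hi b s) b V ≤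
      R3 S A m a ξ b0 s Dn (insert b (meet S b0 (CN S m s V))) b V := by
    intro b hb'
    obtain ⟨hb, hL⟩ := Finset.mem_filter.mp hb'
    have hl : 0 ≤ S.hi b s - S.lo b s := sub_nonneg.mpr (S.lo_lt b s).le
    have hadm := sig2_adm (m := m) hw hb
    have hPD : PD S (insert b (meet S b0 (CN S m s V))) := (mem_Adm.mp hadm).2.2
    have h2 : ∀ e, W3 S A m a ξ s (S.hi b s - S.lo b s) e b V ≤
        ∑ σA ∈ (insert b (meet S b0 (CN S m s V))).powerset,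
          Ht S A m a ξ b0 (insert b (meet S b0 (CN S m s V)))
            (insert b (meet S b0 (CN S m s V))) σA s
            (Dn (insert b (meet S b0 (CN S m s V)))) e (S.hi b s - S.lo b s) V := by
      intro e
      unfold W3
      refine sum_le_Ht hS ha (cnd3 hPD (Finset.mem_insert_self _ _) hL) hl
        (hDn0 _) (hDn _ hadm) (evw2 hb) (Finset.Subset.refl _) (dec3 hw hb) ?_
      rw [Finset.union_comm (CX S m _ V)]
      exact dec3 hw hb
    unfold R3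
    rw [Finset.sum_add_distrib]
    exact add_le_add (h2 _) (h2 _)
  refine (Finset.sum_le_sum h1).trans ?_
  refine sum_pair_le (f := fun σ b => R3 S A m a ξ b0 s Dn σ b V) _ _ _
    (fun b => insert b (meet S b0 (CN S m s V))) (fun b hb' => ?_) fun σ hσ b hb hq => ?_
  · obtain ⟨hb, hL⟩ := Finset.mem_filter.mp hb'
    exact ⟨Finset.mem_filter.mpr ⟨sig2_adm hw hb, Finset.insert_nonempty _ _⟩,
      Finset.mem_insert_self _ _, hL⟩
  · exact R3_nonneg hS ha (mem_Adm.mp (Finset.mem_filter.mp hσ).1).2.2 (hDn0 σ) hb hq V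

open Classical in
/-- the pointwise bound -/
theorem RHS_le (hS : WO.Good S A) (ha : 0 < a) (ha1 : a ≤ 1 / 2) (hw : S.w b0 = s) (hl0 : 0 ≤ l0)
    (hGi : ∀ σ ∈ Adm S m b0, 1 ≤ Gi σ ∧ ∀ b ∈ σ, ∀ V, S.comp b V → (S.gg A b V)⁻¹ ≤ Gi σ)
    (hDn : ∀ σ ∈ Adm S m b0, ∀ x ∈ Reg S b0 σ, ff ξ x s ≤ Dn σ) (hDn0 : ∀ σ, 0 ≤ Dn σ)
    (V : ι → ℝ) :
    RHS S A m a ξ l0 s V ≤
      F0i S A m a ξ b0 s S.c l0 V + F0i S A m a ξ b0 s (-S.c) l0 V + 2 * Dn ∅ +
        ∑ σ ∈ (Adm S m b0).filter (·.Nonempty), RA S A m a ξ b0 s l0 Gi Dn σ V := by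
  rw [RHS_eq]
  have h1 := case1 (V := V) hS ha ha1 hw hl0 hGi hDn hDn0
  have h2 := case2 (V := V) hS ha hw hDn hDn0
  have h3 := case3 (V := V) hS ha hw hDn hDn0
  have e : ∑ σ ∈ (Adm S m b0).filter (·.Nonempty), RA S A m a ξ b0 s l0 Gi Dn σ V =
      ∑ σ ∈ (Adm S m b0).filter (·.Nonempty), R1 S A m a ξ b0 s l0 Gi Dn σ V +
      ∑ σ ∈ (Adm S m b0).filter (·.Nonempty),
        ∑ b ∈ σ.filter (fun b => s ∈ S.Q b ∧ s ≠ S.w b), R2 S A m a ξ b0 s Dn σ b V +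
      ∑ σ ∈ (Adm S m b0).filter (·.Nonempty),
        ∑ b ∈ σ.filter (fun b => s ∈ S.L b), R3 S A m a ξ b0 s Dn σ b V := by
    unfold RA
    rw [Finset.sum_add_distrib, Finset.sum_add_distrib]
  rw [e]
  linarith

/-- the right side is nonnegative -/
theorem RHS_nonneg (hS : WO.Good S A) (ha : 0 < a) (ha1 : a ≤ 1 / 2) (hl0 : 0 ≤ l0)
    (V : ι → ℝ) : 0 ≤ RHS S A m a ξ l0 s V := by
  rw [RHS_eq]
  have q1 : ∀ b ∈ CN S m s V, Q1 S V b := fun b hb => Q1_of_comp (mem_CN.mp hb).1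
  have n1 : ∀ e, 0 ≤ W1 S A m a ξ s l0 e V := fun e => by
    unfold W1
    refine Finset.sum_nonneg fun Ac hAc => ?_
    rw [Finset.mem_powerset] at hAc
    refine mul_nonneg (wC_nonneg hS hAc q1) (TI_nonneg hS.symm ha ?_ hl0)
    exact (uC_loss hS ha (hAc.trans Finset.subset_union_left) PD_union
      fun b hb => Q1_of_comp (mem_union_comp hb).1).off s
  refine add_nonneg (add_nonneg (mul_nonneg (factor_nonneg hS ha ha1) (add_nonneg (n1 _) (n1 _)))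
    (Finset.sum_nonneg fun b hb => ?_)) (Finset.sum_nonneg fun b hb' => ?_)
  · have hl : 0 ≤ S.hi b s - S.lo b s := sub_nonneg.mpr (S.lo_lt b s).le
    have n2 : ∀ e, 0 ≤ W2 S A m a ξ s (S.hi b s - S.lo b s) e V := fun e => by
      unfold W2
      refine Finset.sum_nonneg fun Ac hAc => ?_
      rw [Finset.mem_powerset] at hAc
      refine mul_nonneg (wC_nonneg hS hAc q1) (TI_nonneg hS.symm ha ?_ hl)
      exact (uC_loss hS ha hAc (PD_mono PD_union Finset.subset_union_left) q1).off s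
    exact add_nonneg (n2 _) (n2 _)
  · obtain ⟨hb, hL⟩ := Finset.mem_filter.mp hb'
    have hl : 0 ≤ S.hi b s - S.lo b s := sub_nonneg.mpr (S.lo_lt b s).le
    have q3 : ∀ b' ∈ insert b (CN S m s V), Q1 S V b' := fun b' hb' => by
      rcases Finset.mem_insert.mp hb' with h | h
      · rw [h]; exact Q1_of_L hL (mem_AS.mp hb).2.2.2
      · exact q1 b' h
    have n3 : ∀ e, 0 ≤ W3 S A m a ξ s (S.hi b s - S.lo b s) e b V := fun e => by
      unfold W3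
      refine Finset.sum_nonneg fun Ac hAc => ?_
      rw [Finset.mem_powerset] at hAc
      refine mul_nonneg (wC_nonneg hS hAc q3) (TI_nonneg hS.symm ha ?_ hl)
      exact (uC_loss hS ha hAc (PD_insert hb) q3).off s
    exact add_nonneg (n3 _) (n3 _)

end pw

end SP

end Pool.Agent.Lib.MP_562b47_mp.LH
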